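import Pool.Agent.Lib.MP_b735d7_co.Defs

/-!
Combinatorial notions for the upper bound.
-/

namespace Pool.Agent.Lib.MP_b735d7_co

open Finset

section plain
variable {V : Type}

/-- `y 0, ..., y s` is a path with `s` edges -/
def PSeq (G : SimpleGraph V) (y : ℕ → V) (s : ℕ) : Prop :=
  (∀ i < s, G.Adj (y i) (y (i + 1))) ∧ ∀ i ≤ s, ∀ j ≤ s, y i = y j → i = j

/-- `z 0, ..., z r` is a non-backtracking walk with `r` edges -/
def NB (G : SimpleGraph V) (z : ℕ → V) (r : ℕ) : Prop :=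
  (∀ i < r, G.Adj (z i) (z (i + 1))) ∧ ∀ i, i + 2 ≤ r → z (i + 2) ≠ z i

/-- degree at least three -/
def Br (G : SimpleGraph V) (x : V) : Prop :=
  ∃ a b c, G.Adj x a ∧ G.Adj x b ∧ G.Adj x c ∧ a ≠ b ∧ a ≠ c ∧ b ≠ c

/-- no vertex of degree one -/
def Leafless (G : SimpleGraph V) : Prop := ∀ x y, G.Adj x y → ∃ z, z ≠ y ∧ G.Adj x z

/-- every vertex of `W` has two neighbours in `W` -/
def MD (G : SimpleGraph V) (W : Finset V) : Prop :=
  ∀ x ∈ W, ∃ a ∈ W, ∃ b ∈ W, a ≠ b ∧ G.Adj x a ∧ G.Adj x b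

/-- small sets of minimum degree two are two-regular -/
def H1 (G : SimpleGraph V) (R : ℕ) : Prop :=
  ∀ W : Finset V, W.card ≤ R → MD G W → ∀ x ∈ W, ∀ a ∈ W, ∀ b ∈ W, ∀ c ∈ W,
    G.Adj x a → G.Adj x b → G.Adj x c → a ≠ b → c = a ∨ c = b

open Classical in
/-- number of positions `i ≤ s` with the property `P (y i)` -/
noncomputable def cnt (P : V → Prop) (y : ℕ → V) (s : ℕ) : ℕ :=
  ((range (s + 1)).filter fun i => P (y i)).card

/-- paths with `T` edges have at most `k` vertices of degree at least three -/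
def H3 (G : SimpleGraph V) (T k : ℕ) : Prop := ∀ y, PSeq G y T → cnt (Br G) y T ≤ k

/-- paths with `T` edges have fewer than `k` disjoint pendant paths with `h` edges -/
def H4 (G : SimpleGraph V) (T k h : ℕ) : Prop :=
  ∀ y, PSeq G y T → ∀ J : Finset ℕ, J ⊆ range (T + 1) → ∀ z : ℕ → ℕ → V,
    (∀ j ∈ J, PSeq G (z j) h ∧ z j 0 = y j ∧ ∀ i, 1 ≤ i → i ≤ h → ∀ m ≤ T, z j i ≠ y m) →
    (∀ j ∈ J, ∀ j' ∈ J, j ≠ j' → ∀ i ≤ h, ∀ i' ≤ h, z j i ≠ z j' i') → J.card < k

/-- a path with `e` edges and one further edge at each end, back to the path -/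
def Bicyc (G : SimpleGraph V) (e : ℕ) : Prop :=
  ∃ z i j, PSeq G z e ∧ 2 ≤ i ∧ i ≤ e ∧ j + 2 ≤ e ∧ G.Adj (z 0) (z i) ∧ G.Adj (z e) (z j) ∧
    ¬ (i = e ∧ j = 0)

/-- edges inside a small set of minimum degree two -/
def Sh (G : SimpleGraph V) (T : ℕ) (x y : V) : Prop :=
  G.Adj x y ∧ ∃ W : Finset V, W.card ≤ T ∧ MD G W ∧ x ∈ W ∧ y ∈ W

/-- vertices on short cycles -/
def SS (G : SimpleGraph V) (T : ℕ) (x : V) : Prop := ∃ y, Sh G T x y

/-- the block of a level -/
def blk (l : V → ℤ) (x : V) : ℤ := (l x + 1) / 2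

end plain

variable {V : Type} [LinearOrder V]

/-- position `i` is a valley of the sequence -/
def ValAt (y : ℕ → V) (i : ℕ) : Prop := y i < y (i - 1) ∧ y i < y (i + 1)

/-- position `i` is a peak of the sequence -/
def PeakAt (y : ℕ → V) (i : ℕ) : Prop := y (i - 1) < y i ∧ y (i + 1) < y i

open Classical in
/-- number of interior valleys -/
noncomputable def valCount (y : ℕ → V) (s : ℕ) : ℕ := ((Ioo 0 s).filter fun i => ValAt y i).card

/-- paths with `T` edges have at least `v` interior valleys -/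
def H2 (G : SimpleGraph V) (T v : ℕ) : Prop := ∀ y, PSeq G y T → v ≤ valCount y T

/-- least vertex of its component -/
def Mn (G : SimpleGraph V) (x : V) : Prop := ∀ y, G.Reachable x y → x ≤ y

/-- kernel vertices -/
def KK (G : SimpleGraph V) (x : V) : Prop := Br G x ∨ Mn G x

/-- the edge from `x` to `y` ends a non-backtracking walk from a kernel vertex with at most one
interior valley -/
def Stub (G : SimpleGraph V) (x y : V) : Prop :=
  ∃ z r, NB G z (r + 1) ∧ KK G (z 0) ∧ z r = x ∧ z (r + 1) = y ∧ valCount z (r + 1) ≤ 1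

def Rigid (G : SimpleGraph V) (T : ℕ) (x y : V) : Prop := Sh G T x y ∨ Stub G x y ∨ Stub G y x

def Free (G : SimpleGraph V) (T : ℕ) (x y : V) : Prop := G.Adj x y ∧ ¬ Rigid G T x y

/-- all neighbours are larger -/
def Valley (G : SimpleGraph V) (x : V) : Prop := ∀ y, G.Adj x y → x < y

lemma Stub.adj {G : SimpleGraph V} {x y : V} (h : Stub G x y) : G.Adj x y := by
  obtain ⟨z, r, hz, -, rfl, rfl, -⟩ := h
  exact hz.1 r (by omega)

omit [LinearOrder V] in
lemma Sh.symm {G : SimpleGraph V} {T : ℕ} {x y : V} (h : Sh G T x y) : Sh G T y x := by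
  obtain ⟨a, W, b, c, d, e⟩ := h
  exact ⟨a.symm, W, b, c, e, d⟩

lemma Rigid.symm {G : SimpleGraph V} {T : ℕ} {x y : V} (h : Rigid G T x y) : Rigid G T y x := by
  rcases h with h | h | h
  · exact Or.inl h.symm
  · exact Or.inr (Or.inr h)
  · exact Or.inr (Or.inl h)

lemma Rigid.adj {G : SimpleGraph V} {T : ℕ} {x y : V} (h : Rigid G T x y) : G.Adj x y := by
  rcases h with h | h | h
  · exact h.1
  · exact h.adj
  · exact h.adj.symm

lemma Free.symm {G : SimpleGraph V} {T : ℕ} {x y : V} (h : Free G T x y) : Free G T y x :=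
  ⟨h.1.symm, fun k => h.2 k.symm⟩

/-- the rigid edges that are not short -/
def HP (G : SimpleGraph V) (T : ℕ) : SimpleGraph V where
  Adj x y := (Stub G x y ∨ Stub G y x) ∧ ¬ Sh G T x y
  symm := ⟨fun _ _ h => ⟨h.1.symm, fun k => h.2 k.symm⟩⟩
  loopless := ⟨fun _ h => by rcases h.1 with k | k <;> exact G.irrefl k.adj⟩

/-- least vertex of its short cycle -/
def Mu (G : SimpleGraph V) (T : ℕ) (x : V) : Prop :=
  ∀ y, Relation.ReflTransGen (Sh G T) x y → x ≤ y

/-- valley of its short cycle -/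
def ShV (G : SimpleGraph V) (T : ℕ) (x : V) : Prop := ∀ y, Sh G T x y → x < y

/-- rooted structure of the rigid part -/
structure Skel (G : SimpleGraph V) (T : ℕ) (Z : V → Prop) (par : V → V) (rk : V → ℕ)
    (ψ : V → ℤ) : Prop where
  p1 : ∀ x, ¬ Z x → (HP G T).Adj x (par x) ∧ rk (par x) < rk x
  p2 : ∀ x y, (HP G T).Adj x y → (¬ Z x ∧ par x = y) ∨ (¬ Z y ∧ par y = x)
  p3 : ∀ x, SS G T x → Z x
  p4 : ∀ x, Z x → SS G T x ∨ KK G x ∨ ∀ y, ¬ (HP G T).Adj x y
  p5 : ∀ x, ¬ Z x → (par x < x → ψ x = ψ (par x) + 1 - ψ (par x) % 2) ∧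
    (x < par x → ψ x = ψ (par x) + ψ (par x) % 2)
  p6 : ∀ x, SS G T x → (Mu G T x → ψ x = 0) ∧ (¬ Mu G T x → ShV G T x → ψ x = 2) ∧
    (¬ ShV G T x → ψ x = 1)
  p7 : ∀ x, Z x → ¬ SS G T x → ¬ KK G x → (Valley G x → ψ x = 0) ∧ (¬ Valley G x → ψ x = 1)

/-- extreme positions of degree two next to a rigid edge -/
def NearAt (G : SimpleGraph V) (T : ℕ) (y : ℕ → V) (i : ℕ) : Prop :=
  ¬ KK G (y i) ∧ ¬ SS G T (y i) ∧ (ValAt y i ∨ PeakAt y i) ∧
    (Rigid G T (y (i - 1)) (y i) ∨ Rigid G T (y i) (y (i + 1)))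

open Classical in
noncomputable def nearCount (G : SimpleGraph V) (T : ℕ) (y : ℕ → V) (s : ℕ) : ℕ :=
  ((Ioo 0 s).filter fun i => NearAt G T y i).card

open Classical in
/-- valleys followed by a free edge -/
noncomputable def freeCount (G : SimpleGraph V) (T : ℕ) (y : ℕ → V) (s : ℕ) : ℕ :=
  ((Ioo 0 s).filter fun i => ValAt y i ∧ Free G T (y i) (y (i + 1))).card

/-- the standing hypotheses on a graph without leaves -/
structure Std (G : SimpleGraph V) (τ : ℕ) : Prop where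
  tau : 3 ≤ τ
  leaf : Leafless G
  h1 : H1 G (10002 * (20000 * τ))
  h2 : H2 G (20000 * τ) (200 * τ)
  h3 : H3 G (20000 * τ) (τ + 3)

/-- admissible levels along edges -/
def Rule (G : SimpleGraph V) (l : V → ℤ) : Prop :=
  ∀ x y, x < y → G.Adj x y → l y = l x ∨ (l x % 2 = 0 ∧ (l y = l x + 1 ∨ l y = l x - 1))

/-- increasing edges between roots inside a block -/
def RR (G : SimpleGraph V) (l : V → ℤ) (root : V → Prop) (x y : V) : Prop :=
  x < y ∧ G.Adj x y ∧ root x ∧ root y ∧ blk l x = blk l y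

/-- block data: spines (roots with an index) and trees hanging from them -/
def BD (G : SimpleGraph V) (l : V → ℤ) : Prop :=
  ∃ (root : V → Prop) (par : V → V) (rk : V → ℕ) (idx : V → ℤ),
    (∀ x, ¬ root x → G.Adj x (par x) ∧ blk l (par x) = blk l x ∧ rk (par x) < rk x ∧
      (l x % 2 = 1 → par x < x ∧ l (par x) % 2 = 1) ∧ (l x % 2 = 0 → x < par x)) ∧
    (∀ x y, G.Adj x y → blk l x = blk l y →
      (root x ∧ root y) ∨ (¬ root x ∧ par x = y) ∨ (¬ root y ∧ par y = x)) ∧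
    (∀ m z1 z2 z, root m → root z → l z % 2 = 1 → blk l z = blk l m →
      Relation.ReflTransGen (RR G l root) m z1 → Relation.ReflTransGen (RR G l root) m z2 →
      idx z1 ≤ idx z → idx z ≤ idx z2 → m = z ∨ Below G m z)

/-- the same graph on the reversed order -/
def dualG (G : SimpleGraph V) : SimpleGraph Vᵒᵈ := G.comap OrderDual.ofDual

/-- the data from which four linear extensions are read -/
def Data4 (G : SimpleGraph V) : Prop :=
  ∃ l : V → ℤ, Rule G l ∧ BD G l ∧ BD (dualG G) (fun x => l (OrderDual.ofDual x) + 1)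

end Pool.Agent.Lib.MP_b735d7_co
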