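import Pool.Agent.Lib.MP_b735d7_co.PBase

/-!
Bicycles.
-/

namespace Pool.Agent.Lib.MP_b735d7_co

open Finset

/-- paths inside `W` through `u` -/
def BicIn {V : Type} (G : SimpleGraph V) (W : Finset V) (u : V) (z : ℕ → V) (e : ℕ) : Prop :=
  PSeq G z e ∧ (∀ i ≤ e, z i ∈ W) ∧ ∃ k ≤ e, z k = u

lemma Bic_lt {V : Type} {G : SimpleGraph V} {W : Finset V} {u : V} {z : ℕ → V} {e : ℕ}
    (h : BicIn G W u z e) : e < W.card := by
  have : (range (e + 1)).card ≤ W.card := by
    refine card_le_card_of_injOn z (fun i hi => ?_) fun i hi j hj hij => ?_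
    · exact h.2.1 i (by simpa [Nat.lt_succ_iff] using hi)
    · exact h.1.2 i (by simpa [Nat.lt_succ_iff] using hi) j (by simpa [Nat.lt_succ_iff] using hj) hij
  simpa using this

lemma Bic_first {V : Type} {G : SimpleGraph V} {W : Finset V} {u : V} {z : ℕ → V} {e : ℕ}
    (h : BicIn G W u z e) (hm : ∀ z', ¬ BicIn G W u z' (e + 1)) {a : V} (ha : a ∈ W)
    (hadj : G.Adj (z 0) a) : ∃ i ≤ e, z i = a := by
  by_contra hn
  push Not at hn
  obtain ⟨⟨h1, h2⟩, h3, k, hk, hu⟩ := h
  refine hm (fun n => if n = 0 then a else z (n - 1)) ⟨⟨fun i hi => ?_, fun i hi j hj hij => ?_⟩,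
    fun i hi => ?_, k + 1, by omega, by simpa using hu⟩
  · rcases i with _ | i
    · simpa using hadj.symm
    · simpa using h1 i (by omega)
  · rcases i with _ | i <;> rcases j with _ | j
    · rfl
    · exact absurd (by simpa using hij.symm) (hn j (by omega))
    · exact absurd (by simpa using hij) (hn i (by omega))
    · have := h2 i (by omega) j (by omega) (by simpa using hij)
      omega
  · rcases i with _ | i
    · simpa using ha
    · simpa using h3 i (by omega)

lemma Bic_last {V : Type} {G : SimpleGraph V} {W : Finset V} {u : V} {z : ℕ → V} {e : ℕ}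
    (h : BicIn G W u z e) (hm : ∀ z', ¬ BicIn G W u z' (e + 1)) {a : V} (ha : a ∈ W)
    (hadj : G.Adj (z e) a) : ∃ i ≤ e, z i = a := by
  by_contra hn
  push Not at hn
  obtain ⟨⟨h1, h2⟩, h3, k, hk, hu⟩ := h
  refine hm (fun n => if n = e + 1 then a else z n) ⟨⟨fun i hi => ?_, fun i hi j hj hij => ?_⟩,
    fun i hi => ?_, k, by omega, ?_⟩
  · by_cases hie : i = e
    · subst hie; simpa using hadj
    · simp only [if_neg (show i ≠ e + 1 by omega), if_neg (show i + 1 ≠ e + 1 by omega)]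
      exact h1 i (by omega)
  · by_cases hi' : i = e + 1 <;> by_cases hj' : j = e + 1
    · omega
    · simp only [if_pos hi', if_neg hj'] at hij
      exact absurd hij.symm (hn j (by omega))
    · simp only [if_neg hi', if_pos hj'] at hij
      exact absurd hij (hn i (by omega))
    · simp only [if_neg hi', if_neg hj'] at hij
      exact h2 i (by omega) j (by omega) hij
  · by_cases hi' : i = e + 1
    · simpa [hi'] using ha
    · simp only [if_neg hi']
      exact h3 i (by omega)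
  · simp only [if_neg (show k ≠ e + 1 by omega)]
    exact hu

lemma Bic_back {V : Type} {G : SimpleGraph V} {W : Finset V} {u : V} {z : ℕ → V} {e : ℕ}
    (hW : MD G W) (h : BicIn G W u z e) (hm : ∀ z', ¬ BicIn G W u z' (e + 1)) :
    ∃ j, j + 2 ≤ e ∧ G.Adj (z e) (z j) := by
  obtain ⟨a, ha, b, hb, hab, h1, h2⟩ := hW (z e) (h.2.1 e le_rfl)
  have key : ∀ a ∈ W, G.Adj (z e) a → a ≠ z (e - 1) → ∃ j, j + 2 ≤ e ∧ G.Adj (z e) (z j) := by
    intro a ha h1 hne
    obtain ⟨j, hj, rfl⟩ := Bic_last h hm ha h1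
    have j1 : j ≠ e := by rintro rfl; exact G.irrefl h1
    have j2 : j ≠ e - 1 := by rintro rfl; exact hne rfl
    exact ⟨j, by omega, h1⟩
  by_cases hc : a = z (e - 1)
  · exact key b hb h2 fun k => hab (hc.trans k.symm)
  · exact key a ha h1 hc

lemma Bic_front {V : Type} {G : SimpleGraph V} {W : Finset V} {u : V} {z : ℕ → V} {e : ℕ}
    (h : BicIn G W u z e) (hm : ∀ z', ¬ BicIn G W u z' (e + 1)) {a : V} (ha : a ∈ W)
    (h1 : G.Adj (z 0) a) (hne : a ≠ z 1) : ∃ i, 2 ≤ i ∧ i ≤ e ∧ z i = a := by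
  obtain ⟨i, hi, rfl⟩ := Bic_first h hm ha h1
  have j1 : i ≠ 0 := by rintro rfl; exact G.irrefl h1
  have j2 : i ≠ 1 := by rintro rfl; exact hne rfl
  exact ⟨i, by omega, hi, rfl⟩

lemma Bic_rot {V : Type} {G : SimpleGraph V} {W : Finset V} {u : V} {z : ℕ → V} {e : ℕ}
    (h : BicIn G W u z e) (hc : G.Adj (z e) (z 0)) : ∃ z', BicIn G W u z' e ∧ z' 0 = u := by
  obtain ⟨⟨h1, h2⟩, h3, k, hk, hu⟩ := h
  refine ⟨fun i => z (if k + i ≤ e then k + i else k + i - (e + 1)),
    ⟨⟨fun i hi => ?_, fun i hi j hj hij => ?_⟩, fun i hi => ?_, 0, by omega, by simpa [hk] using hu⟩,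
    by simpa [hk] using hu⟩
  · dsimp only
    split_ifs with a b b
    · exact h1 (k + i) (by omega)
    · have e1 : k + i = e := by omega
      have e2 : k + (i + 1) - (e + 1) = 0 := by omega
      rw [e1, e2]; exact hc
    · omega
    · have e2 : k + (i + 1) - (e + 1) = k + i - (e + 1) + 1 := by omega
      rw [e2]; exact h1 _ (by omega)
  · have := h2 _ (by split_ifs <;> omega) _ (by split_ifs <;> omega) hij
    split_ifs at this <;> omega
  · exact h3 _ (by split_ifs <;> omega)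

theorem h1_of_nobic {V : Type} {G : SimpleGraph V} {R : ℕ} (h : ∀ e < R, ¬ Bicyc G e) :
    H1 G R := by
  classical
  intro W hR hW u hu a ha b hb c hc h1 h2 h3 hab
  by_contra hn
  push Not at hn
  have h0 : ∃ z, BicIn G W u z 0 :=
    ⟨fun _ => u, ⟨fun i hi => by omega, fun i hi j hj _ => by omega⟩, fun _ _ => hu, 0, le_rfl, rfl⟩
  set e := Nat.findGreatest (fun e => ∃ z, BicIn G W u z e) W.card with he
  obtain ⟨z, hz⟩ : ∃ z, BicIn G W u z e :=
    Nat.findGreatest_spec (P := fun e => ∃ z, BicIn G W u z e) (Nat.zero_le _) h0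
  have hm : ∀ z', ¬ BicIn G W u z' (e + 1) := fun z' hz' =>
    Nat.findGreatest_is_greatest (P := fun e => ∃ z, BicIn G W u z e) (k := e + 1) (by omega)
      (Bic_lt hz').le ⟨z', hz'⟩
  have eR : e < R := (Bic_lt hz).trans_le hR
  apply h e eR
  obtain ⟨j, hj, hzj⟩ := Bic_back hW hz hm
  by_cases j0 : j = 0
  · subst j0
    obtain ⟨y, hy, hy0⟩ := Bic_rot hz hzj
    obtain ⟨j, hj, hzj⟩ := Bic_back hW hy hm
    obtain ⟨d, hd, hd1, hd2, hd3⟩ : ∃ d ∈ W, G.Adj u d ∧ d ≠ y 1 ∧ d ≠ y e := by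
      by_contra hk
      push Not at hk
      by_cases a1 : a = y 1
      · exact hn.2 ((hk c hc h3 fun k => hn.1 (k.trans a1.symm)).trans
          (hk b hb h2 fun k => hab (a1.trans k.symm)).symm)
      · by_cases b1 : b = y 1
        · exact hn.1 ((hk c hc h3 fun k => hn.2 (k.trans b1.symm)).trans (hk a ha h1 a1).symm)
        · exact hab ((hk a ha h1 a1).trans (hk b hb h2 b1).symm)
    obtain ⟨i, i1, i2, rfl⟩ := Bic_front hy hm hd (hy0 ▸ hd1) hd2
    exact ⟨y, i, j, hy.1, i1, i2, hj, hy0 ▸ hd1, hzj, fun k => hd3 (by rw [k.1])⟩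
  · obtain ⟨a', ha', b', hb', hab', k1, k2⟩ := hW (z 0) (hz.2.1 0 (Nat.zero_le _))
    obtain ⟨d, hd, hd1, hd2⟩ : ∃ d ∈ W, G.Adj (z 0) d ∧ d ≠ z 1 := by
      by_cases a1 : a' = z 1
      · exact ⟨b', hb', k2, fun k => hab' (a1.trans k.symm)⟩
      · exact ⟨a', ha', k1, a1⟩
    obtain ⟨i, i1, i2, rfl⟩ := Bic_front hz hm hd hd1 hd2
    exact ⟨z, i, j, hz.1, i1, i2, hj, hd1, hzj, fun k => j0 k.2⟩

/-- the edges of a bicycle -/
def BicE {V : Type} [DecidableEq V] (z : ℕ → V) (e i j : ℕ) : Finset (Sym2 V) :=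
  insert s(z 0, z i) (insert s(z e, z j) (pe z e))

/-- admissible data of a bicycle -/
def BicOk {V : Type} (z : ℕ → V) (e i j : ℕ) : Prop :=
  (∀ a ≤ e, ∀ b ≤ e, z a = z b → a = b) ∧ 2 ≤ i ∧ i ≤ e ∧ j + 2 ≤ e ∧ ¬ (i = e ∧ j = 0)

lemma Bic_card {V : Type} [DecidableEq V] {z : ℕ → V} {e i j : ℕ} (h : BicOk z e i j) :
    (BicE z e i j).card = e + 2 := by
  obtain ⟨h1, h2, h3, h4, h5⟩ := h
  have nm : ∀ a ≤ e, ∀ b ≤ e, s(z a, z b) ∈ pe z e → a + 1 = b ∨ b + 1 = a := by
    intro a ha b hb hm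
    obtain ⟨k, hk, hk'⟩ := mem_image.1 hm
    have hk1 : k < e := by simpa using hk
    rcases Sym2.eq_iff.1 hk' with ⟨x, y⟩ | ⟨x, y⟩
    · have := h1 k (by omega) a ha x
      have := h1 (k + 1) (by omega) b hb y
      omega
    · have := h1 k (by omega) b hb x
      have := h1 (k + 1) (by omega) a ha y
      omega
  rw [BicE, card_insert_of_notMem, card_insert_of_notMem, card_pe h1]
  · intro k
    have := nm e le_rfl j (by omega) k
    omega
  · intro k
    rcases mem_insert.1 k with k | k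
    · rcases Sym2.eq_iff.1 k with ⟨x, y⟩ | ⟨x, y⟩
      · have := h1 0 (by omega) e le_rfl x
        omega
      · have := h1 0 (by omega) j (by omega) x
        have := h1 i h3 e le_rfl y
        omega
    · have := nm 0 (by omega) i h3 k
      omega

lemma Bic_sub {n : ℕ} {z : ℕ → Fin n} {e i j : ℕ} (h : BicOk z e i j) : BicE z e i j ⊆ EE n := by
  obtain ⟨h1, h2, h3, h4, h5⟩ := h
  refine insert_subset (mem_EE.2 fun k => ?_) (insert_subset (mem_EE.2 fun k => ?_) (pe_sub_EE h1))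
  · have := h1 0 (by omega) i h3 k
    omega
  · have := h1 e le_rfl j (by omega) k
    omega

open Pool.Agent.Lib.MP_58a483_pr.H80 in
theorem pr_bic {n R : ℕ} {c : ℝ} (hn : 0 < n) (hc : 1 ≤ c) (hcn : c / n ≤ 1) :
    Pr n (c / n) (fun G => ∃ e < R, Bicyc G e) ≤ (R : ℝ) ^ 3 * c ^ (R + 1) / n := by
  have n0 : (0 : ℝ) < n := by exact_mod_cast hn
  have p0 : 0 ≤ c / n := by positivity
  have step : ∀ ω : Finset (Sym2 (Fin n)), ind (∃ e < R, Bicyc (gr ω) e) ≤
      ∑ e ∈ range R, ∑ i ∈ range R, ∑ j ∈ range R, ∑ f : Fin (e + 1) → Fin n,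
        ind (BicOk (ext f) e i j ∧ BicE (ext f) e i j ⊆ ω) := by
    intro ω
    refine le_trans (ind_mono (Q := ∃ e ∈ range R, ∃ i ∈ range R, ∃ j ∈ range R,
      ∃ f ∈ (univ : Finset (Fin (e + 1) → Fin n)),
        BicOk (ext f) e i j ∧ BicE (ext f) e i j ⊆ ω) ?_) ?_
    · rintro ⟨e, he, z, i, j, hz, h2, h3, h4, h5, h6, h7⟩
      have r : ∀ a ≤ e, ext (fun j : Fin (e + 1) => z j) a = z a := fun a ha => ext_res z ha
      refine ⟨e, mem_range.2 he, i, mem_range.2 (by omega), j, mem_range.2 (by omega),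
        fun j => z j, mem_univ _, ⟨fun a ha b hb hab => ?_, h2, h3, h4, h7⟩, ?_⟩
      · rw [r a ha, r b hb] at hab
        exact hz.2 a ha b hb hab
      · rw [BicE, r 0 (by omega), r i h3, r e le_rfl, r j (by omega), pe_congr r]
        exact insert_subset (gr_adj.1 h5).1 (insert_subset (gr_adj.1 h6).1 (pe_sub hz))
    · refine (ind_exists_le _ _).trans (sum_le_sum fun e _ => ?_)
      refine (ind_exists_le _ _).trans (sum_le_sum fun i _ => ?_)
      refine (ind_exists_le _ _).trans (sum_le_sum fun j _ => ?_)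
      exact ind_exists_le _ _
  have one : ∀ (e i j : ℕ) (f : Fin (e + 1) → Fin n),
      Ex (EE n) (c / n) (fun ω => ind (BicOk (ext f) e i j ∧ BicE (ext f) e i j ⊆ ω)) ≤
        (c / n) ^ (e + 2) := by
    intro e i j f
    by_cases hk : BicOk (ext f) e i j
    · rw [← Bic_card hk, ← Ex_sup (Bic_sub hk)]
      exact Ex_mono p0 hcn fun _ _ => ind_mono fun k => k.2
    · refine le_trans (Ex_mono p0 hcn (g := fun _ => 0) fun _ _ => ?_) ?_
      · exact (ind_neg fun k => hk k.1).le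
      · rw [Ex_const]; positivity
  unfold Pr
  refine (Ex_mono p0 hcn fun ω _ => step ω).trans ?_
  simp only [Ex_sum]
  calc _ ≤ ∑ e ∈ range R, ∑ i ∈ range R, ∑ j ∈ range R, c ^ (R + 1) / n := by
        refine sum_le_sum fun e he => sum_le_sum fun i _ => sum_le_sum fun j _ => ?_
        refine (sum_le_sum fun f _ => one e i j f).trans ?_
        have he' : e < R := mem_range.1 he
        rw [sum_const, card_univ, Fintype.card_fun, Fintype.card_fin, Fintype.card_fin,
          nsmul_eq_mul]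
        have : ((n ^ (e + 1) : ℕ) : ℝ) * (c / n) ^ (e + 2) = c ^ (e + 2) / n := by
          push_cast
          rw [div_pow]
          field_simp
          ring
        rw [this]
        exact div_le_div_of_nonneg_right (pow_le_pow_right₀ hc (by omega)) n0.le
    _ = _ := by
        simp only [sum_const, card_range, nsmul_eq_mul]
        ring

end Pool.Agent.Lib.MP_b735d7_co
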