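import Pool.Agent.Lib.MP_b735d7_co.PBase

/-!
Realizers from rank functions, and the finite model of the measure.
-/

namespace Pool.Agent.Lib.MP_b735d7_co

open Finset

variable {V : Type} [LinearOrder V]

lemma below_lt {G : SimpleGraph V} {a b : V} (h : Below G a b) : a < b := by
  unfold Below at h
  induction h with
  | single h => exact h.1
  | tail _ h ih => exact ih.trans h.1

lemma below_mono {G G' : SimpleGraph V} (h : G ≤ G') {a b : V} (k : Below G a b) :
    Below G' a b := by
  unfold Below at k ⊢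
  induction k with
  | single u => exact Relation.TransGen.single ⟨u.1, h u.2⟩
  | tail _ u ih => exact Relation.TransGen.tail ih ⟨u.1, h u.2⟩

lemma below_dual {G : SimpleGraph V} {a b : V} :
    Below (dualG G) (OrderDual.toDual a) (OrderDual.toDual b) ↔ Below G b a := by
  unfold Below
  constructor
  · intro h
    have key : ∀ u v : Vᵒᵈ, Relation.TransGen (fun x y => x < y ∧ (dualG G).Adj x y) u v →
        Relation.TransGen (fun x y : V => x < y ∧ G.Adj x y) (OrderDual.ofDual v)
          (OrderDual.ofDual u) := by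
      intro u v k
      induction k with
      | single k => exact Relation.TransGen.single ⟨k.1, SimpleGraph.Adj.symm k.2⟩
      | tail _ k ih => exact Relation.TransGen.head ⟨k.1, SimpleGraph.Adj.symm k.2⟩ ih
    exact key _ _ h
  · intro h
    induction h with
    | single k => exact Relation.TransGen.single ⟨k.1, SimpleGraph.Adj.symm k.2⟩
    | tail _ k ih => exact Relation.TransGen.head ⟨k.1, SimpleGraph.Adj.symm k.2⟩ ih

lemma realized_of_rank {G : SimpleGraph V} {d : ℕ} (hd : 0 < d) (ρ : Fin d → V → ℤ)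
    (hi : ∀ k, Function.Injective (ρ k))
    (hm : ∀ k x y, x < y → G.Adj x y → ρ k x < ρ k y)
    (hs : ∀ a b, a ≠ b → ¬ Below G a b → ∃ k, ρ k b < ρ k a) : Realized G d := by
  refine ⟨fun k => LinearOrder.lift' (ρ k) (hi k), fun i j => ?_⟩
  change Below G i j ↔ ∀ k, ρ k i < ρ k j
  constructor
  · intro h k
    unfold Below at h
    induction h with
    | single h => exact hm k _ _ h.1 h.2
    | tail _ h ih => exact ih.trans (hm k _ _ h.1 h.2)
  · intro h
    by_contra hn
    have hne : i ≠ j := by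
      rintro rfl
      exact lt_irrefl _ (h ⟨0, hd⟩)
    obtain ⟨k, hk⟩ := hs i j hne hn
    exact lt_asymm hk (h k)

lemma rank_card {W α : Type} [Fintype W] [LinearOrder α] (g : W → α) :
    ∃ ρ : W → ℕ, ∀ a b, g a < g b → ρ a < ρ b := by
  classical
  refine ⟨fun a => (univ.filter fun x => g x < g a).card, fun a b h => card_lt_card ?_⟩
  refine ⟨fun x hx => ?_, fun hh => ?_⟩
  · simp only [mem_filter, mem_univ, true_and] at hx ⊢
    exact hx.trans h
  · have : a ∈ univ.filter fun x => g x < g a := hh (by simpa using h)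
    simp at this

lemma rank_of_fun [Fintype V] {α : Type} [LinearOrder α] (f : V → α) :
    ∃ ρ : V → ℤ, Function.Injective ρ ∧ (∀ a b, f a < f b → ρ a < ρ b) ∧
      ∀ a b, f a ≤ f b → a < b → ρ a < ρ b := by
  obtain ⟨ρ, hρ⟩ := rank_card (fun a : V => toLex (f a, a))
  refine ⟨fun a => ρ a, fun a b h => ?_, fun a b h => ?_, fun a b h k => ?_⟩
  · have h' : ρ a = ρ b := Int.ofNat_inj.1 h
    rcases lt_trichotomy (toLex (f a, a)) (toLex (f b, b)) with k | k | k
    · have := hρ _ _ k
      omega
    · exact congrArg Prod.snd (toLex.injective k)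
    · have := hρ _ _ k
      omega
  · exact Int.ofNat_lt.2 (hρ _ _ (Prod.Lex.toLex_lt_toLex.2 (Or.inl h)))
  · refine Int.ofNat_lt.2 (hρ _ _ (Prod.Lex.toLex_lt_toLex.2 ?_))
    rcases h.lt_or_eq with h | h
    · exact Or.inl h
    · exact Or.inr ⟨h, k⟩

lemma exists_realized [Fintype V] (G : SimpleGraph V) : ∃ d, Realized G d := by
  classical
  rcases isEmpty_or_nonempty V with hV | hV
  · exact ⟨0, fun k => k.elim0, fun i => isEmptyElim i⟩
  · let e := (Fintype.equivFin V).symm
    choose ρ h1 h2 h3 using fun a : V =>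
      rank_of_fun (fun x : V => if a = x ∨ Below G a x then (1 : ℕ) else 0)
    refine ⟨Fintype.card V, realized_of_rank Fintype.card_pos (fun k => ρ (e k))
      (fun k => h1 _) (fun k x y hxy ha => h3 _ _ _ ?_ hxy) fun a b hab hn => ⟨e.symm a, ?_⟩⟩
    · by_cases hx : e k = x ∨ Below G (e k) x
      · have : e k = y ∨ Below G (e k) y := by
          right
          rcases hx with hx | hx
          · rw [hx]
            exact Relation.TransGen.single ⟨hxy, ha⟩
          · exact Relation.TransGen.tail hx ⟨hxy, ha⟩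
        simp [hx, this]
      · simp [hx]
    · simp only [Equiv.apply_symm_apply]
      refine h2 _ _ _ ?_
      simp [hab, hn]

/-- three rank functions from a realizer of size at most three -/
lemma ranks_of_realized [Fintype V] [Nonempty V] {G : SimpleGraph V} {d : ℕ} (hd : d ≤ 3)
    (h : Realized G d) : ∃ r : Fin 3 → V → ℕ, (∀ k, Function.Injective (r k)) ∧
      (∀ k a b, Below G a b → r k a < r k b) ∧
      ∀ a b, a ≠ b → ¬ Below G a b → ∃ k, r k b < r k a := by
  obtain ⟨L, hL⟩ := h
  have hd0 : 0 < d := by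
    rcases Nat.eq_zero_or_pos d with rfl | h0
    · obtain ⟨a⟩ := ‹Nonempty V›
      exact absurd (below_lt ((hL a a).2 fun k => k.elim0)) (lt_irrefl _)
    · exact h0
  have key : ∀ k : Fin d, ∃ ρ : V → ℕ, ∀ a b, (L k).lt a b → ρ a < ρ b := fun k =>
    @rank_card V V _ (L k) id
  choose ρ hρ using key
  have tri : ∀ (k : Fin d) (a b : V), (L k).lt a b ∨ a = b ∨ (L k).lt b a := fun k a b =>
    @lt_trichotomy V (L k) a b
  refine ⟨fun k => ρ (if h : k.val < d then ⟨k.val, h⟩ else ⟨0, hd0⟩), fun k a b h => ?_,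
    fun k a b h => hρ _ _ _ ((hL a b).1 h _), fun a b hab hn => ?_⟩
  · rcases tri (if h : k.val < d then ⟨k.val, h⟩ else ⟨0, hd0⟩) a b with u | u | u
    · exact absurd h (hρ _ _ _ u).ne
    · exact u
    · exact absurd h (hρ _ _ _ u).ne'
  · rw [hL] at hn
    push Not at hn
    obtain ⟨k, hk⟩ := hn
    refine ⟨⟨k.val, by omega⟩, ?_⟩
    simp only [k.isLt, dite_true]
    rcases tri k a b with u | u | u
    · exact absurd u hk
    · exact absurd u hab
    · exact hρ _ _ _ u

lemma card_EE (n : ℕ) : (EE n).card = n.choose 2 := by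
  have := Sym2.card_subtype_not_diag (α := Fin n)
  rw [Fintype.card_subtype, Fintype.card_fin] at this
  exact this

lemma edgeSet_gr {n : ℕ} {ω : Finset (Sym2 (Fin n))} (h : ω ⊆ EE n) :
    (gr ω).edgeSet = (ω : Set (Sym2 (Fin n))) := by
  ext e
  induction e using Sym2.ind with
  | _ a b =>
    simp only [SimpleGraph.mem_edgeSet, gr_adj, mem_coe]
    exact ⟨fun k => k.1, fun k => ⟨k, mem_EE.1 (h k)⟩⟩

lemma prob_eq_Pr (n : ℕ) (c : ℝ) (h0 : 0 ≤ c / n) (h1 : c / n ≤ 1)
    (A : SimpleGraph (Fin n) → Prop) : prob n c {G | A G} = Pr n (c / n) A := by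
  classical
  have : MeasurableSingletonClass (SimpleGraph (Fin n)) := ⟨fun G => by
    rw [← SimpleGraph.measurableEmbedding_edgeSet.measurableSet_image, Set.image_singleton]
    exact measurableSet_singleton _⟩
  unfold prob Pr Pool.Agent.Lib.MP_58a483_pr.H80.Ex
  have e1 : {G : SimpleGraph (Fin n) | A G} = ((univ.filter A : Finset _) : Set _) := by
    ext G
    simp
  rw [e1, ← MeasureTheory.sum_measureReal_singleton, sum_filter]
  symm
  refine sum_nbij' (fun ω => gr ω) (fun G => G.edgeSet.toFinset) (fun _ _ => mem_univ _)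
    (fun G _ => ?_) (fun ω hω => ?_) (fun G _ => ?_) (fun ω hω => ?_)
  · rw [mem_powerset]
    intro e he
    induction e using Sym2.ind with
    | _ a b => exact mem_EE.2 (SimpleGraph.Adj.ne (by simpa using he))
  · rw [mem_powerset] at hω
    simp only [edgeSet_gr hω, toFinset_coe]
  · simp [gr]
  · rw [mem_powerset] at hω
    have hp : ((Set.projIcc (0 : ℝ) 1 zero_le_one (c / n) : Set.Icc (0 : ℝ) 1) : ℝ) = c / n := by
      rw [Set.projIcc_of_mem _ ⟨h0, h1⟩]
    beta_reduce
    by_cases hA : A (gr ω)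
    · rw [if_pos hA, Pool.Agent.Lib.MP_58a483_pr.H80.ind_pos hA, MeasureTheory.Measure.real,
        SimpleGraph.binomialRandom_singleton, edgeSet_gr hω, Set.ncard_coe_finset, card_EE]
      simp only [ENNReal.toReal_mul, ENNReal.toReal_pow, ENNReal.coe_toReal,
        unitInterval.coe_toNNReal, unitInterval.coe_symm_eq, hp, Nat.card_fin, mul_one]
    · rw [if_neg hA, Pool.Agent.Lib.MP_58a483_pr.H80.ind_neg hA, mul_zero]

end Pool.Agent.Lib.MP_b735d7_co
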