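import Pool.Agent.Lib.MP_b735d7_co.PBase
import Pool.Agent.Lib.MP_b735d7_co.Rank

/-!
The block lemma: four linear extensions from levels.
-/

namespace Pool.Agent.Lib.MP_b735d7_co

open Finset

open Classical in
/-- recursion along the parent map -/
noncomputable def Blk_fix {V α : Type} (root : V → Prop) (par : V → V) (rk : V → ℕ)
    (h : ∀ x, ¬ root x → rk (par x) < rk x) (g0 : V → α) (g1 : V → α → α) (x : V) : α :=
  if _hx : root x then g0 x else g1 x (Blk_fix root par rk h g0 g1 (par x))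
termination_by rk x
decreasing_by exact h x _hx

lemma Blk_rec {V α : Type} (root : V → Prop) (par : V → V) (rk : V → ℕ)
    (h : ∀ x, ¬ root x → rk (par x) < rk x) (g0 : V → α) (g1 : V → α → α) :
    ∃ f : V → α, (∀ x, root x → f x = g0 x) ∧ ∀ x, ¬ root x → f x = g1 x (f (par x)) :=
  ⟨Blk_fix root par rk h g0 g1, fun x hx => by rw [Blk_fix, dif_pos hx],
    fun x hx => by rw [Blk_fix, dif_neg hx]⟩

lemma Blk_ind {V : Type} (root : V → Prop) (par : V → V) (rk : V → ℕ)
    (h : ∀ x, ¬ root x → rk (par x) < rk x) (P : V → Prop) (h0 : ∀ x, root x → P x)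
    (h1 : ∀ x, ¬ root x → P (par x) → P x) (x : V) : P x := by
  induction hn : rk x using Nat.strong_induction_on generalizing x with
  | _ n ih =>
    by_cases hx : root x
    · exact h0 x hx
    · exact h1 x hx (ih _ (hn ▸ h x hx) _ rfl)

lemma Blk_le_append {α : Type} [LinearOrder α] (s t : List α) : s ≤ s ++ t := by
  induction s with
  | nil =>
    refine not_lt.1 fun h => ?_
    cases h
  | cons a s ih => exact List.cons_le_cons a ih

lemma Blk_le_nil {α : Type} [LinearOrder α] {s : List α} (h : s ≤ []) : s = [] := by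
  cases s with
  | nil => rfl
  | cons a s => exact absurd (List.Lex.nil : ([] : List α) < a :: s) (not_lt.2 h)

lemma Blk_sub {α : Type} [LinearOrder α] : ∀ {s t : List α}, s ≤ t →
    s.map OrderDual.toDual ≤ t.map OrderDual.toDual → ∀ v ∈ s, v ∈ t
  | [], _, _, _ => by simp
  | a :: s, [], h, _ => absurd (Blk_le_nil h) (by simp)
  | a :: s, b :: t, h, h' => by
    rcases lt_trichotomy a b with hab | rfl | hab
    · exact absurd (List.Lex.rel (show OrderDual.toDual b < OrderDual.toDual a from hab) :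
        (b :: t).map OrderDual.toDual < (a :: s).map OrderDual.toDual) (not_lt.2 h')
    · have h1 : s ≤ t := not_lt.1 fun k => not_lt.2 h (List.Lex.cons k)
      have h2 : s.map OrderDual.toDual ≤ t.map OrderDual.toDual :=
        not_lt.1 fun k => not_lt.2 h' (List.Lex.cons k)
      intro v hv
      rcases List.mem_cons.1 hv with rfl | hv
      · exact List.mem_cons_self
      · exact List.mem_cons_of_mem _ (Blk_sub h1 h2 v hv)
    · exact absurd (List.Lex.rel hab : b :: t < a :: s) (not_lt.2 h)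

lemma Blk_le3 {α : Type} [LinearOrder α] {a a' b b' : ℤ} {c c' : α} :
    toLex (a, toLex (b, c)) ≤ toLex (a', toLex (b', c')) ↔
      a < a' ∨ (a = a' ∧ b ≤ b' ∧ (b = b' → c ≤ c')) := by
  rw [Prod.Lex.toLex_le_toLex, Prod.Lex.toLex_le_toLex']

variable {V : Type} [LinearOrder V] [Fintype V]

omit [LinearOrder V] in
lemma Blk_min (R : V → V → Prop) (hR : ∀ x, R x x) (f : V → ℤ) :
    ∃ g : V → V, ∀ x, R x (g x) ∧ ∀ z, R x z → f (g x) ≤ f z := by
  have : ∀ x, ∃ y, R x y ∧ ∀ z, R x z → f y ≤ f z := fun x => by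
    obtain ⟨y, h1, h2⟩ := Set.exists_min_image {y | R x y} f (Set.toFinite _) ⟨x, hR x⟩
    exact ⟨y, h1, h2⟩
  choose g hg using this
  exact ⟨g, hg⟩

omit [Fintype V] in
lemma Blk_trans {G : SimpleGraph V} {a b c : V} (h : a = b ∨ Below G a b)
    (k : b = c ∨ Below G b c) : a = c ∨ Below G a c := by
  rcases h with rfl | h
  · exact k
  · rcases k with rfl | k
    · exact Or.inr h
    · exact Or.inr (h.trans k)

theorem block {G : SimpleGraph V} {l : V → ℤ} (hR : Rule G l) (hB : BD G l) :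
    ∃ ρ1 ρ2 : V → ℤ, Function.Injective ρ1 ∧ Function.Injective ρ2 ∧
      (∀ x y, x < y → G.Adj x y → ρ1 x < ρ1 y ∧ ρ2 x < ρ2 y) ∧
      ∀ a b, a ≠ b → ¬ Below G a b →
        (blk l b < blk l a ∨ (blk l a = blk l b ∧ l b % 2 = 1)) → ρ1 b < ρ1 a ∨ ρ2 b < ρ2 a := by
  classical
  obtain ⟨root, par, rk, idx, h1, h2, h3⟩ := hB
  have hrk : ∀ x, ¬ root x → rk (par x) < rk x := fun x hx => (h1 x hx).2.2.1
  have hrk' : ∀ x, ¬ (root x ∨ l x % 2 = 1) → rk (par x) < rk x := fun x hx =>
    hrk x fun k => hx (Or.inl k)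
  obtain ⟨gen, gen0, gen1⟩ := Blk_rec (fun x => root x ∨ l x % 2 = 1) par rk hrk' id fun _ y => y
  obtain ⟨base, base0, base1⟩ := Blk_rec root par rk hrk id fun _ y => y
  obtain ⟨addr, addr0, addr1⟩ := Blk_rec root par rk hrk (fun _ => ([] : List V))
    fun x s => s ++ [x]
  obtain ⟨lf, hlf⟩ := Blk_min (Relation.ReflTransGen (RR G l root)) (fun _ => .refl) idx
  obtain ⟨rt, hrt⟩ := Blk_min (Relation.ReflTransGen (RR G l root)) (fun _ => .refl)
    fun x => -idx x
  simp only [id] at gen0 base0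
  have hgen : ∀ x, (x = gen x ∨ Below G x (gen x)) ∧ blk l (gen x) = blk l x := by
    refine Blk_ind (fun x => root x ∨ l x % 2 = 1) par rk hrk' _ (fun x hx => ?_) fun x hx ih => ?_
    · rw [gen0 x hx]
      exact ⟨Or.inl rfl, rfl⟩
    · rw [gen1 x hx]
      obtain ⟨g1, g2, -, -, g3⟩ := h1 x fun k => hx (Or.inl k)
      have : l x % 2 = 0 := by
        have : ¬ l x % 2 = 1 := fun k => hx (Or.inr k)
        omega
      exact ⟨Blk_trans (Or.inr (Relation.TransGen.single ⟨g3 this, g1⟩)) ih.1, ih.2.trans g2⟩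
  have hodd : ∀ x, l x % 2 = 1 → root (base x) ∧ l (base x) % 2 = 1 ∧ blk l (base x) = blk l x ∧
      (base x = x ∨ Below G (base x) x) ∧ ∀ v ∈ addr x, v = x ∨ Below G v x := by
    refine Blk_ind root par rk hrk _ (fun x hx ho => ?_) fun x hx ih ho => ?_
    · rw [base0 x hx, addr0 x hx]
      exact ⟨hx, ho, rfl, Or.inl rfl, by simp⟩
    · rw [base1 x hx, addr1 x hx]
      obtain ⟨g1, g2, -, g3, -⟩ := h1 x hx
      obtain ⟨k1, k2, k3, k4, k5⟩ := ih (g3 ho).2
      have hb : par x = x ∨ Below G (par x) x :=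
        Or.inr (Relation.TransGen.single ⟨(g3 ho).1, g1.symm⟩)
      refine ⟨k1, k2, k3.trans g2, Blk_trans k4 hb, fun v hv => ?_⟩
      rcases List.mem_append.1 hv with hv | hv
      · exact Blk_trans (k5 v hv) hb
      · exact Or.inl (List.mem_singleton.1 hv)
  let A : V → ℤ := fun m => if root m then idx (lf m) else idx (base m)
  let B : V → ℤ := fun m => if root m then -idx (rt m) else -idx (base m)
  have hA : ∀ m, A m ≤ idx (base m) := fun m => by
    simp only [A]
    split_ifs with hm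
    · rw [base0 m hm]
      exact (hlf m).2 m .refl
    · exact le_rfl
  have hBb : ∀ m, B m ≤ -idx (base m) := fun m => by
    simp only [B]
    split_ifs with hm
    · rw [base0 m hm]
      exact (hrt m).2 m .refl
    · exact le_rfl
  let f1 : V → ℤ ×ₗ ℤ ×ₗ List V := fun a => toLex (blk l a, toLex (A (gen a), addr (gen a)))
  let f2 : V → ℤ ×ₗ ℤ ×ₗ List Vᵒᵈ := fun a =>
    toLex (blk l a, toLex (B (gen a), (addr (gen a)).map OrderDual.toDual))
  have hmono : ∀ x y, x < y → G.Adj x y → f1 x ≤ f1 y ∧ f2 x ≤ f2 y := by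
    intro x y hxy hadj
    simp only [f1, f2, Blk_le3]
    by_cases hb : blk l x = blk l y
    swap
    · have : blk l x < blk l y := by
        have := hR x y hxy hadj
        simp only [blk] at hb ⊢
        omega
      exact ⟨Or.inl this, Or.inl this⟩
    rcases h2 x y hadj hb with ⟨rx, ry⟩ | ⟨rx, e⟩ | ⟨ry, e⟩
    · have hs : RR G l root x y := ⟨hxy, hadj, rx, ry, hb⟩
      rw [gen0 x (Or.inl rx), gen0 y (Or.inl ry), addr0 x rx, addr0 y ry]
      simp only [A, B, if_pos rx, if_pos ry]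
      exact ⟨Or.inr ⟨hb, (hlf x).2 _ (.head hs (hlf y).1), fun _ => le_rfl⟩,
        Or.inr ⟨hb, (hrt x).2 _ (.head hs (hrt y).1), fun _ => le_rfl⟩⟩
    · have ho : ¬ l x % 2 = 1 := fun k => by
        have := ((h1 x rx).2.2.2.1 k).1
        rw [e] at this
        exact lt_asymm hxy this
      rw [gen1 x (not_or.2 ⟨rx, ho⟩), e]
      exact ⟨Or.inr ⟨hb, le_rfl, fun _ => le_rfl⟩, Or.inr ⟨hb, le_rfl, fun _ => le_rfl⟩⟩
    · have ho : l y % 2 = 1 := by
        by_contra k
        have := (h1 y ry).2.2.2.2 (by omega)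
        rw [e] at this
        exact lt_asymm hxy this
      have hx : l x % 2 = 1 := e ▸ ((h1 y ry).2.2.2.1 ho).2
      have e1 : A y = idx (base x) := by simp only [A, if_neg ry, base1 y ry, e]
      have e2 : B y = -idx (base x) := by simp only [B, if_neg ry, base1 y ry, e]
      rw [gen0 x (Or.inr hx), gen0 y (Or.inr ho), addr1 y ry, e, e1, e2, List.map_append]
      exact ⟨Or.inr ⟨hb, hA x, fun _ => Blk_le_append _ _⟩,
        Or.inr ⟨hb, hBb x, fun _ => Blk_le_append _ _⟩⟩
  have hsep : ∀ a b, blk l a = blk l b → l b % 2 = 1 → f1 a ≤ f1 b → f2 a ≤ f2 b →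
      a = b ∨ Below G a b := by
    intro a b hb ho k1 k2
    simp only [f1, f2, Blk_le3, gen0 b (Or.inr ho)] at k1 k2
    obtain ⟨-, k1, k3⟩ := k1.resolve_left (by omega)
    obtain ⟨-, k2, k4⟩ := k2.resolve_left (by omega)
    obtain ⟨g1, g2⟩ := hgen a
    obtain ⟨b1, b2, b3, b4, b5⟩ := hodd b ho
    refine Blk_trans g1 ?_
    generalize gen a = m at *
    have a1 := hA b
    have a2 := hBb b
    by_cases rm : root m
    · simp only [A, B, if_pos rm] at k1 k2
      refine Blk_trans (h3 m (lf m) (rt m) (base b) rm b1 b2 (by omega) (hlf m).1 (hrt m).1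
        (k1.trans a1) ?_) b4
      have := k2.trans a2
      omega
    · have e1 : A m = idx (base m) := if_neg rm
      have e2 : B m = -idx (base m) := if_neg rm
      have hm : m ∈ addr m := by rw [addr1 m rm]; simp
      exact b5 m (Blk_sub (k3 (by omega)) (k4 (by omega)) m hm)
  obtain ⟨ρ1, i1, s1, t1⟩ := rank_of_fun f1
  obtain ⟨ρ2, i2, s2, t2⟩ := rank_of_fun f2
  refine ⟨ρ1, ρ2, i1, i2, fun x y hxy hadj =>
    ⟨t1 x y (hmono x y hxy hadj).1 hxy, t2 x y (hmono x y hxy hadj).2 hxy⟩, ?_⟩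
  rintro a b hab hnb (h | ⟨hb, ho⟩)
  · exact Or.inl (s1 b a (Prod.Lex.toLex_lt_toLex.2 (Or.inl h)))
  · by_contra hcon
    rw [not_or] at hcon
    rcases hsep a b hb ho (not_lt.1 fun k => hcon.1 (s1 b a k))
      (not_lt.1 fun k => hcon.2 (s2 b a k)) with h | h
    · exact hab h
    · exact hnb h

theorem realized4 {G : SimpleGraph V} (h : Data4 G) : Realized G 4 := by
  obtain ⟨l, hR, hB, hB'⟩ := h
  have hR' : Rule (dualG G) fun x => l (OrderDual.ofDual x) + 1 := by
    intro x y hxy hadj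
    have := hR (OrderDual.ofDual y) (OrderDual.ofDual x) hxy (G.adj_symm hadj)
    beta_reduce
    omega
  obtain ⟨ρ1, ρ2, i1, i2, m1, s1⟩ := block hR hB
  obtain ⟨ρ3, ρ4, i3, i4, m3, s3⟩ := block hR' hB'
  refine realized_of_rank (by norm_num) ![ρ1, ρ2, fun x => -ρ3 (OrderDual.toDual x),
    fun x => -ρ4 (OrderDual.toDual x)] ?_ ?_ ?_
  · intro k
    fin_cases k
    · exact i1
    · exact i2
    · exact fun x y e => OrderDual.toDual.injective (i3 (neg_injective e))
    · exact fun x y e => OrderDual.toDual.injective (i4 (neg_injective e))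
  · intro k x y hxy hadj
    have := m3 (OrderDual.toDual y) (OrderDual.toDual x) hxy (G.adj_symm hadj)
    fin_cases k
    · exact (m1 x y hxy hadj).1
    · exact (m1 x y hxy hadj).2
    · exact neg_lt_neg this.1
    · exact neg_lt_neg this.2
  · intro a b hab hnb
    by_cases hc : blk l b < blk l a ∨ (blk l a = blk l b ∧ l b % 2 = 1)
    · rcases s1 a b hab hnb hc with k | k
      · exact ⟨0, k⟩
      · exact ⟨1, k⟩
    · rcases s3 (OrderDual.toDual b) (OrderDual.toDual a)
        (fun e => hab (OrderDual.toDual.injective e).symm) (fun k => hnb (below_dual.1 k))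
        (by simp only [blk, OrderDual.ofDual_toDual] at hc ⊢; omega) with k | k
      · exact ⟨2, neg_lt_neg k⟩
      · exact ⟨3, neg_lt_neg k⟩

end Pool.Agent.Lib.MP_b735d7_co
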