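import Pool.Agent.Lib.MP_b735d7_co.Base

/-!
Counting valleys with a free edge along a long path.
-/

namespace Pool.Agent.Lib.MP_b735d7_co

open Finset

variable {V : Type} [LinearOrder V] {G : SimpleGraph V}

open Classical in
/-- number of valleys strictly between two positions -/
noncomputable def CntV (y : ℕ → V) (a b : ℕ) : ℕ := ((Ioo a b).filter fun i => ValAt y i).card

open Classical in
lemma CntV_succ (y : ℕ → V) {a b : ℕ} (h : a < b) :
    CntV y a (b + 1) = CntV y a b + if ValAt y b then 1 else 0 := by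
  have e : Ioo a (b + 1) = insert b (Ioo a b) := by
    ext i
    simp only [mem_Ioo, mem_insert]
    omega
  unfold CntV
  rw [e, filter_insert]
  split_ifs
  · rw [card_insert_of_notMem (by simp)]
  · rfl

lemma CntV_mono (y : ℕ → V) (a : ℕ) {b c : ℕ} (h : b ≤ c) : CntV y a b ≤ CntV y a c := by
  classical
  unfold CntV
  exact card_le_card (filter_subset_filter _ (Ioo_subset_Ioo_right h))

lemma CntV_lt (y : ℕ → V) {a b k c : ℕ} (h1 : a < b) (h2 : b ≤ k) (h3 : k < c) (h : ValAt y k) :
    CntV y a b < CntV y a c := by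
  have h4 := CntV_succ y (lt_of_lt_of_le h1 h2)
  rw [if_pos h] at h4
  have := CntV_mono y a h2
  have := CntV_mono y a (show k + 1 ≤ c from h3)
  omega

lemma CntV_add (y : ℕ → V) {a b : ℕ} (h : a ≤ b) : CntV y 0 a + CntV y a b ≤ CntV y 0 b := by
  classical
  unfold CntV
  rw [← card_union_of_disjoint]
  · refine card_le_card fun i hi => ?_
    simp only [mem_union, mem_filter, mem_Ioo] at hi ⊢
    rcases hi with hi | hi
    · exact ⟨by omega, hi.2⟩
    · exact ⟨by omega, hi.2⟩
  · refine disjoint_left.2 fun i h1 h2 => ?_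
    simp only [mem_filter, mem_Ioo] at h1 h2
    omega

lemma CntV_shift (y : ℕ → V) (a T : ℕ) : valCount (fun i => y (a + i)) T ≤ CntV y a (a + T) := by
  classical
  unfold valCount CntV
  refine card_le_card_of_injOn (fun i => a + i) (fun i hi => ?_) fun i _ j _ h => by
    simpa using h
  obtain ⟨h1, h2⟩ := mem_filter.1 (mem_coe.1 hi)
  rw [mem_Ioo] at h1
  refine mem_coe.2 (mem_filter.2 ⟨mem_Ioo.2 (by simp only; omega), ?_⟩)
  unfold ValAt at h2 ⊢
  simp only at h2 ⊢
  rw [show a + i - 1 = a + (i - 1) by omega, add_assoc]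
  exact h2

omit [LinearOrder V] in
lemma Cnt_shift {y : ℕ → V} {e a T : ℕ} (hy : PSeq G y e) (h : a + T ≤ e) :
    PSeq G (fun i => y (a + i)) T :=
  ⟨fun i hi => hy.1 (a + i) (by omega), fun i hi j hj k => by
    have := hy.2 (a + i) (by omega) (a + j) (by omega) k
    omega⟩

lemma Cnt_trace {y : ℕ → V} {e : ℕ} (hy : PSeq G y e) {z : ℕ → V} (hz : KK G (z 0)) (r : ℕ) :
    ∀ j, NB G z (r + 1) → j + 1 ≤ e → z r = y j → z (r + 1) = y (j + 1) →
      ∃ j0 ≤ j, (KK G (y j0) ∨ j0 = 0) ∧ CntV y j0 (j + 1) ≤ CntV z 0 (r + 1) := by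
  have triv : ∀ j, CntV y j (j + 1) = 0 := fun j => by simp [CntV]
  induction r with
  | zero => exact fun j _ _ h1 _ => ⟨j, le_rfl, Or.inl (h1 ▸ hz), by rw [triv]; omega⟩
  | succ r ih =>
    intro j hn hj h1 h2
    by_cases hk : KK G (y j) ∨ j = 0
    · exact ⟨j, le_rfl, hk, by rw [triv]; omega⟩
    obtain ⟨j, rfl⟩ : ∃ k, j = k + 1 := ⟨j - 1, by omega⟩
    have h3 : z r = y j := by
      by_contra h
      refine hk (Or.inl (Or.inl ⟨z r, y j, y (j + 2), ?_, (hy.1 j (by omega)).symm,
        hy.1 (j + 1) (by omega), h, ?_, fun k => ?_⟩))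
      · rw [← h1]
        exact (hn.1 r (by omega)).symm
      · rw [← h2]
        exact (hn.2 r le_rfl).symm
      · have := hy.2 j (by omega) (j + 2) (by omega) k
        omega
    obtain ⟨j0, k1, k2, k3⟩ := ih j ⟨fun i hi => hn.1 i (by omega), fun i hi => hn.2 i (by omega)⟩
      (by omega) h3 h1
    refine ⟨j0, by omega, k2, ?_⟩
    have h4 : ValAt y (j + 1) ↔ ValAt z (r + 1) := by
      simp only [ValAt, Nat.add_sub_cancel, h1, h2, h3]
    rw [CntV_succ y (show j0 < j + 1 by omega), CntV_succ z (show 0 < r + 1 by omega)]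
    by_cases h5 : ValAt z (r + 1)
    · rw [if_pos h5, if_pos (h4.2 h5)]
      omega
    · rw [if_neg h5, if_neg fun k => h5 (h4.1 k)]
      omega

lemma Cnt_peaks {y : ℕ → V} {e : ℕ} (hy : PSeq G y e) {i j : ℕ} (hij : i < j) (hj : j ≤ e)
    (h1 : PeakAt y i) (h2 : PeakAt y j) : ∃ k, i ≤ k ∧ k < j ∧ ValAt y k := by
  obtain ⟨k, hk, hm⟩ := exists_min_image (Icc i j) y ⟨i, mem_Icc.2 ⟨le_rfl, hij.le⟩⟩
  rw [mem_Icc] at hk
  have a : k ≠ i := by
    rintro rfl
    exact absurd h1.2 (not_lt.2 (hm _ (mem_Icc.2 (by omega))))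
  have b : k ≠ j := by
    rintro rfl
    exact absurd h2.1 (not_lt.2 (hm _ (mem_Icc.2 (by omega))))
  refine ⟨k, hk.1, by omega, lt_of_le_of_ne (hm _ (mem_Icc.2 (by omega))) fun h => ?_,
    lt_of_le_of_ne (hm _ (mem_Icc.2 (by omega))) fun h => ?_⟩
  · have := hy.2 k (by omega) (k - 1) (by omega) h
    omega
  · have := hy.2 k (by omega) (k + 1) (by omega) h
    omega

/-- extreme positions next to a stub that points forward -/
def CntF (G : SimpleGraph V) (y : ℕ → V) (i : ℕ) : Prop :=
  ¬ KK G (y i) ∧ (ValAt y i ∨ PeakAt y i) ∧ (Stub G (y (i - 1)) (y i) ∨ Stub G (y i) (y (i + 1)))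

open Classical in
lemma Cnt_fwd {y : ℕ → V} {e : ℕ} (hy : PSeq G y e) :
    ((Ioo 0 e).filter fun i => CntF G y i).card ≤ 4 * (cnt (KK G) y e + 1) := by
  set F := (Ioo 0 e).filter fun i => CntF G y i with hF
  have key : ∀ i ∈ F, ∃ j0 < i, (KK G (y j0) ∨ j0 = 0) ∧ CntV y j0 i ≤ 1 := fun i hi => by
    obtain ⟨h1, h2, -, h3⟩ := mem_filter.1 hi
    rw [mem_Ioo] at h1
    rcases h3 with ⟨z, r, a, b, c, d, f⟩ | ⟨z, r, a, b, c, d, f⟩
    · obtain ⟨j0, k1, k2, k3⟩ := Cnt_trace hy b r (i - 1) a (by omega) c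
        (by rwa [show i - 1 + 1 = i by omega])
      rw [show i - 1 + 1 = i by omega] at k3
      exact ⟨j0, by omega, k2, k3.trans f⟩
    · obtain ⟨j0, k1, k2, k3⟩ := Cnt_trace hy b r i a (by omega) c d
      refine ⟨j0, lt_of_le_of_ne k1 ?_, k2, (CntV_mono y j0 (Nat.le_succ i)).trans (k3.trans f)⟩
      rintro rfl
      rcases k2 with k | k
      · exact h2 k
      · omega
  choose! J hJ using key
  set K := (range (e + 1)).filter fun i => KK G (y i) with hK
  have h1 : (insert 0 K ×ˢ range 2 ×ˢ (univ : Finset Bool)).card ≤ 4 * (cnt (KK G) y e + 1) := by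
    rw [card_product, card_product, card_range, card_univ, Fintype.card_bool]
    have : (insert 0 K).card ≤ cnt (KK G) y e + 1 := card_insert_le _ _
    omega
  refine le_trans (card_le_card_of_injOn (fun i => (J i, CntV y (J i) i, decide (ValAt y i)))
    (fun i hi => ?_) ?_) h1
  · obtain ⟨a, b, c⟩ := hJ i hi
    have d := mem_Ioo.1 (mem_filter.1 hi).1
    refine mem_coe.2 (mem_product.2 ⟨?_, mem_product.2 ⟨mem_range.2 (by simp only; omega),
      mem_univ _⟩⟩)
    rcases b with b | b
    · exact mem_insert_of_mem (mem_filter.2 ⟨mem_range.2 (by simp only; omega), b⟩)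
    · exact mem_insert.2 (Or.inl b)
  · have aux : ∀ i ∈ F, ∀ j ∈ F, i < j → J i = J j → CntV y (J i) i = CntV y (J j) j →
        (ValAt y i ↔ ValAt y j) → False := fun i hi j hj hij a b c => by
      have d : ∃ k, i ≤ k ∧ k < j ∧ ValAt y k := by
        by_cases h : ValAt y i
        · exact ⟨i, le_rfl, hij, h⟩
        · exact Cnt_peaks hy hij (mem_Ioo.1 (mem_filter.1 hj).1).2.le
            ((mem_filter.1 hi).2.2.1.resolve_left h)
            ((mem_filter.1 hj).2.2.1.resolve_left fun k => h (c.2 k))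
      obtain ⟨k, k1, k2, k3⟩ := d
      have := CntV_lt y (hJ i hi).1 k1 k2 k3
      rw [← a] at b
      omega
    intro i hi j hj h
    simp only [Prod.mk.injEq, decide_eq_decide] at h
    rcases lt_trichotomy i j with k | k | k
    · exact (aux i hi j hj k h.1 h.2.1 h.2.2).elim
    · exact k
    · exact (aux j hj i hi k h.1.symm h.2.1.symm h.2.2.symm).elim

theorem near_le (T : ℕ) {y : ℕ → V} {e : ℕ} (hy : PSeq G y e) :
    nearCount G T y e ≤ 8 * (cnt (KK G) y e + 1) := by
  classical
  set x : ℕ → V := fun k => y (e - k) with hx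
  have hx' : PSeq G x e := ⟨fun i hi => by
    have := (hy.1 (e - (i + 1)) (by omega)).symm
    rwa [show e - (i + 1) + 1 = e - i by omega] at this, fun i hi j hj k => by
    have := hy.2 (e - i) (by omega) (e - j) (by omega) k
    omega⟩
  have h1 : cnt (KK G) x e ≤ cnt (KK G) y e := by
    unfold cnt
    refine card_le_card_of_injOn (fun i => e - i) (fun i hi => ?_) fun i hi j hj h => ?_
    · simp only [coe_filter, mem_range, Set.mem_ofPred_eq] at hi ⊢
      exact ⟨by omega, hi.2⟩
    · simp only [coe_filter, mem_range, Set.mem_ofPred_eq] at hi hj h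
      omega
  have h2 := Cnt_fwd hy
  have h3 := Cnt_fwd hx'
  have h4 : nearCount G T y e ≤ (((Ioo 0 e).filter fun i => CntF G y i) ∪
      ((Ioo 0 e).filter fun i => CntF G x i).image fun i => e - i).card := by
    unfold nearCount
    refine card_le_card fun i hi => ?_
    obtain ⟨a, b, c, d, f⟩ := mem_filter.1 hi
    have a' := mem_Ioo.1 a
    have e0 : x (e - i) = y i := by simp only [hx]; congr 1; omega
    have e1 : x (e - i - 1) = y (i + 1) := by simp only [hx]; congr 1; omega
    have e2 : x (e - i + 1) = y (i - 1) := by simp only [hx]; congr 1; omega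
    have back : Stub G (y (i + 1)) (y i) ∨ Stub G (y i) (y (i - 1)) →
        i ∈ ((Ioo 0 e).filter fun i => CntF G x i).image fun i => e - i := fun h => by
      refine mem_image.2 ⟨e - i, mem_filter.2 ⟨mem_Ioo.2 (by omega), ?_⟩, by omega⟩
      simp only [CntF, ValAt, PeakAt, e0, e1, e2]
      exact ⟨b, d.imp And.symm And.symm, h⟩
    rcases f with (f | f | f) | (f | f | f)
    · exact (c ⟨_, f.symm⟩).elim
    · exact mem_union_left _ (mem_filter.2 ⟨a, b, d, Or.inl f⟩)
    · exact mem_union_right _ (back (Or.inr f))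
    · exact (c ⟨_, f⟩).elim
    · exact mem_union_left _ (mem_filter.2 ⟨a, b, d, Or.inr f⟩)
    · exact mem_union_right _ (back (Or.inl f))
  have h5 := h4.trans ((card_union_le _ _).trans (Nat.add_le_add_left card_image_le _))
  omega

lemma Cnt_val {T v : ℕ} (h : H2 G T v) {y : ℕ → V} {e : ℕ} (hy : PSeq G y e) (k : ℕ) :
    ∀ b ≤ e, k * (T + 1) ≤ b + 1 → v * k ≤ CntV y 0 b := by
  induction k with
  | zero => exact fun _ _ _ => Nat.zero_le _
  | succ k ih =>
    intro b hb hk
    rw [Nat.succ_mul] at hk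
    obtain ⟨a, rfl⟩ : ∃ a, b = a + T := ⟨b - T, by omega⟩
    have h1 := ih a (by omega) (by omega)
    have h2 := (h _ (Cnt_shift hy hb)).trans (CntV_shift y a T)
    have h3 := CntV_add y (Nat.le_add_right a T)
    rw [Nat.mul_succ]
    omega

omit [LinearOrder V] in
open Classical in
lemma Cnt_br {T m : ℕ} (h : H3 G T m) {y : ℕ → V} {e : ℕ} (hy : PSeq G y e) (he : T ≤ e) (k : ℕ) :
    ∀ n ≤ e + 1, n ≤ k * (T + 1) → ((range n).filter fun i => Br G (y i)).card ≤ k * m := by
  induction k with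
  | zero =>
    intro n _ hn
    obtain rfl : n = 0 := by omega
    simp
  | succ k ih =>
    intro n hn hk
    rw [Nat.succ_mul] at hk ⊢
    by_cases hT : n ≤ T + 1
    · have h1 := h y ⟨fun i hi => hy.1 i (by omega), fun i hi j hj => hy.2 i (by omega) j (by omega)⟩
      have h2 : ((range n).filter fun i => Br G (y i)).card ≤ cnt (Br G) y T :=
        card_le_card (filter_subset_filter _ (range_subset_range.2 hT))
      omega
    · obtain ⟨a, rfl⟩ : ∃ a, n = a + (T + 1) := ⟨n - (T + 1), by omega⟩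
      have h1 := ih a (by omega) (by omega)
      have h2 := h _ (Cnt_shift hy (show a + T ≤ e by omega))
      have h3 : ((range (a + (T + 1))).filter fun i => Br G (y i)) ⊆
          ((range a).filter fun i => Br G (y i)) ∪
            ((range (T + 1)).filter fun i => Br G (y (a + i))).image fun i => a + i := by
        intro i hi
        obtain ⟨h4, h5⟩ := mem_filter.1 hi
        rw [mem_range] at h4
        by_cases h6 : i < a
        · exact mem_union_left _ (mem_filter.2 ⟨mem_range.2 h6, h5⟩)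
        · obtain ⟨j, rfl⟩ : ∃ j, i = a + j := ⟨i - a, by omega⟩
          exact mem_union_right _
            (mem_image.2 ⟨j, mem_filter.2 ⟨mem_range.2 (by omega), h5⟩, rfl⟩)
      have h4 := (card_le_card h3).trans
        ((card_union_le _ _).trans (Nat.add_le_add_left card_image_le _))
      unfold cnt at h2
      exact h4.trans (Nat.add_le_add h1 h2)

open Classical in
lemma Cnt_kk {y : ℕ → V} {e : ℕ} (hy : PSeq G y e) :
    cnt (KK G) y e ≤ ((range (e + 1)).filter fun i => Br G (y i)).card + 1 := by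
  have r : ∀ i ≤ e, G.Reachable (y 0) (y i) := fun i => by
    induction i with
    | zero => exact fun _ => SimpleGraph.Reachable.refl _
    | succ i ih => exact fun hi => (ih (by omega)).trans (hy.1 i (by omega)).reachable
  have h1 : ((range (e + 1)).filter fun i => Mn G (y i)).card ≤ 1 := by
    refine card_le_one.2 fun i hi j hj => ?_
    obtain ⟨a, b⟩ := mem_filter.1 hi
    obtain ⟨c, d⟩ := mem_filter.1 hj
    rw [mem_range] at a c
    have k := (r i (by omega)).symm.trans (r j (by omega))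
    exact hy.2 i (by omega) j (by omega) (le_antisymm (b _ k) (d _ k.symm))
  have h2 : ((range (e + 1)).filter fun i => KK G (y i)) ⊆
      ((range (e + 1)).filter fun i => Br G (y i)) ∪ (range (e + 1)).filter fun i => Mn G (y i) := by
    intro i hi
    obtain ⟨a, b | b⟩ := mem_filter.1 hi
    · exact mem_union_left _ (mem_filter.2 ⟨a, b⟩)
    · exact mem_union_right _ (mem_filter.2 ⟨a, b⟩)
  have h3 := (card_le_card h2).trans (card_union_le _ _)
  unfold cnt
  omega

lemma Cnt_split (T : ℕ) {y : ℕ → V} {e : ℕ} (hy : PSeq G y e) :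
    CntV y 0 e ≤ freeCount G T y e + cnt (KK G) y e + cnt (SS G T) y e + nearCount G T y e := by
  classical
  unfold CntV freeCount cnt nearCount
  refine le_trans (card_le_card fun i hi => ?_) ((card_union_le _ _).trans (Nat.add_le_add_right
    ((card_union_le _ _).trans (Nat.add_le_add_right (card_union_le _ _) _)) _))
  obtain ⟨a, b⟩ := mem_filter.1 hi
  have a' := mem_Ioo.1 a
  have c : i ∈ range (e + 1) := mem_range.2 (by omega)
  simp only [mem_union, mem_filter]
  by_cases h1 : KK G (y i)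
  · exact Or.inl (Or.inl (Or.inr ⟨c, h1⟩))
  by_cases h2 : SS G T (y i)
  · exact Or.inl (Or.inr ⟨c, h2⟩)
  by_cases h3 : Rigid G T (y i) (y (i + 1))
  · exact Or.inr ⟨a, h1, h2, Or.inl b, Or.inr h3⟩
  · exact Or.inl (Or.inl (Or.inl ⟨a, b, hy.1 i a'.2, h3⟩))

theorem cntA {τ : ℕ} (h : Std G τ) {y : ℕ → V} {e : ℕ} (hy : PSeq G y e) (he : 20000 * τ ≤ e)
    (hs : cnt (SS G (20000 * τ)) y e ≤ 16 * τ * ((e + 1) / (20000 * τ + 1))) :
    2 * (cnt (KK G) y e + cnt (SS G (20000 * τ)) y e + nearCount G (20000 * τ) y e + 2) + 2 ≤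
      freeCount G (20000 * τ) y e := by
  set q := (e + 1) / (20000 * τ + 1) with hq
  have hq1 : 1 ≤ q := (Nat.one_le_div_iff (by omega)).2 (by omega)
  have h1 := Cnt_val h.h2 hy q e le_rfl (Nat.div_mul_le_self _ _)
  have h2 := Cnt_br h.h3 hy he (q + 1) (e + 1) le_rfl (by
    have := Nat.lt_div_mul_add (a := e + 1) (show 0 < 20000 * τ + 1 by omega)
    rw [Nat.succ_mul]
    exact this.le)
  have h3 := Cnt_kk hy
  have h4 := Cnt_split (20000 * τ) hy
  have h5 := near_le (20000 * τ) hy
  have h6 := h.tau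
  have h7 : (q + 1) * (τ + 3) ≤ 4 * (τ * q) :=
    (Nat.mul_le_mul (show q + 1 ≤ 2 * q by omega) (show τ + 3 ≤ 2 * τ by omega)).trans
      (le_of_eq (by ring))
  have h8 : 3 * 1 ≤ τ * q := Nat.mul_le_mul h6 hq1
  rw [mul_assoc] at h1 hs
  omega

end Pool.Agent.Lib.MP_b735d7_co
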