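import Pool.Agent.Lib.MP_b735d7_co.Base

/-!
Linear forests, potentials, rooted forests.
-/

namespace Pool.Agent.Lib.MP_b735d7_co

open Finset

theorem lin_step {V : Type} (Γ : SimpleGraph V) (v x : V) (hvx : Γ.Adj v x)
    (hv : ∀ a, Γ.Adj v a → a = x) (idx : V → ℤ) (hi : Function.Injective idx)
    (ha : ∀ a b, Γ.Adj a b → a ≠ v → b ≠ v → idx b = idx a + 1 ∨ idx b = idx a - 1)
    (hx : ∀ a, Γ.Adj x a → a ≠ v → idx a = idx x - 1) :
    ∃ idx : V → ℤ, Function.Injective idx ∧
      ∀ x y, Γ.Adj x y → idx y = idx x + 1 ∨ idx y = idx x - 1 := by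
  classical
  have hxv : x ≠ v := hvx.ne'
  refine ⟨fun u => if u = v then idx x + 1 else if idx x < idx u then idx u + 1 else idx u,
    fun a b hab => ?_, fun a b hab => ?_⟩
  · simp only at hab
    by_cases h1 : a = v <;> by_cases h2 : b = v
    · rw [h1, h2]
    · simp only [h1, h2, if_true, if_false] at hab
      split_ifs at hab <;> omega
    · simp only [h1, h2, if_true, if_false] at hab
      split_ifs at hab <;> omega
    · simp only [h1, h2, if_false] at hab
      apply hi
      split_ifs at hab <;> omega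
  · by_cases h1 : a = v
    · subst h1
      rw [hv b hab]
      simp [hxv]
    by_cases h2 : b = v
    · subst h2
      rw [hv a hab.symm]
      simp [hxv]
    have h3 := ha a b hab h1 h2
    have h4 : idx a = idx x → idx b = idx x - 1 := fun h => hx b (hi h ▸ hab) h2
    have h5 : idx b = idx x → idx a = idx x - 1 := fun h => hx a (hi h ▸ hab.symm) h1
    simp only [h1, h2, if_false]
    split_ifs <;> omega

theorem lin_aux {V : Type} [Fintype V] (n : ℕ) : ∀ (Γ : SimpleGraph V), Γ.edgeSet.ncard = n →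
    (∀ x, ¬ Br Γ x) → (∀ W : Finset V, MD Γ W → W = ∅) →
    ∃ idx : V → ℤ, Function.Injective idx ∧
      ∀ x y, Γ.Adj x y → idx y = idx x + 1 ∨ idx y = idx x - 1 := by
  classical
  induction n using Nat.strong_induction_on with
  | _ n ih =>
  intro Γ hΓ hd hn
  by_cases h0 : ∃ a b, Γ.Adj a b
  swap
  · refine ⟨fun u => ((Fintype.equivFin V u : ℕ) : ℤ), fun a b hab => ?_,
      fun a b hab => (h0 ⟨a, b, hab⟩).elim⟩
    exact (Fintype.equivFin V).injective (Fin.ext (by simpa using hab))
  obtain ⟨a0, b0, h0⟩ := h0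
  have hW : ¬ MD Γ (univ.filter fun x => ∃ y, Γ.Adj x y) := fun h => by
    have : a0 ∈ (univ.filter fun x => ∃ y, Γ.Adj x y) := by simpa using ⟨b0, h0⟩
    rw [hn _ h] at this
    simp at this
  unfold MD at hW
  push Not at hW
  obtain ⟨v, hvW, hv⟩ := hW
  obtain ⟨x, hvx⟩ := (mem_filter.1 hvW).2
  have hv1 : ∀ a, Γ.Adj v a → a = x := fun a ha => by
    by_contra hne
    exact hv a (by simpa using ⟨v, ha.symm⟩) x (by simpa using ⟨v, hvx.symm⟩) hne ha hvx
  have hle : Γ.deleteEdges {s(v, x)} ≤ Γ := SimpleGraph.deleteEdges_le _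
  have hlt : (Γ.deleteEdges {s(v, x)}).edgeSet.ncard < n := by
    rw [← hΓ, SimpleGraph.edgeSet_deleteEdges]
    exact Set.ncard_sdiff_singleton_lt_of_mem hvx
  obtain ⟨idx, hi, ha⟩ := ih _ hlt _ rfl
    (fun u ⟨a, b, c, h1, h2, h3, h4⟩ => hd u ⟨a, b, c, hle h1, hle h2, hle h3, h4⟩)
    (fun W hW => hn W fun u hu => by
      obtain ⟨a, ha, b, hb, h1, h2, h3⟩ := hW u hu
      exact ⟨a, ha, b, hb, h1, hle h2, hle h3⟩)
  have ha' : ∀ a b, Γ.Adj a b → a ≠ v → b ≠ v → idx b = idx a + 1 ∨ idx b = idx a - 1 :=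
    fun a b hab h1 h2 => ha a b (by
      rw [SimpleGraph.deleteEdges_adj]
      refine ⟨hab, ?_⟩
      simp [h1, h2])
  by_cases hx : ∀ a, Γ.Adj x a → a ≠ v → idx a = idx x - 1
  · exact lin_step Γ v x hvx hv1 idx hi ha' hx
  · push Not at hx
    obtain ⟨a, h1, h2, h3⟩ := hx
    have h4 := ha' x a h1 hvx.ne' h2
    refine lin_step Γ v x hvx hv1 (fun u => -idx u) (fun a b h => hi (neg_injective h))
      (fun a b hab h1 h2 => ?_) (fun b hb hbv => ?_)
    · have := ha' a b hab h1 h2
      omega
    · have : b = a := by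
        by_contra hne
        exact hd x ⟨v, a, b, hvx.symm, h1, hb, h2.symm, hbv.symm, Ne.symm hne⟩
      subst this
      omega

theorem linfor {V : Type} [Fintype V] (Γ : SimpleGraph V) (hd : ∀ x, ¬ Br Γ x)
    (hn : ∀ W : Finset V, MD Γ W → W = ∅) :
    ∃ idx : V → ℤ, Function.Injective idx ∧
      ∀ x y, Γ.Adj x y → idx y = idx x + 1 ∨ idx y = idx x - 1 :=
  lin_aux _ Γ rfl hd hn

theorem lin_len {V : Type} [Fintype V] {G : SimpleGraph V} {y : ℕ → V} {s : ℕ}
    (h : PSeq G y s) : s < Fintype.card V := by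
  have := Finset.card_le_card_of_injOn (s := range (s + 1)) (t := (univ : Finset V)) y
    (fun _ _ => by simp) (fun i hi j hj hij =>
      h.2 i (by simpa [Nat.lt_succ_iff] using hi) j (by simpa [Nat.lt_succ_iff] using hj) hij)
  simpa using this

theorem pot {V : Type} [Fintype V] (G : SimpleGraph V) (w : V → V → ℤ) (π : V → ℤ)
    (hp : ∀ x y, G.Adj x y → (w x y - π y + π x) % 2 = 0)
    (h2 : ∀ x y, G.Adj x y → 0 ≤ w x y + w y x)
    (hc : ∀ y e, PSeq G y e → 2 ≤ e → G.Adj (y e) (y 0) →
      0 ≤ ∑ i ∈ range e, w (y i) (y (i + 1)) + w (y e) (y 0)) :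
    ∃ l : V → ℤ, (∀ x, (l x - π x) % 2 = 0) ∧ ∀ x y, G.Adj x y → l y - l x ≤ w x y := by
  classical
  obtain ⟨b1, hb1⟩ := (Set.finite_range π).bddBelow
  obtain ⟨b2, hb2⟩ := (Set.finite_range fun p : V × V => w p.1 p.2).bddBelow
  have hex : ∀ v, ∃ lb : ℤ, (∃ y s, PSeq G y s ∧ y s = v ∧
      lb = π (y 0) + ∑ i ∈ range s, w (y i) (y (i + 1))) ∧ ∀ z : ℤ, (∃ y s, PSeq G y s ∧ y s = v ∧
      z = π (y 0) + ∑ i ∈ range s, w (y i) (y (i + 1))) → lb ≤ z := fun v => by
    refine Int.exists_least_of_bdd ⟨b1 + Fintype.card V * min b2 0, ?_⟩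
      ⟨π v, fun _ => v, 0, ⟨fun i hi => by omega, fun i hi j hj _ => by omega⟩, rfl, by simp⟩
    rintro z ⟨y, s, hy, -, rfl⟩
    refine add_le_add (hb1 ⟨_, rfl⟩) ?_
    have k1 : (s : ℤ) * min b2 0 ≤ ∑ i ∈ range s, w (y i) (y (i + 1)) := by
      have := Finset.card_nsmul_le_sum (range s) (fun i => w (y i) (y (i + 1))) (min b2 0)
        fun i _ => (min_le_left _ _).trans (hb2 ⟨(y i, y (i + 1)), rfl⟩)
      simpa using this
    refine le_trans ?_ k1
    exact mul_le_mul_of_nonpos_right (by exact_mod_cast (lin_len hy).le) (min_le_right _ _)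
  choose l hl1 hl2 using hex
  have hpar : ∀ (y : ℕ → V) (s : ℕ), (∀ i < s, G.Adj (y i) (y (i + 1))) →
      (π (y 0) + ∑ i ∈ range s, w (y i) (y (i + 1)) - π (y s)) % 2 = 0 := by
    intro y s
    induction s with
    | zero => simp
    | succ s ih =>
      intro h
      have k1 := ih fun i hi => h i (by omega)
      have k2 := hp _ _ (h s (by omega))
      rw [sum_range_succ]
      omega
  refine ⟨l, fun x => ?_, fun x z hxz => ?_⟩
  · obtain ⟨y, s, hy, rfl, h⟩ := hl1 x
    rw [h]
    exact hpar y s hy.1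
  · obtain ⟨y, s, hy, rfl, h⟩ := hl1 x
    by_cases hz : ∃ j ≤ s, y j = z
    · obtain ⟨j, hj, rfl⟩ := hz
      have hjs : j ≠ s := by
        rintro rfl
        exact G.irrefl hxz
      obtain ⟨e, rfl⟩ : ∃ e, s = j + e := ⟨s - j, by omega⟩
      have k1 := hl2 (y j) _ ⟨y, j, ⟨fun i hi => hy.1 i (by omega),
        fun i hi i' hi' => hy.2 i (by omega) i' (by omega)⟩, rfl, rfl⟩
      rw [sum_range_add] at h
      have k2 : 0 ≤ ∑ i ∈ range e, w (y (j + i)) (y (j + i + 1)) + w (y (j + e)) (y j) := by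
        by_cases he : e = 1
        · subst he
          simpa using h2 _ _ hxz.symm
        · exact hc (fun i => y (j + i)) e ⟨fun i hi => hy.1 (j + i) (by omega),
            fun i hi i' hi' hh => by have := hy.2 _ (by omega) _ (by omega) hh; omega⟩
            (by omega) hxz
      omega
    · push Not at hz
      have hu : ∀ i ≤ s, Function.update y (s + 1) z i = y i := fun i hi =>
        Function.update_of_ne (by omega) _ _
      have hu' : Function.update y (s + 1) z (s + 1) = z := Function.update_self _ _ _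
      have k1 := hl2 z _ ⟨Function.update y (s + 1) z, s + 1, ⟨fun i hi => by
        by_cases his : i = s
        · subst his
          rw [hu i le_rfl, hu']
          exact hxz
        · rw [hu i (by omega), hu (i + 1) (by omega)]
          exact hy.1 i (by omega), fun i hi j hj hij => by
        by_cases h1 : i = s + 1 <;> by_cases h2 : j = s + 1
        · omega
        · rw [h1, hu', hu j (by omega)] at hij
          exact (hz j (by omega) hij.symm).elim
        · rw [h2, hu', hu i (by omega)] at hij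
          exact (hz i (by omega) hij).elim
        · rw [hu i (by omega), hu j (by omega)] at hij
          exact hy.2 i (by omega) j (by omega) hij⟩, hu', rfl⟩
      rw [sum_range_succ, hu 0 (by omega), hu s le_rfl, hu', sum_congr rfl fun i hi => by
        rw [hu i (by have := mem_range.1 hi; omega),
          hu (i + 1) (by have := mem_range.1 hi; omega)]] at k1
      omega

theorem forest_par {V : Type} (H : SimpleGraph V)
    (hH : ∀ y e, PSeq H y e → 2 ≤ e → ¬ H.Adj (y e) (y 0)) (ρ : V → V)
    (h1 : ∀ x, H.Reachable (ρ x) x) (h2 : ∀ x y, H.Adj x y → ρ x = ρ y) :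
    ∃ (par : V → V) (rk : V → ℕ), (∀ x, ρ x ≠ x → H.Adj x (par x) ∧ rk (par x) < rk x) ∧
      ∀ x y, H.Adj x y → (ρ x ≠ x ∧ par x = y) ∨ (ρ y ≠ y ∧ par y = x) := by
  classical
  have hac : H.IsAcyclic := by
    intro v c hcyc
    have h3 := hcyc.three_le_length
    refine hH c.getVert (c.length - 1) ⟨fun i hi => c.adj_getVert_succ (by omega),
      fun i hi j hj hij => hcyc.getVert_injOn' hi hj hij⟩ (by omega) ?_
    have := c.adj_getVert_succ (i := c.length - 1) (by omega)
    rw [show c.length - 1 + 1 = c.length by omega, c.getVert_length] at this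
    rw [c.getVert_zero]
    exact this
  choose p hp using fun x => (h1 x).exists_isPath
  have key : ∀ (r x : V) (q : H.Walk r x), r = ρ x → q.IsPath →
      (p x).length = q.length ∧ (p x).penultimate = q.penultimate := by
    rintro r x q rfl hq
    have : p x = q := Subtype.mk.inj ((hac.subsingleton_path _ _).elim ⟨p x, hp x⟩ ⟨q, hq⟩)
    rw [this]
    exact ⟨rfl, rfl⟩
  refine ⟨fun x => (p x).penultimate, fun x => (p x).length, fun x hx => ?_, fun x y hxy => ?_⟩
  · have hnil : ¬ (p x).Nil := SimpleGraph.Walk.not_nil_of_ne hx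
    have hadj := ((p x).adj_penultimate hnil).symm
    refine ⟨hadj, ?_⟩
    have k1 := (key _ _ (p x).dropLast (h2 _ _ hadj) (hp x).dropLast).1
    have k2 := SimpleGraph.Walk.length_dropLast_add_one hnil
    simp only
    omega
  · by_cases hy : y ∈ (p x).support
    · have hx := SimpleGraph.Walk.endpoint_notMem_support_takeUntil (hp x) hy hxy.ne
      refine Or.inl ⟨fun h => hx ?_, ?_⟩
      · have := ((p x).takeUntil y hy).start_mem_support
        generalize ((p x).takeUntil y hy).support = L at this ⊢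
        rwa [h] at this
      · have := (key _ _ (((p x).takeUntil y hy).concat hxy.symm) rfl
          (((hp x).takeUntil hy).concat hx _)).2
        rwa [SimpleGraph.Walk.penultimate_concat] at this
    · refine Or.inr ⟨fun h => hy ?_, ?_⟩
      · have := (p x).start_mem_support
        generalize (p x).support = L at this ⊢
        rwa [h2 x y hxy, h] at this
      · have := (key _ _ ((p x).concat hxy) (h2 x y hxy) ((hp x).concat hy _)).2
        rwa [SimpleGraph.Walk.penultimate_concat] at this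

/-- reachable points are joined by a path sequence -/
theorem pseq_of_reach {V : Type} {H : SimpleGraph V} {a b : V} (h : H.Reachable a b) :
    ∃ y e, PSeq H y e ∧ y 0 = a ∧ y e = b := by
  obtain ⟨p, hp⟩ := h.exists_isPath
  exact ⟨p.getVert, p.length, ⟨fun i hi => p.adj_getVert_succ hi,
    fun i hi j hj hij => hp.getVert_injOn hi hj hij⟩, p.getVert_zero, p.getVert_length⟩

end Pool.Agent.Lib.MP_b735d7_co
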