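import Pool.Agent.Lib.MP_b735d7_co.Base
import Pool.Agent.Lib.MP_b735d7_co.Lin

/-!
Block data from rigid, short and free edges.
-/

namespace Pool.Agent.Lib.MP_b735d7_co

open Finset

variable {V : Type} [LinearOrder V] [Fintype V]

/-- `x` is joined inside a class of `b` to an edge of kind `F` inside this class -/
def FrB {V : Type} (G : SimpleGraph V) (F : V → V → Prop) (b : V → ℤ) (x : V) : Prop :=
  ∃ u v, Relation.ReflTransGen (fun a c => G.Adj a c ∧ b a = b c) x u ∧ F u v ∧ b u = b v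

lemma mk_frb {V : Type} {G : SimpleGraph V} {F : V → V → Prop} {b : V → ℤ} {x y : V}
    (h : G.Adj x y) (hb : b x = b y) (hx : FrB G F b x) : FrB G F b y := by
  obtain ⟨u, v, h1, h2, h3⟩ := hx
  exact ⟨u, v, h1.head ⟨h.symm, hb.symm⟩, h2, h3⟩

omit [Fintype V] in
lemma mk_below {G : SimpleGraph V} {R : V → V → Prop} (hR : ∀ a c, R a c → a < c ∧ G.Adj a c)
    {m z : V} (h : Relation.ReflTransGen R m z) : m = z ∨ Below G m z := by
  rcases Relation.reflTransGen_iff_eq_or_transGen.1 h with h | h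
  · exact Or.inl h.symm
  · exact Or.inr (Relation.TransGen.mono hR _ _ h)

theorem bd_mk {G : SimpleGraph V} {l : V → ℤ} (Z : V → Prop) (par : V → V) (rk : V → ℕ)
    (S F : V → V → Prop) (flat : V → Prop) (μ : V → V)
    (a1 : ∀ x, ¬ Z x → G.Adj x (par x) ∧ rk (par x) < rk x ∧
      (par x < x → l x = l (par x) + 1 - l (par x) % 2) ∧
      (x < par x → l x = l (par x) + l (par x) % 2))
    (a2 : ∀ x y, G.Adj x y → F x y ∨ S x y ∨ (¬ Z x ∧ par x = y) ∨ (¬ Z y ∧ par y = x))
    (a3 : ∀ x y, S x y → Z x ∧ G.Adj x y ∧ S y x)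
    (a4 : ∀ x, FrB G F (blk l) x → ¬ Br G x ∧ ∀ y, ¬ S x y)
    (a5 : ∀ x, ∃ m, G.Reachable x m ∧ ¬ FrB G F (blk l) m)
    (a6 : ∀ x a b c, S x a → S x b → S x c → a ≠ b → c = a ∨ c = b)
    (a7 : ∀ x y, S x y → flat x → flat y ∧ μ x = μ y)
    (a8 : ∀ x, flat x → (∃ y, S x y) ∧ (l x % 2 = 1 → μ x = x) ∧
      Relation.ReflTransGen (fun a c => a < c ∧ S a c ∧ blk l a = blk l c) x (μ x))
    (a9 : ∀ x y, S x y → ¬ flat x → ∃ u, Relation.ReflTransGen S x u ∧ blk l u ≠ blk l x) :
    BD G l := by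
  classical
  let root : V → Prop := fun x => Z x ∨ blk l (par x) ≠ blk l x ∨ FrB G F (blk l) x
  have edge : ∀ x y, G.Adj x y → blk l x = blk l y → FrB G F (blk l) x ∨ S x y ∨
      (¬ root x ∧ par x = y) ∨ (¬ root y ∧ par y = x) := by
    intro x y h hb
    by_cases hx : FrB G F (blk l) x
    · exact Or.inl hx
    have hy : ¬ FrB G F (blk l) y := fun k => hx (mk_frb h.symm hb.symm k)
    rcases a2 x y h with k | k | ⟨k, e⟩ | ⟨k, e⟩
    · exact Or.inl ⟨x, y, .refl, k, hb⟩
    · exact Or.inr (Or.inl k)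
    · refine Or.inr (Or.inr (Or.inl ⟨?_, e⟩))
      rintro (r | r | r)
      · exact k r
      · exact r (e ▸ hb.symm)
      · exact hx r
    · refine Or.inr (Or.inr (Or.inr ⟨?_, e⟩))
      rintro (r | r | r)
      · exact k r
      · exact r (e ▸ hb)
      · exact hy r
  have back : ∀ x y, S x y → ¬ flat x → ¬ flat y := fun x y h hx hy =>
    hx (a7 y x (a3 x y h).2.2 hy).1
  have nfl : ∀ x, FrB G F (blk l) x → ¬ flat x := fun x h hx => by
    obtain ⟨y, hy⟩ := (a8 x hx).1
    exact (a4 x h).2 y hy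
  let Γ : SimpleGraph V :=
    { Adj := fun x y => G.Adj x y ∧ blk l x = blk l y ∧
        (FrB G F (blk l) x ∨ (S x y ∧ ¬ flat x))
      symm := ⟨fun x y h => ⟨h.1.symm, h.2.1.symm, h.2.2.imp (mk_frb h.1 h.2.1)
        fun k => ⟨(a3 x y k.1).2.2, back x y k.1 k.2⟩⟩⟩
      loopless := ⟨fun x h => G.irrefl h.1⟩ }
  have hd : ∀ x, ¬ Br Γ x := by
    rintro x ⟨a, b, c, ha, hb, hc, ab, ac, bc⟩
    by_cases hx : FrB G F (blk l) x
    · exact (a4 x hx).1 ⟨a, b, c, ha.1, hb.1, hc.1, ab, ac, bc⟩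
    · rcases a6 x a b c (ha.2.2.resolve_left hx).1 (hb.2.2.resolve_left hx).1
        (hc.2.2.resolve_left hx).1 ab with e | e
      · exact ac e.symm
      · exact bc e.symm
  have hn : ∀ W : Finset V, MD Γ W → W = ∅ := by
    intro W hW
    by_contra hne
    obtain ⟨x, hxW⟩ := nonempty_iff_ne_empty.2 hne
    by_cases hx : FrB G F (blk l) x
    · obtain ⟨m, hm, hm'⟩ := a5 x
      have all : ∀ y, Relation.ReflTransGen G.Adj x y → y ∈ W ∧ FrB G F (blk l) y := by
        intro y hy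
        induction hy with
        | refl => exact ⟨hxW, hx⟩
        | @tail y z _ hyz ih =>
          obtain ⟨a, ha, b, hb, ab, ya, yb⟩ := hW y ih.1
          by_cases e1 : z = a
          · exact e1 ▸ ⟨ha, mk_frb ya.1 ya.2.1 ih.2⟩
          by_cases e2 : z = b
          · exact e2 ▸ ⟨hb, mk_frb yb.1 yb.2.1 ih.2⟩
          exact absurd ⟨a, b, z, ya.1, yb.1, hyz, ab, Ne.symm e1, Ne.symm e2⟩ (a4 y ih.2).1
      exact hm' (all m ((SimpleGraph.reachable_iff_reflTransGen x m).1 hm)).2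
    · obtain ⟨a, -, -, -, -, xa, -⟩ := hW x hxW
      obtain ⟨u, hu, hu'⟩ := a9 x a (xa.2.2.resolve_left hx).1 (xa.2.2.resolve_left hx).2
      have all : ∀ y, Relation.ReflTransGen S x y →
          y ∈ W ∧ ¬ FrB G F (blk l) y ∧ blk l y = blk l x := by
        intro y hy
        induction hy with
        | refl => exact ⟨hxW, hx, rfl⟩
        | @tail y z _ hyz ih =>
          obtain ⟨a, ha, b, hb, ab, ya, yb⟩ := hW y ih.1
          rcases a6 y a b z (ya.2.2.resolve_left ih.2.1).1 (yb.2.2.resolve_left ih.2.1).1 hyz ab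
            with e | e
          · exact e ▸ ⟨ha, fun k => ih.2.1 (mk_frb ya.1.symm ya.2.1.symm k),
              ya.2.1.symm.trans ih.2.2⟩
          · exact e ▸ ⟨hb, fun k => ih.2.1 (mk_frb yb.1.symm yb.2.1.symm k),
              yb.2.1.symm.trans ih.2.2⟩
      exact hu' (all u hu).2.2
  obtain ⟨ix, hinj, hstep⟩ := linfor Γ hd hn
  have rr : ∀ x y, RR G l root x y → FrB G F (blk l) x ∨ S x y := by
    rintro x y ⟨-, h, rx, ry, hb⟩
    rcases edge x y h hb with k | k | k | k
    · exact Or.inl k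
    · exact Or.inr k
    · exact absurd rx k.1
    · exact absurd ry k.1
  refine ⟨root, par, rk, fun x => ix (if flat x then μ x else x), ?_, ?_, ?_⟩
  · intro x hx
    have h1 : ¬ Z x := fun k => hx (Or.inl k)
    have h2 : blk l (par x) = blk l x := by
      by_contra k
      exact hx (Or.inr (Or.inl k))
    obtain ⟨k1, k2, k3, k4⟩ := a1 x h1
    refine ⟨k1, h2, k2, ?_⟩
    unfold blk at h2
    rcases lt_or_gt_of_ne k1.ne with h | h
    · have := k4 h
      exact ⟨fun k => by omega, fun _ => h⟩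
    · have := k3 h
      exact ⟨fun _ => ⟨h, by omega⟩, fun k => by omega⟩
  · intro x y h hb
    rcases edge x y h hb with k | k | k | k
    · exact Or.inl ⟨Or.inr (Or.inr k), Or.inr (Or.inr (mk_frb h hb k))⟩
    · exact Or.inl ⟨Or.inl (a3 x y k).1, Or.inl (a3 y x (a3 x y k).2.2).1⟩
    · exact Or.inr (Or.inl k)
    · exact Or.inr (Or.inr k)
  · intro m z1 z2 z _ _ hz _ r1 r2 i1 i2
    have ez : (if flat z then μ z else z) = z := by
      split_ifs with h
      · exact (a8 z h).2.1 hz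
      · rfl
    simp only [ez] at i1 i2
    by_cases hm : flat m
    · have all : ∀ y, Relation.ReflTransGen (RR G l root) m y → flat y ∧ μ m = μ y := by
        intro y hy
        induction hy with
        | refl => exact ⟨hm, rfl⟩
        | @tail y w _ hyw ih =>
          have := a7 y w ((rr y w hyw).resolve_left fun k => nfl y k ih.1) ih.1
          exact ⟨this.1, ih.2.trans this.2⟩
      rw [if_pos (all z1 r1).1, ← (all z1 r1).2] at i1
      rw [if_pos (all z2 r2).1, ← (all z2 r2).2] at i2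
      have e : μ m = z := hinj (le_antisymm i1 i2)
      exact mk_below (fun a c h => ⟨h.1, (a3 a c h.2.1).2.1⟩) (e ▸ (a8 m hm).2.2)
    · have all : ∀ y, Relation.ReflTransGen (RR G l root) m y → ¬ flat y ∧
          ∀ t, (ix y ≤ t ∧ t ≤ ix m) ∨ (ix m ≤ t ∧ t ≤ ix y) →
            ∃ w, Relation.ReflTransGen (RR G l root) m w ∧ ix w = t := by
        intro y hy
        induction hy with
        | refl => exact ⟨hm, fun t ht => ⟨m, .refl, by omega⟩⟩
        | @tail y w hy hyw ih =>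
          have k := rr y w hyw
          have hs := hstep y w ⟨hyw.2.1, hyw.2.2.2.2, k.imp id fun s => ⟨s, ih.1⟩⟩
          refine ⟨k.elim (fun s => nfl w (mk_frb hyw.2.1 hyw.2.2.2.2 s)) fun s => back y w s ih.1,
            fun t ht => ?_⟩
          by_cases e : ix w = t
          · exact ⟨w, hy.tail hyw, e⟩
          · exact ih.2 t (by omega)
      rw [if_neg (all z1 r1).1] at i1
      rw [if_neg (all z2 r2).1] at i2
      have : ∃ w, Relation.ReflTransGen (RR G l root) m w ∧ ix w = ix z := by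
        rcases le_total (ix z) (ix m) with h | h
        · exact (all z1 r1).2 _ (Or.inl ⟨i1, h⟩)
        · exact (all z2 r2).2 _ (Or.inr ⟨h, i2⟩)
      obtain ⟨w, hw, e⟩ := this
      exact mk_below (fun a c h => ⟨h.1, h.2.1⟩) (hinj e ▸ hw)

end Pool.Agent.Lib.MP_b735d7_co
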