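import Pool.Agent.Lib.MP_b735d7_co.Base

/-!
Short cycles.
-/

namespace Pool.Agent.Lib.MP_b735d7_co

open Finset

variable {V : Type} {G : SimpleGraph V} {T : ℕ}

lemma sho_union [DecidableEq V] {W W' : Finset V} (h : MD G W) (h' : MD G W') : MD G (W ∪ W') := by
  intro x hx
  rcases mem_union.1 hx with hx | hx
  · obtain ⟨a, ha, b, hb, k⟩ := h x hx
    exact ⟨a, mem_union_left _ ha, b, mem_union_left _ hb, k⟩
  · obtain ⟨a, ha, b, hb, k⟩ := h' x hx
    exact ⟨a, mem_union_right _ ha, b, mem_union_right _ hb, k⟩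

lemma sho_prop {R : ℕ} (h1 : H1 G R) {W0 W : Finset V} (hs : W0 ⊆ W) (h0 : MD G W0) (hW : MD G W)
    (hc : W.card ≤ R) {x z : V} (hx : x ∈ W0) (hz : z ∈ W) (ha : G.Adj x z) : z ∈ W0 := by
  obtain ⟨a, ha', b, hb', hab, k1, k2⟩ := h0 x hx
  rcases h1 W hc hW x (hs hx) a (hs ha') b (hs hb') z hz k1 k2 ha hab with rfl | rfl
  · exact ha'
  · exact hb'

lemma sho_seg [DecidableEq V] {y : ℕ → V} {e j k : ℕ} (hy : PSeq G y e) (hk : k ≤ e)
    {W : Finset V} (hW : MD G W) (hj : y j ∈ W) (hk' : y k ∈ W) :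
    MD G (W ∪ (Icc j k).image y) := by
  intro x hx
  have old : x ∈ W → ∃ a ∈ W ∪ (Icc j k).image y, ∃ b ∈ W ∪ (Icc j k).image y,
      a ≠ b ∧ G.Adj x a ∧ G.Adj x b := fun hx => by
    obtain ⟨a, ha, b, hb, k⟩ := hW x hx
    exact ⟨a, mem_union_left _ ha, b, mem_union_left _ hb, k⟩
  rcases mem_union.1 hx with hx | hx
  · exact old hx
  obtain ⟨i, hi, rfl⟩ := mem_image.1 hx
  rw [mem_Icc] at hi
  by_cases h1 : i = j
  · exact old (h1 ▸ hj)
  by_cases h2 : i = k
  · exact old (h2 ▸ hk')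
  obtain ⟨m, rfl⟩ : ∃ m, i = m + 1 := ⟨i - 1, by omega⟩
  refine ⟨y m, mem_union_right _ (mem_image_of_mem _ (mem_Icc.2 (by omega))), y (m + 1 + 1),
    mem_union_right _ (mem_image_of_mem _ (mem_Icc.2 (by omega))), fun h => ?_,
    (hy.1 m (by omega)).symm, hy.1 (m + 1) (by omega)⟩
  have := hy.2 m (by omega) (m + 1 + 1) (by omega) h
  omega

lemma sho_seg_prop {R : ℕ} (h1 : H1 G R) {y : ℕ → V} {e j k : ℕ} (hy : PSeq G y e) (hk : k ≤ e)
    {W0 W1 : Finset V} (h0 : MD G W0) (h1' : MD G W1) (hj : y j ∈ W0) (hk' : y k ∈ W1)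
    (hc : W0.card + W1.card + (k + 1 - j) ≤ R) : ∀ i, j ≤ i → i ≤ k → y i ∈ W0 := by
  classical
  have hW := sho_seg hy hk (sho_union h0 h1') (mem_union_left _ hj) (mem_union_right _ hk')
  have hcard : ((W0 ∪ W1) ∪ (Icc j k).image y).card ≤ R := by
    have a1 := card_union_le (W0 ∪ W1) ((Icc j k).image y)
    have a2 := card_union_le W0 W1
    have a3 : ((Icc j k).image y).card ≤ (Icc j k).card := card_image_le
    rw [Nat.card_Icc] at a3
    omega
  intro i hi
  induction i, hi using Nat.le_induction with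
  | base => exact fun _ => hj
  | succ i hi ih =>
    intro h
    exact sho_prop h1 (subset_union_left.trans subset_union_left) h0 hW hcard (ih (by omega))
      (mem_union_right _ (mem_image_of_mem _ (mem_Icc.2 (by omega)))) (hy.1 i (by omega))

lemma sho_cyc [DecidableEq V] {y : ℕ → V} {e : ℕ} (hy : PSeq G y e) (he : 2 ≤ e)
    (hc : G.Adj (y e) (y 0)) : MD G ((range (e + 1)).image y) := by
  intro x hx
  obtain ⟨i, hi, rfl⟩ := mem_image.1 hx
  rw [mem_range] at hi
  have mem : ∀ m, m ≤ e → y m ∈ (range (e + 1)).image y := fun m hm =>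
    mem_image_of_mem _ (mem_range.2 (by omega))
  by_cases h1 : i = 0
  · subst h1
    refine ⟨y 1, mem 1 (by omega), y e, mem e le_rfl, fun h => ?_, hy.1 0 (by omega), hc.symm⟩
    have := hy.2 1 (by omega) e le_rfl h
    omega
  obtain ⟨m, rfl⟩ : ∃ m, i = m + 1 := ⟨i - 1, by omega⟩
  by_cases h2 : m + 1 = e
  · refine ⟨y m, mem m (by omega), y 0, mem 0 (by omega), fun h => ?_, (hy.1 m (by omega)).symm,
      h2 ▸ hc⟩
    have := hy.2 m (by omega) 0 (by omega) h
    omega
  · refine ⟨y m, mem m (by omega), y (m + 1 + 1), mem _ (by omega), fun h => ?_,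
      (hy.1 m (by omega)).symm, hy.1 (m + 1) (by omega)⟩
    have := hy.2 m (by omega) (m + 1 + 1) (by omega) h
    omega

lemma ss_two {x : V} (h : SS G T x) : ∃ a b, a ≠ b ∧ Sh G T x a ∧ Sh G T x b := by
  obtain ⟨y, -, W, hc, hW, hx, -⟩ := h
  obtain ⟨a, ha, b, hb, hab, k1, k2⟩ := hW x hx
  exact ⟨a, b, hab, ⟨k1, W, hc, hW, hx, ha⟩, ⟨k2, W, hc, hW, hx, hb⟩⟩

lemma sh_three (h1 : H1 G (10002 * T)) {x a b c : V} (ha : Sh G T x a) (hb : Sh G T x b)
    (hc : Sh G T x c) (hab : a ≠ b) : c = a ∨ c = b := by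
  classical
  obtain ⟨k1, W1, c1, m1, x1, y1⟩ := ha
  obtain ⟨k2, W2, c2, m2, -, y2⟩ := hb
  obtain ⟨k3, W3, c3, m3, -, y3⟩ := hc
  have a1 := card_union_le (W1 ∪ W2) W3
  have a2 := card_union_le W1 W2
  exact h1 (W1 ∪ W2 ∪ W3) (by omega) (sho_union (sho_union m1 m2) m3) x
    (mem_union_left _ (mem_union_left _ x1)) a (mem_union_left _ (mem_union_left _ y1)) b
    (mem_union_left _ (mem_union_right _ y2)) c (mem_union_right _ y3) k1 k2 k3 hab

/-- the edges of a cycle with at most `T` vertices are short -/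
lemma cyc_sh {y : ℕ → V} {e : ℕ} (hy : PSeq G y e) (he : 2 ≤ e) (hc : G.Adj (y e) (y 0))
    (hT : e + 1 ≤ T) : (∀ i < e, Sh G T (y i) (y (i + 1))) ∧ Sh G T (y e) (y 0) := by
  classical
  have hW := sho_cyc hy he hc
  have hcard : ((range (e + 1)).image y).card ≤ T :=
    card_image_le.trans (by rw [card_range]; exact hT)
  have mem : ∀ m, m ≤ e → y m ∈ (range (e + 1)).image y := fun m hm =>
    mem_image_of_mem _ (mem_range.2 (by omega))
  exact ⟨fun i hi => ⟨hy.1 i hi, _, hcard, hW, mem i (by omega), mem (i + 1) (by omega)⟩,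
    hc, _, hcard, hW, mem e le_rfl, mem 0 (by omega)⟩

lemma ss_short_path (h1 : H1 G (10002 * T)) {y : ℕ → V} {e : ℕ} (hy : PSeq G y e) (he : 1 ≤ e)
    (hT : e + 1 ≤ 10000 * T) (h0 : SS G T (y 0)) (hl : SS G T (y e)) : Sh G T (y 0) (y 1) := by
  obtain ⟨_, -, W0, c0, m0, x0, -⟩ := h0
  obtain ⟨_, -, W1, c1, m1, x1, -⟩ := hl
  exact ⟨hy.1 0 (by omega), W0, c0, m0, x0,
    sho_seg_prop h1 hy le_rfl m0 m1 x0 x1 (by omega) 1 (by omega) he⟩

lemma ss_cyc (h1 : H1 G (10002 * T)) {y : ℕ → V} {e : ℕ} (hy : PSeq G y e) (he : 2 ≤ e)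
    (hc : G.Adj (y e) (y 0)) (hT : T ≤ e) (hT' : e + 1 ≤ 10000 * T) : cnt (SS G T) y e = 0 := by
  classical
  unfold cnt
  rw [card_eq_zero, filter_eq_empty_iff]
  rintro i hi ⟨_, -, W0, c0, m0, x0, -⟩
  rw [mem_range] at hi
  have hW := sho_union m0 (sho_cyc hy he hc)
  have hcard : (W0 ∪ (range (e + 1)).image y).card ≤ 10002 * T := by
    have a1 := card_union_le W0 ((range (e + 1)).image y)
    have a2 : ((range (e + 1)).image y).card ≤ (range (e + 1)).card := card_image_le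
    rw [card_range] at a2
    omega
  have mem : ∀ m, m ≤ e → y m ∈ W0 ∪ (range (e + 1)).image y := fun m hm =>
    mem_union_right _ (mem_image_of_mem _ (mem_range.2 (by omega)))
  have up : ∀ d, i + d ≤ e → y (i + d) ∈ W0 := by
    intro d
    induction d with
    | zero => exact fun _ => x0
    | succ d ih =>
      intro h
      exact sho_prop h1 subset_union_left m0 hW hcard (ih (by omega)) (mem _ h)
        (hy.1 (i + d) (by omega))
  have he' : y e ∈ W0 := by
    have := up (e - i) (by omega)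
    rwa [show i + (e - i) = e by omega] at this
  have all : ∀ m, m ≤ e → y m ∈ W0 := by
    intro m
    induction m with
    | zero => exact fun h => sho_prop h1 subset_union_left m0 hW hcard he' (mem 0 h) hc
    | succ m ih =>
      intro h
      exact sho_prop h1 subset_union_left m0 hW hcard (ih (by omega)) (mem _ h) (hy.1 m (by omega))
  have : (range (e + 1)).card ≤ W0.card :=
    card_le_card_of_injOn y (fun m hm => all m (by have := mem_range.1 hm; omega))
      fun a ha b hb h => hy.2 a (by have := mem_range.1 ha; omega) b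
        (by have := mem_range.1 hb; omega) h
  rw [card_range] at this
  omega

lemma ss_long {τ : ℕ} (hτ : 1 ≤ τ) (hT : T = 20000 * τ) (h1 : H1 G (10002 * T)) {y : ℕ → V}
    {e : ℕ} (hy : PSeq G y e) (he : 10000 * T ≤ e + 1) :
    cnt (SS G T) y e ≤ 16 * τ * ((e + 1) / (T + 1)) := by
  classical
  obtain ⟨N, hN⟩ : ∃ N, N = 10000 * T := ⟨_, rfl⟩
  have hN0 : 0 < N := by omega
  have key : cnt (SS G T) y e ≤ T * (range (e / N + 1)).card := by
    unfold cnt
    refine card_le_mul_card_image_of_maps_to (f := fun i => i / N) (fun i hi => ?_) T fun w _ => ?_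
    · have := mem_range.1 (mem_filter.1 hi).1
      exact mem_range.2 (Nat.lt_succ_of_le (Nat.div_le_div_right (by omega)))
    · generalize hA : ({a ∈ {i ∈ range (e + 1) | SS G T (y i)} | a / N = w} : Finset ℕ) = A
      have hA' : ∀ i ∈ A, i ≤ e ∧ SS G T (y i) ∧ i / N = w := by
        intro i hi
        rw [← hA, mem_filter, mem_filter, mem_range] at hi
        exact ⟨by omega, hi.1.2, hi.2⟩
      rcases A.eq_empty_or_nonempty with rfl | hne
      · simp
      obtain ⟨j, hj, hmin⟩ := exists_min_image A id hne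
      obtain ⟨j1, ⟨_, -, W0, c0, m0, x0, -⟩, j3⟩ := hA' j hj
      refine le_trans (card_le_card_of_injOn y (fun k hk => ?_) fun a ha b hb h => ?_) c0
      · obtain ⟨k1, ⟨_, -, W1, c1, m1, x1, -⟩, k3⟩ := hA' k hk
        have hjk : j ≤ k := hmin k hk
        have e1 := Nat.div_add_mod j N
        have e2 := Nat.div_add_mod k N
        have e3 := Nat.mod_lt k hN0
        rw [j3] at e1
        rw [k3] at e2
        exact sho_seg_prop h1 hy k1 m0 m1 x0 x1 (by omega) k hjk le_rfl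
      · exact hy.2 a (hA' a ha).1 b (hA' b hb).1 h
  rw [card_range] at key
  refine key.trans ?_
  have e1 : e / N * N ≤ e := Nat.div_mul_le_self e N
  have e2 : e + 1 < (T + 1) * ((e + 1) / (T + 1) + 1) := Nat.lt_mul_div_succ _ (by omega)
  have e3 : 1 ≤ (e + 1) / (T + 1) := (Nat.le_div_iff_mul_le (by omega)).2 (by omega)
  generalize e / N = u at *
  generalize (e + 1) / (T + 1) = q at *
  have e4 : (T + 1) * (q + 1) ≤ (2 * T) * (2 * q) := Nat.mul_le_mul (by omega) (by omega)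
  have e5 : T * (10000 * (u + 1)) ≤ T * (8 * q) := by
    rw [hN] at e1
    nlinarith
  have e6 : 10000 * (u + 1) ≤ 8 * q := Nat.le_of_mul_le_mul_left e5 (by omega)
  rw [hT]
  nlinarith

end Pool.Agent.Lib.MP_b735d7_co
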