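import Pool.Agent.Lib.MP_b735d7_co.Base
import Pool.Agent.Lib.MP_b735d7_co.Sho
import Pool.Agent.Lib.MP_b735d7_co.Mk

/-!
Free edges are far from the kernel.
-/

namespace Pool.Agent.Lib.MP_b735d7_co

open Finset

lemma far_nbr {V : Type} {G : SimpleGraph V} {x a b c : V} (h : ¬ Br G x) (ha : G.Adj x a)
    (hb : G.Adj x b) (hab : a ≠ b) (hc : G.Adj x c) : c = a ∨ c = b := by
  by_contra k
  push Not at k
  exact h ⟨a, b, c, ha, hb, hc, hab, k.1.symm, k.2.symm⟩

lemma far_ss_all {V : Type} {G : SimpleGraph V} {T : ℕ} {x y : V} (h : ¬ Br G x)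
    (hx : SS G T x) (hy : G.Adj x y) : Sh G T x y := by
  obtain ⟨a, b, hab, ha, hb⟩ := ss_two hx
  rcases far_nbr h ha.1 hb.1 hab hy with rfl | rfl
  · exact ha
  · exact hb

section aux

variable {V : Type} [LinearOrder V] {G : SimpleGraph V} {T : ℕ} {Z : V → Prop}
  {par : V → V} {rk : V → ℕ} {ψ : V → ℤ}

lemma far_stub_one {x y : V} (hx : KK G x) (h : G.Adj x y) : Stub G x y := by
  refine ⟨fun i => if i = 0 then x else y, 0, ⟨?_, ?_⟩, by simpa using hx, by simp, by simp, ?_⟩
  · intro i hi
    have : i = 0 := by omega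
    subst this
    simpa using h
  · intro i hi
    omega
  · have : Ioo 0 (0 + 1) = (∅ : Finset ℕ) := by decide
    simp [valCount, this]

lemma far_stub_ext {u x y : V} (h : Stub G u x) (hy : G.Adj x y) (hne : y ≠ u)
    (hv : ¬ (x < u ∧ x < y)) : Stub G x y := by
  classical
  obtain ⟨z, r, hz, hk, rfl, rfl, hc⟩ := h
  refine ⟨fun i => if i ≤ r + 1 then z i else y, r + 1, ⟨?_, ?_⟩, by simpa using hk, by simp,
    by simp, le_trans ?_ hc⟩
  · intro i hi
    by_cases h1 : i + 1 ≤ r + 1
    · have h2 : i ≤ r + 1 := by omega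
      simp only [h1, h2, if_true]
      exact hz.1 i (by omega)
    · have h2 : i = r + 1 := by omega
      subst h2
      simpa using hy
  · intro i hi
    by_cases h1 : i + 2 ≤ r + 1
    · have h2 : i ≤ r + 1 := by omega
      simp only [h1, h2, if_true]
      exact hz.2 i h1
    · have h2 : i = r := by omega
      subst h2
      simpa using hne
  · unfold valCount
    refine card_le_card fun i hi => ?_
    simp only [mem_filter, mem_Ioo, ValAt] at hi ⊢
    obtain ⟨⟨h0, h1⟩, h2, h3⟩ := hi
    by_cases h4 : i = r + 1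
    · subst h4
      exact absurd ⟨by simpa using h2, by simpa using h3⟩ hv
    · have e1 : i ≤ r + 1 := by omega
      have e2 : i - 1 ≤ r + 1 := by omega
      have e3 : i + 1 ≤ r + 1 := by omega
      simp only [e1, e2, e3, if_true] at h2 h3
      exact ⟨⟨h0, by omega⟩, h2, h3⟩

lemma far_stub_init {x u : V} (h : Stub G x u) (hx : ¬ KK G x) : ∃ w, w ≠ u ∧ Stub G w x := by
  classical
  obtain ⟨z, r, hz, hk, rfl, rfl, hc⟩ := h
  cases r with
  | zero => exact absurd hk hx
  | succ r =>
    refine ⟨z r, (hz.2 r (by omega)).symm, z, r, ⟨fun i hi => hz.1 i (by omega),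
      fun i hi => hz.2 i (by omega)⟩, hk, rfl, rfl, le_trans ?_ hc⟩
    unfold valCount
    exact card_le_card (filter_subset_filter _ (Ioo_subset_Ioo le_rfl (by omega)))

lemma far_hp_rigid {x y : V} (h : (HP G T).Adj x y) : Rigid G T x y := Or.inr h.1

lemma far_hp {x y : V} (h : Rigid G T x y) (hn : ¬ Sh G T x y) : (HP G T).Adj x y :=
  ⟨h.resolve_left hn, hn⟩

lemma far_notZ (hs : Skel G T Z par rk ψ) {x y : V} (h1 : ¬ KK G x) (h2 : ¬ SS G T x)
    (h : (HP G T).Adj x y) : ¬ Z x := fun k => by
  rcases hs.p4 x k with a | a | a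
  · exact h2 a
  · exact h1 a
  · exact a y h

lemma far_step (hs : Skel G T Z par rk ψ) {x : V} (h : ¬ Z x) :
    ψ (par x) ≤ ψ x ∧ ψ x ≤ ψ (par x) + 1 := by
  have hne : x ≠ par x := (hs.p1 x h).1.ne
  rcases lt_or_gt_of_ne hne with k | k
  · have := (hs.p5 x h).2 k
    omega
  · have := (hs.p5 x h).1 k
    omega

lemma far_mono (hs : Skel G T Z par rk ψ) {x p c : V} (h1 : ¬ KK G x) (h2 : ¬ SS G T x)
    (hp : G.Adj x p) (hne : c ≠ p) (hc : ¬ Z c) (hpar : par c = x)
    (hv : ¬ ((x < p ∧ x < c) ∨ (p < x ∧ c < x))) : ψ c = ψ x := by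
  have a1 := hs.p1 c hc
  rw [hpar] at a1
  have hx : ¬ Z x := far_notZ hs h1 h2 a1.1.symm
  have a2 := hs.p1 x hx
  have hxc : G.Adj x c := (far_hp_rigid a1.1).adj.symm
  have hpx : par x = p := by
    rcases far_nbr (fun k => h1 (Or.inl k)) hxc hp hne (far_hp_rigid a2.1).adj with k | k
    · rw [k] at a2
      omega
    · exact k
  have b1 := hs.p5 c hc
  have b2 := hs.p5 x hx
  rw [hpar] at b1
  rw [hpx] at b2
  rcases lt_or_gt_of_ne hp.ne with k | k <;> rcases lt_or_gt_of_ne hxc.ne with k' | k'
  · exact absurd (Or.inl ⟨k, k'⟩) hv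
  · have := b1.2 k'
    have := b2.2 k
    omega
  · have := b1.1 k'
    have := b2.1 k
    omega
  · exact absurd (Or.inr ⟨k, k'⟩) hv

lemma far_free_end (hL : Leafless G) (hs : Skel G T Z par rk ψ) {x y : V} (h : Free G T x y) :
    ¬ KK G x ∧ ¬ SS G T x ∧ (ψ x % 2 = 0 ↔ Valley G x) := by
  have h1 : ¬ KK G x := fun k => h.2 (Or.inr (Or.inl (far_stub_one k h.1)))
  have hbr : ¬ Br G x := fun k => h1 (Or.inl k)
  have h2 : ¬ SS G T x := fun k => h.2 (Or.inl (far_ss_all hbr k h.1))
  refine ⟨h1, h2, ?_⟩
  obtain ⟨u, huy, hu⟩ := hL x y h.1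
  by_cases hr : Rigid G T x u
  · have hp : (HP G T).Adj x u := far_hp hr fun k => h2 ⟨u, k⟩
    have hz : ¬ Z x := far_notZ hs h1 h2 hp
    have a1 := far_hp_rigid (hs.p1 x hz).1
    have hpx : par x = u := by
      rcases far_nbr hbr hu h.1 huy a1.adj with k | k
      · exact k
      · rw [k] at a1
        exact absurd a1 h.2
    rcases hp.1 with k | k
    · exfalso
      obtain ⟨w, hw, hw'⟩ := far_stub_init k h1
      rcases far_nbr hbr hu h.1 huy hw'.adj.symm with rfl | rfl
      · exact hw rfl
      · exact h.2 (Or.inr (Or.inr hw'))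
    · have hv : x < u ∧ x < y := by
        by_contra hv
        exact h.2 (Or.inr (Or.inl (far_stub_ext k h.1 huy.symm hv)))
      have b := (hs.p5 x hz).2 (by rw [hpx]; exact hv.1)
      refine iff_of_true (by omega) fun w hw => ?_
      rcases far_nbr hbr hu h.1 huy hw with rfl | rfl
      · exact hv.1
      · exact hv.2
  · have hz : Z x := by
      by_contra hz
      have a1 := far_hp_rigid (hs.p1 x hz).1
      rcases far_nbr hbr hu h.1 huy a1.adj with k | k
      · rw [k] at a1
        exact hr a1
      · rw [k] at a1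
        exact h.2 a1
    have b := hs.p7 x hz h2 h1
    by_cases hv : Valley G x
    · have := b.1 hv
      exact iff_of_true (by omega) hv
    · have := b.2 hv
      exact iff_of_false (by omega) hv

omit [LinearOrder V] in
lemma far_seq {r : V → V → Prop} {x u : V} (h : Relation.ReflTransGen r x u) :
    ∃ (y : ℕ → V) (s : ℕ), y 0 = x ∧ y s = u ∧ ∀ i < s, r (y i) (y (i + 1)) := by
  induction h with
  | refl => exact ⟨fun _ => x, 0, rfl, rfl, fun i hi => by omega⟩
  | @tail a c _ hac ih =>
    obtain ⟨y, s, h0, h1, h2⟩ := ih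
    refine ⟨fun i => if i ≤ s then y i else c, s + 1, by simpa using h0, by simp, fun i hi => ?_⟩
    by_cases k : i + 1 ≤ s
    · have k' : i ≤ s := by omega
      simp only [k, k', if_true]
      exact h2 i (by omega)
    · have k' : i = s := by omega
      subst k'
      simpa [h1] using hac

lemma far_main (hL : Leafless G) (hs : Skel G T Z par rk ψ) {l b : V → ℤ}
    (hl : ∀ x y, Rigid G T x y → l y - l x = ψ y - ψ x)
    (hb : ∀ x y, b x = b y → l x - l y ≤ 1) (s : ℕ) : ∀ y : ℕ → V,
    (∀ i ≤ s, G.Adj (y i) (y (i + 1)) ∧ b (y i) = b (y (i + 1))) →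
      Free G T (y s) (y (s + 1)) → ¬ (KK G (y 0) ∨ SS G T (y 0)) := by
  classical
  induction s using Nat.strong_induction_on with
  | _ s ih =>
  intro y hy hf h0
  have hfe := far_free_end hL hs hf
  have hs1 : 1 ≤ s := by
    by_contra k
    have : s = 0 := by omega
    subst this
    rcases h0 with k | k
    · exact hfe.1 k
    · exact hfe.2.1 k
  have hin : ∀ i, 1 ≤ i → i ≤ s → ¬ KK G (y i) ∧ ¬ SS G T (y i) := by
    intro i h1 h2
    have := ih (s - i) (by omega) (fun j => y (i + j)) (fun j hj => hy (i + j) (by omega)) (by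
      have e : i + (s - i) = s := by omega
      simpa only [← add_assoc, e] using hf)
    exact not_or.mp this
  have hk : KK G (y 0) := by
    by_contra k
    have h1 := far_ss_all (fun k' => k (Or.inl k')) (h0.resolve_left k) (hy 0 (by omega)).1
    exact (hin 1 le_rfl hs1).2 ⟨y 0, h1.symm⟩
  have hnf : ∀ i < s, ¬ Free G T (y i) (y (i + 1)) := fun i hi k =>
    ih i hi y (fun j hj => hy j (by omega)) k h0
  have hnb : ∀ i, i + 2 ≤ s + 1 → y (i + 2) ≠ y i := by
    intro i hi k
    by_cases h1 : i + 2 ≤ s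
    · refine ih (s - 2) (by omega) (fun j => if j < i then y j else y (j + 2)) ?_ ?_ ?_
      · intro j hj
        by_cases c1 : j + 1 < i
        · have c2 : j < i := by omega
          simp only [c1, c2, if_true]
          exact hy j (by omega)
        · by_cases c2 : j < i
          · have c3 : j + 1 = i := by omega
            simp only [c1, c2, if_true, if_false]
            rw [c3, k, ← c3]
            exact hy j (by omega)
          · simp only [c1, c2, if_false]
            exact hy (j + 2) (by omega)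
      · have c1 : ¬ s - 2 < i := by omega
        have c2 : ¬ s - 2 + 1 < i := by omega
        have e1 : s - 2 + 2 = s := by omega
        have e2 : s - 2 + 1 + 2 = s + 1 := by omega
        simp only [c1, c2, if_false, e1, e2]
        exact hf
      · by_cases c1 : 0 < i
        · simpa only [c1, if_true] using h0
        · have c2 : i = 0 := by omega
          subst c2
          simp only [c1, if_false]
          rw [k]
          exact h0
    · have e : s = i + 1 := by omega
      subst e
      refine hnf i (by omega) ?_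
      have := hf.symm
      rwa [show i + 1 + 1 = i + 2 from rfl, k] at this
  have hrig : ∀ i < s, Rigid G T (y i) (y (i + 1)) := by
    intro i hi
    by_contra k
    exact hnf i hi ⟨(hy i (by omega)).1, k⟩
  have hhp : ∀ i < s, (HP G T).Adj (y i) (y (i + 1)) := fun i hi =>
    far_hp (hrig i hi) fun k => (hin (i + 1) (by omega) (by omega)).2 ⟨y i, k.symm⟩
  have hnz : ∀ i < s, ¬ Z (y (i + 1)) := fun i hi =>
    far_notZ hs (hin (i + 1) (by omega) (by omega)).1 (hin (i + 1) (by omega) (by omega)).2
      (hhp i hi).symm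
  have hopt : ∀ i < s, par (y (i + 1)) = y i ∨ par (y (i + 1)) = y (i + 2) := fun i hi =>
    far_nbr (fun k => (hin (i + 1) (by omega) (by omega)).1 (Or.inl k)) (hy i (by omega)).1.symm
      (hy (i + 1) (by omega)).1 (hnb i (by omega)).symm
      (far_hp_rigid (hs.p1 _ (hnz i hi)).1).adj
  have hpar : ∀ d i, i + 1 + d = s → par (y (i + 1)) = y i := by
    intro d
    induction d with
    | zero =>
      intro i hi
      rcases hopt i (by omega) with k | k
      · exact k
      · exfalso
        have a := far_hp_rigid (hs.p1 _ (hnz i (by omega))).1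
        rw [k] at a
        have e : s = i + 1 := by omega
        subst e
        exact hf.2 a
    | succ d ihd =>
      intro i hi
      rcases hopt i (by omega) with k | k
      · exact k
      · exfalso
        have a := (hs.p1 _ (hnz i (by omega))).2
        have a' := (hs.p1 _ (hnz (i + 1) (by omega))).2
        rw [k] at a
        rw [ihd (i + 1) (by omega)] at a'
        have e : i + 1 + 1 = i + 2 := rfl
        rw [e] at a'
        omega
  have hpar' : ∀ i < s, par (y (i + 1)) = y i := fun i hi => hpar (s - (i + 1)) i (by omega)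
  have hmono : ∀ d i, i + d ≤ s → ψ (y i) ≤ ψ (y (i + d)) := by
    intro d
    induction d with
    | zero => intro i _; exact le_rfl
    | succ d ihd =>
      intro i hi
      have a := (far_step hs (hnz (i + d) (by omega))).1
      rw [hpar' (i + d) (by omega)] at a
      exact (ihd i (by omega)).trans a
  have hlb : ∀ k ≤ s, l (y k) - ψ (y k) = l (y 0) - ψ (y 0) ∧ b (y k) = b (y 0) := by
    intro k
    induction k with
    | zero => intro _; exact ⟨rfl, rfl⟩
    | succ k ihk =>
      intro hk'
      have a := ihk (by omega)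
      have a1 := hl _ _ (hrig k (by omega))
      have a2 := (hy k (by omega)).2
      constructor <;> omega
  have hval : 1 < valCount y (s + 1) := by
    by_contra k
    exact hf.2 (Or.inr (Or.inl ⟨y, s, ⟨fun i hi => (hy i (by omega)).1, hnb⟩, hk, rfl, rfl,
      by omega⟩))
  have heven : ∀ i, 0 < i → i ≤ s → ValAt y i → ψ (y i) % 2 = 0 := by
    intro i h1 h2 h3
    obtain ⟨j, rfl⟩ : ∃ j, i = j + 1 := ⟨i - 1, by omega⟩
    have a := (hs.p5 _ (hnz j (by omega))).2 (by
      rw [hpar' j (by omega)]
      exact h3.1)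
    omega
  have hfin : ∀ i j, 0 < i → i < j → j ≤ s → ValAt y i → ValAt y j → False := by
    intro i j h1 h2 h3 vi vj
    have e1 := heven i h1 (by omega) vi
    have e2 := heven j (by omega) h3 vj
    have a := (hs.p5 _ (hnz i (by omega))).1 (by
      rw [hpar' i (by omega)]
      exact vi.2)
    rw [hpar' i (by omega)] at a
    have m := hmono (j - (i + 1)) (i + 1) (by omega)
    rw [show i + 1 + (j - (i + 1)) = j by omega] at m
    have bi := hlb i (by omega)
    have bj := hlb j h3
    have := hb (y j) (y i) (by rw [bi.2, bj.2])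
    omega
  unfold valCount at hval
  obtain ⟨i, hi, j, hj, hij⟩ := one_lt_card.mp hval
  simp only [mem_filter, mem_Ioo] at hi hj
  rcases lt_or_gt_of_ne hij with k | k
  · exact hfin i j hi.1.1 k (by omega) hi.2 hj.2
  · exact hfin j i hj.1.1 k (by omega) hj.2 hi.2

end aux

variable {V : Type} [LinearOrder V] [Fintype V] {G : SimpleGraph V} {T : ℕ} {Z : V → Prop}
  {par : V → V} {rk : V → ℕ} {ψ : V → ℤ}

omit [Fintype V] in
theorem free_end (hL : Leafless G) (hs : Skel G T Z par rk ψ) {x y : V} (h : Free G T x y) :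
    ¬ KK G x ∧ ¬ SS G T x ∧ (ψ x % 2 = 0 ↔ Valley G x) :=
  far_free_end hL hs h

omit [Fintype V] in
theorem fr_far (hL : Leafless G) (hs : Skel G T Z par rk ψ) {l b : V → ℤ}
    (hl : ∀ x y, Rigid G T x y → l y - l x = ψ y - ψ x)
    (hb : ∀ x y, b x = b y → l x - l y ≤ 1) {x : V} (h : FrB G (Free G T) b x) :
    ¬ KK G x ∧ ¬ SS G T x := by
  obtain ⟨u, v, h1, h2, h3⟩ := h
  obtain ⟨y, s, rfl, rfl, h4⟩ := far_seq h1
  have := far_main hL hs hl hb s (fun i => if i ≤ s then y i else v) (by
    intro i hi
    by_cases k : i + 1 ≤ s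
    · simp only [k, hi, if_true]
      exact h4 i (by omega)
    · have k' : i = s := by omega
      subst k'
      simpa using ⟨h2.1, h3⟩) (by simpa using h2)
  simpa [not_or] using this

omit [Fintype V] in
theorem psi_diff (hs : Skel G T Z par rk ψ) {x y : V} (h : Rigid G T x y) : ψ x - ψ y ≤ 1 := by
  by_cases k : Sh G T x y
  · have a := hs.p6 x ⟨y, k⟩
    have b := hs.p6 y ⟨x, k.symm⟩
    by_cases vx : ShV G T x
    · have hlt : x < y := vx y k
      have my : ¬ Mu G T y := fun m =>
        absurd (m x (Relation.ReflTransGen.single k.symm)) (not_le.mpr hlt)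
      have e2 : 1 ≤ ψ y := by
        by_cases vy : ShV G T y
        · have := b.2.1 my vy
          omega
        · have := b.2.2 vy
          omega
      by_cases mx : Mu G T x
      · have := a.1 mx
        omega
      · have := a.2.1 mx vx
        omega
    · have e1 := a.2.2 vx
      by_cases my : Mu G T y
      · have := b.1 my
        omega
      · by_cases vy : ShV G T y
        · have := b.2.1 my vy
          omega
        · have := b.2.2 vy
          omega
  · rcases hs.p2 x y (far_hp h k) with ⟨a, b⟩ | ⟨a, b⟩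
    · have := far_step hs a
      rw [b] at this
      omega
    · have := far_step hs a
      rw [b] at this
      omega

omit [Fintype V] in
open Classical in
theorem nonzero_le (hs : Skel G T Z par rk ψ) {y : ℕ → V} {e : ℕ} (hy : PSeq G y e) :
    ((range e).filter fun i => Rigid G T (y i) (y (i + 1)) ∧ ψ (y i) ≠ ψ (y (i + 1))).card ≤
      2 * (cnt (KK G) y e + cnt (SS G T) y e + nearCount G T y e + 2) := by
  set B : Finset ℕ := (((range (e + 1)).filter fun i => KK G (y i)) ∪
    ((range (e + 1)).filter fun i => SS G T (y i))) ∪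
      ((Ioo 0 e).filter fun i => NearAt G T y i) ∪ {0, e} with hB
  have hcard : B.card ≤ cnt (KK G) y e + cnt (SS G T) y e + nearCount G T y e + 2 := by
    refine (card_union_le _ _).trans (add_le_add ((card_union_le _ _).trans
      (add_le_add (card_union_le _ _) le_rfl)) card_le_two)
  have hnot : ∀ i ≤ e, i ∉ B → 0 < i ∧ i < e ∧ ¬ KK G (y i) ∧ ¬ SS G T (y i) ∧
      ¬ NearAt G T y i := by
    intro i hi hn
    simp only [hB, mem_union, mem_filter, mem_range, mem_Ioo, mem_insert, mem_singleton,
      not_or, not_and] at hn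
    obtain ⟨⟨⟨a, b⟩, c⟩, d, f⟩ := hn
    exact ⟨by omega, by omega, a (by omega), b (by omega), c ⟨by omega, by omega⟩⟩
  have hsub : ((range e).filter fun i => Rigid G T (y i) (y (i + 1)) ∧
      ψ (y i) ≠ ψ (y (i + 1))) ⊆ B ∪ B.image (fun i => i - 1) := by
    intro i hi
    simp only [mem_filter, mem_range] at hi
    obtain ⟨hie, hr, hne⟩ := hi
    by_contra k
    rw [mem_union, not_or] at k
    have k2 : i + 1 ∉ B := fun m => k.2 (mem_image.mpr ⟨i + 1, m, by omega⟩)
    obtain ⟨a1, a2, a3, a4, a5⟩ := hnot i (by omega) k.1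
    obtain ⟨b1, b2, b3, b4, b5⟩ := hnot (i + 1) (by omega) k2
    rcases hs.p2 _ _ (far_hp hr fun m => a4 ⟨_, m⟩) with ⟨c1, c2⟩ | ⟨c1, c2⟩
    · refine hne (far_mono hs b3 b4 (hy.1 (i + 1) b2) (fun m => ?_) c1 c2 fun m => b5 ?_)
      · have := hy.2 i (by omega) (i + 1 + 1) (by omega) m
        omega
      · refine ⟨b3, b4, ?_, Or.inl hr⟩
        rcases m with m | m
        · exact Or.inl ⟨m.2, m.1⟩
        · exact Or.inr ⟨m.2, m.1⟩
    · obtain ⟨j, rfl⟩ : ∃ j, i = j + 1 := ⟨i - 1, by omega⟩
      refine hne (far_mono hs a3 a4 (hy.1 j (by omega)).symm (fun m => ?_) c1 c2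
        fun m => a5 ?_).symm
      · have := hy.2 (j + 1 + 1) (by omega) j (by omega) m
        omega
      · exact ⟨a3, a4, m, Or.inr hr⟩
  calc _ ≤ (B ∪ B.image (fun i => i - 1)).card := card_le_card hsub
    _ ≤ B.card + (B.image (fun i => i - 1)).card := card_union_le _ _
    _ ≤ B.card + B.card := add_le_add le_rfl card_image_le
    _ ≤ _ := by omega

end Pool.Agent.Lib.MP_b735d7_co
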