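import Pool.Agent.Lib.MP_b735d7_co.Base
import Pool.Agent.Lib.MP_b735d7_co.Lin
import Pool.Agent.Lib.MP_b735d7_co.Sho
import Pool.Agent.Lib.MP_b735d7_co.Cnt

/-!
The rooted structure of the rigid part exists.
-/

namespace Pool.Agent.Lib.MP_b735d7_co

open Finset

/-- recursion along a parent map that lowers a rank -/
lemma Skl_rec {V : Type} (Z : V → Prop) (par : V → V) (rk : V → ℕ)
    (h : ∀ x, ¬ Z x → rk (par x) < rk x) (β : V → ℤ) (F : V → ℤ → ℤ) :
    ∃ ψ : V → ℤ, ∀ x, (Z x → ψ x = β x) ∧ (¬ Z x → ψ x = F x (ψ (par x))) := by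
  classical
  have wf : WellFounded (fun a b : V => rk a < rk b) := InvImage.wf rk Nat.lt_wfRel.wf
  let step : (x : V) → ((y : V) → rk y < rk x → ℤ) → ℤ := fun x ih =>
    if hx : Z x then β x else F x (ih (par x) (h x hx))
  refine ⟨wf.fix step, fun x => ⟨fun hx => ?_, fun hx => ?_⟩⟩
  · rw [wf.fix_eq]
    simp only [step, dif_pos hx]
  · rw [wf.fix_eq]
    simp only [step, dif_neg hx]

variable {V : Type} [LinearOrder V] [Fintype V] {G : SimpleGraph V}

omit [Fintype V] in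
lemma Skl_rigid {T : ℕ} {x y : V} (h : (HP G T).Adj x y) : Rigid G T x y := Or.inr h.1

omit [Fintype V] in
lemma Skl_pseq {T : ℕ} {y : ℕ → V} {e : ℕ} (hy : PSeq (HP G T) y e) : PSeq G y e :=
  ⟨fun i hi => (Skl_rigid (hy.1 i hi)).adj, hy.2⟩

omit [Fintype V] in
lemma Skl_free {T : ℕ} {y : ℕ → V} {e : ℕ} (hy : PSeq (HP G T) y e) : freeCount G T y e = 0 := by
  classical
  unfold freeCount
  rw [Finset.card_eq_zero, Finset.filter_eq_empty_iff]
  intro i hi hf
  exact hf.2.2 (Skl_rigid (hy.1 i (Finset.mem_Ioo.1 hi).2))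

omit [Fintype V] in
/-- no long path of rigid edges with few vertices on short cycles -/
lemma Skl_nolong {τ : ℕ} (h : Std G τ) {y : ℕ → V} {e : ℕ} (hy : PSeq (HP G (20000 * τ)) y e)
    (he : 20000 * τ ≤ e)
    (hs : cnt (SS G (20000 * τ)) y e ≤ 16 * τ * ((e + 1) / (20000 * τ + 1))) : False := by
  have h1 := cntA h (Skl_pseq hy) he hs
  rw [Skl_free hy] at h1
  omega

omit [Fintype V] in
lemma Skl_nolong' {τ : ℕ} (h : Std G τ) {y : ℕ → V} {e : ℕ} (hy : PSeq (HP G (20000 * τ)) y e)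
    (he : 10000 * (20000 * τ) ≤ e + 1) : False := by
  have ht := h.tau
  exact Skl_nolong h hy (by omega) (ss_long (by omega) rfl h.h1 (Skl_pseq hy) he)

omit [Fintype V] in
lemma Skl_acyc {τ : ℕ} (h : Std G τ) (y : ℕ → V) (e : ℕ) (hy : PSeq (HP G (20000 * τ)) y e)
    (he : 2 ≤ e) : ¬ (HP G (20000 * τ)).Adj (y e) (y 0) := by
  intro hc
  have hc' := (Skl_rigid hc).adj
  by_cases h1 : e + 1 ≤ 20000 * τ
  · exact hc.2 (cyc_sh (Skl_pseq hy) he hc' h1).2
  by_cases h2 : e + 1 ≤ 10000 * (20000 * τ)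
  · have h3 := ss_cyc h.h1 (Skl_pseq hy) he hc' (by omega) h2
    exact Skl_nolong h hy (by omega) (by rw [h3]; exact Nat.zero_le _)
  · exact Skl_nolong' h hy (by omega)

omit [Fintype V] in
lemma Skl_ss_eq {τ : ℕ} (h : Std G τ) {a b : V} (hab : (HP G (20000 * τ)).Reachable a b)
    (ha : SS G (20000 * τ) a) (hb : SS G (20000 * τ) b) : a = b := by
  obtain ⟨y, e, hy, rfl, rfl⟩ := pseq_of_reach hab
  rcases Nat.eq_zero_or_pos e with rfl | he
  · rfl
  exfalso
  by_cases h2 : e + 1 ≤ 10000 * (20000 * τ)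
  · exact (hy.1 0 he).2 (ss_short_path h.h1 (Skl_pseq hy) he h2 ha hb)
  · exact Skl_nolong' h hy (by omega)

omit [Fintype V] in
lemma Skl_val_mono (z : ℕ → V) {i j : ℕ} (hij : i ≤ j) : valCount z i ≤ valCount z j := by
  classical
  unfold valCount
  exact Finset.card_le_card
    (Finset.filter_subset_filter _ (Finset.Ioo_subset_Ioo le_rfl hij))

omit [Fintype V] in
/-- every vertex of a stub walk is joined by rigid edges to a kernel or short cycle vertex -/
lemma Skl_walk (T : ℕ) {z : ℕ → V} {r : ℕ} (hz : NB G z r) (h0 : KK G (z 0))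
    (hv : valCount z r ≤ 1) : ∀ i ≤ r, ∃ w, (HP G T).Reachable (z i) w ∧ (SS G T w ∨ KK G w) := by
  intro i
  induction i with
  | zero => exact fun _ => ⟨z 0, SimpleGraph.Reachable.refl _, Or.inr h0⟩
  | succ i ih =>
    intro hi
    by_cases hs : Sh G T (z i) (z (i + 1))
    · exact ⟨z (i + 1), SimpleGraph.Reachable.refl _, Or.inl ⟨z i, hs.symm⟩⟩
    · obtain ⟨w, hw, hw'⟩ := ih (by omega)
      have hst : Stub G (z i) (z (i + 1)) :=
        ⟨z, i, ⟨fun k hk => hz.1 k (by omega), fun k hk => hz.2 k (by omega)⟩, h0, rfl, rfl,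
          (Skl_val_mono z hi).trans hv⟩
      have hadj : (HP G T).Adj (z i) (z (i + 1)) := ⟨Or.inl hst, hs⟩
      exact ⟨w, hadj.symm.reachable.trans hw, hw'⟩

omit [Fintype V] in
lemma Skl_edge {T : ℕ} {x y : V} (h : (HP G T).Adj x y) :
    ∃ w, (HP G T).Reachable x w ∧ (SS G T w ∨ KK G w) := by
  rcases h.1 with ⟨z, r, hz, h0, rfl, -, hv⟩ | ⟨z, r, hz, h0, -, rfl, hv⟩
  · exact Skl_walk T hz h0 hv r (by omega)
  · exact Skl_walk T hz h0 hv (r + 1) le_rfl

omit [Fintype V] in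
/-- a choice of roots -/
lemma Skl_root (T : ℕ) : ∃ ρ : V → V, (∀ x, (HP G T).Reachable (ρ x) x) ∧
    (∀ x y, (HP G T).Adj x y → ρ x = ρ y) ∧
    (∀ x w, (HP G T).Reachable x w → SS G T w → SS G T (ρ x)) ∧
    (∀ x w, (HP G T).Reachable x w → (SS G T w ∨ KK G w) → (SS G T (ρ x) ∨ KK G (ρ x))) := by
  have key : ∀ c : (HP G T).ConnectedComponent, ∃ r, (HP G T).connectedComponentMk r = c ∧
      (∀ w, (HP G T).connectedComponentMk w = c → SS G T w → SS G T r) ∧
      (∀ w, (HP G T).connectedComponentMk w = c → (SS G T w ∨ KK G w) → (SS G T r ∨ KK G r)) := by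
    intro c
    by_cases h1 : ∃ w, (HP G T).connectedComponentMk w = c ∧ SS G T w
    · obtain ⟨w, hw, hs⟩ := h1
      exact ⟨w, hw, fun _ _ _ => hs, fun _ _ _ => Or.inl hs⟩
    by_cases h2 : ∃ w, (HP G T).connectedComponentMk w = c ∧ KK G w
    · obtain ⟨w, hw, hk⟩ := h2
      exact ⟨w, hw, fun u hu hs => absurd ⟨u, hu, hs⟩ h1, fun _ _ _ => Or.inr hk⟩
    obtain ⟨r, hr⟩ := c.exists_rep
    refine ⟨r, hr, fun u hu hs => absurd ⟨u, hu, hs⟩ h1, fun u hu hs => ?_⟩
    rcases hs with hs | hs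
    · exact absurd ⟨u, hu, hs⟩ h1
    · exact absurd ⟨u, hu, hs⟩ h2
  choose f hf1 hf2 hf3 using key
  refine ⟨fun x => f ((HP G T).connectedComponentMk x), fun x => ?_, fun x y hxy => ?_,
    fun x w hw hs => ?_, fun x w hw hs => ?_⟩
  · exact SimpleGraph.ConnectedComponent.exact (hf1 _)
  · show f _ = f _
    rw [SimpleGraph.ConnectedComponent.sound hxy.reachable]
  · exact hf2 _ w (SimpleGraph.ConnectedComponent.sound hw.symm) hs
  · exact hf3 _ w (SimpleGraph.ConnectedComponent.sound hw.symm) hs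

omit [Fintype V] in
lemma Skl_mu {T : ℕ} {x : V} (h : Mu G T x) : ShV G T x := fun y hy =>
  lt_of_le_of_ne (h y (Relation.ReflTransGen.single hy)) hy.1.ne

theorem exists_skel {τ : ℕ} (h : Std G τ) : ∃ Z par rk ψ, Skel G (20000 * τ) Z par rk ψ := by
  classical
  obtain ⟨ρ, r1, r2, r3, r4⟩ := Skl_root (G := G) (20000 * τ)
  obtain ⟨par, rk, f1, f2⟩ := forest_par (HP G (20000 * τ)) (Skl_acyc h) ρ r1 r2
  have hz : ∀ x, SS G (20000 * τ) x → ρ x = x := fun x hx =>
    Skl_ss_eq h (r1 x) (r3 x x (SimpleGraph.Reachable.refl _) hx) hx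
  obtain ⟨ψ, hψ⟩ := Skl_rec (fun x => ρ x = x) par rk (fun x hx => (f1 x hx).2)
    (fun x => if SS G (20000 * τ) x then
        (if Mu G (20000 * τ) x then 0 else if ShV G (20000 * τ) x then 2 else 1)
      else if Valley G x then 0 else 1)
    (fun x p => if par x < x then p + 1 - p % 2 else p + p % 2)
  refine ⟨fun x => ρ x = x, par, rk, ψ, f1, f2, hz, fun x hx => ?_, fun x hx => ?_,
    fun x hx => ?_, fun x hx hs _ => ?_⟩
  · by_cases hy : ∃ y, (HP G (20000 * τ)).Adj x y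
    · obtain ⟨y, hy⟩ := hy
      obtain ⟨w, hw, hw'⟩ := Skl_edge hy
      have h4 := r4 x w hw hw'
      rw [hx] at h4
      rcases h4 with h4 | h4
      · exact Or.inl h4
      · exact Or.inr (Or.inl h4)
    · exact Or.inr (Or.inr fun y k => hy ⟨y, k⟩)
  · have h5 := (hψ x).2 hx
    refine ⟨fun k => ?_, fun k => ?_⟩
    · rw [h5, if_pos k]
    · rw [h5, if_neg (not_lt.2 k.le)]
  · have h6 := (hψ x).1 (hz x hx)
    rw [if_pos hx] at h6
    refine ⟨fun k => ?_, fun k k' => ?_, fun k => ?_⟩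
    · rw [h6, if_pos k]
    · rw [h6, if_neg k, if_pos k']
    · rw [h6, if_neg (fun m => k (Skl_mu m)), if_neg k]
  · have h7 := (hψ x).1 hx
    rw [if_neg hs] at h7
    refine ⟨fun k => ?_, fun k => ?_⟩
    · rw [h7, if_pos k]
    · rw [h7, if_neg k]

end Pool.Agent.Lib.MP_b735d7_co
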