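import Pool.Agent.Lib.MP_b735d7_co.Base
import Pool.Agent.Lib.MP_b735d7_co.Skl
import Pool.Agent.Lib.MP_b735d7_co.Far

/-!
Levels for graphs without leaves.
-/

namespace Pool.Agent.Lib.MP_b735d7_co

open Finset

variable {V : Type} [LinearOrder V] [Fintype V] {G : SimpleGraph V}

section
variable {T : ℕ} {Z : V → Prop} {par : V → V} {rk : V → ℕ} {ψ : V → ℤ}

open Classical in
/-- the weight of an edge -/
noncomputable def coreW (G : SimpleGraph V) (T : ℕ) (ψ : V → ℤ) (x y : V) : ℤ :=
  if Rigid G T x y then ψ y - ψ x else if (ψ x - ψ y) % 2 = 0 then 0 else 1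

omit [Fintype V] in
lemma coreW_rigid {x y : V} (h : Rigid G T x y) : coreW G T ψ x y = ψ y - ψ x := by
  simp [coreW, h]

omit [Fintype V] in
lemma coreW_free {x y : V} (h : ¬ Rigid G T x y) :
    coreW G T ψ x y = if (ψ x - ψ y) % 2 = 0 then 0 else 1 := by
  simp only [coreW, h, if_false]

omit [Fintype V] in
lemma core_hp_rigid {x y : V} (h : (HP G T).Adj x y) : Rigid G T x y := Or.inr h.1

omit [Fintype V] in
lemma core_cases {x y : V} (h : G.Adj x y) : Free G T x y ∨ Sh G T x y ∨ (HP G T).Adj x y := by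
  by_cases h1 : Rigid G T x y
  · by_cases h2 : Sh G T x y
    · exact Or.inr (Or.inl h2)
    · exact Or.inr (Or.inr ⟨h1.resolve_left h2, h2⟩)
  · exact Or.inl ⟨h, h1⟩

omit [Fintype V] in
lemma core_psi_ss (hs : Skel G T Z par rk ψ) {x : V} (h : SS G T x) :
    (ShV G T x ∧ Mu G T x ∧ ψ x = 0) ∨ (ShV G T x ∧ ¬ Mu G T x ∧ ψ x = 2) ∨
      (¬ ShV G T x ∧ ¬ Mu G T x ∧ ψ x = 1) := by
  obtain ⟨a, b, c⟩ := hs.p6 x h
  by_cases h1 : ShV G T x <;> by_cases h2 : Mu G T x
  · exact Or.inl ⟨h1, h2, a h2⟩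
  · exact Or.inr (Or.inl ⟨h1, h2, b h2 h1⟩)
  · have := a h2
    have := c h1
    omega
  · exact Or.inr (Or.inr ⟨h1, h2, c h1⟩)

omit [Fintype V] in
/-- cycles have nonnegative weight -/
lemma core_cycle {τ : ℕ} (h : Std G τ) (hs : Skel G (20000 * τ) Z par rk ψ) (y : ℕ → V) (e : ℕ)
    (hy : PSeq G y e) (he : 2 ≤ e) (hc : G.Adj (y e) (y 0)) :
    0 ≤ ∑ i ∈ range e, coreW G (20000 * τ) ψ (y i) (y (i + 1)) +
      coreW G (20000 * τ) ψ (y e) (y 0) := by
  classical
  have hlow : ∀ a b, -1 ≤ coreW G (20000 * τ) ψ a b := by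
    intro a b
    by_cases k : Rigid G (20000 * τ) a b
    · rw [coreW_rigid k]
      have := psi_diff hs k
      omega
    · rw [coreW_free k]
      split_ifs <;> omega
  by_cases hT : e + 1 ≤ 20000 * τ
  · obtain ⟨h1, h2⟩ := cyc_sh hy he hc hT
    rw [coreW_rigid (Or.inl h2),
      sum_congr rfl fun i hi => coreW_rigid (ψ := ψ) (Or.inl (h1 i (mem_range.1 hi))),
      sum_range_sub (fun i => ψ (y i))]
    omega
  · have hτ := h.tau
    have hss : cnt (SS G (20000 * τ)) y e ≤ 16 * τ * ((e + 1) / (20000 * τ + 1)) := by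
      by_cases hl : e + 1 ≤ 10000 * (20000 * τ)
      · rw [ss_cyc h.h1 hy he hc (by omega) hl]
        exact Nat.zero_le _
      · exact ss_long (by omega) rfl h.h1 hy (by omega)
    have hA := cntA h hy (by omega) hss
    have hN := nonzero_le hs hy
    have hF : freeCount G (20000 * τ) y e ≤ ((range e).filter fun i =>
        coreW G (20000 * τ) ψ (y i) (y (i + 1)) = 1).card := by
      unfold freeCount
      refine card_le_card fun i hi => ?_
      simp only [mem_filter, mem_Ioo, mem_range] at hi ⊢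
      obtain ⟨⟨h0, h1⟩, hv, hf⟩ := hi
      refine ⟨h1, ?_⟩
      obtain ⟨k1, -, k3⟩ := free_end h.leaf hs hf
      obtain ⟨-, -, k4⟩ := free_end h.leaf hs hf.symm
      have hval : Valley G (y i) := by
        intro u hu
        by_contra hlt
        refine k1 (Or.inl ⟨y (i - 1), y (i + 1), u, ?_, hf.1, hu, fun k => ?_, ?_, ?_⟩)
        · have := hy.1 (i - 1) (by omega)
          rw [show i - 1 + 1 = i by omega] at this
          exact this.symm
        · have := hy.2 (i - 1) (by omega) (i + 1) (by omega) k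
          omega
        · rintro rfl
          exact hlt hv.1
        · rintro rfl
          exact hlt hv.2
      have hnv : ¬ Valley G (y (i + 1)) := fun k => lt_asymm hv.2 (k _ hf.1.symm)
      have e1 := k3.2 hval
      have e2 := mt k4.1 hnv
      rw [coreW_free hf.2, if_neg (by omega)]
    have hsum : (((range e).filter fun i => coreW G (20000 * τ) ψ (y i) (y (i + 1)) = 1).card : ℤ) -
        (((range e).filter fun i => Rigid G (20000 * τ) (y i) (y (i + 1)) ∧
          ψ (y i) ≠ ψ (y (i + 1))).card : ℤ) ≤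
        ∑ i ∈ range e, coreW G (20000 * τ) ψ (y i) (y (i + 1)) := by
      rw [card_filter, card_filter]
      push_cast
      rw [← sum_sub_distrib]
      refine sum_le_sum fun i _ => ?_
      have := hlow (y i) (y (i + 1))
      by_cases k : Rigid G (20000 * τ) (y i) (y (i + 1))
      · have k2 := coreW_rigid (ψ := ψ) k
        simp only [k, true_and]
        split_ifs <;> omega
      · have k2 := coreW_free (ψ := ψ) k
        simp only [k, false_and, if_false]
        split_ifs at k2 ⊢ <;> omega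
    have := hlow (y e) (y 0)
    omega

/-- levels exist -/
lemma core_levels {τ : ℕ} (h : Std G τ) (hs : Skel G (20000 * τ) Z par rk ψ) :
    ∃ l : V → ℤ, (∀ x, (l x - ψ x) % 2 = 0) ∧
      (∀ x y, Rigid G (20000 * τ) x y → l y - l x = ψ y - ψ x) ∧ Rule G l := by
  obtain ⟨l, h1, h2⟩ := pot G (coreW G (20000 * τ) ψ) ψ
    (fun x y _ => by
      by_cases k : Rigid G (20000 * τ) x y
      · rw [coreW_rigid k]
        omega
      · rw [coreW_free k]
        split_ifs <;> omega)
    (fun x y _ => by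
      by_cases k : Rigid G (20000 * τ) x y
      · rw [coreW_rigid k, coreW_rigid k.symm]
        omega
      · rw [coreW_free k, coreW_free (fun u => k u.symm)]
        split_ifs <;> omega)
    (fun y e hy he hc => core_cycle h hs y e hy he hc)
  have hr : ∀ x y, Rigid G (20000 * τ) x y → l y - l x = ψ y - ψ x := by
    intro x y k
    have a := h2 x y k.adj
    have b := h2 y x k.adj.symm
    rw [coreW_rigid k] at a
    rw [coreW_rigid k.symm] at b
    omega
  refine ⟨l, h1, hr, fun x y hxy ha => ?_⟩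
  have px := h1 x
  have py := h1 y
  rcases core_cases (T := 20000 * τ) ha with k | k | k
  · have a := h2 x y ha
    have b := h2 y x ha.symm
    rw [coreW_free k.2] at a
    rw [coreW_free k.symm.2] at b
    obtain ⟨-, -, k4⟩ := free_end h.leaf hs k.symm
    have hnv : ¬ Valley G y := fun u => lt_asymm hxy (u _ ha.symm)
    have e2 := mt k4.1 hnv
    split_ifs at a b <;> omega
  · have a := hr x y (Or.inl k)
    have hy : ψ y = 1 := (hs.p6 y ⟨x, k.symm⟩).2.2 fun u => lt_asymm hxy (u _ k.symm)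
    have := core_psi_ss hs ⟨y, k⟩
    omega
  · have a := hr x y (core_hp_rigid k)
    rcases hs.p2 x y k with ⟨u, v⟩ | ⟨u, v⟩
    · have := (hs.p5 x u).2 (v ▸ hxy)
      rw [v] at this
      omega
    · have := (hs.p5 y u).1 (v ▸ hxy)
      rw [v] at this
      omega

/-- the least point that is reachable for a relation -/
lemma core_min (r : V → V → Prop) (x : V) :
    ∃ m, Relation.ReflTransGen r x m ∧ ∀ y, Relation.ReflTransGen r x y → m ≤ y := by
  classical
  obtain ⟨m, hm, hmin⟩ := exists_min_image (univ.filter fun y => Relation.ReflTransGen r x y) id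
    ⟨x, by simpa using Relation.ReflTransGen.refl⟩
  exact ⟨m, by simpa using hm, fun y hy => hmin y (by simpa using hy)⟩

omit [LinearOrder V] [Fintype V] in
lemma core_reach {l : V → ℤ} (hr : ∀ x y, Sh G T x y → l y - l x = ψ y - ψ x) {x y : V}
    (hx : SS G T x) (h : Relation.ReflTransGen (Sh G T) x y) :
    SS G T y ∧ l y - l x = ψ y - ψ x ∧ Relation.ReflTransGen (Sh G T) y x := by
  induction h with
  | refl => exact ⟨hx, by omega, Relation.ReflTransGen.refl⟩
  | tail _ k ih =>
    have := hr _ _ k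
    exact ⟨⟨_, k.symm⟩, by omega, Relation.ReflTransGen.head k.symm ih.2.2⟩

lemma core_mn (G : SimpleGraph V) (x : V) : ∃ m, G.Reachable x m ∧ KK G m := by
  obtain ⟨m, h1, h2⟩ := core_min G.Adj x
  rw [← SimpleGraph.reachable_iff_reflTransGen] at h1
  refine ⟨m, h1, Or.inr fun y hy => h2 y ?_⟩
  rw [← SimpleGraph.reachable_iff_reflTransGen]
  exact h1.trans hy

lemma core_bd1 {τ : ℕ} (h : Std G τ) (hs : Skel G (20000 * τ) Z par rk ψ) {l : V → ℤ}
    (h1 : ∀ x, (l x - ψ x) % 2 = 0)
    (hr : ∀ x y, Rigid G (20000 * τ) x y → l y - l x = ψ y - ψ x) : BD G l := by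
  have hfar : ∀ x, FrB G (Free G (20000 * τ)) (blk l) x → ¬ KK G x ∧ ¬ SS G (20000 * τ) x :=
    fun x hx => fr_far h.leaf hs hr (fun a b k => by unfold blk at k; omega) hx
  refine bd_mk Z par rk (Sh G (20000 * τ)) (Free G (20000 * τ)) (fun _ => False) id
    (fun x hx => ?_) (fun x y ha => ?_) (fun x y k => ⟨hs.p3 x ⟨y, k⟩, k.1, k.symm⟩)
    (fun x hx => ⟨fun k => (hfar x hx).1 (Or.inl k), fun y k => (hfar x hx).2 ⟨y, k⟩⟩)
    (fun x => ?_) (fun x a b c ha hb hc hab => sh_three h.h1 ha hb hc hab)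
    (fun _ _ _ k => k.elim) (fun _ k => k.elim) (fun x y k _ => ?_)
  · obtain ⟨a, b⟩ := hs.p1 x hx
    obtain ⟨c, d⟩ := hs.p5 x hx
    have e := hr _ _ (core_hp_rigid a)
    have := h1 x
    have := h1 (par x)
    refine ⟨(core_hp_rigid a).adj, b, fun k => ?_, fun k => ?_⟩
    · have := c k
      omega
    · have := d k
      omega
  · rcases core_cases (T := 20000 * τ) ha with k | k | k
    · exact Or.inl k
    · exact Or.inr (Or.inl k)
    · exact Or.inr (Or.inr (hs.p2 x y k))
  · obtain ⟨m, a, b⟩ := core_mn G x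
    exact ⟨m, a, fun k => (hfar m k).1 b⟩
  · have hx : SS G (20000 * τ) x := ⟨y, k⟩
    by_cases hm : Mu G (20000 * τ) x
    · refine ⟨y, Relation.ReflTransGen.single k, ?_⟩
      have a := hr x y (Or.inl k)
      have hxy : x < y := lt_of_le_of_ne (hm y (Relation.ReflTransGen.single k)) k.1.ne
      have hy : ψ y = 1 := (hs.p6 y ⟨x, k.symm⟩).2.2 fun u => lt_asymm hxy (u _ k.symm)
      have := (hs.p6 x hx).1 hm
      have := h1 x
      unfold blk
      omega
    · obtain ⟨m, a, b⟩ := core_min (Sh G (20000 * τ)) x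
      obtain ⟨c, d, -⟩ := core_reach (l := l) (ψ := ψ) (fun u v k => hr u v (Or.inl k)) hx a
      have hmm : ψ m = 0 := (hs.p6 m c).1 fun u hu => b u (a.trans hu)
      have := core_psi_ss hs hx
      have := h1 m
      refine ⟨m, a, ?_⟩
      unfold blk
      simp only [hm, false_and, and_false, false_or] at *
      omega

lemma core_bd2 {τ : ℕ} (h : Std G τ) (hs : Skel G (20000 * τ) Z par rk ψ) {l : V → ℤ}
    (h1 : ∀ x, (l x - ψ x) % 2 = 0)
    (hr : ∀ x y, Rigid G (20000 * τ) x y → l y - l x = ψ y - ψ x) :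
    BD (dualG G) (fun x => l (OrderDual.ofDual x) + 1) := by
  have hfar : ∀ x, FrB G (Free G (20000 * τ)) (blk fun u => l u + 1) x →
      ¬ KK G x ∧ ¬ SS G (20000 * τ) x :=
    fun x hx => fr_far h.leaf hs hr (fun a b k => by simp only [blk] at k; omega) hx
  choose μ hμ1 hμ2 using core_min (Sh G (20000 * τ))
  have hre := fun (x y : V) => core_reach (G := G) (T := 20000 * τ) (l := l) (ψ := ψ)
    (fun u v k => hr u v (Or.inl k)) (x := x) (y := y)
  let flat : V → Prop := fun x => SS G (20000 * τ) x ∧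
    ∀ y, Relation.ReflTransGen (Sh G (20000 * τ)) x y → ShV G (20000 * τ) y → Mu G (20000 * τ) y
  have a7 : ∀ x y, Sh G (20000 * τ) x y → flat x → flat y ∧ μ x = μ y := by
    intro x y k hx
    refine ⟨⟨⟨x, k.symm⟩, fun u hu => hx.2 u (Relation.ReflTransGen.head k hu)⟩, ?_⟩
    exact le_antisymm (hμ2 x _ (Relation.ReflTransGen.head k (hμ1 y)))
      (hμ2 y _ (Relation.ReflTransGen.head k.symm (hμ1 x)))
  have hmu : ∀ x, Mu G (20000 * τ) x → μ x = x := fun x hx =>
    le_antisymm (hμ2 x x Relation.ReflTransGen.refl) (hx _ (hμ1 x))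
  have a8 : ∀ x, flat x → Relation.ReflTransGen (fun a c => c < a ∧ Sh G (20000 * τ) a c ∧
      blk (fun u => l u + 1) a = blk (fun u => l u + 1) c) x (μ x) := by
    intro x
    induction x using WellFoundedLT.induction with
    | ind x ih =>
      intro hx
      by_cases hv : ShV G (20000 * τ) x
      · rw [hmu x (hx.2 x Relation.ReflTransGen.refl hv)]
      · have hv' := hv
        unfold ShV at hv'
        push Not at hv'
        obtain ⟨y, k, hy⟩ := hv'
        have hyx : y < x := lt_of_le_of_ne hy k.1.ne'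
        obtain ⟨b, c⟩ := a7 x y k hx
        rw [c]
        refine Relation.ReflTransGen.head ⟨hyx, k, ?_⟩ (ih y hyx b)
        have e1 := (hs.p6 x hx.1).2.2 hv
        have e2 := hr x y (Or.inl k)
        have e3 := h1 x
        have e4 : ψ y = 0 ∨ ψ y = 1 := by
          rcases core_psi_ss hs b.1 with u | u | u
          · exact Or.inl u.2.2
          · exact absurd (b.2 y Relation.ReflTransGen.refl u.1) u.2.1
          · exact Or.inr u.2.2
        simp only [blk]
        omega
  refine bd_mk (V := Vᵒᵈ) Z par rk (Sh G (20000 * τ)) (Free (V := V) G (20000 * τ)) flat μ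
    (fun x hx => ?_) (fun x y ha => ?_) (fun x y k => ⟨hs.p3 x ⟨y, k⟩, k.1, k.symm⟩)
    (fun x hx => ⟨fun k => (hfar x hx).1 (Or.inl k), fun y k => (hfar x hx).2 ⟨y, k⟩⟩)
    (fun x => ?_) (fun x a b c ha hb hc hab => sh_three h.h1 ha hb hc hab)
    a7 (fun x hx => ⟨hx.1, fun k => ?_, a8 x hx⟩) (fun x y k hx => ?_)
  · obtain ⟨a, b⟩ := hs.p1 x hx
    obtain ⟨c, d⟩ := hs.p5 x hx
    have e := hr _ _ (core_hp_rigid a)
    have e1 := h1 x
    have e2 := h1 (par x)
    refine ⟨(core_hp_rigid a).adj, b, fun k => ?_, fun k => ?_⟩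
    · have := d k
      change l x + 1 = l (par x) + 1 + 1 - (l (par x) + 1) % 2
      omega
    · have := c k
      change l x + 1 = l (par x) + 1 + (l (par x) + 1) % 2
      omega
  · rcases core_cases (V := V) (G := G) (T := 20000 * τ) ha with k | k | k
    · exact Or.inl k
    · exact Or.inr (Or.inl k)
    · exact Or.inr (Or.inr (hs.p2 x y k))
  · obtain ⟨m, a, b⟩ := core_mn G x
    exact ⟨m, a, fun k => (hfar m k).1 b⟩
  · have e1 := h1 x
    change (l x + 1) % 2 = 1 at k
    rcases core_psi_ss hs hx.1 with u | u | u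
    · exact hmu x u.2.1
    · exact absurd (hx.2 x Relation.ReflTransGen.refl u.1) u.2.1
    · have := u.2.2
      omega
  · have hx1 : SS G (20000 * τ) x := ⟨y, k⟩
    have hx' : ∃ z, Relation.ReflTransGen (Sh G (20000 * τ)) x z ∧ ShV G (20000 * τ) z ∧
        ¬ Mu G (20000 * τ) z := by
      by_contra hn
      push Not at hn
      exact hx ⟨hx1, hn⟩
    obtain ⟨z, z1, z2, z3⟩ := hx'
    obtain ⟨b1, b2, -⟩ := hre x z hx1 z1
    obtain ⟨c1, c2, -⟩ := hre x (μ x) hx1 (hμ1 x)
    have e1 := (hs.p6 z b1).2.1 z3 z2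
    have e2 : ψ (μ x) = 0 := (hs.p6 _ c1).1 fun u hu => hμ2 x u ((hμ1 x).trans hu)
    have e3 := h1 (μ x)
    by_cases hz : blk (fun u => l u + 1) z = blk (fun u => l u + 1) x
    · refine ⟨μ x, hμ1 x, fun hm => ?_⟩
      change blk (fun u => l u + 1) (μ x) = blk (fun u => l u + 1) x at hm
      simp only [blk] at hz hm
      omega
    · exact ⟨z, z1, hz⟩

end

theorem core_data {τ : ℕ} (h : Std G τ) : Data4 G := by
  obtain ⟨Z, par, rk, ψ, hs⟩ := exists_skel h
  obtain ⟨l, h1, h2, h3⟩ := core_levels h hs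
  exact ⟨l, h3, core_bd1 h hs h1 h2, core_bd2 h hs h1 h2⟩

end Pool.Agent.Lib.MP_b735d7_co
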