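import Mathlib

/-!
Random graph orders and their dimension.
-/

namespace Pool.Agent.Lib.MP_b735d7_co

open MeasureTheory

/-- The graph order of a graph `G` on a linearly ordered vertex set: `i` is below `j` if there is
an increasing path `i = i_0 < i_1 < ... < i_k = j` (`k ≥ 1`) along edges of `G`. -/
def Below {V : Type} [LinearOrder V] (G : SimpleGraph V) (i j : V) : Prop :=
  Relation.TransGen (fun a b => a < b ∧ G.Adj a b) i j

/-- The graph order of `G` is the intersection of `d` linear orders. -/
def Realized {V : Type} [LinearOrder V] (G : SimpleGraph V) (d : ℕ) : Prop :=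
  ∃ L : Fin d → LinearOrder V, ∀ i j : V, Below G i j ↔ ∀ k, (L k).lt i j

/-- The Dushnik-Miller dimension of the graph order of `G`. -/
noncomputable def orderDim {V : Type} [LinearOrder V] (G : SimpleGraph V) : ℕ :=
  sInf {d | Realized G d}

/-- The probability of the event `A` in the binomial random graph on `Fin n` with edge probability
`c / n` (cut to the interval `[0, 1]`). -/
noncomputable def prob (n : ℕ) (c : ℝ) (A : Set (SimpleGraph (Fin n))) : ℝ :=
  (SimpleGraph.binomialRandom (Fin n) (Set.projIcc (0 : ℝ) 1 zero_le_one (c / n))).real A

end Pool.Agent.Lib.MP_b735d7_co
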