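import Pool.Agent.Lib.MP_b735d7_co.PBase

/-!
Long paths from a given vertex are rare near the critical point.
-/

namespace Pool.Agent.Lib.MP_b735d7_co

open Finset Pool.Agent.Lib.MP_58a483_pr.H80

lemma eta_iter {ι : Type} [DecidableEq ι] (E R : Finset ι) (p : ℝ)
    (G : Finset ι → Finset ι → ℝ) : Ex E p (fun w => G (w ∩ R) (w \ R)) =
      Ex E p (fun w' => Ex E p fun w => G (w ∩ R) (w' \ R)) := by
  induction E using Finset.induction_on generalizing G with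
  | empty => simp [Ex_empty]
  | insert e E he ih =>
    simp only [Ex_insert he]
    by_cases hR : e ∈ R
    · have h1 : ∀ ω : Finset ι, insert e ω ∩ R = insert e (ω ∩ R) := fun ω =>
        insert_inter_of_mem hR
      have h2 : ∀ ω : Finset ι, insert e ω \ R = ω \ R := fun ω => insert_sdiff_of_mem _ hR
      simp only [h1, h2, Ex_add, Ex_mul_left]
      rw [ih G, ih fun a b => G (insert e a) b]; ring
    · have h1 : ∀ ω : Finset ι, insert e ω ∩ R = ω ∩ R := fun ω => insert_inter_of_notMem hR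
      have h2 : ∀ ω : Finset ι, insert e ω \ R = insert e (ω \ R) := fun ω =>
        insert_sdiff_of_notMem _ hR
      simp only [h1, h2, Ex_add, Ex_mul_left]
      rw [ih G, ih fun a b => G a (insert e b)]; ring

/-- a path with `h` edges starts at `x` -/
def EtaA {n : ℕ} (h : ℕ) (x : Fin n) (ω : Finset (Sym2 (Fin n))) : Prop :=
  ∃ z, PSeq (gr ω) z h ∧ z 0 = x

/-- the edges from `x` to the set `Y` -/
def etaS {n : ℕ} (x : Fin n) (Y : Finset (Fin n)) : Finset (Sym2 (Fin n)) :=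
  (Y.erase x).image fun y => s(x, y)

lemma eta_mono {n h : ℕ} {x : Fin n} {ω ω' : Finset (Sym2 (Fin n))} (hs : ω ⊆ ω')
    (hA : EtaA h x ω) : EtaA h x ω' := by
  obtain ⟨z, ⟨h1, h2⟩, h3⟩ := hA
  exact ⟨z, ⟨fun i hi => gr_mono hs (h1 i hi), h2⟩, h3⟩

lemma eta_first {n h : ℕ} {x : Fin n} {ω : Finset (Sym2 (Fin n))} (hA : EtaA (h + 1) x ω) :
    ∃ y, y ≠ x ∧ s(x, y) ∈ ω ∧ EtaA h y (ω \ etaS x univ) := by
  obtain ⟨z, ⟨h1, h2⟩, rfl⟩ := hA
  have h0 := gr_adj.1 (h1 0 (by omega))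
  refine ⟨z 1, h0.2.symm, h0.1, fun i => z (i + 1), ⟨fun i hi => ?_, fun i hi j hj e => ?_⟩, rfl⟩
  · have h3 := gr_adj.1 (h1 (i + 1) (by omega))
    refine gr_adj.2 ⟨mem_sdiff.2 ⟨h3.1, fun k => ?_⟩, h3.2⟩
    obtain ⟨y, -, hy⟩ := mem_image.1 k
    rcases Sym2.eq_iff.1 hy with ⟨a, -⟩ | ⟨a, -⟩
    · have := h2 0 (by omega) (i + 1) (by omega) a
      omega
    · have := h2 0 (by omega) (i + 1 + 1) (by omega) a
      omega
  · have := h2 (i + 1) (by omega) (j + 1) (by omega) e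
    omega

lemma eta_pow {p u : ℝ} (h1 : p ≤ 1 / 2) (k : ℕ) :
    Real.exp (-u) * (1 + u - p / (1 - p) * k) ≤ (1 - p) ^ k := by
  have hp : 0 < 1 - p := by linarith
  have e1 : Real.exp (-(p / (1 - p))) ≤ 1 - p := by
    rw [Real.exp_neg, inv_le_comm₀ (Real.exp_pos _) hp]
    refine le_trans (le_of_eq ?_) (Real.add_one_le_exp _)
    field_simp
    ring
  have e2 : Real.exp (-(p / (1 - p))) ^ k ≤ (1 - p) ^ k :=
    pow_le_pow_left₀ (Real.exp_pos _).le e1 k
  refine le_trans ?_ e2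
  rw [← Real.exp_nat_mul, show (k : ℝ) * -(p / (1 - p)) = -u + (u - p / (1 - p) * k) by ring,
    Real.exp_add]
  refine mul_le_mul_of_nonneg_left ?_ (Real.exp_pos _).le
  have := Real.add_one_le_exp (u - p / (1 - p) * k)
  linarith

lemma eta_step {n h : ℕ} {p a c : ℝ} (h0 : 0 ≤ p) (h1 : p ≤ 1 / 2) (ha : 0 ≤ a)
    (hc : n * p ≤ c * (1 - p)) (ih : ∀ y : Fin n, Ex (EE n) p (fun ω => ind (EtaA h y ω)) ≤ a)
    (x : Fin n) :
    Ex (EE n) p (fun ω => ind (EtaA (h + 1) x ω)) ≤ 1 - Real.exp (-(c * a)) := by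
  classical
  have hp1 : p ≤ 1 := by linarith
  have hp : 0 < 1 - p := by linarith
  set R := etaS x univ with hR
  set Y : Finset (Sym2 (Fin n)) → Finset (Fin n) := fun b => univ.filter fun y => EtaA h y b
    with hY
  have s1 : Ex (EE n) p (fun ω => ind (EtaA (h + 1) x ω)) ≤
      Ex (EE n) p (fun ω => 1 - ind (Disjoint (etaS x (Y (ω \ R))) (ω ∩ R))) := by
    refine Ex_mono h0 hp1 fun ω _ => ?_
    rw [← ind_not]
    refine ind_mono fun hA hd => ?_
    obtain ⟨y, hy, hm, hA'⟩ := eta_first hA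
    exact disjoint_left.1 hd
      (mem_image.2 ⟨y, mem_erase.2 ⟨hy, mem_filter.2 ⟨mem_univ _, hA'⟩⟩, rfl⟩)
      (mem_inter.2 ⟨hm, mem_image.2 ⟨y, mem_erase.2 ⟨hy, mem_univ _⟩, rfl⟩⟩)
  rw [Ex_sub, Ex_const, eta_iter _ R p fun a b => ind (Disjoint (etaS x (Y b)) a)] at s1
  have s2 : Ex (EE n) p (fun w' => Real.exp (-(c * a)) *
      (1 + c * a - p / (1 - p) * ∑ y : Fin n, ind (EtaA h y w'))) ≤
      Ex (EE n) p (fun w' => Ex (EE n) p fun w => ind (Disjoint (etaS x (Y (w' \ R))) (w ∩ R))) := by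
    refine Ex_mono h0 hp1 fun w' _ => ?_
    have e1 : etaS x (Y (w' \ R)) ⊆ EE n := fun e he => by
      obtain ⟨y, hy, rfl⟩ := mem_image.1 he
      exact mem_EE.2 (mem_erase.1 hy).1.symm
    have e2 : Ex (EE n) p (fun w => ind (Disjoint (etaS x (Y (w' \ R))) w)) ≤
        Ex (EE n) p fun w => ind (Disjoint (etaS x (Y (w' \ R))) (w ∩ R)) :=
      Ex_mono h0 hp1 fun w _ => ind_mono fun k => k.mono_right inter_subset_left
    rw [Ex_disj e1] at e2
    have e3 : (etaS x (Y (w' \ R))).card ≤ (Y w').card :=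
      card_image_le.trans (card_le_card ((erase_subset _ _).trans fun y hy =>
        mem_filter.2 ⟨mem_univ _, eta_mono sdiff_subset (mem_filter.1 hy).2⟩))
    rw [sum_ind_eq_card]
    exact (eta_pow h1 _).trans ((pow_le_pow_of_le_one hp.le (by linarith) e3).trans e2)
  rw [Ex_mul_left, Ex_sub, Ex_const, Ex_mul_left, Ex_sum] at s2
  have s3 : ∑ y : Fin n, Ex (EE n) p (fun ω => ind (EtaA h y ω)) ≤ n * a := by
    refine (sum_le_card_nsmul _ _ _ fun y _ => ih y).trans ?_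
    simp
  have s4 : p / (1 - p) * ∑ y : Fin n, Ex (EE n) p (fun ω => ind (EtaA h y ω)) ≤ c * a := by
    refine (mul_le_mul_of_nonneg_left s3 (div_nonneg h0 hp.le)).trans ?_
    rw [← mul_assoc]
    refine mul_le_mul_of_nonneg_right ?_ ha
    rw [div_mul_eq_mul_div, div_le_iff₀ hp]
    linarith
  have s5 := mul_le_mul_of_nonneg_left (show 1 ≤ 1 + c * a - p / (1 - p) *
    ∑ y : Fin n, Ex (EE n) p (fun ω => ind (EtaA h y ω)) by linarith) (Real.exp_pos (-(c * a))).le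
  linarith

lemma eta_num {η a : ℝ} (h0 : 0 < η) (h1 : η ≤ a) (h2 : a ≤ 1) :
    1 - Real.exp (-((1 + η ^ 2 / 8) * a)) ≤ a - η ^ 2 / 8 := by
  have e0 : η ^ 2 ≤ a ^ 2 := pow_le_pow_left₀ h0.le h1 2
  have e1 : a ^ 2 ≤ 1 := by nlinarith
  have e2 : η ^ 2 / 8 * a ≤ η ^ 2 / 8 := mul_le_of_le_one_right (by positivity) h2
  have e3 : 0 ≤ η ^ 2 / 8 * a := mul_nonneg (by positivity) (by linarith)
  set u := (1 + η ^ 2 / 8) * a with hu
  have e4 : u = a + η ^ 2 / 8 * a := by rw [hu]; ring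
  have e5 := Real.add_one_le_exp (-(u / 2))
  have e6 : (1 - u / 2) ^ 2 ≤ Real.exp (-(u / 2)) ^ 2 :=
    pow_le_pow_left₀ (by linarith) (by linarith) 2
  rw [← Real.exp_nat_mul, show ((2 : ℕ) : ℝ) * -(u / 2) = -u by push_cast; ring] at e6
  have e7 : a ^ 2 ≤ u ^ 2 := pow_le_pow_left₀ (by linarith) (by linarith) 2
  nlinarith

theorem eta_small {η : ℝ} (hη : 0 < η) : ∃ (h : ℕ) (ε : ℝ), 0 < ε ∧ ∀ (n : ℕ) (p : ℝ), 0 ≤ p →
    p ≤ 1 / 2 → n * p ≤ (1 + ε) * (1 - p) →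
    ∀ x : Fin n, Pr n p (fun G => ∃ z, PSeq G z h ∧ z 0 = x) ≤ η := by
  set t := min η 1 with ht
  have t0 : 0 < t := lt_min hη one_pos
  have t1 : t ≤ 1 := min_le_right _ _
  have d0 : 0 < t ^ 2 / 8 := by positivity
  refine ⟨⌈1 / (t ^ 2 / 8)⌉₊, t ^ 2 / 8, d0, fun n p h0 h1 hc x => ?_⟩
  have key : ∀ h : ℕ, ∀ y : Fin n,
      Ex (EE n) p (fun ω => ind (EtaA h y ω)) ≤ max t (1 - h * (t ^ 2 / 8)) := by
    intro h
    induction h with
    | zero =>
      intro y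
      refine le_trans ?_ (le_max_right _ _)
      rw [Nat.cast_zero, zero_mul, sub_zero, ← Ex_const (EE n) p 1]
      exact Ex_mono h0 (by linarith) fun ω _ => ind_le_one _
    | succ h ih =>
      intro y
      have e0 : t ≤ max t (1 - h * (t ^ 2 / 8)) := le_max_left _ _
      have e1 : max t (1 - h * (t ^ 2 / 8)) ≤ 1 :=
        max_le t1 (sub_le_self _ (by positivity))
      refine (eta_step h0 h1 (by linarith) hc ih y).trans ((eta_num t0 e0 e1).trans ?_)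
      rw [sub_le_iff_le_add]
      have e2 := le_max_left t (1 - ((h + 1 : ℕ) : ℝ) * (t ^ 2 / 8))
      have e3 := le_max_right t (1 - ((h + 1 : ℕ) : ℝ) * (t ^ 2 / 8))
      refine max_le (by linarith) ?_
      push_cast at e3 ⊢
      linarith
  refine (key _ x).trans (max_le (min_le_left _ _) ?_)
  have e := Nat.le_ceil (1 / (t ^ 2 / 8))
  rw [div_le_iff₀ d0] at e
  linarith

end Pool.Agent.Lib.MP_b735d7_co
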