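import Pool.Agent.Lib.MP_b735d7_co.PBase

/-!
Properties of placements.
-/

namespace Pool.Agent.Lib.MP_b735d7_co

open Finset

variable {n M t : ℕ}

/-- the point of the abstract subdivision at position `i` of the path from `a` to `b` -/
def Shape_pos (M : ℕ) (a b : Fin 3) (i : ℕ) : (Fin 3 ⊕ Fin 3) ⊕ ((Fin 3 × Fin 3) × Fin M) :=
  if i = 0 then Sum.inl (Sum.inl a)
  else if h : i - 1 < M then Sum.inr ((a, b), ⟨i - 1, h⟩) else Sum.inl (Sum.inr b)

lemma Shape_pth (φ : Cfg n M) (a b : Fin 3) (i : ℕ) : pth φ a b i = val φ (Shape_pos M a b i) := by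
  unfold pth sq Shape_pos
  split_ifs <;> rfl

lemma Shape_pos_inj {a b a' b' : Fin 3} {i i' : ℕ} (hi : i ≤ M + 1) (hi' : i' ≤ M + 1)
    (h : Shape_pos M a b i = Shape_pos M a' b' i') :
    i = i' ∧ (i ≤ M → a = a') ∧ (1 ≤ i → b = b') := by
  unfold Shape_pos at h
  split_ifs at h with h1 h2 h3 h4 h5 h6 h7 h8
  · refine ⟨by omega, fun _ => ?_, fun _ => by omega⟩
    simpa using h
  · simp at h
  · simp only [Sum.inr.injEq, Prod.mk.injEq, Fin.mk.injEq] at h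
    exact ⟨by omega, fun _ => h.1.1, fun _ => h.1.2⟩
  · simp at h
  · refine ⟨by omega, fun _ => by omega, fun _ => ?_⟩
    simpa using h

lemma Shape_pth_inj {φ : Cfg n M} (hφ : IsEmb t φ) {a b a' b' : Fin 3} {i i' : ℕ}
    (hi : i ≤ M + 1) (hi' : i' ≤ M + 1) (h : pth φ a b i = pth φ a' b' i') :
    i = i' ∧ (i ≤ M → a = a') ∧ (1 ≤ i → b = b') := by
  rw [Shape_pth, Shape_pth] at h
  exact Shape_pos_inj hi hi' (hφ.1 h)

lemma Shape_nbr {φ : Cfg n M} (hφ : IsEmb t φ) {a b : Fin 3} {k : ℕ} (hk : k ≤ M + 1)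
    {y : Fin n} (h : s(pth φ a b k, y) ∈ edg φ) :
    ∃ a' b', (k ≤ M → a = a') ∧ (1 ≤ k → b = b') ∧
      ((k ≤ M ∧ y = pth φ a' b' (k + 1)) ∨ (1 ≤ k ∧ y = pth φ a' b' (k - 1))) := by
  obtain ⟨⟨⟨a', b'⟩, i⟩, -, hq⟩ := mem_image.1 h
  have hi := i.2
  dsimp only at hq
  rcases Sym2.eq_iff.1 hq with ⟨h1, h2⟩ | ⟨h1, h2⟩
  · obtain ⟨e, ha, hb⟩ := Shape_pth_inj hφ hk (by omega) h1.symm
    exact ⟨a', b', ha, hb, Or.inl ⟨by omega, by rw [e, h2]⟩⟩
  · obtain ⟨e, ha, hb⟩ := Shape_pth_inj hφ hk (by omega) h2.symm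
    exact ⟨a', b', ha, hb, Or.inr ⟨by omega, by rw [e, Nat.add_sub_cancel, h1]⟩⟩

lemma edg_sub (hM : 1 ≤ M) {φ : Cfg n M} (hφ : IsEmb t φ) : edg φ ⊆ EE n := by
  have _ := hM
  intro e he
  obtain ⟨⟨⟨a, b⟩, i⟩, -, rfl⟩ := mem_image.1 he
  have hi := i.2
  refine mem_EE.2 fun h => ?_
  have := (Shape_pth_inj hφ (by omega) (by omega) h).1
  omega

lemma card_edg (hM : 1 ≤ M) {φ : Cfg n M} (hφ : IsEmb t φ) : (edg φ).card = 9 * (M + 1) := by
  have _ := hM
  unfold edg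
  rw [card_image_of_injective]
  · simp
  rintro ⟨⟨a, b⟩, i⟩ ⟨⟨a', b'⟩, i'⟩ h
  have hi := i.2
  have hi' := i'.2
  dsimp only at h
  rcases Sym2.eq_iff.1 h with ⟨h1, h2⟩ | ⟨h1, h2⟩
  · obtain ⟨e, ha, -⟩ := Shape_pth_inj hφ (by omega) (by omega) h1
    obtain ⟨-, -, hb⟩ := Shape_pth_inj hφ (by omega) (by omega) h2
    rw [ha (by omega), hb (by omega), Fin.ext e]
  · have e1 := (Shape_pth_inj hφ (by omega) (by omega) h1).1
    have e2 := (Shape_pth_inj hφ (by omega) (by omega) h2).1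
    omega

lemma edg_supp {φ : Cfg n M} {x y : Fin n} (h : s(x, y) ∈ edg φ) : x ∈ univ.image (val φ) := by
  obtain ⟨q, -, hq⟩ := mem_image.1 h
  rcases Sym2.eq_iff.1 hq with ⟨h1, -⟩ | ⟨-, h2⟩
  · exact mem_image.2 ⟨_, mem_univ _, by rw [← h1, Shape_pth]⟩
  · exact mem_image.2 ⟨_, mem_univ _, by rw [← h2, Shape_pth]⟩

lemma Shape_deg2 {φ : Cfg n M} (hφ : IsEmb t φ) (x : Fin n)
    (hx : x ∉ univ.image φ.1) : (univ.filter fun y => s(x, y) ∈ edg φ).card ≤ 2 := by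
  rcases (univ.filter fun y => s(x, y) ∈ edg φ).eq_empty_or_nonempty with h | ⟨y0, hy0⟩
  · simp [h]
  obtain ⟨u, -, hu⟩ := mem_image.1 (edg_supp (mem_filter.1 hy0).2)
  rcases u with u | ⟨⟨a, b⟩, j⟩
  · exact absurd (mem_image.2 ⟨u, mem_univ _, hu⟩) hx
  have hj := j.2
  have hxe : x = pth φ a b (j + 1) := by
    rw [← hu]
    simp [pth, sq, val]
  refine le_trans (card_le_card (t := {pth φ a b (j + 1 + 1), pth φ a b (j + 1 - 1)}) ?_)
    card_le_two
  intro y hy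
  have hy' := (mem_filter.1 hy).2
  rw [hxe] at hy'
  obtain ⟨a', b', ha, hb, h⟩ := Shape_nbr hφ (by omega) hy'
  rw [← ha (by omega), ← hb (by omega)] at h
  rcases h with ⟨-, h⟩ | ⟨-, h⟩
  · exact mem_insert.2 (Or.inl h)
  · exact mem_insert.2 (Or.inr (mem_singleton.2 h))

lemma edg_deg3 (hM : 1 ≤ M) {φ : Cfg n M} (hφ : IsEmb t φ) (x : Fin n) :
    (univ.filter fun y => s(x, y) ∈ edg φ).card ≤ 3 := by
  have _ := hM
  by_cases hx : x ∈ univ.image φ.1
  swap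
  · exact (Shape_deg2 hφ x hx).trans (by norm_num)
  obtain ⟨u, -, hu⟩ := mem_image.1 hx
  rcases u with a | b
  · have hxe : x = pth φ a 0 0 := by
      rw [← hu]
      simp [pth, sq]
    refine le_trans (card_le_card (t := univ.image fun b => pth φ a b (0 + 1)) ?_)
      (card_image_le.trans (by simp))
    intro y hy
    have hy' := (mem_filter.1 hy).2
    rw [hxe] at hy'
    obtain ⟨a', b', ha, -, h⟩ := Shape_nbr hφ (by omega) hy'
    rw [← ha (by omega)] at h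
    rcases h with ⟨-, h⟩ | ⟨h0, -⟩
    · exact mem_image.2 ⟨b', mem_univ _, h.symm⟩
    · omega
  · have hxe : x = pth φ 0 b (M + 1) := by
      rw [← hu]
      simp [pth, sq]
    refine le_trans (card_le_card (t := univ.image fun a => pth φ a b (M + 1 - 1)) ?_)
      (card_image_le.trans (by simp))
    intro y hy
    have hy' := (mem_filter.1 hy).2
    rw [hxe] at hy'
    obtain ⟨a', b', -, hb, h⟩ := Shape_nbr hφ (by omega) hy'
    rw [← hb (by omega)] at h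
    rcases h with ⟨h0, -⟩ | ⟨-, h⟩
    · omega
    · exact mem_image.2 ⟨a', mem_univ _, h.symm⟩

lemma edg_deg2 (hM : 1 ≤ M) {φ : Cfg n M} (hφ : IsEmb t φ) (x : Fin n)
    (hx : x ∉ univ.image φ.1) : (univ.filter fun y => s(x, y) ∈ edg φ).card ≤ 2 := by
  have _ := hM
  exact Shape_deg2 hφ x hx

/-- the placement given by a pair of embeddings -/
def Shape_mk (e : (Fin 3 ⊕ Fin 3 ↪ {x : Fin n // x.val < t}) ×
    ((Fin 3 × Fin 3) × Fin M ↪ {x : Fin n // ¬ x.val < t})) : Cfg n M :=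
  (fun u => (e.1 u).1, fun q i => (e.2 (q, i)).1)

lemma Shape_mk_emb (e : (Fin 3 ⊕ Fin 3 ↪ {x : Fin n // x.val < t}) ×
    ((Fin 3 × Fin 3) × Fin M ↪ {x : Fin n // ¬ x.val < t})) : IsEmb t (Shape_mk e) := by
  refine ⟨?_, fun u => (e.1 u).2, fun q i => not_lt.1 (e.2 (q, i)).2⟩
  rintro (u | q) (u' | q') h
  · have h' : (e.1 u).1 = (e.1 u').1 := h
    rw [e.1.injective (Subtype.ext h')]
  · have h' : (e.1 u).1 = (e.2 q').1 := h
    exact absurd (h' ▸ (e.1 u).2) (e.2 q').2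
  · have h' : (e.2 q).1 = (e.1 u').1 := h
    exact absurd (h' ▸ (e.1 u').2) (e.2 q).2
  · have h' : (e.2 q).1 = (e.2 q').1 := h
    rw [e.2.injective (Subtype.ext h')]

lemma Shape_mk_inj : Function.Injective (Shape_mk (n := n) (M := M) (t := t)) := by
  intro e e' h
  refine Prod.ext ?_ ?_
  · ext u : 1
    exact Subtype.ext (congrFun (congrArg Prod.fst h) u)
  · ext q : 1
    exact Subtype.ext (congrFun (congrFun (congrArg Prod.snd h) q.1) q.2)

open Classical in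
lemma card_emb (ht : t ≤ n) :
    (t - 6) ^ 6 * (n - t - 9 * M) ^ (9 * M) ≤ (univ.filter fun φ : Cfg n M => IsEmb t φ).card := by
  have h1 : (univ.image (Shape_mk (n := n) (M := M) (t := t))).card ≤
      (univ.filter fun φ : Cfg n M => IsEmb t φ).card := by
    refine card_le_card fun φ hφ => ?_
    obtain ⟨e, -, rfl⟩ := mem_image.1 hφ
    exact mem_filter.2 ⟨mem_univ _, Shape_mk_emb e⟩
  refine le_trans ?_ h1
  have c1 : Fintype.card {x : Fin n // x.val < t} = t := Fintype.card_fin_lt_of_le ht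
  have c2 : Fintype.card {x : Fin n // ¬ x.val < t} = n - t := by
    rw [Fintype.card_subtype_compl, c1, Fintype.card_fin]
  have c3 : Fintype.card (Fin 3 ⊕ Fin 3) = 6 := by simp
  have c4 : Fintype.card ((Fin 3 × Fin 3) × Fin M) = 9 * M := by simp
  rw [card_image_of_injective _ Shape_mk_inj, card_univ, Fintype.card_prod,
    Fintype.card_embedding_eq, Fintype.card_embedding_eq, c1, c2, c3, c4]
  refine Nat.mul_le_mul ?_ ?_
  · exact le_trans (Nat.pow_le_pow_left (by omega) _) (Nat.pow_sub_le_descFactorial t 6)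
  · exact le_trans (Nat.pow_le_pow_left (by omega) _)
      (Nat.pow_sub_le_descFactorial (n - t) (9 * M))

end Pool.Agent.Lib.MP_b735d7_co
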