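import Pool.Agent.Lib.MP_b735d7_co.PBase
import Pool.Agent.Lib.MP_b735d7_co.Shape

/-!
Increasing paths are rare.
-/

namespace Pool.Agent.Lib.MP_b735d7_co

open Finset

open Pool.Agent.Lib.MP_58a483_pr.H80

lemma Inc_avoid {n : ℕ} {ω : Finset (Sym2 (Fin n))} {x v u y : Fin n}
    (h : Relation.ReflTransGen (fun a b => a < b ∧ (gr ω).Adj a b) u y) (hx : x < u) :
    Relation.ReflTransGen (fun a b => a < b ∧ (gr (ω \ {s(x, v)})).Adj a b) u y := by
  induction h using Relation.ReflTransGen.head_induction_on with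
  | refl => exact Relation.ReflTransGen.refl
  | head hab _ ih =>
    refine Relation.ReflTransGen.head ⟨hab.1, gr_adj.2 ⟨?_, hab.1.ne⟩⟩ (ih (hx.trans hab.1))
    refine mem_sdiff.2 ⟨(gr_adj.1 hab.2).1, fun k => ?_⟩
    rcases Sym2.eq_iff.1 (mem_singleton.1 k) with ⟨a, -⟩ | ⟨-, b⟩
    · exact hx.ne' a
    · exact (hx.trans hab.1).ne' b

lemma Inc_mono {n : ℕ} {ω ω' : Finset (Sym2 (Fin n))} (h : ω ⊆ ω') {x y : Fin n}
    (k : Below (gr ω) x y) : Below (gr ω') x y := by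
  unfold Below at k ⊢
  induction k with
  | single hab => exact Relation.TransGen.single ⟨hab.1, gr_mono h hab.2⟩
  | tail _ hab ih => exact ih.tail ⟨hab.1, gr_mono h hab.2⟩

lemma Inc_step {n : ℕ} {p : ℝ} (h0 : 0 ≤ p) (h1 : p ≤ 1) (x y : Fin n) :
    Pr n p (fun G => Below G x y) ≤
      p * (1 + ∑ u ∈ univ.filter fun u : Fin n => x.val + 1 ≤ u.val,
        Pr n p fun G => Below G u y) := by
  set U : Finset (Fin n) := univ.filter fun u : Fin n => x.val + 1 ≤ u.val with hU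
  have hlt : ∀ u, u ∈ U ↔ x < u := fun u => by
    simp only [hU, mem_filter, mem_univ, true_and, Fin.lt_def]
    omega
  have e1 : Pr n p (fun G => Below G x y) ≤ Ex (EE n) p fun ω => ∑ u ∈ U,
      ind ({s(x, u)} ⊆ ω ∩ {s(x, u)}) * ind (u = y ∨ Below (gr (ω \ {s(x, u)})) u y) := by
    refine Ex_mono h0 h1 fun ω _ => ?_
    refine ind_le_of (sum_nonneg fun u _ => mul_nonneg (ind_nonneg _) (ind_nonneg _)) fun h => ?_
    obtain ⟨u, hxu, hu⟩ := Relation.TransGen.head'_iff.1 h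
    refine le_trans ?_ (single_le_sum
      (f := fun u => ind ({s(x, u)} ⊆ ω ∩ {s(x, u)}) *
        ind (u = y ∨ Below (gr (ω \ {s(x, u)})) u y))
      (fun u _ => mul_nonneg (ind_nonneg _) (ind_nonneg _)) ((hlt u).2 hxu.1))
    have a1 : ({s(x, u)} : Finset (Sym2 (Fin n))) ⊆ ω ∩ {s(x, u)} :=
      subset_inter (singleton_subset_iff.2 (gr_adj.1 hxu.2).1) Subset.rfl
    have a2 : u = y ∨ Below (gr (ω \ {s(x, u)})) u y := by
      rcases Relation.reflTransGen_iff_eq_or_transGen.1 (Inc_avoid (v := u) hu hxu.1) with k | k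
      · exact Or.inl k.symm
      · exact Or.inr k
    simp only [ind_pos a1, ind_pos a2, mul_one, le_refl]
  have e2 : ∀ u ∈ U, Ex (EE n) p (fun ω =>
      ind ({s(x, u)} ⊆ ω ∩ {s(x, u)}) * ind (u = y ∨ Below (gr (ω \ {s(x, u)})) u y)) ≤
      p * (ind (u = y) + Pr n p fun G => Below G u y) := by
    intro u hu
    rw [Ex_indep (EE n) {s(x, u)} p (fun σ => ind ({s(x, u)} ⊆ σ))
      (fun σ => ind (u = y ∨ Below (gr σ) u y))]
    have a1 : Ex (EE n) p (fun ω => ind ({s(x, u)} ⊆ ω ∩ {s(x, u)})) = p := by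
      rw [Ex_congr (g := fun ω => ind ({s(x, u)} ⊆ ω)) fun ω _ => ind_congr (by simp),
        Ex_sup (singleton_subset_iff.2 (mem_EE.2 ((hlt u).1 hu).ne)), card_singleton, pow_one]
    rw [a1]
    refine mul_le_mul_of_nonneg_left ?_ h0
    rw [← Ex_const (EE n) p (ind (u = y)), Pr, ← Ex_add]
    refine Ex_mono h0 h1 fun ω _ => (ind_or_le _ _).trans ?_
    exact add_le_add le_rfl (ind_mono (Inc_mono sdiff_subset))
  rw [Ex_sum] at e1
  refine e1.trans ((sum_le_sum e2).trans ?_)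
  rw [← mul_sum, sum_add_distrib]
  refine mul_le_mul_of_nonneg_left (add_le_add ?_ le_rfl) h0
  rw [sum_ind_eq_card]
  have : (U.filter fun u => u = y).card ≤ 1 :=
    card_le_one.2 fun a ha b hb => (mem_filter.1 ha).2.trans (mem_filter.1 hb).2.symm
  exact_mod_cast this

lemma Inc_sum {n : ℕ} {p : ℝ} (h0 : 0 ≤ p) (h1 : p ≤ 1) (y : Fin n) (k : ℕ) :
    ∀ j : ℕ, n ≤ j + k → 1 + ∑ u ∈ univ.filter fun u : Fin n => j ≤ u.val,
      (Pr n p fun G => Below G u y) ≤ (1 + p) ^ k := by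
  induction k with
  | zero =>
    intro j hj
    rw [filter_false_of_mem fun u _ => by have := u.isLt; omega]
    simp
  | succ k ih =>
    intro j hj
    by_cases h : n ≤ j + k
    · exact (ih j h).trans (pow_le_pow_right₀ (by linarith) (Nat.le_succ k))
    · have hjn : j < n := by omega
      have e : (univ.filter fun u : Fin n => j ≤ u.val) =
          insert ⟨j, hjn⟩ (univ.filter fun u : Fin n => j + 1 ≤ u.val) := by
        ext u
        simp only [mem_filter, mem_univ, true_and, mem_insert, Fin.ext_iff]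
        omega
      rw [e, sum_insert (by simp)]
      have a1 := Inc_step h0 h1 ⟨j, hjn⟩ y
      have a2 := ih (j + 1) (by omega)
      have a3 := mul_le_mul_of_nonneg_left a2 h0
      rw [pow_succ]
      simp only at a1
      nlinarith

theorem pr_below {n : ℕ} {p : ℝ} (h0 : 0 ≤ p) (h1 : p ≤ 1) (x y : Fin n) :
    Pr n p (fun G => Below G x y) ≤ p * (1 + p) ^ n :=
  (Inc_step h0 h1 x y).trans
    (mul_le_mul_of_nonneg_left (Inc_sum h0 h1 y n (x.val + 1) (by omega)) h0)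

theorem pr_ear {n M t : ℕ} (hM : 1 ≤ M) {p : ℝ} (h0 : 0 ≤ p) (h1 : p ≤ 1) {φ : Cfg n M}
    (hφ : IsEmb t φ) : Ex (EE n) p (fun ω => ind (edg φ ⊆ ω ∧ Ear φ ω)) ≤
      p ^ (9 * (M + 1)) * ((6 + 9 * M : ℝ) ^ 2 * (p * (1 + p) ^ n)) := by
  have e1 : Ex (EE n) p (fun ω => ind (edg φ ⊆ ω ∧ Ear φ ω)) =
      Ex (EE n) p (fun ω => ind (edg φ ⊆ ω ∩ edg φ) *
        ind (∃ u u', Below (gr (ω \ edg φ)) (val φ u) (val φ u'))) := by
    refine Ex_congr fun ω _ => ?_
    rw [ind_and]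
    congr 1
    exact ind_congr (by simp [subset_inter_iff])
  have a1 : Ex (EE n) p (fun ω => ind (edg φ ⊆ ω ∩ edg φ)) = p ^ (9 * (M + 1)) := by
    rw [Ex_congr (g := fun ω => ind (edg φ ⊆ ω)) fun ω _ =>
      ind_congr (by simp [subset_inter_iff]), Ex_sup (edg_sub hM hφ), card_edg hM hφ]
  rw [e1, Ex_indep (EE n) (edg φ) p (fun σ => ind (edg φ ⊆ σ))
    (fun σ => ind (∃ u u', Below (gr σ) (val φ u) (val φ u'))), a1]
  refine mul_le_mul_of_nonneg_left ?_ (pow_nonneg h0 _)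
  let I := (Fin 3 ⊕ Fin 3) ⊕ ((Fin 3 × Fin 3) × Fin M)
  have e2 : Ex (EE n) p (fun ω => ind (∃ u u', Below (gr (ω \ edg φ)) (val φ u) (val φ u'))) ≤
      Ex (EE n) p (fun ω => ∑ q ∈ (univ : Finset (I × I)),
        ind (Below (gr ω) (val φ q.1) (val φ q.2))) := by
    refine Ex_mono h0 h1 fun ω _ => le_trans (ind_mono ?_) (ind_exists_le _ _)
    rintro ⟨u, u', h⟩
    exact ⟨(u, u'), mem_univ _, Inc_mono sdiff_subset h⟩
  rw [Ex_sum] at e2
  refine e2.trans ((sum_le_card_nsmul _ _ (p * (1 + p) ^ n) fun q _ =>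
    pr_below h0 h1 (val φ q.1) (val φ q.2)).trans (le_of_eq ?_))
  have hc : (univ : Finset (I × I)).card = (6 + 9 * M) ^ 2 := by
    simp only [I, card_univ, Fintype.card_prod, Fintype.card_sum, Fintype.card_fin]
    ring
  rw [hc, nsmul_eq_mul]
  push_cast
  ring

end Pool.Agent.Lib.MP_b735d7_co
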