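import Pool.Agent.Lib.MP_b735d7_co.PBase
import Pool.Agent.Lib.MP_b735d7_co.Rank

/-!
Three linear orders do not realize a subdivided complete bipartite graph.
-/

namespace Pool.Agent.Lib.MP_b735d7_co

open Finset

/-- `x` separates `u` and `v` in the first order and is above both in the second -/
def parUp {V : Type} (r : Fin 3 → V → ℕ) (u v x : V) : ℕ :=
  if ¬ (r 0 u < r 0 x ↔ r 0 v < r 0 x) ∧ (r 1 u < r 1 x ∧ r 1 v < r 1 x) then 1 else 0

/-- `x` separates `u` and `v` in the first order and is not above both in the second -/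
def parDn {V : Type} (r : Fin 3 → V → ℕ) (u v x : V) : ℕ :=
  if ¬ (r 0 u < r 0 x ↔ r 0 v < r 0 x) ∧ ¬ (r 1 u < r 1 x ∧ r 1 v < r 1 x) then 1 else 0

/-- indicator of the first order -/
def parLt {V : Type} (r : Fin 3 → V → ℕ) (u x : V) : ℕ := if r 0 u < r 0 x then 1 else 0

lemma par_updn {V : Type} (r : Fin 3 → V → ℕ) (u v x : V) :
    (parUp r u v x + parDn r u v x) % 2 = (parLt r u x + parLt r v x) % 2 := by
  unfold parUp parDn parLt
  by_cases h1 : r 0 u < r 0 x <;> by_cases h2 : r 0 v < r 0 x <;>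
    by_cases h3 : r 1 u < r 1 x ∧ r 1 v < r 1 x <;> simp [h1, h2, h3]

lemma par_fin3 {P : Fin 3 → Prop} (h : ∃ k, P k) : P 0 ∨ P 1 ∨ P 2 := by
  obtain ⟨k, hk⟩ := h
  fin_cases k
  · exact Or.inl hk
  · exact Or.inr (Or.inl hk)
  · exact Or.inr (Or.inr hk)

lemma par_loc {V : Type} (r : Fin 3 → V → ℕ) (u v c d : V)
    (n1 : r 0 u ≠ r 0 c) (n2 : r 0 u ≠ r 0 d) (n3 : r 0 v ≠ r 0 c) (n4 : r 0 v ≠ r 0 d)
    (hu : ∃ k, r k c < r k u ∧ r k d < r k u) (hv : ∃ k, r k c < r k v ∧ r k d < r k v)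
    (hc : ∃ k, r k u < r k c ∧ r k v < r k c) (hd : ∃ k, r k u < r k d ∧ r k v < r k d) :
    (parUp r c d u + parUp r c d v + (parDn r u v c + parDn r u v d)) % 2 = 0 % 2 := by
  have hu' := par_fin3 hu
  have hv' := par_fin3 hv
  have hc' := par_fin3 hc
  have hd' := par_fin3 hd
  unfold parUp parDn
  split_ifs <;> omega

lemma par_sum_congr {f g : ℕ → ℕ} {L : ℕ} (h : ∀ i < L, f i % 2 = g i % 2) :
    (∑ i ∈ range L, f i) % 2 = (∑ i ∈ range L, g i) % 2 := by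
  induction L with
  | zero => simp
  | succ L ih =>
    rw [sum_range_succ, sum_range_succ]
    have h1 := ih fun i hi => h i (by omega)
    have h2 := h L (by omega)
    omega

lemma par_tele (g : ℕ → ℕ) (L : ℕ) :
    (∑ i ∈ range L, (g i + g (i + 1))) % 2 = (g 0 + g L) % 2 := by
  induction L with
  | zero => simp only [range_zero, sum_empty]; omega
  | succ L ih =>
    rw [sum_range_succ]
    omega

/-- the number of steps of a path that lie under a point -/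
def parU {V : Type} (r : Fin 3 → V → ℕ) (Q : ℕ → V) (L : ℕ) (x : V) : ℕ :=
  ∑ j ∈ range L, parUp r (Q j) (Q (j + 1)) x

/-- the number of steps of a path that lie over a point -/
def parD {V : Type} (r : Fin 3 → V → ℕ) (Q : ℕ → V) (L : ℕ) (x : V) : ℕ :=
  ∑ j ∈ range L, parDn r (Q j) (Q (j + 1)) x

lemma par_UD {V : Type} (r : Fin 3 → V → ℕ) (Q : ℕ → V) (L : ℕ) (x : V) :
    (parU r Q L x + parD r Q L x) % 2 = (parLt r (Q 0) x + parLt r (Q L) x) % 2 := by
  unfold parU parD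
  rw [← sum_add_distrib, ← par_tele (fun i => parLt r (Q i) x) L]
  exact par_sum_congr fun i _ => par_updn r _ _ _

lemma par_pair {V : Type} (r : Fin 3 → V → ℕ) (hr : Function.Injective (r 0))
    (P Q : ℕ → V) (L : ℕ) (hne : ∀ i ≤ L, ∀ j ≤ L, P i ≠ Q j)
    (hP : ∀ i < L, ∀ j ≤ L, ∃ k, r k (P i) < r k (Q j) ∧ r k (P (i + 1)) < r k (Q j))
    (hQ : ∀ j < L, ∀ i ≤ L, ∃ k, r k (Q j) < r k (P i) ∧ r k (Q (j + 1)) < r k (P i)) :
    (parU r Q L (P 0) + parU r Q L (P L) + parU r P L (Q 0) + parU r P L (Q L) +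
      parLt r (P 0) (Q 0) + parLt r (P L) (Q 0) + parLt r (P 0) (Q L) +
      parLt r (P L) (Q L)) % 2 = 0 := by
  have e1 := par_tele (fun i => parU r Q L (P i)) L
  have e2 := par_tele (fun j => parD r P L (Q j)) L
  have e3 := par_UD r P L (Q 0)
  have e4 := par_UD r P L (Q L)
  have e5 : (∑ i ∈ range L, ∑ j ∈ range L,
      (parUp r (Q j) (Q (j + 1)) (P i) + parUp r (Q j) (Q (j + 1)) (P (i + 1)) +
        (parDn r (P i) (P (i + 1)) (Q j) + parDn r (P i) (P (i + 1)) (Q (j + 1))))) % 2 =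
      (∑ _i ∈ range L, 0) % 2 := by
    refine par_sum_congr fun i hi => ?_
    have : (∑ j ∈ range L,
      (parUp r (Q j) (Q (j + 1)) (P i) + parUp r (Q j) (Q (j + 1)) (P (i + 1)) +
        (parDn r (P i) (P (i + 1)) (Q j) + parDn r (P i) (P (i + 1)) (Q (j + 1))))) % 2 =
        (∑ _j ∈ range L, 0) % 2 := by
      refine par_sum_congr fun j hj => ?_
      exact par_loc r _ _ _ _
        (fun h => hne i (by omega) j (by omega) (hr h))
        (fun h => hne i (by omega) (j + 1) (by omega) (hr h))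
        (fun h => hne (i + 1) (by omega) j (by omega) (hr h))
        (fun h => hne (i + 1) (by omega) (j + 1) (by omega) (hr h))
        (hQ j hj i (by omega)) (hQ j hj (i + 1) (by omega))
        (hP i hi j (by omega)) (hP i hi (j + 1) (by omega))
    simpa using this
  have e6 : (∑ i ∈ range L, ∑ j ∈ range L,
      (parUp r (Q j) (Q (j + 1)) (P i) + parUp r (Q j) (Q (j + 1)) (P (i + 1)) +
        (parDn r (P i) (P (i + 1)) (Q j) + parDn r (P i) (P (i + 1)) (Q (j + 1))))) =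
      (∑ i ∈ range L, (parU r Q L (P i) + parU r Q L (P (i + 1)))) +
        ∑ j ∈ range L, (parD r P L (Q j) + parD r P L (Q (j + 1))) := by
    unfold parU parD
    simp only [sum_add_distrib]
    congr 2 <;> exact sum_comm
  simp only [sum_const_zero] at e5
  omega

lemma par_lt_add {V : Type} (r : Fin 3 → V → ℕ) (hr : Function.Injective (r 0)) {x y : V}
    (h : x ≠ y) : parLt r x y + parLt r y x = 1 := by
  have : r 0 x ≠ r 0 y := fun k => h (hr k)
  unfold parLt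
  split_ifs <;> omega

theorem no3 {V : Type} (r : Fin 3 → V → ℕ) (hr : Function.Injective (r 0))
    (α β : Fin 3 → V) (y : Fin 3 → Fin 3 → ℕ → V) (L : ℕ)
    (h0 : ∀ a b, y a b 0 = α a) (hL : ∀ a b, y a b L = β b)
    (hne : ∀ a b a' b', a ≠ a' → b ≠ b' → ∀ i ≤ L, ∀ j ≤ L, y a b i ≠ y a' b' j)
    (hd : ∀ a b a' b', a ≠ a' → b ≠ b' → ∀ i < L, ∀ j ≤ L, ∃ k,
      r k (y a b i) < r k (y a' b' j) ∧ r k (y a b (i + 1)) < r k (y a' b' j)) : False := by
  have E : ∀ a b a' b', a ≠ a' → b ≠ b' →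
      (parU r (y a' b') L (α a) + parU r (y a' b') L (β b) + parU r (y a b) L (α a') +
        parU r (y a b) L (β b') + parLt r (α a) (α a') + parLt r (β b) (α a') +
        parLt r (α a) (β b') + parLt r (β b) (β b')) % 2 = 0 := by
    intro a b a' b' ha hb
    have := par_pair r hr (y a b) (y a' b') L (hne a b a' b' ha hb) (hd a b a' b' ha hb)
      (hd a' b' a b ha.symm hb.symm)
    rwa [h0, h0, hL, hL] at this
  have S : ∀ b b', b ≠ b' → parLt r (β b) (β b') + parLt r (β b') (β b) = 1 := by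
    intro b b' hb
    refine par_lt_add r hr ?_
    have := hne 0 b 1 b' (by decide) hb L le_rfl L le_rfl
    rwa [hL, hL] at this
  have s01 := S 0 1 (by decide)
  have s02 := S 0 2 (by decide)
  have s12 := S 1 2 (by decide)
  have e1 := E 0 0 1 1 (by decide) (by decide)
  have e2 := E 0 0 1 2 (by decide) (by decide)
  have e3 := E 0 1 1 0 (by decide) (by decide)
  have e4 := E 0 1 1 2 (by decide) (by decide)
  have e5 := E 0 2 1 0 (by decide) (by decide)
  have e6 := E 0 2 1 1 (by decide) (by decide)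
  have e7 := E 0 0 2 1 (by decide) (by decide)
  have e8 := E 0 0 2 2 (by decide) (by decide)
  have e9 := E 0 1 2 0 (by decide) (by decide)
  have e10 := E 0 1 2 2 (by decide) (by decide)
  have e11 := E 0 2 2 0 (by decide) (by decide)
  have e12 := E 0 2 2 1 (by decide) (by decide)
  have e13 := E 1 0 2 1 (by decide) (by decide)
  have e14 := E 1 0 2 2 (by decide) (by decide)
  have e15 := E 1 1 2 0 (by decide) (by decide)
  have e16 := E 1 1 2 2 (by decide) (by decide)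
  have e17 := E 1 2 2 0 (by decide) (by decide)
  have e18 := E 1 2 2 1 (by decide) (by decide)
  omega

/-- the index of the `i`-th point of a path -/
def parPos (M : ℕ) (a b : Fin 3) (i : ℕ) : (Fin 3 ⊕ Fin 3) ⊕ ((Fin 3 × Fin 3) × Fin M) :=
  if i = 0 then Sum.inl (Sum.inl a)
  else if h : i - 1 < M then Sum.inr ((a, b), ⟨i - 1, h⟩) else Sum.inl (Sum.inr b)

/-- indices of points of a path -/
def parOn {M : ℕ} (a b : Fin 3) (u : (Fin 3 ⊕ Fin 3) ⊕ ((Fin 3 × Fin 3) × Fin M)) : Prop :=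
  u = Sum.inl (Sum.inl a) ∨ u = Sum.inl (Sum.inr b) ∨ ∃ m, u = Sum.inr ((a, b), m)

lemma par_pth {n M : ℕ} (φ : Cfg n M) (a b : Fin 3) (i : ℕ) :
    pth φ a b i = val φ (parPos M a b i) := by
  unfold pth sq parPos
  split_ifs <;> rfl

lemma par_on_pos (M : ℕ) (a b : Fin 3) (i : ℕ) : parOn a b (parPos M a b i) := by
  unfold parPos parOn
  split_ifs
  · exact Or.inl rfl
  · exact Or.inr (Or.inr ⟨_, rfl⟩)
  · exact Or.inr (Or.inl rfl)

lemma par_on_ind {M : ℕ} {a b a' b' : Fin 3} (ha : a ≠ a') (hb : b ≠ b')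
    {u : (Fin 3 ⊕ Fin 3) ⊕ ((Fin 3 × Fin 3) × Fin M)} (h : parOn a b u) (h' : parOn a' b' u) :
    False := by
  rcases h with rfl | rfl | ⟨m, rfl⟩ <;> rcases h' with k | k | ⟨m', k⟩ <;> simp_all

lemma par_on_inr {M : ℕ} {a b a' b' : Fin 3} {m : Fin M}
    (h : parOn a b (Sum.inr ((a', b'), m))) : a' = a ∧ b' = b := by
  rcases h with k | k | ⟨m', k⟩ <;> simp_all

lemma par_step {M : ℕ} (hM : 1 ≤ M) (a b : Fin 3) {i : ℕ} (hi : i < M + 1) :
    parPos M a b i ≠ parPos M a b (i + 1) ∧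
    ((∃ m, parPos M a b i = Sum.inr ((a, b), m)) ∨
      ∃ m, parPos M a b (i + 1) = Sum.inr ((a, b), m)) := by
  unfold parPos
  by_cases h0 : i = 0
  · subst h0
    have h1 : 0 + 1 - 1 < M := by omega
    rw [if_pos rfl, if_neg (by omega), dif_pos h1]
    exact ⟨by simp, Or.inr ⟨_, rfl⟩⟩
  · have h1 : i - 1 < M := by omega
    rw [if_neg h0, dif_pos h1, if_neg (by omega)]
    refine ⟨?_, Or.inl ⟨_, rfl⟩⟩
    split_ifs with h2
    · intro k
      simp only [Sum.inr.injEq, Prod.mk.injEq, Fin.mk.injEq, true_and] at k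
      omega
    · simp

lemma par_inner {n M t : ℕ} {φ : Cfg n M} (hφ : IsEmb t φ) {a b : Fin 3}
    {u w : (Fin 3 ⊕ Fin 3) ⊕ ((Fin 3 × Fin 3) × Fin M)} (hw : parOn a b w)
    (hlt : val φ u < val φ w)
    (h : (∃ m, u = Sum.inr ((a, b), m)) ∨ ∃ m, w = Sum.inr ((a, b), m)) :
    ∃ m, w = Sum.inr ((a, b), m) := by
  rcases h with ⟨m, rfl⟩ | h
  · have h1 := hφ.2.2 (a, b) m
    rcases hw with rfl | rfl | h
    · have h2 := hφ.2.1 (Sum.inl a)
      have h3 : (φ.2 (a, b) m).val < (φ.1 (Sum.inl a)).val := hlt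
      omega
    · have h2 := hφ.2.1 (Sum.inr b)
      have h3 : (φ.2 (a, b) m).val < (φ.1 (Sum.inr b)).val := hlt
      omega
    · exact h
  · exact h

lemma par_edge {n M t : ℕ} (hM : 1 ≤ M) {φ : Cfg n M} (hφ : IsEmb t φ) {x z : Fin n}
    (h : s(x, z) ∈ edg φ) (hlt : x < z) :
    ∃ a b u m, parOn a b u ∧ x = val φ u ∧ z = val φ (Sum.inr ((a, b), m)) := by
  obtain ⟨⟨⟨a, b⟩, i⟩, -, hq⟩ := mem_image.1 h
  simp only [par_pth] at hq
  have hs := (par_step hM a b i.2).2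
  rcases Sym2.eq_iff.1 hq with ⟨rfl, rfl⟩ | ⟨rfl, rfl⟩
  · obtain ⟨m, hm⟩ := par_inner hφ (par_on_pos M a b (i + 1)) hlt hs
    exact ⟨a, b, _, m, par_on_pos M a b i, rfl, by rw [hm]⟩
  · obtain ⟨m, hm⟩ := par_inner hφ (par_on_pos M a b i) hlt hs.symm
    exact ⟨a, b, _, m, par_on_pos M a b (i + 1), rfl, by rw [hm]⟩

lemma par_below {n M t : ℕ} (hM : 1 ≤ M) {φ : Cfg n M} (hφ : IsEmb t φ)
    {ω : Finset (Sym2 (Fin n))} (he : ¬ Ear φ ω)
    (u : (Fin 3 ⊕ Fin 3) ⊕ ((Fin 3 × Fin 3) × Fin M)) {x : Fin n}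
    (h : Below (gr ω) (val φ u) x) :
    (∃ a b m, parOn a b u ∧ x = val φ (Sum.inr ((a, b), m))) ∨
      ∃ u', Below (gr (ω \ edg φ)) (val φ u') x := by
  unfold Below at h
  induction h with
  | single k =>
    rename_i z
    by_cases hz : s(val φ u, z) ∈ edg φ
    · obtain ⟨a, b, u', m, h1, h2, h3⟩ := par_edge hM hφ hz k.1
      rw [← hφ.1 h2] at h1
      exact Or.inl ⟨a, b, m, h1, h3⟩
    · exact Or.inr ⟨u, Relation.TransGen.single ⟨k.1, gr_adj.2
        ⟨mem_sdiff.2 ⟨(gr_adj.1 k.2).1, hz⟩, (gr_adj.1 k.2).2⟩⟩⟩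
  | tail _ k ih =>
    rename_i w z _
    by_cases hz : s(w, z) ∈ edg φ
    · obtain ⟨a, b, u', m, h1, h2, h3⟩ := par_edge hM hφ hz k.1
      rcases ih with ⟨a', b', m', h4, h5⟩ | ⟨u'', h4⟩
      · have h6 : u' = Sum.inr ((a', b'), m') := hφ.1 (h2.symm.trans h5)
        rw [h6] at h1
        obtain ⟨rfl, rfl⟩ := par_on_inr h1
        exact Or.inl ⟨_, _, m, h4, h3⟩
      · exact absurd ⟨u'', u', h2 ▸ h4⟩ he
    · have hadj : w < z ∧ (gr (ω \ edg φ)).Adj w z := ⟨k.1, gr_adj.2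
        ⟨mem_sdiff.2 ⟨(gr_adj.1 k.2).1, hz⟩, (gr_adj.1 k.2).2⟩⟩
      rcases ih with ⟨a', b', m', -, h5⟩ | ⟨u'', h4⟩
      · exact Or.inr ⟨_, Relation.TransGen.single (h5 ▸ hadj)⟩
      · exact Or.inr ⟨u'', Relation.TransGen.tail h4 hadj⟩

theorem not_realized {n M t : ℕ} (hM : 1 ≤ M) {φ : Cfg n M} (hφ : IsEmb t φ)
    {ω : Finset (Sym2 (Fin n))} (hω : edg φ ⊆ ω) (he : ¬ Ear φ ω) {d : ℕ} (hd : d ≤ 3) :
    ¬ Realized (gr ω) d := by
  intro hR
  have : Nonempty (Fin n) := ⟨φ.1 (Sum.inl 0)⟩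
  obtain ⟨r, hi, hm, hs⟩ := ranks_of_realized hd hR
  have hne : ∀ a b a' b', a ≠ a' → b ≠ b' → ∀ i j, pth φ a b i ≠ pth φ a' b' j := by
    intro a b a' b' ha hb i j k
    rw [par_pth, par_pth] at k
    have h1 := par_on_pos M a b i
    rw [hφ.1 k] at h1
    exact par_on_ind ha hb h1 (par_on_pos M a' b' j)
  have hnb : ∀ a b a' b', a ≠ a' → b ≠ b' → ∀ i j,
      ∃ k, r k (pth φ a b i) < r k (pth φ a' b' j) := by
    intro a b a' b' ha hb i j
    refine hs _ _ (hne a b a' b' ha hb i j).symm fun k => ?_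
    rw [par_pth, par_pth] at k
    rcases par_below hM hφ he _ k with ⟨a2, b2, m, h1, h2⟩ | ⟨u', h1⟩
    · have h3 := par_on_pos M a b i
      rw [hφ.1 h2] at h3
      obtain ⟨rfl, rfl⟩ := par_on_inr h3
      exact par_on_ind ha hb h1 (par_on_pos M a' b' j)
    · exact he ⟨_, _, h1⟩
  refine no3 r (hi 0) (fun a => φ.1 (Sum.inl a)) (fun b => φ.1 (Sum.inr b)) (pth φ) (M + 1)
    (fun a b => by simp [pth, sq]) (fun a b => by simp [pth, sq])
    (fun a b a' b' ha hb i _ j _ => hne a b a' b' ha hb i j) ?_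
  intro a b a' b' ha hb i hi' j _
  have hn : pth φ a b i ≠ pth φ a b (i + 1) := by
    rw [par_pth, par_pth]
    exact fun k => (par_step hM a b hi').1 (hφ.1 k)
  have hadj : (gr ω).Adj (pth φ a b i) (pth φ a b (i + 1)) :=
    gr_adj.2 ⟨hω (mem_image.2 ⟨((a, b), ⟨i, hi'⟩), mem_univ _, rfl⟩), hn⟩
  rcases lt_or_gt_of_ne hn with hlt | hlt
  · obtain ⟨k, hk⟩ := hnb a b a' b' ha hb (i + 1) j
    exact ⟨k, (hm k _ _ (Relation.TransGen.single ⟨hlt, hadj⟩)).trans hk, hk⟩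
  · obtain ⟨k, hk⟩ := hnb a b a' b' ha hb i j
    exact ⟨k, hk, (hm k _ _ (Relation.TransGen.single ⟨hlt, hadj.symm⟩)).trans hk⟩

end Pool.Agent.Lib.MP_b735d7_co
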