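import Pool.Agent.Lib.MP_b735d7_co.PBase

/-!
Weighted count of paths that share edges with a subcubic graph.
-/

namespace Pool.Agent.Lib.MP_b735d7_co

open Finset

open Pool.Agent.Lib.MP_58a483_pr.H80

section aux

variable {V : Type} [Fintype V] [DecidableEq V]

omit [Fintype V] [DecidableEq V] in
lemma Phi_sq_succ {M : ℕ} (x y w : V) (π : Fin M → V) (i : ℕ) :
    sq x (Fin.cons y π : Fin (M + 1) → V) w (i + 1) = sq y π w i := by
  rcases i with _ | j
  · simp [sq]
  · by_cases h : j < M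
    · have h' : j + 1 < M + 1 := by omega
      simp only [sq, Nat.succ_ne_zero, if_false, Nat.add_sub_cancel, dif_pos h, dif_pos h']
      exact Fin.cons_succ (α := fun _ => V) y π ⟨j, h⟩
    · have h' : ¬ j + 1 < M + 1 := by omega
      simp only [sq, Nat.succ_ne_zero, if_false, Nat.add_sub_cancel, dif_neg h, dif_neg h']

open Classical in
/-- the weighted count of the paths that avoid a set -/
noncomputable def Phi_Z (F : Finset (Sym2 V)) (D : Finset V) (q : ℝ) (w : V) (M : ℕ) (x : V)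
    (U : Finset V) : ℝ :=
  ∑ π : Fin M → V, if Function.Injective π ∧ ∀ i, π i ∈ D ∧ π i ∉ insert x U then
    ∏ i ∈ range (M + 1), (1 + q * ind (s(sq x π w i, sq x π w (i + 1)) ∈ F)) else 0

lemma Phi_Z_zero (F : Finset (Sym2 V)) (D : Finset V) (q : ℝ) (w x : V) (U : Finset V) :
    Phi_Z F D q w 0 x U = 1 + q * ind (s(x, w) ∈ F) := by
  simp [Phi_Z, sq, Function.injective_of_subsingleton]

lemma Phi_Z_succ (F : Finset (Sym2 V)) (D : Finset V) (q : ℝ) (w : V) (M : ℕ) (x : V)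
    (U : Finset V) :
    Phi_Z F D q w (M + 1) x U = ∑ y ∈ D \ insert x U,
      (1 + q * ind (s(x, y) ∈ F)) * Phi_Z F D q w M y (insert x U) := by
  classical
  have e : ∑ y ∈ D \ insert x U, (1 + q * ind (s(x, y) ∈ F)) * Phi_Z F D q w M y (insert x U) =
      ∑ y, if y ∈ D \ insert x U then
        (1 + q * ind (s(x, y) ∈ F)) * Phi_Z F D q w M y (insert x U) else 0 := by
    rw [← sum_filter, filter_mem_eq_inter, univ_inter]
  rw [e, Phi_Z, ← (Fin.consEquiv fun _ : Fin (M + 1) => V).sum_comp, Fintype.sum_prod_type]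
  refine sum_congr rfl fun y _ => ?_
  have hc : ∀ π : Fin M → V, (Fin.consEquiv fun _ : Fin (M + 1) => V) (y, π) = Fin.cons y π :=
    fun _ => rfl
  have hiff : ∀ π : Fin M → V, (Function.Injective (Fin.cons y π : Fin (M + 1) → V) ∧
      ∀ i, (Fin.cons y π : Fin (M + 1) → V) i ∈ D ∧
        (Fin.cons y π : Fin (M + 1) → V) i ∉ insert x U) ↔
      y ∈ D \ insert x U ∧
        Function.Injective π ∧ ∀ i, π i ∈ D ∧ π i ∉ insert y (insert x U) := by
    intro π
    rw [Fin.cons_injective_iff, Fin.forall_fin_succ, mem_sdiff]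
    simp only [Fin.cons_zero, Fin.cons_succ, Set.mem_range, not_exists]
    constructor
    · rintro ⟨⟨h1, h2⟩, h3, h4⟩
      exact ⟨h3, h2, fun i => ⟨(h4 i).1, fun h => (mem_insert.1 h).elim (h1 i) (h4 i).2⟩⟩
    · rintro ⟨h3, h2, h4⟩
      exact ⟨⟨fun i h => (h4 i).2 (mem_insert.2 (Or.inl h)), h2⟩, h3,
        fun i => ⟨(h4 i).1, fun h => (h4 i).2 (mem_insert_of_mem h)⟩⟩
  simp only [hc, hiff]
  by_cases hy : y ∈ D \ insert x U
  · simp only [hy, true_and, if_true, Phi_Z, mul_sum]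
    refine sum_congr rfl fun π _ => ?_
    split_ifs
    · rw [prod_range_succ', mul_comm]
      simp only [Phi_sq_succ]
      simp [sq]
    · simp
  · simp only [hy, false_and, if_false, sum_const_zero]

open Classical in
/-- the potential -/
noncomputable def Phi_b (F : Finset (Sym2 V)) (Bs Su : Finset V) (x : V) (U : Finset V) : ℝ :=
  if x ∈ Su then (if ∃ z ∈ U, s(x, z) ∈ F then 1 else 3) * 2 ^ (Bs \ U).card else 0

omit [Fintype V] in
lemma Phi_b_nonneg (F : Finset (Sym2 V)) (Bs Su : Finset V) (x : V) (U : Finset V) :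
    0 ≤ Phi_b F Bs Su x U := by
  unfold Phi_b
  split_ifs <;> positivity

omit [Fintype V] in
lemma Phi_b_one (F : Finset (Sym2 V)) (Bs : Finset V) {Su : Finset V} {x : V} (U : Finset V)
    (h : x ∈ Su) : 1 ≤ Phi_b F Bs Su x U := by
  have : (1 : ℝ) ≤ 2 ^ (Bs \ U).card := one_le_pow₀ one_le_two
  rw [Phi_b, if_pos h]
  split_ifs <;> linarith

omit [Fintype V] in
lemma Phi_b_le (F : Finset (Sym2 V)) {Bs : Finset V} (hBs : Bs.card ≤ 6) (Su : Finset V) (x : V)
    (U : Finset V) : Phi_b F Bs Su x U ≤ 192 * ind (x ∈ Su) := by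
  have : (2 : ℝ) ^ (Bs \ U).card ≤ 2 ^ 6 :=
    pow_le_pow_right₀ one_le_two ((card_le_card sdiff_subset).trans hBs)
  have h0 : (0 : ℝ) ≤ 2 ^ (Bs \ U).card := by positivity
  unfold Phi_b ind
  split_ifs <;> linarith

omit [Fintype V] in
lemma Phi_b_sum_all (F : Finset (Sym2 V)) {Bs Su : Finset V} {v : ℕ} (hBs : Bs.card ≤ 6)
    (hSu : Su.card ≤ v) (T U : Finset V) : ∑ y ∈ T, Phi_b F Bs Su y U ≤ 192 * v := by
  classical
  refine (sum_le_sum fun y _ => Phi_b_le F hBs Su y U).trans ?_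
  rw [← mul_sum]
  refine mul_le_mul_of_nonneg_left ?_ (by norm_num)
  rw [sum_ind_eq_card]
  exact_mod_cast (card_le_card fun y hy => (mem_filter.1 hy).2).trans hSu

lemma Phi_b_sum {F : Finset (Sym2 V)} {Bs Su : Finset V}
    (h3 : ∀ x, (univ.filter fun y => s(x, y) ∈ F).card ≤ 3)
    (h2 : ∀ x, x ∉ Bs → (univ.filter fun y => s(x, y) ∈ F).card ≤ 2)
    (hs : ∀ x y, s(x, y) ∈ F → x ∈ Su) {x : V} {U : Finset V} (hx : x ∉ U) (D : Finset V) :
    ∑ y ∈ (D \ insert x U).filter fun y => s(x, y) ∈ F, Phi_b F Bs Su y (insert x U) ≤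
      Phi_b F Bs Su x U := by
  classical
  set N := (D \ insert x U).filter fun y => s(x, y) ∈ F with hN
  rcases N.eq_empty_or_nonempty with h0 | ⟨y0, hy0⟩
  · rw [h0, sum_empty]
    exact Phi_b_nonneg _ _ _ _ _
  have hxS : x ∈ Su := hs x y0 (mem_filter.1 hy0).2
  have h1 : ∑ y ∈ N, Phi_b F Bs Su y (insert x U) ≤ N.card * 2 ^ (Bs \ insert x U).card := by
    rw [← nsmul_eq_mul]
    refine sum_le_card_nsmul _ _ _ fun y hy => ?_
    have e : s(y, x) ∈ F := Sym2.eq_swap ▸ (mem_filter.1 hy).2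
    rw [Phi_b, if_pos (hs y x e), if_pos ⟨x, mem_insert_self _ _, e⟩, one_mul]
  refine h1.trans ?_
  have hsub : N ⊆ univ.filter fun y => s(x, y) ∈ F := fun y hy =>
    mem_filter.2 ⟨mem_univ _, (mem_filter.1 hy).2⟩
  have hlt : (∃ z ∈ U, s(x, z) ∈ F) → N.card < (univ.filter fun y => s(x, y) ∈ F).card := by
    rintro ⟨z, hz, hz'⟩
    refine card_lt_card ⟨hsub, fun h => ?_⟩
    have := h (mem_filter.2 ⟨mem_univ z, hz'⟩)
    exact (mem_sdiff.1 (mem_filter.1 this).1).2 (mem_insert_of_mem hz)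
  have hle := card_le_card hsub
  have p0 : (0 : ℝ) ≤ 2 ^ (Bs \ insert x U).card := by positivity
  rw [Phi_b, if_pos hxS]
  by_cases hB : x ∈ Bs
  · have e : (Bs \ U).card = (Bs \ insert x U).card + 1 := by
      rw [sdiff_insert, card_erase_add_one (mem_sdiff.2 ⟨hB, hx⟩)]
    rw [e, pow_succ]
    have := h3 x
    split_ifs with hz
    · have k : (N.card : ℝ) ≤ 2 := by
        have := hlt hz
        exact_mod_cast (by omega : N.card ≤ 2)
      nlinarith
    · have k : (N.card : ℝ) ≤ 3 := by exact_mod_cast (by omega : N.card ≤ 3)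
      nlinarith
  · rw [sdiff_insert_of_notMem hB] at p0 ⊢
    have := h2 x hB
    split_ifs with hz
    · have k : (N.card : ℝ) ≤ 1 := by
        have := hlt hz
        exact_mod_cast (by omega : N.card ≤ 1)
      nlinarith
    · have k : (N.card : ℝ) ≤ 3 := by exact_mod_cast (by omega : N.card ≤ 3)
      nlinarith

lemma Phi_main {F : Finset (Sym2 V)} {Bs Su D : Finset V} {v : ℕ} (hBs : Bs.card ≤ 6)
    (hSu : Su.card ≤ v) (h3 : ∀ x, (univ.filter fun y => s(x, y) ∈ F).card ≤ 3)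
    (h2 : ∀ x, x ∉ Bs → (univ.filter fun y => s(x, y) ∈ F).card ≤ 2)
    (hs : ∀ x y, s(x, y) ∈ F → x ∈ Su) {q c : ℝ} (hq : 0 ≤ q) (hc : 1 < c)
    (hD : 0 < D.card) (hqc : q * c ≤ D.card) (w : V) {ξ : ℝ}
    (hξ : ξ = 192 * v / ((c - 1) * D.card)) (M : ℕ) : ∀ (x : V) (U : Finset V), x ∉ U →
    Phi_Z F D q w M x U ≤ (D.card : ℝ) ^ M *
      ((1 + ξ) ^ (M + 1) * (1 + 192 * v * ind (w ∈ Su) * (M + 1)) *
        (1 + Phi_b F Bs Su x U / (c - 1)) +
        Phi_b F Bs Su x U * (ind (w ∈ Su) * D.card / c ^ (M + 1))) := by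
  classical
  set m : ℝ := (D.card : ℝ) with hm
  set I : ℝ := ind (w ∈ Su) with hI
  have m0 : 0 < m := by rw [hm]; exact_mod_cast hD
  have I0 : 0 ≤ I := ind_nonneg _
  have c0 : 0 < c := by linarith
  have c1 : 0 < c - 1 := by linarith
  have ξ0 : 0 ≤ ξ := by rw [hξ]; positivity
  have hqm : q ≤ m / c := by rwa [le_div_iff₀ c0]
  induction M with
  | zero =>
    intro x U _
    have b0 := Phi_b_nonneg F Bs Su x U
    have e1 : 1 ≤ (1 + ξ) ^ (0 + 1) * (1 + 192 * v * I * ((0 : ℕ) + 1)) *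
        (1 + Phi_b F Bs Su x U / (c - 1)) :=
      one_le_mul_of_one_le_of_one_le (one_le_mul_of_one_le_of_one_le
        (one_le_pow₀ (by linarith)) (le_add_of_nonneg_right (by positivity)))
        (le_add_of_nonneg_right (by positivity))
    have e2 : q * ind (s(x, w) ∈ F) ≤ Phi_b F Bs Su x U * (I * m / c ^ (0 + 1)) := by
      by_cases h : s(x, w) ∈ F
      · have hw : w ∈ Su := hs w x (Sym2.eq_swap ▸ h)
        have : I = 1 := by simp [hI, ind, hw]
        rw [this]
        simp only [ind, if_pos h, mul_one, one_mul, zero_add, pow_one]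
        exact hqm.trans (le_mul_of_one_le_left (by positivity) (Phi_b_one F Bs U (hs x w h)))
      · simp only [ind, if_neg h, mul_zero]
        positivity
    rw [Phi_Z_zero, pow_zero, one_mul]
    linarith
  | succ M ih =>
    intro x U hx
    set S : ℝ := (1 + ξ) ^ (M + 1) * (1 + 192 * v * I * (M + 1)) with hS
    set r : ℝ := I * m / c ^ (M + 1) with hr
    set β : ℝ := Phi_b F Bs Su x U with hβ
    set T := D \ insert x U with hT
    have S0 : 0 ≤ S := by positivity
    have r0 : 0 ≤ r := by positivity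
    have β0 : 0 ≤ β := Phi_b_nonneg _ _ _ _ _
    have hstep : Phi_Z F D q w (M + 1) x U ≤ m ^ M *
        (S * T.card + (S / (c - 1) + r) * ∑ y ∈ T, Phi_b F Bs Su y (insert x U) +
          q * (S + S / (c - 1) + r) *
            ∑ y ∈ T.filter fun y => s(x, y) ∈ F, Phi_b F Bs Su y (insert x U)) := by
      rw [Phi_Z_succ, sum_filter, card_eq_sum_ones, Nat.cast_sum, mul_sum, mul_sum, mul_sum,
        ← sum_add_distrib, ← sum_add_distrib, mul_sum]
      refine sum_le_sum fun y hy => ?_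
      have h1 := ih y (insert x U) (mem_sdiff.1 hy).2
      refine (mul_le_mul_of_nonneg_left h1
        (add_nonneg zero_le_one (mul_nonneg hq (ind_nonneg _)))).trans ?_
      rw [mul_left_comm]
      refine mul_le_mul_of_nonneg_left ?_ (by positivity)
      by_cases h : s(x, y) ∈ F
      · have b1 := Phi_b_one F Bs (insert x U) (hs y x (Sym2.eq_swap ▸ h))
        have := mul_le_mul_of_nonneg_left b1 (mul_nonneg hq S0)
        simp only [ind, if_pos h, Nat.cast_one]
        refine le_of_sub_nonneg (le_of_le_of_eq (sub_nonneg.2 this) ?_)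
        ring
      · simp only [ind, if_neg h, Nat.cast_one]
        refine le_of_eq ?_
        ring
    refine hstep.trans ?_
    rw [pow_succ m M, mul_assoc (m ^ M)]
    refine mul_le_mul_of_nonneg_left ?_ (by positivity)
    have t1 : S * T.card ≤ S * m :=
      mul_le_mul_of_nonneg_left (by rw [hm]; exact_mod_cast card_le_card sdiff_subset) S0
    have t2 := mul_le_mul_of_nonneg_left (Phi_b_sum_all F hBs hSu T (insert x U))
      (show 0 ≤ S / (c - 1) + r by positivity)
    have t3 : q * (S + S / (c - 1) + r) *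
        ∑ y ∈ T.filter fun y => s(x, y) ∈ F, Phi_b F Bs Su y (insert x U) ≤
        m / c * (S + S / (c - 1) + r) * β :=
      mul_le_mul (mul_le_mul_of_nonneg_right hqm (by positivity)) (Phi_b_sum h3 h2 hs hx D)
        (sum_nonneg fun _ _ => Phi_b_nonneg _ _ _ _ _) (by positivity)
    have t4 : r ≤ I * m := div_le_self (by positivity) (one_le_pow₀ hc.le)
    have t5 : (S / (c - 1) + r) * (192 * v) ≤ m * (S * ξ + 192 * v * I) := by
      have e : S / (c - 1) * (192 * v) = m * (S * ξ) := by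
        rw [hξ]
        field_simp
      have := mul_le_mul_of_nonneg_right t4 (show (0 : ℝ) ≤ 192 * v by positivity)
      rw [add_mul, e]
      linarith
    have t6 : m / c * (S + S / (c - 1) + r) * β =
        m * (S * (β / (c - 1)) + β * (I * m / c ^ (M + 1 + 1))) := by
      rw [hr, pow_succ c (M + 1)]
      field_simp
      ring
    set S' : ℝ := (1 + ξ) ^ (M + 1 + 1) * (1 + 192 * v * I * ((M + 1 : ℕ) + 1)) with hS'
    have t7 : S * (1 + ξ) + 192 * v * I ≤ S' := by
      have h1 : 1 ≤ (1 + ξ) ^ (M + 1 + 1) := one_le_pow₀ (by linarith)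
      have h4 := le_mul_of_one_le_left (show (0 : ℝ) ≤ 192 * v * I by positivity) h1
      have e : S' = S * (1 + ξ) + (1 + ξ) ^ (M + 1 + 1) * (192 * v * I) := by
        rw [hS', hS]
        push_cast
        ring
      linarith
    have t8 : S ≤ S' := by
      have : (0 : ℝ) ≤ 192 * v * I := by positivity
      nlinarith [mul_nonneg S0 ξ0]
    have t9 := mul_le_mul_of_nonneg_right t8 (show 0 ≤ β / (c - 1) by positivity)
    have t10 : S * (1 + ξ) + 192 * v * I + (S * (β / (c - 1)) + β * (I * m / c ^ (M + 1 + 1))) ≤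
        S' * (1 + β / (c - 1)) + β * (I * m / c ^ (M + 1 + 1)) := by
      linarith
    have t11 := mul_le_mul_of_nonneg_left t10 m0.le
    linarith

end aux

open Classical in
theorem phi_bound {V : Type} [Fintype V] [DecidableEq V] (F : Finset (Sym2 V)) (Bs Su D : Finset V)
    (v : ℕ) (hBs : Bs.card ≤ 6) (hSu : Su.card ≤ v)
    (h3 : ∀ x, (univ.filter fun y => s(x, y) ∈ F).card ≤ 3)
    (h2 : ∀ x, x ∉ Bs → (univ.filter fun y => s(x, y) ∈ F).card ≤ 2)
    (hs : ∀ x y, s(x, y) ∈ F → x ∈ Su) (q c : ℝ) (hq : 0 ≤ q) (hc : 1 < c)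
    (hD : 0 < D.card) (hqc : q * c ≤ D.card) (M : ℕ) (hM : (D.card : ℝ) ≤ c ^ (M + 1))
    (x w : V) :
    ∑ π ∈ univ.filter (fun π : Fin M → V => Function.Injective π ∧ ∀ i, π i ∈ D ∧ π i ≠ x),
        ∏ i ∈ range (M + 1), (1 + q * ind (s(sq x π w i, sq x π w (i + 1)) ∈ F)) ≤
      (D.card : ℝ) ^ M * (1 + 192 * v / ((c - 1) * D.card)) ^ (M + 1) *
        (1 + 192 * (v * (M + 1) + 1 / (c - 1) + 1) * ind (x ∈ Su)) *
        (1 + 192 * (v * (M + 1) + 1 / (c - 1) + 1) * ind (w ∈ Su)) := by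
  have key := Phi_main hBs hSu h3 h2 hs hq hc hD hqc w rfl M x ∅ (notMem_empty x)
  have e : ∑ π ∈ univ.filter
      (fun π : Fin M → V => Function.Injective π ∧ ∀ i, π i ∈ D ∧ π i ≠ x),
        ∏ i ∈ range (M + 1), (1 + q * ind (s(sq x π w i, sq x π w (i + 1)) ∈ F)) =
      Phi_Z F D q w M x ∅ := by
    rw [sum_filter, Phi_Z]
    refine sum_congr rfl fun π _ => if_congr ?_ rfl rfl
    simp
  rw [e]
  refine key.trans ?_
  rw [mul_assoc ((D.card : ℝ) ^ M * _), mul_assoc ((D.card : ℝ) ^ M)]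
  refine mul_le_mul_of_nonneg_left ?_ (pow_nonneg (Nat.cast_nonneg _) _)
  have c1 : 0 < c - 1 := by linarith
  have hP : 1 ≤ (1 + 192 * v / ((c - 1) * D.card) : ℝ) ^ (M + 1) :=
    one_le_pow₀ (le_add_of_nonneg_right (a := (1 : ℝ)) (by positivity))
  set P : ℝ := (1 + 192 * v / ((c - 1) * D.card)) ^ (M + 1)
  have hb := Phi_b_le F hBs Su x ∅
  have hb0 := Phi_b_nonneg F Bs Su x ∅
  set β := Phi_b F Bs Su x ∅
  have I0 : 0 ≤ ind (w ∈ Su) := ind_nonneg _
  have J0 : 0 ≤ ind (x ∈ Su) := ind_nonneg _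
  set I := ind (w ∈ Su)
  set J := ind (x ∈ Su)
  have h1 : I * D.card / c ^ (M + 1) ≤ I := by
    rw [mul_div_assoc]
    exact mul_le_of_le_one_right I0 (div_le_one_of_le₀ hM (by positivity))
  have h4 : β * (I * D.card / c ^ (M + 1)) ≤ P * (192 * J * I) :=
    (mul_le_mul hb h1 (by positivity) (by positivity)).trans
      (le_mul_of_one_le_left (by positivity) hP)
  set a : ℝ := v * (M + 1) with ha
  set b : ℝ := 1 / (c - 1) with hb'
  have a0 : 0 ≤ a := by positivity
  have b0 : 0 ≤ b := by positivity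
  have h5 : β / (c - 1) ≤ 192 * b * J := by
    rw [div_eq_mul_one_div, ← hb']
    nlinarith
  have h6 : P * (1 + 192 * v * I * (M + 1)) * (1 + β / (c - 1)) ≤
      P * ((1 + 192 * a * I) * (1 + 192 * b * J)) := by
    rw [mul_assoc, show 192 * (v : ℝ) * I * (M + 1) = 192 * a * I by rw [ha]; ring]
    refine mul_le_mul_of_nonneg_left (mul_le_mul_of_nonneg_left (by linarith) ?_) (by linarith)
    positivity
  refine (add_le_add h6 h4).trans ?_
  rw [← mul_add]
  refine mul_le_mul_of_nonneg_left ?_ (by linarith)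
  have k1 : 0 ≤ J * I := mul_nonneg J0 I0
  have k2 : 0 ≤ (a + 1) * J + (b + 1) * I := by positivity
  have k3 : 0 ≤ (a * a + b * b + a * b + 2 * a + 2 * b) * (J * I) := by positivity
  nlinarith

end Pool.Agent.Lib.MP_b735d7_co
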