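import Pool.Agent.Lib.MP_b735d7_co.PBase
import Pool.Agent.Lib.MP_b735d7_co.Shape
import Pool.Agent.Lib.MP_b735d7_co.Inc
import Pool.Agent.Lib.MP_b735d7_co.Phi
import Pool.Agent.Lib.MP_b735d7_co.Par

/-!
The second moment.
-/

namespace Pool.Agent.Lib.MP_b735d7_co

open Finset

open Pool.Agent.Lib.MP_58a483_pr.H80

lemma Sec_pow_le {α β : Type} [DecidableEq β] (s : Finset α) (g : α → β) (F : Finset β) {q : ℝ}
    (hq : 1 ≤ q) : q ^ (F ∩ s.image g).card ≤ ∏ x ∈ s, (1 + q * ind (g x ∈ F)) := by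
  have h1 : (F ∩ s.image g).card ≤ (s.filter fun x => g x ∈ F).card := by
    refine le_trans (card_le_card ?_) (card_image_le (f := g))
    intro e he
    obtain ⟨hF, hs⟩ := mem_inter.1 he
    obtain ⟨x, hx, rfl⟩ := mem_image.1 hs
    exact mem_image.2 ⟨x, mem_filter.2 ⟨hx, hF⟩, rfl⟩
  refine (pow_le_pow_right₀ hq h1).trans ?_
  rw [← prod_const, prod_filter]
  refine prod_le_prod (fun x _ => ?_) fun x _ => ?_
  · split_ifs <;> linarith
  · split_ifs with h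
    · rw [ind_pos h]; linarith
    · rw [ind_neg h]; linarith

lemma Sec_step {n M : ℕ} (φ' : Cfg n M) (F : Finset (Sym2 (Fin n))) {q : ℝ} (hq : 1 ≤ q) :
    q ^ (F ∩ edg φ').card ≤ ∏ ab : Fin 3 × Fin 3, ∏ i ∈ range (M + 1),
      (1 + q * ind (s(sq (φ'.1 (Sum.inl ab.1)) (φ'.2 ab) (φ'.1 (Sum.inr ab.2)) i,
        sq (φ'.1 (Sum.inl ab.1)) (φ'.2 ab) (φ'.1 (Sum.inr ab.2)) (i + 1)) ∈ F)) := by
  refine (Sec_pow_le _ _ F hq).trans (le_of_eq ?_)
  rw [Fintype.prod_prod_type]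
  refine prod_congr rfl fun ab _ => ?_
  exact Fin.prod_univ_eq_prod_range (fun i => 1 + q * ind (s(pth φ' ab.1 ab.2 i,
    pth φ' ab.1 ab.2 (i + 1)) ∈ F)) (M + 1)

lemma Sec_card_lt {n t : ℕ} : (univ.filter fun x : Fin n => x.val < t).card ≤ t := by
  calc _ ≤ (range t).card := card_le_card_of_injOn (fun x => x.val)
        (fun x hx => by simpa using hx) fun x _ y _ h => Fin.ext h
    _ = t := card_range t

lemma Sec_card_ge {n t : ℕ} (ht : t ≤ n) :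
    ((univ.filter fun x : Fin n => t ≤ x.val).card : ℝ) = n - t := by
  have : (univ.filter fun x : Fin n => t ≤ x.val).card = (Ico t n).card := by
    refine card_bij (fun x _ => x.val) (fun x hx => ?_) (fun x _ y _ h => Fin.ext h) fun j hj => ?_
    · exact mem_Ico.2 ⟨by simpa using hx, x.2⟩
    · exact ⟨⟨j, (mem_Ico.1 hj).2⟩, by simpa using (mem_Ico.1 hj).1, rfl⟩
  rw [this, Nat.card_Ico, Nat.cast_sub ht]

lemma Sec_cube {V : Type} [DecidableEq V] (T Su : Finset V) {K : ℝ} (hK : 0 ≤ K) :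
    ∑ x ∈ T, (1 + K * ind (x ∈ Su)) ^ 3 ≤ T.card + Su.card * (1 + K) ^ 3 := by
  have h : ∀ x ∈ T, (1 + K * ind (x ∈ Su)) ^ 3 ≤ 1 + ind (x ∈ Su) * (1 + K) ^ 3 := fun x _ => by
    by_cases hx : x ∈ Su
    · rw [ind_pos hx]; linarith
    · rw [ind_neg hx]; norm_num
  refine (sum_le_sum h).trans ?_
  rw [sum_add_distrib, ← sum_mul, sum_ind_eq_card, sum_const, nsmul_eq_mul, mul_one]
  have : ((T.filter fun x => x ∈ Su).card : ℝ) ≤ Su.card := by
    exact_mod_cast card_le_card fun x hx => (mem_filter.1 hx).2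
  have h2 : 0 ≤ (1 + K) ^ 3 := by positivity
  nlinarith

lemma Sec_nine (R : ℝ) (w : Fin 3 ⊕ Fin 3 → ℝ) :
    ∏ ab : Fin 3 × Fin 3, R * w (Sum.inl ab.1) * w (Sum.inr ab.2) = R ^ 9 * ∏ u, w u ^ 3 := by
  simp only [Fintype.prod_prod_type, Fintype.prod_sum_type, Fin.prod_univ_three]
  ring

open Classical in
/-- the overlap sum -/
theorem overlap {n M t : ℕ} (hM : 1 ≤ M) (ht : t < n) {p c : ℝ} (h0 : 0 < p) (h1 : p ≤ 1)
    (hc : 1 < c) (hpc : c ≤ p * (n - t : ℝ)) (hcM : (n : ℝ) ≤ c ^ (M + 1)) {φ : Cfg n M}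
    (hφ : IsEmb t φ) :
    ∑ φ' ∈ univ.filter (fun φ' : Cfg n M => IsEmb t φ'), (1 / p) ^ (edg φ ∩ edg φ').card ≤
      ((t : ℝ) + (6 + 9 * M) * (1 + 192 * ((6 + 9 * M) * (M + 1) + 1 / (c - 1) + 1)) ^ 3) ^ 6 *
      (((n - t : ℝ)) ^ M * (1 + 192 * (6 + 9 * M) / ((c - 1) * (n - t))) ^ (M + 1)) ^ 9 := by
  have hq : 1 ≤ 1 / p := by rw [le_div_iff₀ h0]; linarith
  obtain ⟨D, hD⟩ : ∃ D : Finset (Fin n), D = univ.filter fun x : Fin n => t ≤ x.val := ⟨_, rfl⟩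
  obtain ⟨T, hT⟩ : ∃ T : Finset (Fin n), T = univ.filter fun x : Fin n => x.val < t := ⟨_, rfl⟩
  have hDc : (D.card : ℝ) = n - t := by rw [hD]; exact Sec_card_ge ht.le
  have hTc : (T.card : ℝ) ≤ t := by rw [hT]; exact_mod_cast Sec_card_lt
  have hnt : (0 : ℝ) < n - t := by
    have : (t : ℝ) < n := by exact_mod_cast ht
    linarith
  have hc1 : 0 < c - 1 := by linarith
  obtain ⟨Su, hSu⟩ : ∃ Su : Finset (Fin n), Su = univ.image (val φ) := ⟨_, rfl⟩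
  have hSc : Su.card ≤ 6 + 9 * M := by
    rw [hSu]
    refine card_image_le.trans (le_of_eq ?_)
    simp
  obtain ⟨K, hK⟩ : ∃ K : ℝ, K = 192 * ((6 + 9 * M) * (M + 1) + 1 / (c - 1) + 1) := ⟨_, rfl⟩
  have hK0 : 0 ≤ K := by rw [hK]; positivity
  obtain ⟨R, hR⟩ : ∃ R : ℝ, R = ((n - t : ℝ)) ^ M *
    (1 + 192 * (6 + 9 * M) / ((c - 1) * (n - t))) ^ (M + 1) := ⟨_, rfl⟩
  have hR0 : 0 ≤ R := by rw [hR]; positivity
  rw [← hK, ← hR]
  obtain ⟨A, hA⟩ : ∃ A : Fin n → Finset (Fin M → Fin n), ∀ x, A x = univ.filter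
    (fun π : Fin M → Fin n => Function.Injective π ∧ ∀ i, π i ∈ D ∧ π i ≠ x) := ⟨_, fun _ => rfl⟩
  obtain ⟨G, hG⟩ : ∃ G : Fin n → (Fin M → Fin n) → Fin n → ℝ, ∀ x π w, G x π w =
    ∏ i ∈ range (M + 1), (1 + 1 / p * ind (s(sq x π w i, sq x π w (i + 1)) ∈ edg φ)) :=
    ⟨_, fun _ _ _ => rfl⟩
  have hG0 : ∀ x π w, 0 ≤ G x π w := fun x π w => by
    rw [hG]
    exact prod_nonneg fun i _ => add_nonneg zero_le_one
      (mul_nonneg (by linarith) (ind_nonneg _))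
  have key : ∀ x w, ∑ π ∈ A x, G x π w ≤
      R * (1 + K * ind (x ∈ Su)) * (1 + K * ind (w ∈ Su)) := fun x w => by
    have hB : (univ.image φ.1).card ≤ 6 := card_image_le.trans (by simp)
    have := phi_bound (edg φ) (univ.image φ.1) Su D (6 + 9 * M) hB hSc
      (fun x => by convert edg_deg3 hM hφ x) (fun x hx => by convert edg_deg2 hM hφ x hx)
      (fun x y h => by rw [hSu]; exact edg_supp h) (1 / p) c (by linarith) hc
      (by
        have : (0 : ℝ) < D.card := by rw [hDc]; exact hnt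
        exact_mod_cast this)
      (by rw [hDc, div_mul_eq_mul_div, one_mul, div_le_iff₀ h0]; linarith) M
      (by
        rw [hDc]
        have : (0 : ℝ) ≤ t := Nat.cast_nonneg t
        linarith) x w
    rw [hDc] at this
    push_cast at this
    rw [← hK, ← hR] at this
    simp only [hA, hG]
    convert this
  have hw : ∀ x, 0 ≤ 1 + K * ind (x ∈ Su) := fun x =>
    add_nonneg zero_le_one (mul_nonneg hK0 (ind_nonneg _))
  calc _ ≤ ∑ φ' ∈ univ.filter (fun φ' : Cfg n M => IsEmb t φ'), ∏ ab : Fin 3 × Fin 3,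
          G (φ'.1 (Sum.inl ab.1)) (φ'.2 ab) (φ'.1 (Sum.inr ab.2)) := by
        refine sum_le_sum fun φ' _ => ?_
        simp only [hG]
        exact Sec_step φ' _ hq
    _ ≤ ∑ φ' ∈ univ.filter (fun φ' : Cfg n M => φ'.1 ∈ Fintype.piFinset (fun _ => T) ∧
          φ'.2 ∈ Fintype.piFinset fun ab : Fin 3 × Fin 3 => A (φ'.1 (Sum.inl ab.1))),
          ∏ ab : Fin 3 × Fin 3, G (φ'.1 (Sum.inl ab.1)) (φ'.2 ab) (φ'.1 (Sum.inr ab.2)) := by
        refine sum_le_sum_of_subset_of_nonneg (fun φ' h => ?_) fun φ' _ _ =>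
          prod_nonneg fun ab _ => hG0 _ _ _
        obtain ⟨i1, i2, i3⟩ := (mem_filter.1 h).2
        refine mem_filter.2 ⟨mem_univ _, Fintype.mem_piFinset.2 fun u => ?_,
          Fintype.mem_piFinset.2 fun ab => ?_⟩
        · rw [hT]; exact mem_filter.2 ⟨mem_univ _, i2 u⟩
        · rw [hA]
          refine mem_filter.2 ⟨mem_univ _, fun i j hij => ?_, fun i => ⟨?_, fun e => ?_⟩⟩
          · have := @i1 (Sum.inr (ab, i)) (Sum.inr (ab, j)) hij
            simpa using this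
          · rw [hD]; exact mem_filter.2 ⟨mem_univ _, i3 ab i⟩
          · have a := i2 (Sum.inl ab.1)
            have b := i3 ab i
            rw [e] at b
            omega
    _ = ∑ β ∈ Fintype.piFinset (fun _ : Fin 3 ⊕ Fin 3 => T),
          ∑ ρ ∈ Fintype.piFinset (fun ab : Fin 3 × Fin 3 => A (β (Sum.inl ab.1))),
          ∏ ab : Fin 3 × Fin 3, G (β (Sum.inl ab.1)) (ρ ab) (β (Sum.inr ab.2)) :=
        sum_finset_product _ _ _ fun φ' => by simp only [mem_filter, mem_univ, true_and]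
    _ ≤ ∑ β ∈ Fintype.piFinset (fun _ : Fin 3 ⊕ Fin 3 => T),
          R ^ 9 * ∏ u, (1 + K * ind (β u ∈ Su)) ^ 3 := by
        refine sum_le_sum fun β _ => ?_
        rw [← prod_univ_sum (fun ab : Fin 3 × Fin 3 => A (β (Sum.inl ab.1)))
          fun ab π => G (β (Sum.inl ab.1)) π (β (Sum.inr ab.2))]
        refine (prod_le_prod (fun (ab : Fin 3 × Fin 3) _ => sum_nonneg fun π _ => hG0 _ _ _)
          fun ab _ => key (β (Sum.inl ab.1)) (β (Sum.inr ab.2))).trans (le_of_eq ?_)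
        exact Sec_nine R fun u => 1 + K * ind (β u ∈ Su)
    _ = R ^ 9 * (∑ x ∈ T, (1 + K * ind (x ∈ Su)) ^ 3) ^ 6 := by
        rw [← mul_sum, ← prod_univ_sum (fun _ : Fin 3 ⊕ Fin 3 => T)
          fun _ x => (1 + K * ind (x ∈ Su)) ^ 3]
        simp
    _ ≤ _ := by
        rw [mul_comm]
        refine mul_le_mul_of_nonneg_right (pow_le_pow_left₀
          (sum_nonneg fun x _ => pow_nonneg (hw x) _) ((Sec_cube T Su hK0).trans ?_) _)
          (by positivity)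
        have a : (Su.card : ℝ) ≤ 6 + 9 * M := by exact_mod_cast hSc
        have b : 0 ≤ (1 + K) ^ 3 := by positivity
        nlinarith

/-- the abstract second moment bound -/
lemma Sec_second {ι α : Type} [DecidableEq ι] (E : Finset ι) (S : Finset α) (e : α → Finset ι)
    (B : α → Finset ι → Prop) (A : Finset ι → Prop) {p Q N₀ b : ℝ} (k : ℕ) (h0 : 0 < p)
    (h1 : p ≤ 1) (hE : ∀ a ∈ S, e a ⊆ E) (hk : ∀ a ∈ S, (e a).card = k) (hN : 0 < N₀)
    (hS : N₀ ≤ S.card) (hQ : ∀ a ∈ S, ∑ a' ∈ S, (1 / p) ^ (e a ∩ e a').card ≤ Q)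
    (hB : ∀ a ∈ S, Ex E p (fun ω => ind (e a ⊆ ω ∧ B a ω)) ≤ p ^ k * b)
    (hA : ∀ ω, A ω → ∀ a ∈ S, e a ⊆ ω → B a ω) :
    Ex E p (fun ω => ind (A ω)) ≤ 4 * (Q / N₀ - 1) + 2 * b := by
  obtain ⟨N, hNe⟩ : ∃ N : ℝ, N = S.card := ⟨_, rfl⟩
  rw [← hNe] at hS
  have hN0 : 0 < N := by linarith
  have hpk : 0 < p ^ k := pow_pos h0 k
  obtain ⟨μ, hμ⟩ : ∃ μ : ℝ, μ = N * p ^ k := ⟨_, rfl⟩
  have hμ0 : 0 < μ := by rw [hμ]; positivity
  obtain ⟨X, hX⟩ : ∃ X : Finset ι → ℝ, ∀ ω, X ω = ∑ a ∈ S, ind (e a ⊆ ω) := ⟨_, fun _ => rfl⟩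
  obtain ⟨Y, hY⟩ : ∃ Y : Finset ι → ℝ, ∀ ω, Y ω = ∑ a ∈ S, ind (e a ⊆ ω ∧ B a ω) :=
    ⟨_, fun _ => rfl⟩
  have eX : Ex E p X = μ := by
    rw [show X = fun ω => ∑ a ∈ S, ind (e a ⊆ ω) from funext hX, Ex_sum,
      sum_congr rfl fun a ha => by rw [Ex_sup (hE a ha), hk a ha], sum_const, nsmul_eq_mul, hμ,
      hNe]
  have eY : Ex E p Y ≤ μ * b := by
    rw [show Y = fun ω => ∑ a ∈ S, ind (e a ⊆ ω ∧ B a ω) from funext hY, Ex_sum]
    refine (sum_le_sum hB).trans (le_of_eq ?_)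
    rw [sum_const, nsmul_eq_mul, hμ, hNe, mul_assoc]
  have eX2 : Ex E p (fun ω => X ω * X ω) ≤ N * (p ^ k * p ^ k * Q) := by
    have e1 : (fun ω => X ω * X ω) = fun ω => ∑ a ∈ S, ∑ a' ∈ S, ind (e a ∪ e a' ⊆ ω) := by
      funext ω
      rw [hX, sum_mul_sum]
      refine sum_congr rfl fun a _ => sum_congr rfl fun a' _ => ?_
      rw [← ind_and, ind_congr union_subset_iff]
    rw [e1, Ex_sum, hNe, ← nsmul_eq_mul, ← sum_const]
    refine sum_le_sum fun a ha => ?_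
    rw [Ex_sum]
    refine le_trans (le_of_eq ?_) (mul_le_mul_of_nonneg_left (hQ a ha) (by positivity))
    rw [mul_sum]
    refine sum_congr rfl fun a' ha' => ?_
    rw [Ex_sup (union_subset (hE a ha) (hE a' ha')), ← pow_add, one_div, inv_pow,
      eq_mul_inv_iff_mul_eq₀ (pow_pos h0 _).ne', ← pow_add, card_union_add_card_inter, hk a ha,
      hk a' ha']
  have hQ0 : 0 ≤ Q := by
    have : S.Nonempty := by
      rw [← card_pos]
      have : (0 : ℝ) < S.card := by rw [← hNe]; exact hN0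
      exact_mod_cast this
    obtain ⟨a, ha⟩ := this
    exact le_trans (sum_nonneg fun _ _ => by positivity) (hQ a ha)
  have pt : ∀ ω, ω ⊆ E → ind (A ω) ≤
      4 / μ ^ 2 * (X ω * X ω) - 8 / μ * X ω + 4 + 2 / μ * Y ω := fun ω _ => by
    have hY0 : 0 ≤ Y ω := by rw [hY]; exact sum_nonneg fun _ _ => ind_nonneg _
    have e1 : 4 / μ ^ 2 * (X ω * X ω) - 8 / μ * X ω + 4 + 2 / μ * Y ω =
        4 * (X ω / μ - 1) ^ 2 + 2 * (Y ω / μ) := by
      field_simp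
      ring
    rw [e1]
    have hq : 0 ≤ Y ω / μ := by positivity
    refine ind_le_of (by positivity) fun hω => ?_
    have e2 : Y ω = X ω := by
      rw [hX, hY]
      exact sum_congr rfl fun a ha => ind_congr ⟨fun h => h.1, fun h => ⟨h, hA ω hω a ha h⟩⟩
    rw [e2]
    nlinarith [sq_nonneg (X ω / μ - 3 / 4)]
  refine (Ex_mono h0.le h1 pt).trans ?_
  rw [Ex_add, Ex_add, Ex_sub, Ex_mul_left, Ex_mul_left, Ex_mul_left, Ex_const, eX]
  have a1 : 4 / μ ^ 2 * Ex E p (fun ω => X ω * X ω) ≤ 4 * (Q / N₀) := by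
    refine (mul_le_mul_of_nonneg_left eX2 (by positivity)).trans ?_
    have : 4 / μ ^ 2 * (N * (p ^ k * p ^ k * Q)) = 4 * (Q / N) := by
      rw [hμ]; field_simp
    rw [this]
    exact mul_le_mul_of_nonneg_left (div_le_div_of_nonneg_left hQ0 hN hS) (by norm_num)
  have a2 : 2 / μ * Ex E p Y ≤ 2 * b := by
    refine (mul_le_mul_of_nonneg_left eY (by positivity)).trans (le_of_eq ?_)
    field_simp
  have a3 : 8 / μ * μ = 8 := by field_simp
  linarith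

theorem pr_low {n M t : ℕ} (hM : 1 ≤ M) (ht6 : 6 < t) (ht : t + 9 * M < n) {p c : ℝ} (h0 : 0 < p)
    (h1 : p ≤ 1) (hc : 1 < c) (hpc : c ≤ p * (n - t : ℝ)) (hcM : (n : ℝ) ≤ c ^ (M + 1)) :
    Pr n p (fun G => ∃ d ≤ 3, Realized G d) ≤
      4 * (((t : ℝ) + (6 + 9 * M) *
          (1 + 192 * ((6 + 9 * M) * (M + 1) + 1 / (c - 1) + 1)) ^ 3) ^ 6 *
        (((n - t : ℝ)) ^ M * (1 + 192 * (6 + 9 * M) / ((c - 1) * (n - t))) ^ (M + 1)) ^ 9 /
        (((t : ℝ) - 6) ^ 6 * ((n : ℝ) - t - 9 * M) ^ (9 * M)) - 1) +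
      2 * ((6 + 9 * M : ℝ) ^ 2 * (p * (1 + p) ^ n)) := by
  classical
  have a1 : (6 : ℝ) < t := by exact_mod_cast ht6
  have a2 : (t : ℝ) + 9 * M < n := by exact_mod_cast ht
  refine Sec_second (EE n) (univ.filter fun φ : Cfg n M => IsEmb t φ) edg Ear
    (fun ω => ∃ d ≤ 3, Realized (gr ω) d) (9 * (M + 1)) h0 h1
    (fun φ h => edg_sub hM (mem_filter.1 h).2) (fun φ h => card_edg hM (mem_filter.1 h).2)
    (mul_pos (pow_pos (by linarith) _) (pow_pos (by linarith) _)) ?_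
    (fun φ h => ?_) (fun φ h => pr_ear hM h0.le h1 (mem_filter.1 h).2) ?_
  · have h := card_emb (n := n) (M := M) (t := t) (by omega)
    have h' : (((t - 6) ^ 6 * (n - t - 9 * M) ^ (9 * M) : ℕ) : ℝ) ≤ _ := Nat.cast_le.2 h
    rw [Nat.cast_mul, Nat.cast_pow, Nat.cast_pow, Nat.cast_sub (by omega),
      Nat.cast_sub (by omega), Nat.cast_sub (by omega)] at h'
    push_cast at h'
    convert h'
  · convert overlap hM (by omega) h0 h1 hc hpc hcM (mem_filter.1 h).2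
  · rintro ω ⟨d, hd, hr⟩ φ h hω
    by_contra he
    exact not_realized hM (mem_filter.1 h).2 hω he hd hr

end Pool.Agent.Lib.MP_b735d7_co
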