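import Pool.Agent.Lib.MP_b735d7_co.PBase
import Pool.Agent.Lib.MP_b735d7_co.Sec

/-!
The lower bound.
-/

namespace Pool.Agent.Lib.MP_b735d7_co

open Finset Filter Topology

lemma Lower_pow {x : ℕ → ℝ} {K : ℝ} (h0 : ∀ n, 0 ≤ x n)
    (hx : ∀ᶠ n : ℕ in atTop, x n ≤ K * Real.log n) (k : ℕ) :
    Tendsto (fun n : ℕ => x n ^ k / n) atTop (𝓝 0) := by
  have h1 : Tendsto (fun n : ℕ => K ^ k * (Real.log n ^ k / n)) atTop (𝓝 (K ^ k * 0)) :=
    (((Real.isLittleO_pow_log_id_atTop (n := k)).tendsto_div_nhds_zero).comp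
      tendsto_natCast_atTop_atTop).const_mul _
  rw [mul_zero] at h1
  refine squeeze_zero' (Eventually.of_forall fun n => div_nonneg (pow_nonneg (h0 n) _)
    (Nat.cast_nonneg n)) ?_ h1
  filter_upwards [hx] with n hn
  rw [← mul_div_assoc, ← mul_pow]
  exact div_le_div_of_nonneg_right (pow_le_pow_left₀ (h0 n) hn k) (Nat.cast_nonneg n)

lemma Lower_poly {x : ℕ → ℝ} (hx : ∀ k, Tendsto (fun n : ℕ => x n ^ k / n) atTop (𝓝 0))
    (Q : Polynomial ℝ) : Tendsto (fun n : ℕ => Q.eval (x n) / n) atTop (𝓝 0) := by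
  induction Q using Polynomial.induction_on' with
  | add P Q hP hQ => simpa [add_div] using hP.add hQ
  | monomial k a => simpa [mul_div_assoc] using (hx k).const_mul a

lemma Lower_one {u : ℕ → ℝ} {k : ℕ → ℕ} (h0 : ∀ᶠ n in atTop, 0 ≤ u n)
    (h : Tendsto (fun n => (k n : ℝ) * u n) atTop (𝓝 0)) :
    Tendsto (fun n => (1 + u n) ^ k n) atTop (𝓝 1) := by
  have h1 : Tendsto (fun n => Real.exp ((k n : ℝ) * u n)) atTop (𝓝 1) := by
    simpa [Function.comp_def] using (Real.continuous_exp.tendsto 0).comp h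
  refine tendsto_of_tendsto_of_tendsto_of_le_of_le' tendsto_const_nhds h1 ?_ ?_
  · filter_upwards [h0] with n hn
    exact one_le_pow₀ (by linarith)
  · filter_upwards [h0] with n hn
    rw [Real.exp_nat_mul]
    exact pow_le_pow_left₀ (by linarith) (by linarith [Real.add_one_le_exp (u n)]) _

lemma Lower_div {f g : ℕ → ℝ} {a b : ℝ} (hf : Tendsto (fun n : ℕ => f n / n) atTop (𝓝 a))
    (hg : Tendsto (fun n : ℕ => g n / n) atTop (𝓝 b)) (hb : b ≠ 0) :
    Tendsto (fun n : ℕ => f n / g n) atTop (𝓝 (a / b)) := by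
  refine (hf.div hg hb).congr' ?_
  filter_upwards [eventually_gt_atTop 0] with n hn
  have : (n : ℝ) ≠ 0 := by positivity
  exact div_div_div_cancel_right₀ this _ _

lemma Lower_pos {f : ℕ → ℝ} {a : ℝ} (hf : Tendsto (fun n : ℕ => f n / n) atTop (𝓝 a))
    (ha : 0 < a) : ∀ᶠ n in atTop, 0 < f n := by
  filter_upwards [hf.eventually (lt_mem_nhds ha), eventually_gt_atTop 0] with n h hn
  have : (0 : ℝ) < n := by positivity
  exact (div_pos_iff_of_pos_right this).1 h

lemma Lower_alg (A B m m' X : ℝ) (M : ℕ) :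
    A ^ 6 * (m ^ M * X) ^ 9 / (B ^ 6 * m' ^ (9 * M)) =
      (A / B) ^ 6 * X ^ 9 * ((m / m') ^ M) ^ 9 := by
  rw [mul_comm 9 M, pow_mul, div_pow m]
  ring

theorem lower {c : ℝ} (hc : 1 < c) :
    Filter.Tendsto (fun n : ℕ => Pr n (c / n) fun G => ∃ d ≤ 3, Realized G d) Filter.atTop
      (nhds 0) := by
  obtain ⟨b, hb⟩ : ∃ b : ℝ, b = (c + 1) / 2 := ⟨_, rfl⟩
  obtain ⟨δ, hδ⟩ : ∃ δ : ℝ, δ = (c - 1) / (2 * c) := ⟨_, rfl⟩
  have hc0 : 0 < c := by linarith
  have hb1 : 1 < b := by linarith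
  have hδ0 : 0 < δ := hδ ▸ div_pos (by linarith) (by linarith)
  have hδb : c * (1 - δ) = b := by
    rw [hδ, hb]
    field_simp
    ring
  have hδ1 : 0 < 1 - δ := by
    by_contra h
    nlinarith
  have hlb : 0 < Real.log b := Real.log_pos hb1
  obtain ⟨t, ht⟩ : ∃ t : ℕ → ℕ, t = fun n : ℕ => ⌊δ * n⌋₊ := ⟨_, rfl⟩
  obtain ⟨M, hM⟩ : ∃ M : ℕ → ℕ, M = fun n : ℕ => ⌈Real.log n / Real.log b⌉₊ + 1 := ⟨_, rfl⟩
  have hM1 : ∀ n, 1 ≤ M n := fun n => by simp [hM]
  have hMb : ∀ n : ℕ, 0 < n → (n : ℝ) ≤ b ^ (M n + 1) := by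
    intro n hn
    have hn' : (0 : ℝ) < n := by positivity
    have h1 : Real.log n / Real.log b ≤ (M n + 1 : ℕ) := by
      have := Nat.le_ceil (Real.log n / Real.log b)
      simp only [hM]
      push_cast
      linarith
    rw [div_le_iff₀ hlb, ← Real.log_pow] at h1
    exact (Real.log_le_log_iff hn' (by positivity)).1 h1
  have hx : ∀ k, Tendsto (fun n : ℕ => (M n : ℝ) ^ k / n) atTop (𝓝 0) := by
    refine Lower_pow (K := 1 / Real.log b + 2) (fun n => Nat.cast_nonneg _) ?_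
    filter_upwards [(Real.tendsto_log_atTop.comp tendsto_natCast_atTop_atTop).eventually_ge_atTop
      1] with n hn
    have hn' : 1 ≤ Real.log n := hn
    have := Nat.ceil_lt_add_one (a := Real.log n / Real.log b) (by positivity)
    simp only [hM]
    push_cast
    have h2 : (1 / Real.log b + 2) * Real.log n = Real.log n / Real.log b + 2 * Real.log n := by
      ring
    linarith
  have htn : Tendsto (fun n : ℕ => (t n : ℝ) / n) atTop (𝓝 δ) := by
    rw [ht]
    exact (tendsto_nat_floor_mul_div_atTop hδ0.le).comp tendsto_natCast_atTop_atTop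
  have hnn : Tendsto (fun n : ℕ => (n : ℝ) / n) atTop (𝓝 1) := by
    refine tendsto_const_nhds.congr' ?_
    filter_upwards [eventually_gt_atTop 0] with n hn
    have : (n : ℝ) ≠ 0 := by positivity
    exact (div_self this).symm
  have hA : Tendsto (fun n : ℕ => ((t n : ℝ) + (6 + 9 * M n) *
      (1 + 192 * ((6 + 9 * M n) * (M n + 1) + 1 / (b - 1) + 1)) ^ 3) / n) atTop (𝓝 δ) := by
    have := htn.add (Lower_poly hx ((6 + 9 * Polynomial.X) * (1 + 192 * ((6 + 9 * Polynomial.X) *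
      (Polynomial.X + 1) + Polynomial.C (1 / (b - 1)) + 1)) ^ 3))
    simpa [← add_div] using this
  have hB : Tendsto (fun n : ℕ => ((t n : ℝ) - 6) / n) atTop (𝓝 δ) := by
    simpa [← sub_div] using htn.sub (Lower_poly hx 6)
  have hm : Tendsto (fun n : ℕ => ((n : ℝ) - t n) / n) atTop (𝓝 (1 - δ)) := by
    simpa [← sub_div] using hnn.sub htn
  have hm' : Tendsto (fun n : ℕ => ((n : ℝ) - t n - 9 * M n) / n) atTop (𝓝 (1 - δ)) := by
    have := hm.sub (Lower_poly hx (9 * Polynomial.X))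
    simp only [Polynomial.eval_mul, Polynomial.eval_X, Polynomial.eval_ofNat] at this
    simpa [← sub_div] using this
  have e1 := Lower_pos hB hδ0
  have e2 := Lower_pos hm hδ1
  have e3 := Lower_pos hm' hδ1
  have f1 := Lower_div hA hB hδ0.ne'
  rw [div_self hδ0.ne'] at f1
  have f2 : Tendsto (fun n : ℕ => (1 + 192 * (6 + 9 * (M n : ℝ)) / ((b - 1) * (n - t n))) ^
      (M n + 1)) atTop (𝓝 1) := by
    refine Lower_one (e2.mono fun n hn => div_nonneg (by positivity)
      (mul_nonneg (by linarith) hn.le)) ?_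
    have := (Lower_div (Lower_poly hx ((Polynomial.X + 1) * (192 * (6 + 9 * Polynomial.X)))) hm
      hδ1.ne').const_mul (1 / (b - 1))
    rw [zero_div, mul_zero] at this
    refine this.congr fun n => ?_
    simp only [Polynomial.eval_mul, Polynomial.eval_add, Polynomial.eval_X, Polynomial.eval_one,
      Polynomial.eval_ofNat]
    push_cast
    rw [div_mul_div_comm, one_mul, mul_div_assoc]
  have f3 : Tendsto (fun n : ℕ => (1 + 9 * (M n : ℝ) / (n - t n - 9 * M n)) ^ M n) atTop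
      (𝓝 1) := by
    refine Lower_one (e3.mono fun n hn => div_nonneg (by positivity) hn.le) ?_
    have := Lower_div (Lower_poly hx (Polynomial.X * (9 * Polynomial.X))) hm' hδ1.ne'
    rw [zero_div] at this
    refine this.congr fun n => ?_
    simp only [Polynomial.eval_mul, Polynomial.eval_X, Polynomial.eval_ofNat]
    rw [mul_div_assoc]
  have f4 := (Lower_poly hx ((6 + 9 * Polynomial.X) ^ 2)).const_mul (c * Real.exp c)
  have key := (((((f1.pow 6).mul (f2.pow 9)).mul (f3.pow 9)).sub_const 1).const_mul 4).add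
    (f4.const_mul 2)
  simp only [one_pow, mul_one, sub_self, mul_zero, add_zero] at key
  have e4 : ∀ᶠ n : ℕ in atTop, c ≤ n := tendsto_natCast_atTop_atTop.eventually_ge_atTop c
  have hp : ∀ n : ℕ, c ≤ n → 0 < c / n ∧ c / n ≤ 1 := fun n hn =>
    ⟨div_pos hc0 (by linarith), (div_le_one (by linarith)).2 hn⟩
  refine squeeze_zero' (e4.mono fun n hn => Pr_nonneg (hp n hn).1.le (hp n hn).2 _) ?_ key
  filter_upwards [e1, e2, e3, e4] with n h1 h2 h3 h4
  have hn : (0 : ℝ) < n := by linarith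
  have h5 : 6 < t n := by exact_mod_cast sub_pos.1 h1
  have h6 : t n + 9 * M n < n := by
    have : (t n : ℝ) + 9 * M n < n := by linarith
    exact_mod_cast this
  have h7 : b ≤ c / n * (n - t n : ℝ) := by
    have : (t n : ℝ) ≤ δ * n := by
      rw [ht]
      exact Nat.floor_le (by positivity)
    rw [div_mul_eq_mul_div, le_div_iff₀ hn, ← hδb]
    nlinarith
  refine (pr_low (hM1 n) h5 h6 (hp n h4).1 (hp n h4).2 hb1 h7
    (hMb n (by exact_mod_cast hn))).trans (add_le_add (le_of_eq ?_) ?_)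
  · have h8 : 1 + 9 * (M n : ℝ) / (n - t n - 9 * M n) = (n - t n) / (n - t n - 9 * M n) := by
      field_simp
      ring
    rw [h8, Lower_alg]
  · have h8 : (1 + c / n) ^ n ≤ Real.exp c := by
      have h9 : (1 + c / n) ^ n ≤ Real.exp (c / n) ^ n :=
        pow_le_pow_left₀ (by positivity) (by linarith [Real.add_one_le_exp (c / n)]) _
      rwa [← Real.exp_nat_mul, mul_div_cancel₀ _ hn.ne'] at h9
    simp only [Polynomial.eval_pow, Polynomial.eval_mul, Polynomial.eval_add, Polynomial.eval_X,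
      Polynomial.eval_ofNat]
    have h9 : c * Real.exp c * ((6 + 9 * (M n : ℝ)) ^ 2 / n) =
        (6 + 9 * (M n : ℝ)) ^ 2 * (c / n * Real.exp c) := by ring
    rw [h9]
    have := (hp n h4).1
    gcongr

end Pool.Agent.Lib.MP_b735d7_co
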