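import Pool.Agent.Lib.MP_b735d7_co.Upper
import Pool.Agent.Lib.MP_b735d7_co.Lower

/-!
From the finite model back to the measure.
-/

namespace Pool.Agent.Lib.MP_b735d7_co

open Filter Topology

lemma four_le_dim {V : Type} [LinearOrder V] [Fintype V] {G : SimpleGraph V}
    (h : ¬ ∃ d ≤ 3, Realized G d) : 4 ≤ orderDim G := by
  by_contra hn
  exact h ⟨orderDim G, by omega, Nat.sInf_mem (s := {d | Realized G d}) (exists_realized G)⟩

lemma dim_le {V : Type} [LinearOrder V] {G : SimpleGraph V} {d : ℕ} (h : Realized G d) :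
    orderDim G ≤ d := Nat.sInf_le h

lemma tendsto_one_of {c : ℝ} (hc : 0 ≤ c) (A B : ∀ n : ℕ, SimpleGraph (Fin n) → Prop)
    (h : ∀ n G, ¬ A n G → B n G)
    (hB : Tendsto (fun n : ℕ => Pr n (c / n) (B n)) atTop (𝓝 0)) :
    Tendsto (fun n : ℕ => prob n c {G | A n G}) atTop (𝓝 1) := by
  have hp : ∀ᶠ n : ℕ in atTop, c / n < 1 :=
    (tendsto_const_div_atTop_nhds_zero_nat c).eventually (gt_mem_nhds one_pos)
  have h0 : Tendsto (fun n : ℕ => Pr n (c / n) fun G => ¬ A n G) atTop (𝓝 0) := by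
    refine squeeze_zero' ?_ ?_ hB
    · filter_upwards [hp] with n hn
      exact Pr_nonneg (by positivity) hn.le _
    · filter_upwards [hp] with n hn
      exact Pr_mono (by positivity) hn.le (h n)
  have h1 := h0.const_sub 1
  rw [sub_zero] at h1
  refine h1.congr' ?_
  filter_upwards [hp] with n hn
  rw [prob_eq_Pr n c (by positivity) hn.le, Pr_not]
  ring

theorem atLeastFour {c : ℝ} (hc : 1 < c) :
    Tendsto (fun n : ℕ => prob n c {G | 4 ≤ orderDim G}) atTop (𝓝 1) :=
  tendsto_one_of (by linarith) (fun _ G => 4 ≤ orderDim G) (fun _ G => ∃ d ≤ 3, Realized G d)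
    (fun _ _ h => by_contra fun k => h (four_le_dim k)) (lower hc)

theorem dimFour : ∃ ε : ℝ, 0 < ε ∧ ∀ c : ℝ, 1 < c → c < 1 + ε →
    Tendsto (fun n : ℕ => prob n c {G | orderDim G = 4}) atTop (𝓝 1) := by
  obtain ⟨ε, hε, h⟩ := upper
  refine ⟨ε, hε, fun c h1 h2 => ?_⟩
  refine tendsto_one_of (by linarith) (fun _ G => orderDim G = 4)
    (fun _ G => (∃ d ≤ 3, Realized G d) ∨ ¬ Realized G 4) (fun _ G k => ?_) ?_
  · by_contra hn
    rw [not_or, not_not] at hn
    exact k (le_antisymm (dim_le hn.2) (four_le_dim hn.1))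
  · have hp : ∀ᶠ n : ℕ in atTop, c / n < 1 :=
      (tendsto_const_div_atTop_nhds_zero_nat c).eventually (gt_mem_nhds one_pos)
    have hs := (lower h1).add (h c h1.le h2)
    rw [add_zero] at hs
    refine squeeze_zero' ?_ ?_ hs
    · filter_upwards [hp] with n hn
      exact Pr_nonneg (by positivity) hn.le _
    · filter_upwards [hp] with n hn
      exact Pr_or (by positivity) hn.le _ _

end Pool.Agent.Lib.MP_b735d7_co
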