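import Pool.Agent.Lib.MP_b735d7_co.GDef

/-!
The probability of a long chain.
-/

namespace Pool.Agent.Lib.MP_b735d7_co

open Finset Pool.Agent.Lib.MP_58a483_pr.H80

lemma GChP_le_mono {n : ℕ} (z w : Fin n) :
    Mono (fun S : Finset (Sym2 (Fin n)) => Le (gr S) z w) :=
  fun _ _ h k => k.mono (gr_mono h)

lemma GChP_bd_mono {n : ℕ} {Bad : Finset (Fin n) → Prop} (hm : ∀ S T, S ⊆ T → Bad S → Bad T)
    (y z z' : Fin n) : Mono (Bd Bad y z z') :=
  fun _ _ h k => ⟨hm _ _ (dn_mono (gr_mono h) y) k.1, k.2.1.mono (gr_mono h),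
    k.2.2.mono (gr_mono h)⟩

lemma GChP_lk_mono {n : ℕ} (z z' : Fin n) : Mono (Lk z z') := by
  rintro S T h ⟨k, w, hw⟩
  exact ⟨k, w, Box.mono _ _ S T h hw⟩

lemma GChP_chain_mono {n : ℕ} (Bad : Finset (Fin n) → Prop) (j : ℕ) (z : Fin n) :
    Mono (Chain Bad j z) := by
  cases j with
  | zero => exact fun _ _ _ _ => trivial
  | succ j =>
    rintro S T h ⟨y, z', z'', k⟩
    exact ⟨y, z', z'', Box.mono _ _ S T h k⟩

lemma GChP_ind_ex {α : Type} [Fintype α] (P : α → Prop) : ind (∃ a, P a) ≤ ∑ a, ind (P a) := by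
  have := ind_exists_le (univ : Finset α) P
  simpa using this

lemma GChP_sum_eq {n : ℕ} (z : Fin n) : ∑ w : Fin n, ind (z = w) = 1 := by
  rw [sum_eq_single z]
  · exact ind_pos rfl
  · exact fun b _ hb => ind_neg (Ne.symm hb)
  · simp

lemma GChP_pr_le {n : ℕ} {p : ℝ} (h0 : 0 ≤ p) (h1 : p ≤ 1) (z w : Fin n) :
    Ex (EE n) p (fun ω => ind (Le (gr ω) z w)) ≤ ind (z = w) + p * (1 + p) ^ n := by
  have h := pr_below h0 h1 z w
  unfold Pr at h
  calc Ex (EE n) p (fun ω => ind (Le (gr ω) z w))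
      ≤ Ex (EE n) p (fun ω => ind (z = w) + ind (Below (gr ω) z w)) :=
        Ex_mono h0 h1 fun ω _ => ind_or_le _ _
    _ = ind (z = w) + Ex (EE n) p (fun ω => ind (Below (gr ω) z w)) := by
        rw [Ex_add, Ex_const]
    _ ≤ _ := by linarith

lemma GChP_pr_lk {n : ℕ} {p : ℝ} (h0 : 0 ≤ p) (h1 : p ≤ 1 / 2) (z z' : Fin n) :
    Ex (EE n) p (fun ω => ind (Lk z z' ω)) ≤
      2 * (p * (1 + p) ^ n) + n * (p * (1 + p) ^ n) ^ 2 := by
  have h1' : p ≤ 1 := by linarith
  set q := p * (1 + p) ^ n with hq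
  have hq0 : 0 ≤ q := by positivity
  by_cases hz : z = z'
  · have : Ex (EE n) p (fun ω => ind (Lk z z' ω)) = 0 := by
      rw [← Ex_const (EE n) p 0]
      exact Ex_congr fun ω _ => ind_neg fun k => k.1 hz
    rw [this]; positivity
  calc Ex (EE n) p (fun ω => ind (Lk z z' ω))
      ≤ Ex (EE n) p (fun ω => ∑ w : Fin n,
          ind (Box (fun S => Le (gr S) z w) (fun S => Le (gr S) z' w) ω)) :=
        Ex_mono h0 h1' fun ω _ => (ind_mono fun k => k.2).trans (GChP_ind_ex _)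
    _ = ∑ w : Fin n, Ex (EE n) p (fun ω =>
          ind (Box (fun S => Le (gr S) z w) (fun S => Le (gr S) z' w) ω)) := Ex_sum _ _ _ _
    _ ≤ ∑ w : Fin n, (q * ind (z = w) + q * ind (z' = w) + q ^ 2) := by
        refine sum_le_sum fun w _ => (BK _ h0 h1 _ _ (GChP_le_mono z w) (GChP_le_mono z' w)).trans ?_
        have a1 := GChP_pr_le h0 h1' z w
        have a2 := GChP_pr_le h0 h1' z' w
        have b2 : 0 ≤ Ex (EE n) p (fun ω => ind (Le (gr ω) z' w)) :=
          Ex_nonneg h0 h1' fun _ _ => ind_nonneg _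
        have c : ind (z = w) * ind (z' = w) = 0 := by
          rw [← ind_and]; exact ind_neg fun k => hz (k.1.trans k.2.symm)
        have d1 := ind_nonneg (z = w)
        calc _ ≤ (ind (z = w) + q) * (ind (z' = w) + q) :=
              mul_le_mul a1 a2 b2 (by linarith)
          _ = ind (z = w) * ind (z' = w) + (q * ind (z = w) + q * ind (z' = w) + q ^ 2) := by ring
          _ = _ := by rw [c, zero_add]
    _ = 2 * q + n * q ^ 2 := by
        rw [sum_add_distrib, sum_add_distrib, ← mul_sum, ← mul_sum, GChP_sum_eq, GChP_sum_eq]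
        simp only [sum_const, card_univ, Fintype.card_fin, nsmul_eq_mul]
        ring

lemma GChP_sum_le {n : ℕ} (G : SimpleGraph (Fin n)) (y : Fin n) :
    ∑ z : Fin n, ind (Le G z y) = ((dn G y).card : ℝ) := by
  classical
  rw [sum_ind_eq_card]
  congr 2

lemma GChP_sum_bd {n : ℕ} (Bad : Finset (Fin n) → Prop) (y : Fin n)
    (ω : Finset (Sym2 (Fin n))) :
    ∑ z : Fin n, ∑ z' : Fin n, ind (Bd Bad y z z' ω) =
      ((dn (gr ω) y).card : ℝ) ^ 2 * ind (Bad (dn (gr ω) y)) := by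
  unfold Bd
  simp only [ind_and]
  simp only [← mul_sum, ← sum_mul, GChP_sum_le]
  ring

theorem pr_chain {n : ℕ} {p β : ℝ} (h0 : 0 ≤ p) (h1 : p ≤ 1 / 2) {Bad : Finset (Fin n) → Prop}
    (hm : ∀ S T, S ⊆ T → Bad S → Bad T)
    (hβ : ∑ y : Fin n, Ex (EE n) p
      (fun ω => ((dn (gr ω) y).card : ℝ) ^ 2 * ind (Bad (dn (gr ω) y))) ≤ β) (j : ℕ) :
    ∑ z : Fin n, Ex (EE n) p (fun ω => ind (Chain Bad j z ω)) ≤
      n * (β * (2 * (p * (1 + p) ^ n) + n * (p * (1 + p) ^ n) ^ 2)) ^ j := by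
  have h1' : p ≤ 1 := by linarith
  set κ := 2 * (p * (1 + p) ^ n) + n * (p * (1 + p) ^ n) ^ 2 with hκ
  have hκ0 : 0 ≤ κ := by positivity
  have nn : ∀ A : Finset (Sym2 (Fin n)) → Prop, 0 ≤ Ex (EE n) p (fun ω => ind (A ω)) :=
    fun A => Ex_nonneg h0 h1' fun _ _ => ind_nonneg _
  have hB : ∑ z : Fin n, ∑ y : Fin n, ∑ z' : Fin n,
      Ex (EE n) p (fun ω => ind (Bd Bad y z z' ω)) ≤ β := by
    rw [sum_comm]
    refine le_trans (le_of_eq (sum_congr rfl fun y _ => ?_)) hβ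
    simp only [← GChP_sum_bd, Ex_sum]
  have hβ0 : 0 ≤ β :=
    le_trans (sum_nonneg fun _ _ => sum_nonneg fun _ _ => sum_nonneg fun _ _ => nn _) hB
  induction j with
  | zero =>
    have : ∀ z : Fin n, Ex (EE n) p (fun ω => ind (Chain Bad 0 z ω)) = 1 := fun z => by
      rw [← Ex_const (EE n) p 1]
      exact Ex_congr fun ω _ => ind_pos trivial
    simp [this]
  | succ j ih =>
    set a := ∑ z : Fin n, Ex (EE n) p (fun ω => ind (Chain Bad j z ω)) with ha
    have ha0 : 0 ≤ a := sum_nonneg fun _ _ => nn _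
    have step : ∀ z : Fin n, Ex (EE n) p (fun ω => ind (Chain Bad (j + 1) z ω)) ≤
        ∑ y : Fin n, ∑ z' : Fin n, Ex (EE n) p (fun ω => ind (Bd Bad y z z' ω)) * (κ * a) := by
      intro z
      calc Ex (EE n) p (fun ω => ind (Chain Bad (j + 1) z ω))
          ≤ Ex (EE n) p (fun ω => ∑ y : Fin n, ∑ z' : Fin n, ∑ z'' : Fin n,
              ind (Box (Bd Bad y z z') (Box (Lk z' z'') (Chain Bad j z'')) ω)) :=
            Ex_mono h0 h1' fun ω _ => (GChP_ind_ex _).trans (sum_le_sum fun y _ =>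
              (GChP_ind_ex _).trans (sum_le_sum fun z' _ => GChP_ind_ex _))
        _ = ∑ y : Fin n, ∑ z' : Fin n, ∑ z'' : Fin n, Ex (EE n) p (fun ω =>
              ind (Box (Bd Bad y z z') (Box (Lk z' z'') (Chain Bad j z'')) ω)) := by
            simp only [Ex_sum]
        _ ≤ _ := by
            refine sum_le_sum fun y _ => sum_le_sum fun z' _ => ?_
            rw [ha, mul_sum, mul_sum]
            refine sum_le_sum fun z'' _ => ?_
            refine (BK _ h0 h1 _ _ (GChP_bd_mono hm y z z') (Box.mono _ _)).trans ?_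
            refine mul_le_mul_of_nonneg_left ?_ (nn _)
            refine (BK _ h0 h1 _ _ (GChP_lk_mono z' z'') (GChP_chain_mono Bad j z'')).trans ?_
            exact mul_le_mul_of_nonneg_right (GChP_pr_lk h0 h1 z' z'') (nn _)
    calc ∑ z : Fin n, Ex (EE n) p (fun ω => ind (Chain Bad (j + 1) z ω))
        ≤ ∑ z : Fin n, ∑ y : Fin n, ∑ z' : Fin n,
            Ex (EE n) p (fun ω => ind (Bd Bad y z z' ω)) * (κ * a) := sum_le_sum fun z _ => step z
      _ = (∑ z : Fin n, ∑ y : Fin n, ∑ z' : Fin n,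
            Ex (EE n) p (fun ω => ind (Bd Bad y z z' ω))) * (κ * a) := by
          simp only [sum_mul]
      _ ≤ β * (κ * (n * (β * κ) ^ j)) :=
          mul_le_mul hB (mul_le_mul_of_nonneg_left ih hκ0) (mul_nonneg hκ0 ha0) hβ0
      _ = n * (β * κ) ^ (j + 1) := by ring

end Pool.Agent.Lib.MP_b735d7_co
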