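import Pool.Agent.Lib.MP_b735d7_co.GDef

/-!
Disjoint witnesses along an induced chain of bad down-sets.
-/

namespace Pool.Agent.Lib.MP_b735d7_co

open Finset Pool.Agent.Lib.MP_58a483_pr.H80

lemma GChain_edge {n : ℕ} {ω : Finset (Sym2 (Fin n))} {P Q : Fin n → Prop} {e : Sym2 (Fin n)}
    (h : e ∈ ins ω P) (k : e ∈ ins ω Q) : ∃ u u', u < u' ∧ P u ∧ P u' ∧ Q u ∧ Q u' := by
  induction e using Sym2.ind with
  | h a b =>
    obtain ⟨-, h1, h2, h3⟩ := mem_ins.1 h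
    obtain ⟨-, -, k2, k3⟩ := mem_ins.1 k
    rcases lt_or_gt_of_ne h1 with c | c
    · exact ⟨a, b, c, h2, h3, k2, k3⟩
    · exact ⟨b, a, c, h3, h2, k3, k2⟩

lemma GChain_ins_mono {n : ℕ} {ω : Finset (Sym2 (Fin n))} {P Q : Fin n → Prop}
    (h : ∀ u, P u → Q u) {e : Sym2 (Fin n)} (k : e ∈ ins ω P) : e ∈ ins ω Q := by
  induction e using Sym2.ind with
  | h a b =>
    obtain ⟨k0, k1, k2, k3⟩ := mem_ins.1 k
    exact mem_ins.2 ⟨k0, k1, h _ k2, h _ k3⟩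

lemma GChain_min {n : ℕ} {Q : Fin n → Prop} (h : ∃ w, Q w) : ∃ w, Q w ∧ ∀ u, Q u → w ≤ u := by
  classical
  obtain ⟨w, hw⟩ := h
  obtain ⟨m, m1, m2⟩ := exists_min_image (univ.filter Q) id ⟨w, by simpa using hw⟩
  exact ⟨m, by simpa using m1, fun u hu => m2 u (by simpa using hu)⟩

lemma GChain_max {n : ℕ} {Q : Fin n → Prop} (h : ∃ w, Q w) : ∃ w, Q w ∧ ∀ u, Q u → u ≤ w := by
  classical
  obtain ⟨w, hw⟩ := h
  obtain ⟨m, m1, m2⟩ := exists_max_image (univ.filter Q) id ⟨w, by simpa using hw⟩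
  exact ⟨m, by simpa using m1, fun u hu => m2 u (by simpa using hu)⟩

lemma GChain_dn {n : ℕ} (ω : Finset (Sym2 (Fin n))) (y : Fin n) :
    dn (gr (ins ω fun u => Le (gr ω) u y)) y = dn (gr ω) y := by
  refine Subset.antisymm (dn_mono (gr_mono (ins_sub _ _)) y) fun u hu => ?_
  exact mem_dn.2 (le_ins (mem_dn.1 hu) fun _ _ k => k)

lemma GChain_aux {n : ℕ} {Bad : Finset (Fin n) → Prop} {ω : Finset (Sym2 (Fin n))} (j : ℕ) :
    ∀ y : ℕ → Fin n, (∀ i ≤ 2 * j, Bad (dn (gr ω) (y i))) →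
      (∀ i < 2 * j, ¬ Disjoint (dn (gr ω) (y i)) (dn (gr ω) (y (i + 1)))) →
      (∀ i l, i + 2 ≤ l → l ≤ 2 * j → Disjoint (dn (gr ω) (y i)) (dn (gr ω) (y l))) →
      ∀ z, Le (gr ω) z (y 0) → ∃ T : Finset (Sym2 (Fin n)),
        (∀ e ∈ T, ∃ l ≤ 2 * j, e ∈ ins ω fun u => Le (gr ω) u (y l)) ∧ Chain Bad j z T := by
  classical
  induction j with
  | zero => exact fun _ _ _ _ _ _ => ⟨∅, fun _ he => absurd he (notMem_empty _), trivial⟩
  | succ j ih =>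
    intro y hb hm hd z hz
    have hdis : ∀ i l u, i + 2 ≤ l → l ≤ 2 * (j + 1) → Le (gr ω) u (y i) → Le (gr ω) u (y l) →
        False := fun i l u h1 h2 h3 h4 =>
      disjoint_left.1 (hd i l h1 h2) (mem_dn.2 h3) (mem_dn.2 h4)
    obtain ⟨a0, a1, a2⟩ := not_disjoint_iff.1 (hm 0 (by omega))
    obtain ⟨b0, b1, b2⟩ := not_disjoint_iff.1 (hm 1 (by omega))
    obtain ⟨w, ⟨w1, w2, w3⟩, wmin⟩ := GChain_min
      (Q := fun w => Le (gr ω) w (y 1) ∧ (∃ a, Le (gr ω) a (y 0) ∧ Le (gr ω) a w) ∧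
        ∃ a, Le (gr ω) a (y 2) ∧ Le (gr ω) a w)
      ⟨y 1, Le.rfl, ⟨a0, mem_dn.1 a1, mem_dn.1 a2⟩, ⟨b0, mem_dn.1 b2, mem_dn.1 b1⟩⟩
    obtain ⟨p, ⟨p1, p2⟩, pmax⟩ := GChain_max w2
    obtain ⟨q, ⟨q1, q2⟩, qmax⟩ := GChain_max w3
    obtain ⟨T, hT, hC⟩ := ih (fun i => y (i + 2)) (fun i hi => hb _ (by omega))
      (fun i hi => hm (i + 2) (by omega))
      (fun i l h1 h2 => hd (i + 2) (l + 2) (by omega) (by omega)) q q1
    set S0 := ins ω fun u => Le (gr ω) u (y 0) with hS0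
    set S1 := ins ω fun u => Le (gr ω) p u ∧ Le (gr ω) u w with hS1
    set S2 := ins ω fun u => Le (gr ω) q u ∧ Le (gr ω) u w with hS2
    have d12 : Disjoint S1 S2 := by
      refine disjoint_left.2 fun e e1 e2 => ?_
      obtain ⟨u, u', c, ⟨c1, c2⟩, ⟨-, c3⟩, ⟨c4, -⟩, -⟩ := GChain_edge e1 e2
      have h1 := wmin u ⟨c2.trans w1, ⟨p, p1, c1⟩, ⟨q, q1, c4⟩⟩
      exact absurd (lt_of_lt_of_le c c3.le) (not_lt.2 h1)
    have d01 : Disjoint S0 S1 := by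
      refine disjoint_left.2 fun e e1 e2 => ?_
      obtain ⟨u, u', c, -, c1, ⟨c2, -⟩, ⟨-, c3⟩⟩ := GChain_edge e1 e2
      exact absurd (lt_of_le_of_lt c2.le c) (not_lt.2 (pmax u' ⟨c1, c3⟩))
    have d02 : Disjoint S0 S2 := by
      refine disjoint_left.2 fun e e1 e2 => ?_
      obtain ⟨u, u', -, c1, -, ⟨c2, -⟩, -⟩ := GChain_edge e1 e2
      exact hdis 0 2 q (by omega) (by omega) (c2.trans c1) q1
    have d0T : Disjoint S0 T := by
      refine disjoint_left.2 fun e e1 e2 => ?_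
      obtain ⟨l, hl, e3⟩ := hT e e2
      obtain ⟨u, u', -, c1, -, c2, -⟩ := GChain_edge e1 e3
      exact hdis 0 (l + 2) u (by omega) (by omega) c1 c2
    have d1T : Disjoint S1 T := by
      refine disjoint_left.2 fun e e1 e2 => ?_
      obtain ⟨l, hl, e3⟩ := hT e e2
      obtain ⟨u, u', -, ⟨c1, c3⟩, -, c2, -⟩ := GChain_edge e1 e3
      rcases Nat.eq_zero_or_pos l with rfl | hl0
      · exact hdis 0 2 p (by omega) (by omega) p1 (c1.trans c2)
      · exact hdis 1 (l + 2) u (by omega) (by omega) (c3.trans w1) c2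
    have d2T : Disjoint S2 T := by
      refine disjoint_left.2 fun e e1 e2 => ?_
      obtain ⟨l, hl, e3⟩ := hT e e2
      obtain ⟨u, u', c, ⟨c1, c3⟩, ⟨-, c4⟩, c2, c5⟩ := GChain_edge e1 e3
      rcases Nat.eq_zero_or_pos l with rfl | hl0
      · exact absurd (lt_of_le_of_lt c1.le c) (not_lt.2 (qmax u' ⟨c5, c4⟩))
      · exact hdis 1 (l + 2) u (by omega) (by omega) (c3.trans w1) c2
    refine ⟨S0 ∪ ((S1 ∪ S2) ∪ T), fun e he => ?_, y 0, p, q, S0, (S1 ∪ S2) ∪ T,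
      subset_union_left, subset_union_right, ?_, ⟨?_, ?_, ?_⟩,
      S1 ∪ S2, T, subset_union_left, subset_union_right, ?_, ⟨?_, w, S1, S2,
        subset_union_left, subset_union_right, d12, ?_, ?_⟩, hC⟩
    · rcases mem_union.1 he with h | h
      · exact ⟨0, by omega, h⟩
      · rcases mem_union.1 h with h | h
        · rcases mem_union.1 h with h | h
          · exact ⟨1, by omega, GChain_ins_mono (fun u k => k.2.trans w1) h⟩
          · exact ⟨1, by omega, GChain_ins_mono (fun u k => k.2.trans w1) h⟩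
        · obtain ⟨l, hl, e3⟩ := hT e h
          exact ⟨l + 2, by omega, e3⟩
    · exact disjoint_union_right.2 ⟨disjoint_union_right.2 ⟨d01, d02⟩, d0T⟩
    · rw [hS0, GChain_dn]
      exact hb 0 (by omega)
    · exact le_ins hz fun _ _ k => k
    · exact le_ins p1 fun _ _ k => k
    · exact disjoint_union_left.2 ⟨d1T, d2T⟩
    · rintro rfl
      exact hdis 0 2 p (by omega) (by omega) p1 q1
    · exact le_ins p2 fun _ k1 k2 => ⟨k1, k2⟩
    · exact le_ins q2 fun _ k1 k2 => ⟨k1, k2⟩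

theorem chain_of_ind {n j : ℕ} {Bad : Finset (Fin n) → Prop} {ω : Finset (Sym2 (Fin n))}
    (h : Ind (gr ω) Bad (2 * j)) : ∃ z, Chain Bad j z ω := by
  obtain ⟨y, h1, h2, h3⟩ := h
  obtain ⟨T, hT, hC⟩ := GChain_aux j y h1 h2 h3 (y 0) Le.rfl
  have hs : T ⊆ ω := fun e he => by
    obtain ⟨l, -, k⟩ := hT e he
    exact ins_sub _ _ k
  refine ⟨y 0, ?_⟩
  cases j with
  | zero => trivial
  | succ j =>
    obtain ⟨a, b, c, k⟩ := hC
    exact ⟨a, b, c, Box.mono _ _ _ _ hs k⟩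

end Pool.Agent.Lib.MP_b735d7_co
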