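import Pool.Agent.Lib.MP_b735d7_co.Fin

/-!
Notions for the exponential bounds on the dimension of the random graph order.
-/

namespace Pool.Agent.Lib.MP_b735d7_co

open Finset Pool.Agent.Lib.MP_58a483_pr.H80

section gen
variable {V : Type} [LinearOrder V]

/-- weakly below -/
def Le (G : SimpleGraph V) (a b : V) : Prop := a = b ∨ Below G a b

lemma Le.rfl {G : SimpleGraph V} {a : V} : Le G a a := Or.inl (Eq.refl a)

lemma Le.trans {G : SimpleGraph V} {a b c : V} (h : Le G a b) (k : Le G b c) : Le G a c := by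
  rcases h with rfl | h
  · exact k
  · rcases k with rfl | k
    · exact Or.inr h
    · exact Or.inr (Relation.TransGen.trans h k)

lemma Le.le {G : SimpleGraph V} {a b : V} (h : Le G a b) : a ≤ b := by
  rcases h with rfl | h
  · exact le_refl _
  · exact (below_lt h).le

lemma Le.mono {G G' : SimpleGraph V} (hG : G ≤ G') {a b : V} (h : Le G a b) : Le G' a b :=
  h.imp id (below_mono hG)

lemma below_of_adj {G : SimpleGraph V} {a b : V} (h : a < b) (k : G.Adj a b) : Below G a b :=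
  Relation.TransGen.single ⟨h, k⟩

lemma le_of_adj {G : SimpleGraph V} {a b : V} (h : a < b) (k : G.Adj a b) : Le G a b :=
  Or.inr (below_of_adj h k)

lemma Le.below_right {G : SimpleGraph V} {a b c : V} (h : Le G a b) (k : Below G b c) :
    Below G a c := by
  rcases h with rfl | h
  · exact k
  · exact Relation.TransGen.trans h k

lemma Le.below_left {G : SimpleGraph V} {a b c : V} (k : Le G b c) (h : Below G a b) :
    Below G a c := by
  rcases k with rfl | k
  · exact h
  · exact Relation.TransGen.trans h k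

lemma below_first {G : SimpleGraph V} {a b : V} (h : Below G a b) :
    ∃ u, a < u ∧ G.Adj a u ∧ Le G u b := by
  obtain ⟨u, h1, h2⟩ := Relation.TransGen.head'_iff.1 h
  refine ⟨u, h1.1, h1.2, ?_⟩
  rcases Relation.reflTransGen_iff_eq_or_transGen.1 h2 with h3 | h3
  · exact Or.inl h3.symm
  · exact Or.inr h3

lemma below_last {G : SimpleGraph V} {a b : V} (h : Below G a b) :
    ∃ u, Le G a u ∧ u < b ∧ G.Adj u b := by
  obtain ⟨u, h2, h1⟩ := Relation.TransGen.tail'_iff.1 h
  refine ⟨u, ?_, h1.1, h1.2⟩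
  rcases Relation.reflTransGen_iff_eq_or_transGen.1 h2 with h3 | h3
  · exact Or.inl h3.symm
  · exact Or.inr h3

/-- a bicyclic path with at most `v` valleys -/
def BicycV (G : SimpleGraph V) (v : ℕ) : Prop :=
  ∃ e z i j, PSeq G z e ∧ 2 ≤ i ∧ i ≤ e ∧ j + 2 ≤ e ∧ G.Adj (z 0) (z i) ∧ G.Adj (z e) (z j) ∧
    ¬ (i = e ∧ j = 0) ∧ valCount z e ≤ v

/-- a rooted tree on `C` whose parents go up in even layers and down in odd layers -/
structure TreeD (G : SimpleGraph V) (C : V → Prop) (r : V) (par : V → V) (lay : V → ℕ) (Lm : ℕ) :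
    Prop where
  step : ∀ z, C z → z ≠ r → C (par z) ∧ G.Adj z (par z) ∧ lay (par z) ≤ lay z ∧
    (lay z % 2 = 0 → z < par z) ∧ (lay z % 2 = 1 → par z < z)
  bound : ∀ z, C z → lay z ≤ Lm

end gen

variable {n : ℕ}

open Classical in
/-- the closed down-set of `y` -/
noncomputable def dn (G : SimpleGraph (Fin n)) (y : Fin n) : Finset (Fin n) :=
  univ.filter fun z => Le G z y

lemma mem_dn {G : SimpleGraph (Fin n)} {y z : Fin n} : z ∈ dn G y ↔ Le G z y := by simp [dn]

lemma dn_mono {G G' : SimpleGraph (Fin n)} (h : G ≤ G') (y : Fin n) : dn G y ⊆ dn G' y :=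
  fun _ hz => mem_dn.2 ((mem_dn.1 hz).mono h)

open Classical in
/-- the edges with both ends in `P` -/
noncomputable def ins (ω : Finset (Sym2 (Fin n))) (P : Fin n → Prop) : Finset (Sym2 (Fin n)) :=
  ω.filter fun e => ¬ e.IsDiag ∧ ∀ x ∈ e, P x

lemma ins_sub (ω : Finset (Sym2 (Fin n))) (P : Fin n → Prop) : ins ω P ⊆ ω := by
  classical
  intro e he
  unfold ins at he
  exact (mem_filter.1 he).1

lemma mem_ins {ω : Finset (Sym2 (Fin n))} {P : Fin n → Prop} {a b : Fin n} :
    s(a, b) ∈ ins ω P ↔ s(a, b) ∈ ω ∧ a ≠ b ∧ P a ∧ P b := by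
  simp [ins]

lemma le_ins {ω : Finset (Sym2 (Fin n))} {P : Fin n → Prop} {a b : Fin n} (h : Le (gr ω) a b)
    (hP : ∀ u, Le (gr ω) a u → Le (gr ω) u b → P u) : Le (gr (ins ω P)) a b := by
  rcases h with h | h
  · exact Or.inl h
  · right
    unfold Below at h
    induction h with
    | single k =>
      have k1 := gr_adj.1 k.2
      exact below_of_adj k.1 (gr_adj.2 ⟨mem_ins.2 ⟨k1.1, k1.2, hP _ Le.rfl (le_of_adj k.1 k.2),
        hP _ (le_of_adj k.1 k.2) Le.rfl⟩, k1.2⟩)
    | tail h1 k ih =>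
      have k1 := gr_adj.1 k.2
      have k2 := le_of_adj k.1 k.2
      refine Relation.TransGen.tail (ih fun u u1 u2 => hP u u1 (u2.trans k2)) ⟨k.1, ?_⟩
      exact gr_adj.2 ⟨mem_ins.2 ⟨k1.1, k1.2, hP _ (Or.inr h1) k2,
        hP _ (Le.trans (Or.inr h1) k2) Le.rfl⟩, k1.2⟩

/-- the labels and hash functions do not resolve the set `S` -/
def HBad {M u k : ℕ} (lam : Fin n → Fin M) (phi : Fin u → Fin M → Fin k) (S : Finset (Fin n)) :
    Prop :=
  (∃ z ∈ S, ∃ z' ∈ S, z ≠ z' ∧ lam z = lam z') ∨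
    ∃ a : Fin M, ∀ i, ∃ z ∈ S, lam z ≠ a ∧ phi i (lam z) = phi i a

/-- below a bad vertex -/
def InD (G : SimpleGraph (Fin n)) (Bad : Finset (Fin n) → Prop) (a : Fin n) : Prop :=
  ∃ y, Bad (dn G y) ∧ Le G a y

/-- the graph on the vertices below bad vertices -/
def restr (G : SimpleGraph (Fin n)) (Bad : Finset (Fin n) → Prop) : SimpleGraph (Fin n) where
  Adj a b := G.Adj a b ∧ InD G Bad a ∧ InD G Bad b
  symm := ⟨fun _ _ h => ⟨h.1.symm, h.2.2, h.2.1⟩⟩
  loopless := ⟨fun _ h => G.irrefl h.1⟩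

/-- an induced chain of bad down-sets -/
def Ind (G : SimpleGraph (Fin n)) (Bad : Finset (Fin n) → Prop) (L : ℕ) : Prop :=
  ∃ y : ℕ → Fin n, (∀ i ≤ L, Bad (dn G (y i))) ∧
    (∀ i < L, ¬ Disjoint (dn G (y i)) (dn G (y (i + 1)))) ∧
    ∀ i l, i + 2 ≤ l → l ≤ L → Disjoint (dn G (y i)) (dn G (y l))

/-- a bad vertex with two marked points below it -/
def Bd (Bad : Finset (Fin n) → Prop) (y z z' : Fin n) (ω : Finset (Sym2 (Fin n))) : Prop :=
  Bad (dn (gr ω) y) ∧ Le (gr ω) z y ∧ Le (gr ω) z' y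

/-- two different points with edge-disjoint increasing paths to a common point -/
def Lk (z z' : Fin n) (ω : Finset (Sym2 (Fin n))) : Prop :=
  z ≠ z' ∧ ∃ w, Box (fun S => Le (gr S) z w) (fun S => Le (gr S) z' w) ω

/-- chains of bad down-sets with disjoint witnesses -/
def Chain (Bad : Finset (Fin n) → Prop) : ℕ → Fin n → Finset (Sym2 (Fin n)) → Prop
  | 0, _, _ => True
  | j + 1, z, ω => ∃ y z' z'', Box (Bd Bad y z z') (Box (Lk z' z'') (Chain Bad j z'')) ω

open Classical in
/-- the points below the height `t` that lie above a point of `S` -/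
noncomputable def ups (G : SimpleGraph (Fin n)) (S : Finset (Fin n)) (t : ℕ) : Finset (Fin n) :=
  univ.filter fun v => v.val < t ∧ ∃ a ∈ S, Le G a v

lemma mem_ups {G : SimpleGraph (Fin n)} {S : Finset (Fin n)} {t : ℕ} {v : Fin n} :
    v ∈ ups G S t ↔ v.val < t ∧ ∃ a ∈ S, Le G a v := by simp [ups]

/-- a point below `a` with a neighbour in each of `m` blocks of length `b` above `a` -/
def Star (G : SimpleGraph (Fin n)) (a b m : ℕ) (v : Fin n) : Prop :=
  v.val < a ∧ ∀ j < m, ∃ w : Fin n, a + j * b ≤ w.val ∧ w.val < a + (j + 1) * b ∧ G.Adj v w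

open Classical in
/-- the set of stars -/
noncomputable def stars (G : SimpleGraph (Fin n)) (a b m : ℕ) : Finset (Fin n) :=
  univ.filter (Star G a b m)

lemma mem_stars {G : SimpleGraph (Fin n)} {a b m : ℕ} {v : Fin n} :
    v ∈ stars G a b m ↔ Star G a b m v := by simp [stars]

/-- the mirror image of a graph -/
def rev (G : SimpleGraph (Fin n)) : SimpleGraph (Fin n) := G.comap Fin.rev

open Classical in
/-- number of comparable pairs -/
noncomputable def cmp (G : SimpleGraph (Fin n)) : ℕ :=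
  ((univ : Finset (Fin n × Fin n)).filter fun q => Below G q.1 q.2).card

end Pool.Agent.Lib.MP_b735d7_co
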