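import Pool.Agent.Lib.MP_b735d7_co.GDef

/-!
More edges than vertices give a bicyclic path.
-/

namespace Pool.Agent.Lib.MP_b735d7_co

open Finset Pool.Agent.Lib.MP_58a483_pr.H80

lemma GDense_other {V : Type} {G : SimpleGraph V} {W : Finset V} {F : Finset (Sym2 V)}
    (hF : ∀ e ∈ F, e ∈ G.edgeSet ∧ ∀ x ∈ e, x ∈ W) {x : V} {e : Sym2 V} (he : e ∈ F)
    (hx : x ∈ e) : ∃ a ∈ W, G.Adj x a ∧ e = s(x, a) := by
  obtain ⟨a, rfl⟩ := Sym2.mem_iff_exists.1 hx
  exact ⟨a, (hF _ he).2 a (Sym2.mem_mk_right _ _), (hF _ he).1, rfl⟩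

lemma GDense_le {V : Type} [DecidableEq V] (G : SimpleGraph V) (hG : ∀ e, ¬ Bicyc G e) :
    ∀ (k : ℕ) (W : Finset V) (F : Finset (Sym2 V)), W.card = k →
      (∀ e ∈ F, e ∈ G.edgeSet ∧ ∀ x ∈ e, x ∈ W) → F.card ≤ W.card := by
  intro k
  induction k using Nat.strong_induction_on with
  | _ k ih =>
  intro W F hk hF
  by_cases h : ∃ x ∈ W, (F.filter fun e => x ∈ e).card ≤ 1
  · obtain ⟨x, hx, h1⟩ := h
    have hpos : 0 < W.card := card_pos.2 ⟨x, hx⟩
    have hc : (W.erase x).card = W.card - 1 := card_erase_of_mem hx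
    have h2 := ih (W.erase x).card (by omega) (W.erase x) (F.filter fun e => ¬ x ∈ e) rfl (by
      intro e he
      obtain ⟨he1, he2⟩ := mem_filter.1 he
      refine ⟨(hF e he1).1, fun y hy => mem_erase.2 ⟨?_, (hF e he1).2 y hy⟩⟩
      rintro rfl
      exact he2 hy)
    have h3 := card_filter_add_card_filter_not (s := F) (fun e => x ∈ e)
    omega
  · have h' : ∀ x ∈ W, 1 < (F.filter fun e => x ∈ e).card := by
      intro x hx
      by_contra k1
      exact h ⟨x, hx, by omega⟩
    have hmd : MD G W := by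
      intro x hx
      obtain ⟨e, he, f, hf, hef⟩ := one_lt_card.1 (h' x hx)
      obtain ⟨a, ha, k1, rfl⟩ := GDense_other hF (mem_filter.1 he).1 (mem_filter.1 he).2
      obtain ⟨b, hb, k2, rfl⟩ := GDense_other hF (mem_filter.1 hf).1 (mem_filter.1 hf).2
      refine ⟨a, ha, b, hb, ?_, k1, k2⟩
      rintro rfl
      exact hef rfl
    have hH : H1 G W.card := h1_of_nobic fun e _ => hG e
    have key := card_mul_le_card_mul (s := F) (t := W) (m := 2) (n := 2)
      (fun (e : Sym2 V) (x : V) => x ∈ e) (by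
        intro e he
        induction e using Sym2.ind with
        | _ a b =>
        have hab : a ≠ b := G.ne_of_adj (hF _ he).1
        refine one_lt_card.2 ⟨a, ?_, b, ?_, hab⟩
        · exact mem_bipartiteAbove _ |>.2
            ⟨(hF _ he).2 a (Sym2.mem_mk_left _ _), Sym2.mem_mk_left _ _⟩
        · exact mem_bipartiteAbove _ |>.2
            ⟨(hF _ he).2 b (Sym2.mem_mk_right _ _), Sym2.mem_mk_right _ _⟩) (by
        intro x hx
        by_contra k1
        obtain ⟨e, f, g, he, hf, hg, k2, k3, k4⟩ := two_lt_card_iff.1 (not_le.1 k1)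
        rw [mem_bipartiteBelow] at he hf hg
        obtain ⟨a, ha, l1, rfl⟩ := GDense_other hF he.1 he.2
        obtain ⟨b, hb, l2, rfl⟩ := GDense_other hF hf.1 hf.2
        obtain ⟨c, hc, l3, rfl⟩ := GDense_other hF hg.1 hg.2
        have hab : a ≠ b := by
          rintro rfl
          exact k2 rfl
        rcases hH W le_rfl hmd x hx a ha b hb c hc l1 l2 l3 hab with rfl | rfl
        · exact k3 rfl
        · exact k4 rfl)
    omega

theorem bic_of_dense {V : Type} [DecidableEq V] (G : SimpleGraph V) (W : Finset V)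
    (F : Finset (Sym2 V)) (hF : ∀ e ∈ F, e ∈ G.edgeSet ∧ ∀ x ∈ e, x ∈ W) (hc : W.card < F.card) :
    ∃ e, Bicyc G e := by
  by_contra h
  have := GDense_le G (fun e he => h ⟨e, he⟩) W.card W F rfl hF
  omega

end Pool.Agent.Lib.MP_b735d7_co
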