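import Pool.Agent.Lib.MP_b735d7_co.GDef

/-!
Sets of stars expand.
-/

namespace Pool.Agent.Lib.MP_b735d7_co

open Finset Pool.Agent.Lib.MP_58a483_pr.H80

/-- admissible choices of one point in each block for each point of `S` -/
def LExp_ok {n : ℕ} (a b m : ℕ) (S : Finset (Fin n)) (g : S × Fin m → Fin n) : Prop :=
  ∀ q : S × Fin m, q.1.1.val < a ∧ a + q.2.val * b ≤ (g q).val ∧
    (g q).val < a + (q.2.val + 1) * b

/-- the edges from the points of `S` to the chosen points -/
def LExp_ed {n : ℕ} (m : ℕ) (S : Finset (Fin n)) (g : S × Fin m → Fin n) :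
    Finset (Sym2 (Fin n)) :=
  (univ : Finset (S × Fin m)).image fun q => s(q.1.1, g q)

lemma LExp_blk {a b j k x : ℕ} (h1 : a + j * b ≤ x) (h2 : x < a + (j + 1) * b)
    (h3 : a + k * b ≤ x) (h4 : x < a + (k + 1) * b) : j = k := by
  rcases lt_trichotomy j k with h | h | h
  · have := Nat.mul_le_mul_right b (Nat.succ_le_of_lt h)
    simp only [Nat.succ_eq_add_one] at this
    omega
  · exact h
  · have := Nat.mul_le_mul_right b (Nat.succ_le_of_lt h)
    simp only [Nat.succ_eq_add_one] at this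
    omega

lemma LExp_card {n a b m : ℕ} {S : Finset (Fin n)} {g : S × Fin m → Fin n}
    (h : LExp_ok a b m S g) : (LExp_ed m S g).card = m * S.card := by
  unfold LExp_ed
  rw [card_image_of_injective, card_univ, Fintype.card_prod, Fintype.card_coe, Fintype.card_fin,
    mul_comm]
  intro q q' e
  obtain ⟨h1, h2, h3⟩ := h q
  obtain ⟨k1, k2, k3⟩ := h q'
  rcases Sym2.eq_iff.1 e with ⟨x, y⟩ | ⟨x, -⟩
  · rw [y] at h2 h3
    exact Prod.ext (Subtype.ext x) (Fin.ext (LExp_blk h2 h3 k2 k3))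
  · rw [x] at h1
    omega

lemma LExp_sub {n a b m : ℕ} {S : Finset (Fin n)} {g : S × Fin m → Fin n}
    (h : LExp_ok a b m S g) : LExp_ed m S g ⊆ EE n := by
  intro e he
  obtain ⟨q, -, rfl⟩ := mem_image.1 he
  obtain ⟨h1, h2, -⟩ := h q
  refine mem_EE.2 fun k => ?_
  rw [k] at h1
  omega

theorem pr_exp {n a b m s N : ℕ} {p : ℝ} (h0 : 0 ≤ p) (h1 : p ≤ 1) (hN : N ≤ n) :
    Pr n p (fun G => ∃ S ⊆ stars G a b m, S.card = s ∧ (ups G S (a + m * b)).card < N) ≤
      (n.choose s : ℝ) * (n.choose N) * (N * p) ^ (m * s) := by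
  have step : ∀ ω : Finset (Sym2 (Fin n)),
      ind (∃ S ⊆ stars (gr ω) a b m, S.card = s ∧ (ups (gr ω) S (a + m * b)).card < N) ≤
      ∑ S ∈ powersetCard s (univ : Finset (Fin n)), ∑ Y ∈ powersetCard N (univ : Finset (Fin n)),
        ∑ g ∈ Fintype.piFinset (fun _ : S × Fin m => Y),
          ind (LExp_ok a b m S g ∧ LExp_ed m S g ⊆ ω) := by
    intro ω
    refine le_trans (ind_mono (Q := ∃ S ∈ powersetCard s (univ : Finset (Fin n)),
      ∃ Y ∈ powersetCard N (univ : Finset (Fin n)),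
        ∃ g ∈ Fintype.piFinset (fun _ : S × Fin m => Y),
          LExp_ok a b m S g ∧ LExp_ed m S g ⊆ ω) ?_) ?_
    · rintro ⟨S, hS, hc, hu⟩
      obtain ⟨Y, hY, hYc⟩ := exists_superset_card_eq hu.le (by simpa using hN)
      have hst : ∀ q : S × Fin m, ∃ w : Fin n, a + q.2.val * b ≤ w.val ∧
          w.val < a + (q.2.val + 1) * b ∧ (gr ω).Adj q.1.1 w :=
        fun q => (mem_stars.1 (hS q.1.2)).2 q.2.val q.2.2
      have hlt : ∀ q : S × Fin m, q.1.1.val < a := fun q => (mem_stars.1 (hS q.1.2)).1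
      choose g g1 g2 g3 using hst
      refine ⟨S, mem_powersetCard.2 ⟨subset_univ _, hc⟩, Y, mem_powersetCard.2 ⟨subset_univ _, hYc⟩,
        g, Fintype.mem_piFinset.2 fun q => hY (mem_ups.2 ⟨?_, q.1.1, q.1.2, le_of_adj ?_ (g3 q)⟩),
        fun q => ⟨hlt q, g1 q, g2 q⟩, fun e he => ?_⟩
      · have k1 := Nat.mul_le_mul_right b (Nat.succ_le_of_lt q.2.2)
        have k2 := g2 q
        simp only [Nat.succ_eq_add_one] at k1
        omega
      · have k1 := hlt q
        have k2 := g1 q
        exact Fin.lt_def.2 (by omega)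
      · obtain ⟨q, -, rfl⟩ := mem_image.1 he
        exact (gr_adj.1 (g3 q)).1
    · refine (ind_exists_le _ _).trans (sum_le_sum fun S _ => ?_)
      refine (ind_exists_le _ _).trans (sum_le_sum fun Y _ => ?_)
      exact ind_exists_le _ _
  have one : ∀ (S : Finset (Fin n)) (g : S × Fin m → Fin n),
      Ex (EE n) p (fun ω => ind (LExp_ok a b m S g ∧ LExp_ed m S g ⊆ ω)) ≤ p ^ (m * S.card) := by
    intro S g
    by_cases hk : LExp_ok a b m S g
    · rw [← LExp_card hk, ← Ex_sup (LExp_sub hk)]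
      exact Ex_mono h0 h1 fun _ _ => ind_mono fun k => k.2
    · refine le_trans (Ex_mono h0 h1 (g := fun _ => 0) fun _ _ => ?_) ?_
      · exact (ind_neg fun k => hk k.1).le
      · rw [Ex_const]; positivity
  unfold Pr
  refine (Ex_mono h0 h1 fun ω _ => step ω).trans ?_
  simp only [Ex_sum]
  calc _ ≤ ∑ S ∈ powersetCard s (univ : Finset (Fin n)),
        ∑ Y ∈ powersetCard N (univ : Finset (Fin n)), ((N : ℝ) * p) ^ (m * s) := by
        refine sum_le_sum fun S hS => sum_le_sum fun Y hY => ?_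
        refine (sum_le_sum fun g _ => one S g).trans ?_
        rw [sum_const, Fintype.card_piFinset, prod_const, card_univ, (mem_powersetCard.1 hY).2,
          Fintype.card_prod,
          Fintype.card_coe, Fintype.card_fin, (mem_powersetCard.1 hS).2, nsmul_eq_mul, mul_pow,
          mul_comm s m]
        push_cast
        exact le_rfl
    _ = _ := by
        simp only [sum_const, card_powersetCard, card_univ, Fintype.card_fin, nsmul_eq_mul]
        ring

end Pool.Agent.Lib.MP_b735d7_co
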