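import Pool.Agent.Lib.MP_b735d7_co.GDef

/-!
Staircases of reversed pairs.
-/

namespace Pool.Agent.Lib.MP_b735d7_co

open Finset Pool.Agent.Lib.MP_58a483_pr.H80

open Classical in
lemma lstair_one {n s : ℕ} (hs : 0 < s) (G : SimpleGraph (Fin n)) (A B : Finset (Fin n))
    (h : ∀ S ⊆ A, ∀ T ⊆ B, S.card = s → T.card = s → ∃ a ∈ S, ∃ b ∈ T, Below G a b)
    (L : LinearOrder (Fin n))
    (hL : ∀ a b, @Below (Fin n) Fin.instLinearOrder G a b → L.lt a b) :
    ((A ×ˢ B).filter fun q => ¬ L.lt q.1 q.2).card ≤ 2 * s * n := by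
  have hn : ∀ X : Finset (Fin n), X.card ≤ n := fun X => by
    simpa using card_le_univ X
  set f : Fin n → ℕ := fun a => (B.filter fun b => ¬ L.lt a b).card with hf
  have h1 : (A.filter fun a => s ≤ f a).card ≤ s := by
    by_contra hc
    obtain ⟨S, hS, hSc⟩ := exists_subset_card_eq (le_of_lt (not_le.1 hc))
    have hne : S.Nonempty := card_pos.1 (by omega)
    obtain ⟨a0, ha0, hmin⟩ := @Finset.exists_min_image (Fin n) (Fin n) L S id hne
    obtain ⟨T, hT, hTc⟩ := exists_subset_card_eq (mem_filter.1 (hS ha0)).2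
    obtain ⟨a, ha, b, hb, hab⟩ := h S (hS.trans (filter_subset _ _)) T
      (hT.trans (filter_subset _ _)) hSc hTc
    exact (mem_filter.1 (hT hb)).2
      (@lt_of_le_of_lt (Fin n) L.toPreorder a0 a b (hmin a ha) (hL a b hab))
  have h2 : ((A ×ˢ B).filter fun q => ¬ L.lt q.1 q.2).card = ∑ a ∈ A, f a := by
    rw [card_filter, sum_product]
    refine sum_congr rfl fun a _ => ?_
    simp only [hf]
    rw [card_filter]
  rw [h2, ← sum_filter_add_sum_filter_not A (fun a => s ≤ f a)]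
  have h3 : ∑ a ∈ A.filter (fun a => s ≤ f a), f a ≤ s * n :=
    (sum_le_card_nsmul _ _ n fun a _ => hn _).trans (by
      rw [smul_eq_mul]; exact Nat.mul_le_mul_right _ h1)
  have h4 : ∑ a ∈ A.filter (fun a => ¬ s ≤ f a), f a ≤ n * s :=
    (sum_le_card_nsmul _ _ s fun a ha => le_of_lt (not_le.1 (mem_filter.1 ha).2)).trans (by
      rw [smul_eq_mul]; exact Nat.mul_le_mul_right _ (hn _))
  calc _ ≤ s * n + n * s := Nat.add_le_add h3 h4
    _ = 2 * s * n := by ring

theorem stair {n s : ℕ} (hs : 0 < s) (G : SimpleGraph (Fin n)) (A B : Finset (Fin n))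
    (h : ∀ S ⊆ A, ∀ T ⊆ B, S.card = s → T.card = s → ∃ a ∈ S, ∃ b ∈ T, Below G a b) :
    A.card * B.card ≤ cmp G + orderDim G * (2 * s * n) := by
  classical
  have hR : Realized G (orderDim G) := Nat.sInf_mem (exists_realized G)
  obtain ⟨L, hL⟩ := hR
  have hsub : A ×ˢ B ⊆ ((univ : Finset (Fin n × Fin n)).filter fun q => Below G q.1 q.2) ∪
      (univ : Finset (Fin (orderDim G))).biUnion fun k =>
        (A ×ˢ B).filter fun q => ¬ (L k).lt q.1 q.2 := by
    intro q hq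
    by_cases hb : Below G q.1 q.2
    · exact mem_union_left _ (mem_filter.2 ⟨mem_univ _, hb⟩)
    · obtain ⟨k, hk⟩ := not_forall.1 (fun hh => hb ((hL q.1 q.2).2 hh))
      exact mem_union_right _ (mem_biUnion.2 ⟨k, mem_univ _, mem_filter.2 ⟨hq, hk⟩⟩)
  rw [← card_product]
  refine (card_le_card hsub).trans ((card_union_le _ _).trans (Nat.add_le_add ?_ ?_))
  · unfold cmp
    exact le_of_eq (by congr)
  · refine card_biUnion_le.trans ((sum_le_card_nsmul _ _ (2 * s * n) fun k _ => ?_).trans ?_)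
    · have := lstair_one hs G A B h (L k) fun a b hab => (hL a b).1 hab k
      exact le_trans (le_of_eq (by congr)) this
    · simp

theorem pr_cmp {n : ℕ} {p x : ℝ} (h0 : 0 ≤ p) (h1 : p ≤ 1) (hx : 0 < x) :
    Pr n p (fun G => x ≤ (cmp G : ℝ)) ≤ (n : ℝ) ^ 2 * (p * (1 + p) ^ n) / x := by
  classical
  have e1 : ∀ G : SimpleGraph (Fin n),
      (cmp G : ℝ) = ∑ q : Fin n × Fin n, ind (Below G q.1 q.2) := fun G => by
    rw [sum_ind_eq_card]
    unfold cmp
    congr
  have e2 : Pr n p (fun G => x ≤ (cmp G : ℝ)) ≤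
      Ex (EE n) p fun ω => (∑ q : Fin n × Fin n, ind (Below (gr ω) q.1 q.2)) * x⁻¹ := by
    refine Ex_mono h0 h1 fun ω _ => ?_
    rw [← e1]
    refine ind_le_of (mul_nonneg (Nat.cast_nonneg _) (inv_nonneg.2 hx.le)) fun hh => ?_
    rw [← div_eq_mul_inv, le_div_iff₀ hx, one_mul]
    exact hh
  refine e2.trans ?_
  rw [Ex_mul_right, Ex_sum, div_eq_mul_inv]
  refine mul_le_mul_of_nonneg_right ?_ (inv_nonneg.2 hx.le)
  refine (sum_le_card_nsmul _ _ (p * (1 + p) ^ n) fun q _ => pr_below h0 h1 q.1 q.2).trans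
    (le_of_eq ?_)
  simp only [card_univ, Fintype.card_prod, Fintype.card_fin, nsmul_eq_mul]
  push_cast
  ring

end Pool.Agent.Lib.MP_b735d7_co
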