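import Pool.Agent.Lib.MP_b735d7_co.GDef

/-!
There are many stars.
-/

namespace Pool.Agent.Lib.MP_b735d7_co

open Finset Pool.Agent.Lib.MP_58a483_pr.H80

/-- the points with value in `[lo, hi)` -/
def LStarBlk (n lo hi : ℕ) : Finset (Fin n) := univ.filter fun w => lo ≤ w.val ∧ w.val < hi

lemma LStar_mem {n lo hi : ℕ} {w : Fin n} : w ∈ LStarBlk n lo hi ↔ lo ≤ w.val ∧ w.val < hi := by
  simp [LStarBlk]

lemma LStar_card {n lo hi : ℕ} (h : hi ≤ n) : (LStarBlk n lo hi).card = hi - lo := by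
  rw [← Nat.card_Ico lo hi, ← card_map Fin.valEmbedding]
  congr 1
  ext x
  simp only [mem_map, LStar_mem, Fin.valEmbedding_apply, mem_Ico]
  constructor
  · rintro ⟨w, hw, rfl⟩
    exact hw
  · intro hx
    exact ⟨⟨x, by omega⟩, hx, rfl⟩

/-- all edges between two sets of points -/
def LStarEd {n : ℕ} (W B : Finset (Fin n)) : Finset (Sym2 (Fin n)) :=
  (W ×ˢ B).image fun q => s(q.1, q.2)

lemma LStar_edcard {n a : ℕ} {W B : Finset (Fin n)} (hW : ∀ v ∈ W, v.val < a)
    (hB : ∀ w ∈ B, a ≤ w.val) : (LStarEd W B).card = W.card * B.card := by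
  unfold LStarEd
  rw [card_image_of_injOn, card_product]
  intro q hq q' hq' e
  have k := mem_product.1 (mem_coe.1 hq)
  have k' := mem_product.1 (mem_coe.1 hq')
  rcases Sym2.eq_iff.1 e with ⟨e1, e2⟩ | ⟨e1, e2⟩
  · exact Prod.ext e1 e2
  · have h1 := hW _ k.1
    have h2 := hB _ k'.2
    rw [e1] at h1
    omega

lemma LStar_edsub {n a : ℕ} {W B : Finset (Fin n)} (hW : ∀ v ∈ W, v.val < a)
    (hB : ∀ w ∈ B, a ≤ w.val) : LStarEd W B ⊆ EE n := by
  intro e he
  obtain ⟨q, hq, rfl⟩ := mem_image.1 he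
  have k := mem_product.1 hq
  refine mem_EE.2 fun e1 => ?_
  have h1 := hW _ k.1
  have h2 := hB _ k.2
  rw [e1] at h1
  omega

lemma LStar_pigeon {n a b m r : ℕ} (hn : a + m * b ≤ n) (ω : Finset (Sym2 (Fin n)))
    (h : (stars (gr ω) a b m).card + m * r < a) :
    ∃ q ∈ range m ×ˢ powersetCard r (LStarBlk n 0 a),
      Disjoint (LStarEd q.2 (LStarBlk n (a + q.1 * b) (a + (q.1 + 1) * b))) ω := by
  classical
  let miss : ℕ → Finset (Fin n) := fun j => (LStarBlk n 0 a).filter fun v =>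
    ∀ w ∈ LStarBlk n (a + j * b) (a + (j + 1) * b), ¬ (gr ω).Adj v w
  have h1 : LStarBlk n 0 a ⊆ stars (gr ω) a b m ∪ (range m).biUnion miss := by
    intro v hv
    by_cases hs : v ∈ stars (gr ω) a b m
    · exact mem_union_left _ hs
    · refine mem_union_right _ ?_
      rw [mem_stars] at hs
      unfold Star at hs
      push Not at hs
      obtain ⟨j, hj, k⟩ := hs (LStar_mem.1 hv).2
      refine mem_biUnion.2 ⟨j, mem_range.2 hj, mem_filter.2 ⟨hv, fun w hw => ?_⟩⟩
      exact k w (LStar_mem.1 hw).1 (LStar_mem.1 hw).2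
  have h2 : ∃ j ∈ range m, r ≤ (miss j).card := by
    by_contra hc
    push Not at hc
    have k1 := card_le_card h1
    rw [LStar_card (by omega)] at k1
    have k2 := card_union_le (stars (gr ω) a b m) ((range m).biUnion miss)
    have k3 : ((range m).biUnion miss).card ≤ (range m).card * r :=
      card_biUnion_le_card_mul _ _ _ fun j hj => (hc j hj).le
    rw [card_range] at k3
    omega
  obtain ⟨j, hj, k⟩ := h2
  obtain ⟨W, hW, hc⟩ := exists_subset_card_eq k
  refine ⟨(j, W), mem_product.2 ⟨hj, mem_powersetCard.2 ⟨hW.trans (filter_subset _ _), hc⟩⟩, ?_⟩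
  rw [disjoint_left]
  intro e he heω
  obtain ⟨q, hq, rfl⟩ := mem_image.1 he
  have k1 := mem_product.1 hq
  have k2 := mem_filter.1 (hW k1.1)
  refine k2.2 q.2 k1.2 (gr_adj.2 ⟨heω, fun e1 => ?_⟩)
  have k3 := (LStar_mem.1 k2.1).2
  have k4 := (LStar_mem.1 k1.2).1
  rw [e1] at k3
  dsimp only at k4
  omega

theorem pr_star {n a b m r : ℕ} {p : ℝ} (h0 : 0 ≤ p) (h1 : p ≤ 1) (hn : a + m * b ≤ n) :
    Pr n p (fun G => (stars G a b m).card + m * r < a) ≤ m * 2 ^ n * (1 - p) ^ (r * b) := by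
  unfold Pr
  refine le_trans (Ex_mono h0 h1 fun ω _ =>
    (ind_mono (LStar_pigeon hn ω)).trans (ind_exists_le _ _)) ?_
  rw [Ex_sum]
  have h2 : ∀ q ∈ range m ×ˢ powersetCard r (LStarBlk n 0 a),
      Ex (EE n) p (fun ω => ind
        (Disjoint (LStarEd q.2 (LStarBlk n (a + q.1 * b) (a + (q.1 + 1) * b))) ω)) =
        (1 - p) ^ (r * b) := by
    intro q hq
    have k := mem_product.1 hq
    have k1 := mem_range.1 k.1
    have k2 := mem_powersetCard.1 k.2
    have hW : ∀ v ∈ q.2, v.val < a := fun v hv => (LStar_mem.1 (k2.1 hv)).2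
    have hB : ∀ w ∈ LStarBlk n (a + q.1 * b) (a + (q.1 + 1) * b), a ≤ w.val := fun w hw =>
      le_trans (Nat.le_add_right _ _) (LStar_mem.1 hw).1
    have k3 : (q.1 + 1) * b ≤ m * b := Nat.mul_le_mul_right b k1
    rw [Ex_disj (LStar_edsub hW hB), LStar_edcard hW hB, k2.2, LStar_card (by omega)]
    congr 2
    rw [Nat.add_mul]
    omega
  rw [sum_congr rfl h2, sum_const, nsmul_eq_mul, card_product, card_range]
  refine mul_le_mul_of_nonneg_right ?_ (pow_nonneg (by linarith) _)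
  have h3 : (powersetCard r (LStarBlk n 0 a)).card ≤ 2 ^ n := by
    have k : powersetCard r (LStarBlk n 0 a) ⊆ (univ : Finset (Fin n)).powerset :=
      fun W _ => mem_powerset.2 (subset_univ W)
    have k1 := card_le_card k
    rwa [card_powerset, card_univ, Fintype.card_fin] at k1
  exact_mod_cast Nat.mul_le_mul_left m h3

end Pool.Agent.Lib.MP_b735d7_co
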