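import Pool.Agent.Lib.MP_b735d7_co.GDef

/-!
Lower tail of the growth of an up-set.
-/

namespace Pool.Agent.Lib.MP_b735d7_co

open Finset Pool.Agent.Lib.MP_58a483_pr.H80

/-- the potential -/
noncomputable def LYuleH (N M x : ℕ) : ℝ :=
  if x < M then 1 / (x.descFactorial N : ℝ) else 0

lemma LYuleH_nonneg (N M x : ℕ) : 0 ≤ LYuleH N M x := by
  unfold LYuleH
  split_ifs
  · positivity
  · exact le_refl _

lemma LYuleH_le (N M x : ℕ) : LYuleH N M x ≤ 1 / (x.descFactorial N : ℝ) := by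
  unfold LYuleH
  split_ifs
  · exact le_refl _
  · positivity

lemma LYule_num {N M x : ℕ} {q θ : ℝ} (hq : 0 ≤ q) (hx : N ≤ x)
    (hθ : x < M → θ * (x + 1) ≤ N * q) :
    (1 - q) * LYuleH N M x + q * LYuleH N M (x + 1) ≤ (1 - θ) * LYuleH N M x := by
  by_cases hM : x < M
  · have e1 : LYuleH N M x = 1 / (x.descFactorial N : ℝ) := by simp [LYuleH, hM]
    have e2 := LYuleH_le N M (x + 1)
    have d1 : (0 : ℝ) < (x.descFactorial N : ℝ) := by
      exact_mod_cast Nat.descFactorial_pos.2 hx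
    have d2 : (0 : ℝ) < ((x + 1).descFactorial N : ℝ) := by
      exact_mod_cast Nat.descFactorial_pos.2 (by omega)
    have e3 : ((x : ℝ) + 1 - N) * ((x + 1).descFactorial N : ℝ) =
        ((x : ℝ) + 1) * (x.descFactorial N : ℝ) := by
      have h := Nat.succ_descFactorial x N
      have h' : ((x + 1 - N : ℕ) : ℝ) = (x : ℝ) + 1 - N := by
        rw [Nat.cast_sub (by omega)]; push_cast; ring
      rw [← h']
      exact_mod_cast h
    have x1 : (0 : ℝ) < (x : ℝ) + 1 := by positivity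
    have e4 : 1 / ((x + 1).descFactorial N : ℝ) =
        (1 - N / ((x : ℝ) + 1)) * (1 / (x.descFactorial N : ℝ)) := by
      field_simp
      linarith
    have e5 : θ ≤ N / ((x : ℝ) + 1) * q := by
      rw [div_mul_eq_mul_div, le_div_iff₀ x1]
      exact hθ hM
    rw [e4] at e2
    rw [e1]
    have e6 := mul_le_mul_of_nonneg_left e2 hq
    have e7 := mul_le_mul_of_nonneg_right e5 (show 0 ≤ 1 / (x.descFactorial N : ℝ) by positivity)
    nlinarith
  · have e1 : LYuleH N M x = 0 := by simp [LYuleH, hM]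
    have e2 : LYuleH N M (x + 1) = 0 := by
      have : ¬ x + 1 < M := by omega
      simp [LYuleH, this]
    rw [e1, e2]; simp

variable {n : ℕ}

lemma LYule_mono (G : SimpleGraph (Fin n)) (S : Finset (Fin n)) {s t : ℕ} (h : s ≤ t) :
    ups G S s ⊆ ups G S t := fun _ hv =>
  mem_ups.2 ⟨lt_of_lt_of_le (mem_ups.1 hv).1 h, (mem_ups.1 hv).2⟩

lemma LYule_cut (ω : Finset (Sym2 (Fin n))) (S : Finset (Fin n)) (v : Fin n) {s : ℕ}
    (hs : s ≤ v.val) : ups (gr (ω \ etaS v univ)) S s = ups (gr ω) S s := by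
  ext u
  simp only [mem_ups]
  refine ⟨fun ⟨h, a, ha, k⟩ => ⟨h, a, ha, k.mono (gr_mono sdiff_subset)⟩,
    fun ⟨h, a, ha, k⟩ => ⟨h, a, ha, ?_⟩⟩
  have k1 := le_ins (P := fun x => x ≠ v) k fun w _ hw e => by
    have := hw.le
    rw [e, Fin.le_def] at this
    omega
  refine k1.mono (gr_mono fun e he => mem_sdiff.2 ⟨ins_sub _ _ he, fun hr => ?_⟩)
  obtain ⟨y, -, rfl⟩ := mem_image.1 hr
  exact (mem_ins.1 he).2.2.1 rfl

lemma LYule_notMem (G : SimpleGraph (Fin n)) (S : Finset (Fin n)) (v : Fin n) :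
    v ∉ ups G S v.val := fun h => lt_irrefl _ (mem_ups.1 h).1

lemma LYule_same {ω : Finset (Sym2 (Fin n))} {S : Finset (Fin n)} {v : Fin n}
    (hS : ∀ a ∈ S, a.val < v.val) (hd : Disjoint (etaS v (ups (gr ω) S v.val)) ω) :
    ups (gr ω) S (v.val + 1) = ups (gr ω) S v.val := by
  refine Subset.antisymm (fun u hu => ?_) (LYule_mono _ _ (by omega))
  obtain ⟨h, a, ha, k⟩ := mem_ups.1 hu
  by_cases h1 : u.val < v.val
  · exact mem_ups.2 ⟨h1, a, ha, k⟩
  · exfalso
    have e : u = v := Fin.ext (by omega)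
    subst e
    rcases k with k | k
    · have := hS a ha
      rw [k] at this
      exact lt_irrefl _ this
    · obtain ⟨w, w1, w2, w3⟩ := below_last k
      have w4 := gr_adj.1 w3.symm
      exact disjoint_left.1 hd (mem_image.2 ⟨w, mem_erase.2
        ⟨w4.2.symm, mem_ups.2 ⟨w2, a, ha, w1⟩⟩, rfl⟩) w4.1

lemma LYule_new {ω : Finset (Sym2 (Fin n))} {S : Finset (Fin n)} {v : Fin n}
    (hd : ¬ Disjoint (etaS v (ups (gr ω) S v.val)) ω) :
    ups (gr ω) S (v.val + 1) = insert v (ups (gr ω) S v.val) := by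
  obtain ⟨e, he, hω⟩ := not_disjoint_iff.1 hd
  obtain ⟨w, hw, rfl⟩ := mem_image.1 he
  obtain ⟨w1, w2⟩ := mem_erase.1 hw
  obtain ⟨w3, a, ha, k⟩ := mem_ups.1 w2
  refine Subset.antisymm (fun u hu => ?_) (insert_subset ?_ (LYule_mono _ _ (by omega)))
  · obtain ⟨h, k'⟩ := mem_ups.1 hu
    by_cases h1 : u.val < v.val
    · exact mem_insert_of_mem (mem_ups.2 ⟨h1, k'⟩)
    · exact mem_insert.2 (Or.inl (Fin.ext (by omega)))
  · exact mem_ups.2 ⟨by omega, a, ha,
      k.trans (le_of_adj w3 (gr_adj.2 ⟨hω, w1.symm⟩).symm)⟩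

lemma LYule_card {v : Fin n} {U : Finset (Fin n)} (h : v ∉ U) : (etaS v U).card = U.card := by
  unfold etaS
  rw [erase_eq_of_notMem h]
  exact card_image_of_injective _ fun a b e => Sym2.congr_right.1 e

lemma LYule_sub (v : Fin n) (U : Finset (Fin n)) : etaS v U ⊆ etaS v univ :=
  image_subset_image (erase_subset_erase _ (subset_univ _))

lemma LYule_EE (v : Fin n) (U : Finset (Fin n)) : etaS v U ⊆ EE n := fun e he => by
  obtain ⟨y, hy, rfl⟩ := mem_image.1 he
  exact mem_EE.2 (mem_erase.1 hy).1.symm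

lemma LYule_disj (v : Fin n) (U : Finset (Fin n)) (ω : Finset (Sym2 (Fin n))) :
    Disjoint (etaS v U) (ω ∩ etaS v univ) ↔ Disjoint (etaS v U) ω :=
  ⟨fun h => disjoint_left.2 fun _ he hω =>
      disjoint_left.1 h he (mem_inter.2 ⟨hω, LYule_sub v U he⟩),
    fun h => h.mono_right inter_subset_left⟩

/-- the potential of a configuration at the height `t` -/
noncomputable def LYuleP (N M t0 : ℕ) (S : Finset (Fin n)) (t : ℕ) (ω : Finset (Sym2 (Fin n))) :
    ℝ :=
  ind (N ≤ (ups (gr ω) S t0).card) * LYuleH N M (ups (gr ω) S t).card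

lemma LYule_step {N M t0 : ℕ} {p θ : ℝ} (h0 : 0 ≤ p) (h1 : p ≤ 1)
    (hθ : ∀ x : ℕ, N ≤ x → x < M → θ * (x + 1) ≤ N * (1 - (1 - p) ^ x))
    (S : Finset (Fin n)) (hS : ∀ a ∈ S, a.val < t0) (v : Fin n) (hv : t0 ≤ v.val) :
    Ex (EE n) p (LYuleP N M t0 S (v.val + 1)) ≤ (1 - θ) * Ex (EE n) p (LYuleP N M t0 S v.val) := by
  set R := etaS v univ with hR
  set F : Finset (Sym2 (Fin n)) → Finset (Sym2 (Fin n)) → ℝ := fun a b =>
    ind (N ≤ (ups (gr b) S t0).card) * (LYuleH N M ((ups (gr b) S v.val).card + 1) +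
      (LYuleH N M (ups (gr b) S v.val).card - LYuleH N M ((ups (gr b) S v.val).card + 1)) *
        ind (Disjoint (etaS v (ups (gr b) S v.val)) a)) with hF
  have s1 : Ex (EE n) p (LYuleP N M t0 S (v.val + 1)) =
      Ex (EE n) p (fun ω => F (ω ∩ R) (ω \ R)) := by
    refine Ex_congr fun ω _ => ?_
    simp only [hF, hR, LYuleP]
    rw [LYule_cut ω S v hv, LYule_cut ω S v (le_refl _), ind_congr (LYule_disj v _ ω)]
    congr 1
    by_cases hd : Disjoint (etaS v (ups (gr ω) S v.val)) ω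
    · rw [ind_pos hd, LYule_same (fun a ha => lt_of_lt_of_le (hS a ha) hv) hd]; ring
    · rw [ind_neg hd, LYule_new hd, card_insert_of_notMem (LYule_notMem _ _ _)]; ring
  rw [s1, eta_iter, ← Ex_mul_left]
  refine Ex_mono h0 h1 fun w _ => ?_
  simp only [hF, hR, LYuleP]
  rw [LYule_cut w S v hv, LYule_cut w S v (le_refl _), Ex_mul_left, Ex_add, Ex_const, Ex_mul_left,
    Ex_congr (g := fun ω => ind (Disjoint (etaS v (ups (gr w) S v.val)) ω))
      (fun ω _ => ind_congr (LYule_disj v _ ω)),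
    Ex_disj (LYule_EE v _), LYule_card (LYule_notMem _ _ _)]
  by_cases hN : N ≤ (ups (gr w) S t0).card
  · have hx : N ≤ (ups (gr w) S v.val).card := hN.trans (card_le_card (LYule_mono _ _ hv))
    have hq : 0 ≤ 1 - (1 - p) ^ (ups (gr w) S v.val).card :=
      sub_nonneg.2 (pow_le_one₀ (by linarith) (by linarith))
    have := LYule_num (M := M) (θ := θ) hq hx (hθ _ hx)
    rw [ind_pos hN]
    linarith
  · rw [ind_neg hN]; simp

theorem yule {n N M t0 t1 : ℕ} {p θ : ℝ} (h0 : 0 ≤ p) (h1 : p ≤ 1) (hθ1 : θ ≤ 1)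
    (hθ : ∀ x : ℕ, N ≤ x → x < M → θ * (x + 1) ≤ N * (1 - (1 - p) ^ x))
    (S : Finset (Fin n)) (hS : ∀ a ∈ S, a.val < t0) (h01 : t0 ≤ t1) (h1n : t1 ≤ n) :
    Pr n p (fun G => N ≤ (ups G S t0).card ∧ (ups G S t1).card < M) ≤
      (M : ℝ) ^ N / (N.factorial : ℝ) * (1 - θ) ^ (t1 - t0) := by
  have f0 : (0 : ℝ) < (N.factorial : ℝ) := by exact_mod_cast N.factorial_pos
  have key : ∀ d : ℕ, t0 + d ≤ n →
      Ex (EE n) p (LYuleP N M t0 S (t0 + d)) ≤ 1 / (N.factorial : ℝ) * (1 - θ) ^ d := by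
    intro d
    induction d with
    | zero =>
      intro _
      rw [pow_zero, mul_one, ← Ex_const (EE n) p (1 / (N.factorial : ℝ))]
      refine Ex_mono h0 h1 fun ω _ => ?_
      unfold LYuleP
      by_cases hN : N ≤ (ups (gr ω) S t0).card
      · rw [ind_pos hN, one_mul, add_zero]
        refine (LYuleH_le _ _ _).trans (one_div_le_one_div_of_le f0 ?_)
        rw [← Nat.descFactorial_self]
        exact_mod_cast Nat.descFactorial_le N hN
      · rw [ind_neg hN, zero_mul]; positivity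
    | succ d ih =>
      intro hd
      have s := LYule_step h0 h1 hθ S hS ⟨t0 + d, by omega⟩ (Nat.le_add_right _ _)
      refine le_trans s ?_
      refine (mul_le_mul_of_nonneg_left (ih (by omega)) (by linarith)).trans (le_of_eq ?_)
      ring
  have k := key (t1 - t0) (by omega)
  rw [show t0 + (t1 - t0) = t1 by omega] at k
  have s : Pr n p (fun G => N ≤ (ups G S t0).card ∧ (ups G S t1).card < M) ≤
      (M : ℝ) ^ N * Ex (EE n) p (LYuleP N M t0 S t1) := by
    rw [← Ex_mul_left]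
    refine Ex_mono h0 h1 fun ω _ => ind_le_of ?_ ?_
    · exact mul_nonneg (by positivity) (mul_nonneg (ind_nonneg _) (LYuleH_nonneg _ _ _))
    · rintro ⟨a, b⟩
      have hx : N ≤ (ups (gr ω) S t1).card := a.trans (card_le_card (LYule_mono _ _ h01))
      have d1 : (0 : ℝ) < ((ups (gr ω) S t1).card.descFactorial N : ℝ) := by
        exact_mod_cast Nat.descFactorial_pos.2 hx
      unfold LYuleP LYuleH
      rw [ind_pos a, if_pos b, one_mul, mul_one_div, le_div_iff₀ d1, one_mul]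
      exact_mod_cast (Nat.descFactorial_le_pow _ _).trans (Nat.pow_le_pow_left b.le N)
  refine s.trans ((mul_le_mul_of_nonneg_left k (by positivity)).trans (le_of_eq ?_))
  ring

end Pool.Agent.Lib.MP_b735d7_co
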