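import Pool.Agent.Lib.MP_b735d7_co.LCut
import Pool.Agent.Lib.MP_b735d7_co.LExp
import Pool.Agent.Lib.MP_b735d7_co.LStair
import Pool.Agent.Lib.MP_b735d7_co.LStar
import Pool.Agent.Lib.MP_b735d7_co.LYule

/-!
The exponential lower bound.
-/

namespace Pool.Agent.Lib.MP_b735d7_co

open Finset Filter Topology Pool.Agent.Lib.MP_58a483_pr.H80

lemma LMain_fact {x u : ℝ} {s : ℕ} (h0 : 0 ≤ x) (h : x ≤ Real.exp u * s) :
    x ^ s / (s.factorial : ℝ) ≤ Real.exp (s * (1 + u)) := by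
  have h1 : x ^ s ≤ Real.exp u ^ s * (s : ℝ) ^ s := by
    rw [← mul_pow]; exact pow_le_pow_left₀ h0 h s
  have h2 := Real.pow_div_factorial_le_exp (s : ℝ) (Nat.cast_nonneg s) s
  calc x ^ s / (s.factorial : ℝ) ≤ Real.exp u ^ s * ((s : ℝ) ^ s / s.factorial) := by
        rw [← mul_div_assoc]; gcongr
    _ ≤ Real.exp u ^ s * Real.exp s := by gcongr
    _ = _ := by rw [← Real.exp_nat_mul, ← Real.exp_add]; congr 1; ring

lemma LMain_choose {n s : ℕ} {u : ℝ} (h : (n : ℝ) ≤ Real.exp u * s) :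
    (n.choose s : ℝ) ≤ Real.exp (s * (1 + u)) :=
  (Nat.choose_le_pow_div s n).trans (LMain_fact (Nat.cast_nonneg n) h)

lemma LMain_pow {p : ℝ} (h1 : p ≤ 1) (j : ℕ) : (1 - p) ^ j ≤ Real.exp (-(p * j)) := by
  have h := Real.add_one_le_exp (-p)
  calc (1 - p) ^ j ≤ Real.exp (-p) ^ j := pow_le_pow_left₀ (by linarith) (by linarith) j
    _ = _ := by rw [← Real.exp_nat_mul]; congr 1; ring

lemma LMain_bern {p : ℝ} (h0 : 0 ≤ p) (h1 : p ≤ 1) (x : ℕ) : (1 - p) ^ x * (1 + p * x) ≤ 1 := by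
  induction x with
  | zero => simp
  | succ x ih =>
    have h2 : 0 ≤ (1 - p) ^ x := pow_nonneg (by linarith) x
    have h3 : (0 : ℝ) ≤ x := Nat.cast_nonneg x
    have h4 : (1 - p) * (1 + p * (x + 1)) ≤ 1 + p * x := by
      nlinarith [mul_nonneg (mul_nonneg h0 h0) h3, mul_nonneg h0 h0]
    push_cast
    calc (1 - p) ^ (x + 1) * (1 + p * (x + 1)) = (1 - p) ^ x * ((1 - p) * (1 + p * (x + 1))) := by
          ring
      _ ≤ (1 - p) ^ x * (1 + p * x) := mul_le_mul_of_nonneg_left h4 h2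
      _ ≤ 1 := ih

lemma LMain_theta {p z : ℝ} {N x : ℕ} (h0 : 0 ≤ p) (h1 : p ≤ 1) (hz0 : 0 ≤ z) (hz1 : z ≤ 1)
    (hx : 2 ≤ z * x) (hp : p * x ≤ z / 2) :
    p * N * (1 - z) * (x + 1) ≤ N * (1 - (1 - p) ^ x) := by
  have hb := LMain_bern h0 h1 x
  have hx0 : (0 : ℝ) ≤ x := Nat.cast_nonneg x
  have hpx : 0 ≤ p * x := mul_nonneg h0 hx0
  have k1 : (x : ℝ) + 1 ≤ x * (1 + z / 2) := by nlinarith
  have k2 : (1 - z) * ((1 + z / 2) * (1 + z / 2)) ≤ 1 := by
    nlinarith [mul_nonneg hz0 hz0, mul_nonneg hz0 (mul_nonneg hz0 hz0)]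
  have k3 : (1 - z) * (x + 1) * (1 + p * x) ≤ x := by
    calc (1 - z) * (x + 1) * (1 + p * x) ≤ (1 - z) * (x * (1 + z / 2)) * (1 + z / 2) := by
          have : 0 ≤ 1 - z := by linarith
          gcongr
      _ = x * ((1 - z) * ((1 + z / 2) * (1 + z / 2))) := by ring
      _ ≤ x * 1 := mul_le_mul_of_nonneg_left k2 hx0
      _ = x := mul_one _
  have k4 : p * (1 - z) * (x + 1) ≤ 1 - (1 - p) ^ x := by
    refine le_of_mul_le_mul_right ?_ (show 0 < 1 + p * x by linarith)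
    have := mul_le_mul_of_nonneg_left k3 h0
    nlinarith
  have := mul_le_mul_of_nonneg_left k4 (Nat.cast_nonneg (α := ℝ) N)
  nlinarith

lemma LMain_yule {n s N M t0 t1 : ℕ} {p θ : ℝ} (h0 : 0 ≤ p) (h1 : p ≤ 1) (hθ1 : θ ≤ 1)
    (hθ : ∀ x : ℕ, N ≤ x → x < M → θ * (x + 1) ≤ N * (1 - (1 - p) ^ x))
    (h01 : t0 ≤ t1) (h1n : t1 ≤ n) :
    Pr n p (fun G => ∃ S : Finset (Fin n), S.card = s ∧ (∀ a ∈ S, a.val < t0) ∧
      N ≤ (ups G S t0).card ∧ (ups G S t1).card < M) ≤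
      (n.choose s : ℝ) * ((M : ℝ) ^ N / (N.factorial : ℝ) * (1 - θ) ^ (t1 - t0)) := by
  classical
  set B : ℝ := (M : ℝ) ^ N / (N.factorial : ℝ) * (1 - θ) ^ (t1 - t0) with hB
  have hB0 : 0 ≤ B := mul_nonneg (by positivity) (pow_nonneg (by linarith) _)
  calc _ ≤ Ex (EE n) p fun ω => ∑ S ∈ powersetCard s (univ : Finset (Fin n)),
        ind ((∀ a ∈ S, a.val < t0) ∧ N ≤ (ups (gr ω) S t0).card ∧ (ups (gr ω) S t1).card < M) := by
        refine Ex_mono h0 h1 fun ω _ => le_trans (ind_mono ?_) (ind_exists_le _ _)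
        rintro ⟨S, a, b⟩
        exact ⟨S, mem_powersetCard.2 ⟨subset_univ _, a⟩, b⟩
    _ ≤ ∑ S ∈ powersetCard s (univ : Finset (Fin n)), B := by
        rw [Ex_sum]
        refine sum_le_sum fun S _ => ?_
        by_cases hS : ∀ a ∈ S, a.val < t0
        · exact le_trans (Ex_mono h0 h1 fun ω _ => ind_mono fun h => h.2)
            (yule h0 h1 hθ1 hθ S hS h01 h1n)
        · refine le_trans (le_of_eq ?_) hB0
          rw [← Ex_const (EE n) p 0]
          exact Ex_congr fun ω _ => ind_neg fun h => hS h.1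
    _ = _ := by rw [sum_const, card_powersetCard, card_univ, Fintype.card_fin, nsmul_eq_mul]

/-- one of the three events that spoil the growth of the up-sets -/
def LBad {n : ℕ} (a b m r s N M h : ℕ) (G : SimpleGraph (Fin n)) : Prop :=
  (stars G a b m).card + m * r < a ∨
  (∃ S ⊆ stars G a b m, S.card = s ∧ (ups G S (a + m * b)).card < N) ∨
  ∃ S : Finset (Fin n), S.card = s ∧ (∀ v ∈ S, v.val < a + m * b) ∧
    N ≤ (ups G S (a + m * b)).card ∧ (ups G S h).card < M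

lemma LMain_grow {n a b m r s N M h : ℕ} {G : SimpleGraph (Fin n)} (hG : ¬ LBad a b m r s N M h G)
    {S : Finset (Fin n)} (hS : S ⊆ stars G a b m) (hs : S.card = s) : M ≤ (ups G S h).card := by
  by_contra hn
  refine hG (Or.inr ?_)
  by_cases h1 : (ups G S (a + m * b)).card < N
  · exact Or.inl ⟨S, hS, hs, h1⟩
  · refine Or.inr ⟨S, hs, fun v hv => ?_, by omega, by omega⟩
    have := (mem_stars.1 (hS hv)).1
    omega

lemma LMain_det {n a b m r s N M h : ℕ} (hs : 0 < s) (ha : a = 2 * (m * r))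
    {G : SimpleGraph (Fin n)} (h1 : ¬ LBad a b m r s N M h G)
    (h2 : ¬ LBad a b m r s N M h (rev G))
    (h3 : ¬ ∃ S T : Finset (Fin n), S.card = s ∧ T.card = s ∧ M ≤ (ups G S h).card ∧
      M ≤ (ups (rev G) T h).card ∧ ∀ a ∈ S, ∀ b ∈ T, ¬ Below G a b.rev) :
    (m * r) * (m * r) ≤ cmp G + orderDim G * (2 * s * n) := by
  have k1 : m * r ≤ (stars G a b m).card := by
    by_contra hn
    exact h1 (Or.inl (by omega))
  have k2 : m * r ≤ ((stars (rev G) a b m).image Fin.rev).card := by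
    rw [card_image_of_injective _ Fin.rev_injective]
    by_contra hn
    exact h2 (Or.inl (by omega))
  refine le_trans (Nat.mul_le_mul k1 k2) (stair hs G _ _ fun S hS T hT e1 e2 => ?_)
  by_contra hn
  have e3 : (T.image Fin.rev).card = s := by
    rw [card_image_of_injective _ Fin.rev_injective, e2]
  refine h3 ⟨S, T.image Fin.rev, e1, e3, LMain_grow h1 hS e1, LMain_grow h2 ?_ e3, ?_⟩
  · intro v hv
    obtain ⟨w, hw, rfl⟩ := mem_image.1 hv
    obtain ⟨w', hw', rfl⟩ := mem_image.1 (hT hw)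
    rwa [Fin.rev_rev]
  · intro x hx y hy hb
    obtain ⟨w, hw, rfl⟩ := mem_image.1 hy
    rw [Fin.rev_rev] at hb
    exact hn ⟨x, hx, w, hw, hb⟩

/-- the conditions on the constants -/
structure LPar (k : ℕ) (c η σ μ : ℝ) : Prop where
  hk : 20 ≤ k
  hη : η = 1 / (96 * (k : ℝ) ^ 3)
  hσ : σ = Real.exp (-((1 - 9 / k) * c))
  hμ : μ = Real.exp (-((1 / 2 - 5 / k) * c))
  c1 : (k : ℝ) + 2 ≤ c
  c2 : 216 * (k : ℝ) ^ 3 * c ^ 3 * Real.exp (-(c / 4)) ≤ 1
  c3 : 1 ≤ c * η ^ 2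
  c4 : 8 ≤ η ^ 2 * Real.exp (c / k)

/-- the conditions on the sizes -/
structure LSz (k n r s M : ℕ) (c η σ μ : ℝ) : Prop where
  r1 : η * n ≤ r
  r2 : (r : ℝ) ≤ 2 * (η * n)
  s1 : σ * n ≤ s
  s2 : (s : ℝ) ≤ 2 * (σ * n)
  s3 : 2 * k ≤ s
  m1 : μ * n ≤ M
  m2 : (M : ℝ) ≤ 2 * (μ * n)
  n1 : c ≤ n

variable {k n r s M : ℕ} {c η σ μ : ℝ}

lemma LPar.k20 (P : LPar k c η σ μ) : (20 : ℝ) ≤ k := by exact_mod_cast P.hk

lemma LPar.small (P : LPar k c η σ μ) :
    216 * (k : ℝ) ^ 3 * c ^ 3 * σ ≤ 1 ∧ 4 * k * c * σ ≤ 1 ∧ 4 * k * c * μ ≤ 1 := by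
  have hk := P.k20
  have hc := P.c1
  have k0 : (0 : ℝ) < k := by linarith
  have c0 : 0 < c := by linarith
  have e1 : 9 / (k : ℝ) ≤ 1 / 2 := by rw [div_le_iff₀ k0]; linarith
  have e2 : 5 / (k : ℝ) ≤ 1 / 4 := by rw [div_le_iff₀ k0]; linarith
  have a1 : σ ≤ Real.exp (-(c / 4)) := by
    rw [P.hσ]; exact Real.exp_le_exp.2 (by nlinarith)
  have a2 : μ ≤ Real.exp (-(c / 4)) := by
    rw [P.hμ]; exact Real.exp_le_exp.2 (by nlinarith)
  have a3 : 4 * k * c ≤ 216 * (k : ℝ) ^ 3 * c ^ 3 := by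
    have b1 : (k : ℝ) ≤ (k : ℝ) ^ 3 := le_self_pow₀ (by linarith) (by norm_num)
    have b2 : c ≤ c ^ 3 := le_self_pow₀ (by linarith) (by norm_num)
    have b3 : k * c ≤ (k : ℝ) ^ 3 * c ^ 3 := mul_le_mul b1 b2 c0.le (by positivity)
    have b4 : 0 ≤ (k : ℝ) ^ 3 * c ^ 3 := by positivity
    linarith
  have a4 : 4 * k * c * Real.exp (-(c / 4)) ≤ 1 :=
    (mul_le_mul_of_nonneg_right a3 (Real.exp_pos _).le).trans P.c2
  exact ⟨(mul_le_mul_of_nonneg_left a1 (by positivity)).trans P.c2,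
    (mul_le_mul_of_nonneg_left a1 (by positivity)).trans a4,
    (mul_le_mul_of_nonneg_left a2 (by positivity)).trans a4⟩

lemma LSz.nle (P : LPar k c η σ μ) (Z : LSz k n r s M c η σ μ) :
    (n : ℝ) ≤ Real.exp ((1 - 9 / k) * c) * s := by
  have h := mul_le_mul_of_nonneg_left Z.s1 (Real.exp_pos ((1 - 9 / k) * c)).le
  rwa [P.hσ, ← mul_assoc, ← Real.exp_add, add_neg_cancel, Real.exp_zero, one_mul] at h

lemma LSz.choose (P : LPar k c η σ μ) (Z : LSz k n r s M c η σ μ) :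
    (n.choose s : ℝ) ≤ Real.exp (s * (1 + c)) := by
  refine (LMain_choose (Z.nle P)).trans (Real.exp_le_exp.2 ?_)
  have hk := P.k20
  have hc := P.c1
  have : 0 ≤ 9 / (k : ℝ) * c := mul_nonneg (by positivity) (by linarith)
  exact mul_le_mul_of_nonneg_left (by linarith) (Nat.cast_nonneg s)

lemma LSz.t0 (P : LPar k c η σ μ) (Z : LSz k n r s M c η σ μ) :
    ((2 * (3 * k * r) + 3 * k * (2 * (3 * k * r)) : ℕ) : ℝ) + (1 / 2 - 1 / k) * n ≤ (n / 2 : ℕ) := by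
  have hk := P.k20
  have k0 : (0 : ℝ) < k := by linarith
  have n0 : (0 : ℝ) ≤ n := Nat.cast_nonneg n
  have r0 : (0 : ℝ) ≤ r := Nat.cast_nonneg r
  have h1 : (n : ℝ) ≤ 2 * (n / 2 : ℕ) + 1 := by
    have : n ≤ 2 * (n / 2) + 1 := by omega
    exact_mod_cast this
  have h2 : 1 ≤ 1 / k * (n : ℝ) := by
    rw [one_div_mul_eq_div, le_div_iff₀ k0]
    linarith [P.c1, Z.n1]
  have h3 : 48 * (k : ℝ) ^ 2 * (η * n) = 1 / k * n / 2 := by
    rw [P.hη]; field_simp; ring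
  have h4 : 24 * (k : ℝ) ^ 2 * r ≤ 24 * (k : ℝ) ^ 2 * (2 * (η * n)) :=
    mul_le_mul_of_nonneg_left Z.r2 (by positivity)
  have h5 : 0 ≤ (k : ℝ) * (k - 1) * r := mul_nonneg (mul_nonneg k0.le (by linarith)) r0
  push_cast at h1 ⊢
  nlinarith

lemma LMain_e1 (P : LPar k c η σ μ) (Z : LSz k n r s M c η σ μ) :
    ((3 * k : ℕ) : ℝ) * 2 ^ n * (1 - c / n) ^ (r * (2 * (3 * k * r))) ≤
      3 * k * Real.exp (-(n : ℝ)) := by
  have hk := P.k20
  have c0 : 0 < c := by linarith [P.c1]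
  have n0 : (0 : ℝ) < n := by linarith [Z.n1]
  have η0 : 0 < η := by rw [P.hη]; positivity
  have h1 := LMain_pow (p := c / n) ((div_le_one n0).2 Z.n1) (r * (2 * (3 * k * r)))
  have h2 : (2 : ℝ) ^ n ≤ Real.exp n := by
    have := Real.add_one_le_exp 1
    calc (2 : ℝ) ^ n ≤ Real.exp 1 ^ n := pow_le_pow_left₀ (by norm_num) (by linarith) n
      _ = _ := by rw [← Real.exp_nat_mul, mul_one]
  have h3 : (η * n) ^ 2 ≤ (r : ℝ) ^ 2 := pow_le_pow_left₀ (by positivity) Z.r1 2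
  have h4 : (n : ℝ) ≤ c / n * (r : ℝ) ^ 2 := by
    calc (n : ℝ) = 1 * n := (one_mul _).symm
      _ ≤ c * η ^ 2 * n := mul_le_mul_of_nonneg_right P.c3 n0.le
      _ = c / n * (η * n) ^ 2 := by field_simp
      _ ≤ _ := mul_le_mul_of_nonneg_left h3 (by positivity)
  have h5 : Real.exp n * Real.exp (-(c / n * ((r * (2 * (3 * k * r)) : ℕ) : ℝ))) ≤
      Real.exp (-(n : ℝ)) := by
    rw [← Real.exp_add]
    refine Real.exp_le_exp.2 ?_
    push_cast
    nlinarith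
  push_cast
  rw [mul_assoc]
  refine mul_le_mul_of_nonneg_left (le_trans ?_ h5) (by positivity)
  exact mul_le_mul h2 h1 (pow_nonneg (by linarith [(div_le_one n0).2 Z.n1]) _) (Real.exp_pos _).le

lemma LMain_np (P : LPar k c η σ μ) (Z : LSz k n r s M c η σ μ) :
    ((k * s : ℕ) : ℝ) * (c / n) ≤ 2 * k * c * σ := by
  have hk := P.k20
  have c0 : 0 < c := by linarith [P.c1]
  have n0 : (0 : ℝ) < n := by linarith [Z.n1]
  push_cast
  calc (k : ℝ) * s * (c / n) ≤ k * (2 * (σ * n)) * (c / n) := by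
        have := Z.s2
        gcongr
    _ = _ := by field_simp

lemma LMain_e2 (P : LPar k c η σ μ) (Z : LSz k n r s M c η σ μ) :
    (n.choose s : ℝ) * (n.choose (k * s)) * (((k * s : ℕ) : ℝ) * (c / n)) ^ (3 * k * s) ≤
      Real.exp (-(s : ℝ)) := by
  have hk := P.k20
  have k0 : (0 : ℝ) < k := by linarith
  have c0 : 0 < c := by linarith [P.c1]
  have n0 : (0 : ℝ) < n := by linarith [Z.n1]
  have s0 : (0 : ℝ) ≤ s := Nat.cast_nonneg s
  have σ0 : 0 < σ := by rw [P.hσ]; positivity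
  set u : ℝ := (1 - 9 / k) * c with hu
  have e1 : 9 / (k : ℝ) ≤ 1 / 2 := by rw [div_le_iff₀ k0]; linarith
  have u0 : 0 ≤ u := mul_nonneg (by linarith) c0.le
  have sk : (s : ℝ) ≤ ((k * s : ℕ) : ℝ) := by push_cast; nlinarith
  have h1 : (n.choose s : ℝ) ≤ Real.exp (1 + u) ^ (k * s) := by
    rw [← Real.exp_nat_mul]
    exact (LMain_choose (Z.nle P)).trans
      (Real.exp_le_exp.2 (mul_le_mul_of_nonneg_right sk (by linarith)))
  have h2 : (n.choose (k * s) : ℝ) ≤ Real.exp (1 + u) ^ (k * s) := by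
    rw [← Real.exp_nat_mul]
    exact LMain_choose ((Z.nle P).trans (mul_le_mul_of_nonneg_left sk (Real.exp_pos _).le))
  have h3 : (((k * s : ℕ) : ℝ) * (c / n)) ^ (3 * k * s) ≤ ((2 * k * c * σ) ^ 3) ^ (k * s) := by
    rw [← pow_mul, mul_assoc 3]
    exact pow_le_pow_left₀ (by positivity) (LMain_np P Z) _
  have h4 : Real.exp (1 + u) * σ = Real.exp 1 := by
    rw [P.hσ, ← Real.exp_add]; congr 1; ring
  have h5 : Real.exp 1 ≤ 3 := (Real.exp_one_lt_d9.trans (by norm_num)).le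
  have h6 : Real.exp (1 + u) * Real.exp (1 + u) * (2 * k * c * σ) ^ 3 ≤ Real.exp (-1) := by
    rw [Real.exp_neg, ← one_div, le_div_iff₀ (Real.exp_pos 1)]
    calc _ = (Real.exp (1 + u) * σ) ^ 2 * Real.exp 1 * (8 * k ^ 3 * c ^ 3 * σ) := by ring
      _ = Real.exp 1 ^ 3 * (8 * k ^ 3 * c ^ 3 * σ) := by rw [h4]; ring
      _ ≤ 3 ^ 3 * (8 * k ^ 3 * c ^ 3 * σ) := by gcongr
      _ ≤ 1 := by linarith [P.small.1]
  calc _ ≤ Real.exp (1 + u) ^ (k * s) * Real.exp (1 + u) ^ (k * s) *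
        ((2 * k * c * σ) ^ 3) ^ (k * s) := by gcongr
    _ = (Real.exp (1 + u) * Real.exp (1 + u) * (2 * k * c * σ) ^ 3) ^ (k * s) := by
        rw [← mul_pow, ← mul_pow]
    _ ≤ Real.exp (-1) ^ (k * s) := pow_le_pow_left₀ (by positivity) h6 _
    _ ≤ _ := by
        rw [← Real.exp_nat_mul]
        exact Real.exp_le_exp.2 (by linarith)

lemma LMain_e3 (P : LPar k c η σ μ) (Z : LSz k n r s M c η σ μ) {j : ℕ}
    (hj : (1 / 2 - 1 / k) * (n : ℝ) ≤ j) :
    (n.choose s : ℝ) * ((M : ℝ) ^ (k * s) / ((k * s).factorial : ℝ) *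
      (1 - c / n * (k * s : ℕ) * (1 - 1 / k)) ^ j) ≤ Real.exp (-(s : ℝ)) := by
  have hk := P.k20
  have k0 : (0 : ℝ) < k := by linarith
  have c0 : 0 < c := by linarith [P.c1]
  have n0 : (0 : ℝ) < n := by linarith [Z.n1]
  have s0 : (0 : ℝ) ≤ s := Nat.cast_nonneg s
  have σ0 : 0 < σ := by rw [P.hσ]; positivity
  have e1 : 1 / (k : ℝ) ≤ 1 / 20 := one_div_le_one_div_of_le (by norm_num) hk
  have e0 : 0 < 1 / (k : ℝ) := by positivity
  have θ1 : c / n * (k * s : ℕ) * (1 - 1 / k) ≤ 1 := by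
    have a1 := LMain_np P Z
    have a2 := P.small.2.1
    have a3 : 0 ≤ ((k * s : ℕ) : ℝ) * (c / n) := by positivity
    nlinarith
  have h1 := LMain_pow θ1 j
  have h2 : (M : ℝ) ≤ Real.exp ((1 / 2 - 4 / k) * c) * (k * s : ℕ) := by
    have a1 : μ = Real.exp ((1 / 2 - 4 / k) * c) * σ := by
      rw [P.hμ, P.hσ, ← Real.exp_add]; congr 1; ring
    have a2 : 2 * (σ * n) ≤ ((k * s : ℕ) : ℝ) := by
      push_cast
      nlinarith [Z.s1]
    calc (M : ℝ) ≤ 2 * (μ * n) := Z.m2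
      _ = Real.exp ((1 / 2 - 4 / k) * c) * (2 * (σ * n)) := by rw [a1]; ring
      _ ≤ _ := mul_le_mul_of_nonneg_left a2 (Real.exp_pos _).le
  have h3 := LMain_fact (Nat.cast_nonneg M) h2
  have h4 : c * (k * s) * (1 / 2 - 2 / k) ≤ c / n * (k * s : ℕ) * (1 - 1 / k) * j := by
    have a1 : 1 / 2 - 2 / (k : ℝ) ≤ (1 - 1 / k) * (1 / 2 - 1 / k) := by
      have : 2 / (k : ℝ) = 2 * (1 / k) := by ring
      nlinarith
    push_cast
    calc c * (k * s) * (1 / 2 - 2 / k) ≤ c * (k * s) * ((1 - 1 / k) * (1 / 2 - 1 / k)) :=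
          mul_le_mul_of_nonneg_left a1 (by positivity)
      _ = c / n * (k * s) * (1 - 1 / k) * ((1 / 2 - 1 / k) * n) := by field_simp
      _ ≤ _ := mul_le_mul_of_nonneg_left hj (mul_nonneg (by positivity) (by linarith))
  calc _ ≤ Real.exp (s * (1 + c)) * (Real.exp ((k * s : ℕ) * (1 + (1 / 2 - 4 / k) * c)) *
        Real.exp (-(c / n * (k * s : ℕ) * (1 - 1 / k) * j))) := by
        refine mul_le_mul (Z.choose P) (mul_le_mul h3 h1 (pow_nonneg (by linarith) _)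
          (Real.exp_pos _).le) (mul_nonneg (by positivity) (pow_nonneg (by linarith) _))
          (Real.exp_pos _).le
    _ ≤ _ := by
        rw [← Real.exp_add, ← Real.exp_add]
        refine Real.exp_le_exp.2 ?_
        have a1 : ((k * s : ℕ) : ℝ) * (1 + (1 / 2 - 4 / k) * c) - c * (k * s) * (1 / 2 - 2 / k)
            = s * (k - 2 * c) := by
          push_cast; field_simp; ring
        have a2 := mul_le_mul_of_nonneg_left P.c1 s0
        nlinarith

lemma LMain_e4 (P : LPar k c η σ μ) (Z : LSz k n r s M c η σ μ) :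
    (n.choose s : ℝ) ^ 2 * (1 - c / n) ^ (M * M) ≤ Real.exp (-(s : ℝ)) := by
  have hk := P.k20
  have k0 : (0 : ℝ) < k := by linarith
  have c0 : 0 < c := by linarith [P.c1]
  have n0 : (0 : ℝ) < n := by linarith [Z.n1]
  have s0 : (0 : ℝ) ≤ s := Nat.cast_nonneg s
  have σ0 : 0 < σ := by rw [P.hσ]; positivity
  have μ0 : 0 < μ := by rw [P.hμ]; positivity
  have p1 : c / n ≤ 1 := (div_le_one n0).2 Z.n1
  have h1 := LMain_pow p1 (M * M)
  have h2 : μ ^ 2 = Real.exp (c / k) * σ := by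
    rw [P.hμ, P.hσ, ← Real.exp_add, ← Real.exp_nat_mul]; congr 1; push_cast; ring
  have h3 : 10 ≤ Real.exp (c / k) := by
    have a1 : η ≤ 1 / 2 := by
      rw [P.hη]
      refine one_div_le_one_div_of_le (by norm_num) ?_
      have : 1 ≤ (k : ℝ) ^ 3 := one_le_pow₀ (by linarith)
      linarith
    have η0 : 0 < η := by rw [P.hη]; positivity
    have a2 : η ^ 2 ≤ (1 / 2) ^ 2 := pow_le_pow_left₀ η0.le a1 2
    have a3 := mul_le_mul_of_nonneg_right a2 (Real.exp_pos (c / k)).le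
    linarith [P.c4]
  have h4 : 5 * c * s ≤ c / n * ((M * M : ℕ) : ℝ) := by
    have a1 : (μ * n) ^ 2 ≤ (M : ℝ) ^ 2 := pow_le_pow_left₀ (by positivity) Z.m1 2
    push_cast
    calc 5 * c * s ≤ 5 * c * (2 * (σ * n)) := mul_le_mul_of_nonneg_left Z.s2 (by positivity)
      _ = 10 * (c * σ * n) := by ring
      _ ≤ Real.exp (c / k) * (c * σ * n) := mul_le_mul_of_nonneg_right h3 (by positivity)
      _ = c / n * (μ * n) ^ 2 := by rw [mul_pow, h2]; field_simp
      _ ≤ c / n * (M : ℝ) ^ 2 := mul_le_mul_of_nonneg_left a1 (by positivity)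
      _ = _ := by ring
  calc _ ≤ Real.exp (s * (1 + c)) ^ 2 * Real.exp (-(c / n * ((M * M : ℕ) : ℝ))) :=
        mul_le_mul (pow_le_pow_left₀ (Nat.cast_nonneg _) (Z.choose P) 2) h1
          (pow_nonneg (by linarith) _) (by positivity)
    _ ≤ _ := by
        rw [← Real.exp_nat_mul, ← Real.exp_add]
        refine Real.exp_le_exp.2 ?_
        have a2 := mul_le_mul_of_nonneg_left P.c1 s0
        push_cast at h4 ⊢
        nlinarith

lemma LMain_bad (P : LPar k c η σ μ) (Z : LSz k n r s M c η σ μ) :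
    Pr n (c / n) (LBad (2 * (3 * k * r)) (2 * (3 * k * r)) (3 * k) r s (k * s) M (n / 2)) ≤
      3 * k * Real.exp (-(n : ℝ)) + 2 * Real.exp (-(s : ℝ)) := by
  have hk := P.k20
  have k0 : (0 : ℝ) < k := by linarith
  have c0 : 0 < c := by linarith [P.c1]
  have n0 : (0 : ℝ) < n := by linarith [Z.n1]
  have p0 : 0 ≤ c / n := by positivity
  have p1 : c / n ≤ 1 := (div_le_one n0).2 Z.n1
  have e1 : 1 / (k : ℝ) ≤ 1 / 20 := one_div_le_one_div_of_le (by norm_num) hk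
  have e0 : 0 < 1 / (k : ℝ) := by positivity
  have ht := Z.t0 P
  have ht1 : 2 * (3 * k * r) + 3 * k * (2 * (3 * k * r)) ≤ n / 2 := by
    have : 0 ≤ (1 / 2 - 1 / k) * (n : ℝ) := mul_nonneg (by linarith) n0.le
    exact_mod_cast (show ((2 * (3 * k * r) + 3 * k * (2 * (3 * k * r)) : ℕ) : ℝ) ≤ (n / 2 : ℕ) by
      linarith)
  have hN : k * s ≤ n := by
    have a1 := LMain_np P Z
    have a2 := P.small.2.1
    have a3 : ((k * s : ℕ) : ℝ) * (c / n) ≤ n * (c / n) := by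
      rw [mul_div_cancel₀ _ n0.ne']
      linarith [P.c1]
    exact_mod_cast le_of_mul_le_mul_right a3 (by positivity)
  have θ1 : c / n * (k * s : ℕ) * (1 - 1 / k) ≤ 1 := by
    have a1 := LMain_np P Z
    have a2 := P.small.2.1
    have a3 : 0 ≤ ((k * s : ℕ) : ℝ) * (c / n) := by positivity
    nlinarith
  have hθ : ∀ x : ℕ, k * s ≤ x → x < M →
      c / n * (k * s : ℕ) * (1 - 1 / k) * (x + 1) ≤ (k * s : ℕ) * (1 - (1 - c / n) ^ x) := by
    intro x x1 x2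
    refine LMain_theta p0 p1 e0.le (by linarith) ?_ ?_
    · rw [one_div_mul_eq_div, le_div_iff₀ k0]
      have : 2 * k ≤ x := le_trans (le_trans Z.s3 (Nat.le_mul_of_pos_left s (by
        have := P.hk; omega))) x1
      exact_mod_cast this
    · have a1 : (x : ℝ) ≤ 2 * (μ * n) := le_trans (by exact_mod_cast x2.le) Z.m2
      have a2 : c / n * x ≤ 2 * c * μ := by
        calc c / n * x ≤ c / n * (2 * (μ * n)) := mul_le_mul_of_nonneg_left a1 p0
          _ = _ := by field_simp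
      refine a2.trans ?_
      rw [le_div_iff₀ two_pos, le_div_iff₀ k0]
      linarith [P.small.2.2]
  have b1 := (pr_star (r := r) p0 p1 (ht1.trans (Nat.div_le_self n 2))).trans (LMain_e1 P Z)
  have b2 := (pr_exp (a := 2 * (3 * k * r)) (b := 2 * (3 * k * r)) (m := 3 * k) (s := s)
    p0 p1 hN).trans (LMain_e2 P Z)
  have b3 := (LMain_yule (s := s) p0 p1 θ1 hθ ht1 (Nat.div_le_self n 2)).trans
    (LMain_e3 P Z (by rw [Nat.cast_sub ht1]; linarith))
  refine le_trans (Pr_or p0 p1 _ _) ?_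
  refine le_trans (add_le_add b1 ((Pr_or p0 p1 _ _).trans (add_le_add b2 b3))) (le_of_eq ?_)
  ring

lemma LMain_n (P : LPar k c η σ μ) (Z : LSz k n r s M c η σ μ) :
    Pr n (c / n) (fun G => (orderDim G : ℝ) < Real.exp ((1 - 10 / k) * c)) ≤
      6 * k * Real.exp (-(n : ℝ)) + 5 * Real.exp (-(σ * n)) + 2 * c * Real.exp c / η ^ 2 / n := by
  have hk := P.k20
  have k0 : (0 : ℝ) < k := by linarith
  have c0 : 0 < c := by linarith [P.c1]
  have n0 : (0 : ℝ) < n := by linarith [Z.n1]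
  have p0 : 0 ≤ c / n := by positivity
  have p1 : c / n ≤ 1 := (div_le_one n0).2 Z.n1
  have η0 : 0 < η := by rw [P.hη]; positivity
  have σ0 : 0 < σ := by rw [P.hσ]; positivity
  have s0 : 0 < s := by have := P.hk; have := Z.s3; omega
  have b1 := LMain_bad P Z
  have b2 := (pr_rev (c / n) _).trans_le b1
  have b3 := (pr_cut (s := s) (M := M) p0 p1 (Nat.mul_div_le n 2)).trans (LMain_e4 P Z)
  have b4 := pr_cmp (n := n) p0 p1 (show 0 < (η * n) ^ 2 / 2 by positivity)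
  have b5 : (n : ℝ) ^ 2 * (c / n * (1 + c / n) ^ n) / ((η * n) ^ 2 / 2) ≤
      2 * c * Real.exp c / η ^ 2 / n := by
    have a1 : (1 + c / n) ^ n ≤ Real.exp c := by
      have := Real.add_one_le_exp (c / n)
      calc (1 + c / n) ^ n ≤ Real.exp (c / n) ^ n :=
            pow_le_pow_left₀ (by linarith) (by linarith) n
        _ = _ := by rw [← Real.exp_nat_mul, mul_div_cancel₀ _ n0.ne']
    calc _ ≤ (n : ℝ) ^ 2 * (c / n * Real.exp c) / ((η * n) ^ 2 / 2) := by gcongr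
      _ = _ := by field_simp
  have b6 : Real.exp (-(s : ℝ)) ≤ Real.exp (-(σ * n)) := Real.exp_le_exp.2 (by linarith [Z.s1])
  have b7 := (Pr_or p0 p1 _ _).trans (add_le_add b1 ((Pr_or p0 p1 _ _).trans (add_le_add b2
    ((Pr_or p0 p1 _ _).trans (add_le_add b3 (b4.trans b5))))))
  refine le_trans (Pr_mono p0 p1 fun G hG => ?_) (b7.trans (by linarith))
  by_contra hn
  simp only [not_or] at hn
  obtain ⟨h1, h2, h3, h4⟩ := hn
  have d1 := LMain_det s0 rfl h1 h2 h3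
  have d2 : ((3 * k * r * (3 * k * r) : ℕ) : ℝ) ≤ ((cmp G + orderDim G * (2 * s * n) : ℕ) : ℝ) := by
    exact_mod_cast d1
  push_cast at d2
  have r0 : (0 : ℝ) ≤ r := Nat.cast_nonneg r
  have d3 : η * n ≤ 3 * k * r := by nlinarith [Z.r1]
  have d4 : (η * n) ^ 2 ≤ (3 * k * r) ^ 2 := pow_le_pow_left₀ (by positivity) d3 2
  have d5 : (orderDim G : ℝ) * (2 * s * n) ≤
      Real.exp ((1 - 10 / k) * c) * (2 * (2 * (σ * n)) * n) := by
    have := Z.s2
    have := hG.le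
    gcongr
  have d6 : Real.exp ((1 - 10 / k) * c) * σ * Real.exp (c / k) = 1 := by
    rw [P.hσ, ← Real.exp_add, ← Real.exp_add, ← Real.exp_zero]; congr 1; ring
  have d7 : 8 * (Real.exp ((1 - 10 / k) * c) * σ) ≤ η ^ 2 := by
    calc _ ≤ η ^ 2 * Real.exp (c / k) * (Real.exp ((1 - 10 / k) * c) * σ) :=
          mul_le_mul_of_nonneg_right P.c4 (by positivity)
      _ = η ^ 2 * (Real.exp ((1 - 10 / k) * c) * σ * Real.exp (c / k)) := by ring
      _ = _ := by rw [d6, mul_one]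
  have d8 := mul_le_mul_of_nonneg_right d7 (sq_nonneg (n : ℝ))
  rw [not_le] at h4
  nlinarith

lemma LMain_ceil {x : ℝ} (h : 1 ≤ x) : (⌈x⌉₊ : ℝ) ≤ 2 * x := by
  have := Nat.ceil_lt_add_one (show 0 ≤ x by linarith)
  linarith

lemma LMain_lim (P : LPar k c η σ μ) :
    Tendsto (fun n : ℕ => Pr n (c / n) fun G => (orderDim G : ℝ) < Real.exp ((1 - 10 / k) * c))
      atTop (𝓝 0) := by
  have hk := P.k20
  have c0 : 0 < c := by linarith [P.c1]
  have η0 : 0 < η := by rw [P.hη]; positivity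
  have σ0 : 0 < σ := by rw [P.hσ]; positivity
  have μ0 : 0 < μ := by rw [P.hμ]; positivity
  have t0 : Tendsto (fun n : ℕ => (n : ℝ)) atTop atTop := tendsto_natCast_atTop_atTop
  have hZ : ∀ᶠ n : ℕ in atTop, LSz k n ⌈η * n⌉₊ ⌈σ * n⌉₊ ⌈μ * n⌉₊ c η σ μ := by
    filter_upwards [(t0.const_mul_atTop η0).eventually_ge_atTop 1,
      (t0.const_mul_atTop σ0).eventually_ge_atTop (2 * k),
      (t0.const_mul_atTop μ0).eventually_ge_atTop 1, t0.eventually_ge_atTop c] with n a1 a2 a3 a4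
    refine ⟨Nat.le_ceil _, LMain_ceil a1, Nat.le_ceil _, LMain_ceil (by linarith), ?_,
      Nat.le_ceil _, LMain_ceil a3, a4⟩
    exact_mod_cast a2.trans (Nat.le_ceil _)
  have l1 := (Real.tendsto_exp_neg_atTop_nhds_zero.comp t0).const_mul (6 * (k : ℝ))
  have l2 := (Real.tendsto_exp_neg_atTop_nhds_zero.comp (t0.const_mul_atTop σ0)).const_mul 5
  have l3 := tendsto_const_div_atTop_nhds_zero_nat (2 * c * Real.exp c / η ^ 2)
  have l4 := (l1.add l2).add l3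
  simp only [mul_zero, add_zero] at l4
  refine squeeze_zero' ?_ ?_ l4
  · filter_upwards [hZ] with n Z
    have n0 : (0 : ℝ) < n := by linarith [Z.n1]
    exact Pr_nonneg (by positivity) ((div_le_one n0).2 Z.n1) _
  · filter_upwards [hZ] with n Z
    exact LMain_n P Z

lemma LMain_par (hk : 20 ≤ k) : ∀ᶠ c : ℝ in atTop, LPar k c (1 / (96 * (k : ℝ) ^ 3))
    (Real.exp (-((1 - 9 / k) * c))) (Real.exp (-((1 / 2 - 5 / k) * c))) := by
  have k0 : (0 : ℝ) < k := by exact_mod_cast (by omega : 0 < k)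
  have η0 : 0 < (1 / (96 * (k : ℝ) ^ 3)) ^ 2 := by positivity
  have l1 := ((Real.tendsto_pow_mul_exp_neg_atTop_nhds_zero 3).comp
    (tendsto_id.atTop_div_const (show (0 : ℝ) < 4 by norm_num))).const_mul
    (216 * (k : ℝ) ^ 3 * 4 ^ 3)
  rw [mul_zero] at l1
  have l2 := (Real.tendsto_exp_atTop.comp (tendsto_id.atTop_div_const k0)).const_mul_atTop η0
  filter_upwards [eventually_ge_atTop ((k : ℝ) + 2), l1.eventually_le_const one_pos,
    (tendsto_id.atTop_mul_const η0).eventually_ge_atTop 1, l2.eventually_ge_atTop 8]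
    with c a1 a2 a3 a4
  refine ⟨hk, rfl, rfl, rfl, a1, le_trans (le_of_eq ?_) a2, a3, a4⟩
  simp only [Function.comp, id]
  ring

theorem lower_main {ε : ℝ} (hε : 0 < ε) : ∃ c₀ : ℝ, ∀ c, c₀ ≤ c →
    Tendsto (fun n : ℕ => Pr n (c / n) fun G => (orderDim G : ℝ) < Real.exp ((1 - ε) * c))
      atTop (𝓝 0) := by
  obtain ⟨k, hk⟩ := exists_nat_ge (max 20 (10 / ε))
  have k1 : 20 ≤ k := by exact_mod_cast (le_max_left _ _).trans hk
  have k2 : 10 / (k : ℝ) ≤ ε := by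
    have k0 : (0 : ℝ) < k := by exact_mod_cast (by omega : 0 < k)
    have := (div_le_iff₀ hε).1 ((le_max_right _ _).trans hk)
    rw [div_le_iff₀ k0]
    linarith
  obtain ⟨c₀, h⟩ := eventually_atTop.1 (LMain_par k1)
  refine ⟨c₀, fun c hc => ?_⟩
  have P := h c hc
  have c0 : 0 < c := by linarith [P.c1, P.k20]
  have hp : ∀ᶠ n : ℕ in atTop, c / n < 1 :=
    (tendsto_const_div_atTop_nhds_zero_nat c).eventually (gt_mem_nhds one_pos)
  refine squeeze_zero' ?_ ?_ (LMain_lim P)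
  · filter_upwards [hp] with n hn
    exact Pr_nonneg (by positivity) hn.le _
  · filter_upwards [hp] with n hn
    exact Pr_mono (by positivity) hn.le fun G hG =>
      hG.trans_le (Real.exp_le_exp.2 (mul_le_mul_of_nonneg_right (by linarith) c0.le))

end Pool.Agent.Lib.MP_b735d7_co
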