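import Pool.Agent.Lib.MP_b735d7_co.GUp
import Pool.Agent.Lib.MP_b735d7_co.LMain

/-!
Both exponential bounds together.
-/

namespace Pool.Agent.Lib.MP_b735d7_co

open Filter Topology

lemma GFin_one_le {n : ℕ} (hn : 0 < n) (G : SimpleGraph (Fin n)) : 1 ≤ orderDim G := by
  by_contra h
  have h0 : orderDim G = 0 := by omega
  have h1 : Realized G (orderDim G) := Nat.sInf_mem (s := {d | Realized G d}) (exists_realized G)
  rw [h0] at h1
  obtain ⟨L, hL⟩ := h1
  exact lt_irrefl _ (below_lt ((hL ⟨0, hn⟩ ⟨0, hn⟩).2 fun k => k.elim0))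

theorem lower_all {ε : ℝ} (hε : 0 < ε) : ∃ δ : ℝ, 0 < δ ∧ ∀ c : ℝ, 1 ≤ c →
    Tendsto (fun n : ℕ => Pr n (c / n)
      fun G => ¬ δ * Real.exp ((1 - ε) * c) ≤ (orderDim G : ℝ)) atTop (𝓝 0) := by
  obtain ⟨c0, h⟩ := lower_main hε
  refine ⟨Real.exp (-|c0|), Real.exp_pos _, fun c hc => ?_⟩
  have hp : ∀ᶠ n : ℕ in atTop, c / n < 1 :=
    (tendsto_const_div_atTop_nhds_zero_nat c).eventually (gt_mem_nhds one_pos)
  have c1 : 0 ≤ c := by linarith
  by_cases hc0 : c0 ≤ c
  · refine squeeze_zero' ?_ ?_ (h c hc0)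
    · filter_upwards [hp] with n hn
      exact Pr_nonneg (by positivity) hn.le _
    · filter_upwards [hp] with n hn
      refine Pr_mono (by positivity) hn.le fun G hG => (not_le.1 hG).trans_le ?_
      exact mul_le_of_le_one_left (Real.exp_pos _).le
        (Real.exp_le_one_iff.2 (by linarith [abs_nonneg c0]))
  · refine squeeze_zero' ?_ ?_ (tendsto_const_nhds (x := (0 : ℝ)))
    · filter_upwards [hp] with n hn
      exact Pr_nonneg (by positivity) hn.le _
    · filter_upwards [hp, eventually_ge_atTop 1] with n hn n1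
      have e : Pr n (c / n) (fun _ => False) = 0 := by
        have := Pr_not (n := n) (c / n) (fun _ => True)
        unfold Pr at *
        simp only [Pool.Agent.Lib.MP_58a483_pr.H80.ind_neg not_false,
          Pool.Agent.Lib.MP_58a483_pr.H80.Ex_const]
      refine le_trans (Pr_mono (by positivity) hn.le (B := fun _ => False) fun G hG => hG ?_) e.le
      have a : (1 : ℝ) ≤ orderDim G := by exact_mod_cast GFin_one_le n1 G
      refine le_trans ?_ a
      rw [← Real.exp_add]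
      refine Real.exp_le_one_iff.2 ?_
      linarith [le_abs_self c0, not_le.1 hc0, mul_nonneg hε.le c1]

theorem expRate {ε : ℝ} (hε : 0 < ε) : ∃ δ : ℝ, 0 < δ ∧ ∀ c : ℝ, 1 ≤ c →
    Tendsto (fun n : ℕ => prob n c {G | δ * Real.exp ((1 - ε) * c) ≤ (orderDim G : ℝ) ∧
      (orderDim G : ℝ) ≤ 10 ^ 7 * c ^ 2 * Real.exp c}) atTop (𝓝 1) := by
  obtain ⟨δ, hδ, h⟩ := lower_all hε
  refine ⟨δ, hδ, fun c hc => ?_⟩
  refine tendsto_one_of (by linarith)
    (fun _ G => δ * Real.exp ((1 - ε) * c) ≤ (orderDim G : ℝ) ∧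
      (orderDim G : ℝ) ≤ 10 ^ 7 * c ^ 2 * Real.exp c)
    (fun _ G => ¬ δ * Real.exp ((1 - ε) * c) ≤ (orderDim G : ℝ) ∨
      ¬ (orderDim G : ℝ) ≤ 10 ^ 7 * c ^ 2 * Real.exp c) (fun _ _ k => not_and_or.1 k) ?_
  have hp : ∀ᶠ n : ℕ in atTop, c / n < 1 :=
    (tendsto_const_div_atTop_nhds_zero_nat c).eventually (gt_mem_nhds one_pos)
  have c1 : 0 ≤ c := by linarith
  have hs := (h c hc).add (upper_exp hc)
  rw [add_zero] at hs
  refine squeeze_zero' ?_ ?_ hs
  · filter_upwards [hp] with n hn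
    exact Pr_nonneg (by positivity) hn.le _
  · filter_upwards [hp] with n hn
    exact Pr_or (by positivity) hn.le _ _

end Pool.Agent.Lib.MP_b735d7_co
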