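import Pool.Agent.Lib.MP_b735d7_co.GDef

/-!
Choice of labels and hash functions by averaging.
-/

namespace Pool.Agent.Lib.MP_b735d7_co

open Finset Pool.Agent.Lib.MP_58a483_pr.H80

lemma GHash_pair {A B : Type} [Fintype A] [DecidableEq A] [Fintype B] [DecidableEq B] {a b : A}
    (hab : a ≠ b) :
    (∑ f : A → B, ind (f a = f b)) * (Fintype.card B : ℝ) ≤ (Fintype.card (A → B) : ℝ) := by
  rw [sum_ind_eq_card]
  have h : ((univ.filter fun f : A → B => f a = f b) ×ˢ (univ : Finset B)).card ≤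
      (univ : Finset (A → B)).card := by
    refine card_le_card_of_injOn (fun q => Function.update q.1 a q.2) (fun _ _ => by simp) ?_
    rintro ⟨f, c⟩ hq ⟨f', c'⟩ hq' he
    have h1 : f a = f b := by simpa using hq
    have h2 : f' a = f' b := by simpa using hq'
    have h3 : c = c' := by simpa using congrFun he a
    have h4 : ∀ x, x ≠ a → f x = f' x := fun x hx => by simpa [hx] using congrFun he x
    refine Prod.ext (funext fun x => ?_) h3
    by_cases hx : x = a
    · subst hx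
      show f x = f' x
      rw [h1, h2]; exact h4 b hab.symm
    · exact h4 x hx
  rw [card_product, card_univ, card_univ] at h
  exact_mod_cast h

lemma GHash_pair2 {A B : Type} [Fintype A] [DecidableEq A] [Fintype B] [DecidableEq B] (a b : A)
    (hB : 0 < Fintype.card B) :
    (∑ f : A → B, ind (a ≠ b ∧ f a = f b)) ≤ (Fintype.card (A → B) : ℝ) / Fintype.card B := by
  have hB' : (0 : ℝ) < Fintype.card B := by exact_mod_cast hB
  by_cases hab : a = b
  · rw [sum_eq_zero fun f _ => ind_neg (fun h => h.1 hab)]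
    positivity
  · rw [le_div_iff₀ hB']
    refine le_trans (mul_le_mul_of_nonneg_right (sum_le_sum fun f _ => ind_mono fun h => h.2)
      hB'.le) (GHash_pair hab)

lemma GHash_all {C : Type} [Fintype C] (u : ℕ) (Q : C → Prop) :
    ∑ phi : Fin u → C, ind (∀ i, Q (phi i)) = (∑ c : C, ind (Q c)) ^ u := by
  classical
  have h : ∀ phi : Fin u → C, ind (∀ i, Q (phi i)) = ∏ i, ind (Q (phi i)) := by
    intro phi
    by_cases hq : ∀ i, Q (phi i)
    · rw [ind_pos hq, prod_eq_one fun i _ => ind_pos (hq i)]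
    · rw [ind_neg hq]
      obtain ⟨i, hi⟩ := not_forall.1 hq
      exact (prod_eq_zero (mem_univ i) (ind_neg hi)).symm
  have h2 := Finset.prod_univ_sum (fun _ : Fin u => (univ : Finset C))
    (fun (_ : Fin u) (c : C) => ind (Q c))
  rw [Fintype.piFinset_univ, prod_const, card_univ, Fintype.card_fin] at h2
  rw [h2]
  exact sum_congr rfl fun phi _ => h phi

lemma GHash_first {n M k : ℕ} (hM : 0 < M) (S : Finset (Fin n)) (hS : S.card ≤ k) :
    ∑ lam : Fin n → Fin M, ind (∃ z ∈ S, ∃ z' ∈ S, z ≠ z' ∧ lam z = lam z') ≤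
      (k : ℝ) ^ 2 / M * Fintype.card (Fin n → Fin M) := by
  have hS' : (S.card : ℝ) ≤ k := by exact_mod_cast hS
  have hM' : (0 : ℝ) < M := by exact_mod_cast hM
  calc ∑ lam : Fin n → Fin M, ind (∃ z ∈ S, ∃ z' ∈ S, z ≠ z' ∧ lam z = lam z')
      ≤ ∑ lam : Fin n → Fin M, ∑ z ∈ S, ∑ z' ∈ S, ind (z ≠ z' ∧ lam z = lam z') :=
        sum_le_sum fun lam _ => (ind_exists_le S _).trans
          (sum_le_sum fun z _ => ind_exists_le S _)
    _ = ∑ z ∈ S, ∑ z' ∈ S, ∑ lam : Fin n → Fin M, ind (z ≠ z' ∧ lam z = lam z') := by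
        rw [sum_comm]; exact sum_congr rfl fun z _ => sum_comm
    _ ≤ ∑ _z ∈ S, ∑ _z' ∈ S, (Fintype.card (Fin n → Fin M) : ℝ) / M := by
        refine sum_le_sum fun z _ => sum_le_sum fun z' _ => ?_
        have := GHash_pair2 (B := Fin M) z z' (by simpa using hM)
        rwa [Fintype.card_fin M] at this
    _ = (S.card : ℝ) ^ 2 / M * Fintype.card (Fin n → Fin M) := by
        rw [sum_const, sum_const, nsmul_eq_mul, nsmul_eq_mul]; ring
    _ ≤ _ := by gcongr

lemma GHash_second {n M u k : ℕ} (hk : 0 < k) (S : Finset (Fin n)) (hS : S.card ≤ k)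
    (lam : Fin n → Fin M) :
    ∑ phi : Fin u → Fin M → Fin (2 * k),
      ind (∃ a : Fin M, ∀ i, ∃ z ∈ S, lam z ≠ a ∧ phi i (lam z) = phi i a) ≤
      (M : ℝ) / 2 ^ u * Fintype.card (Fin u → Fin M → Fin (2 * k)) := by
  have hS' : (S.card : ℝ) ≤ k := by exact_mod_cast hS
  have hk' : (0 : ℝ) < k := by exact_mod_cast hk
  have h1 : ∀ a : Fin M, ∑ psi : Fin M → Fin (2 * k), ind (∃ z ∈ S, lam z ≠ a ∧
      psi (lam z) = psi a) ≤ (Fintype.card (Fin M → Fin (2 * k)) : ℝ) / 2 := by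
    intro a
    calc ∑ psi : Fin M → Fin (2 * k), ind (∃ z ∈ S, lam z ≠ a ∧ psi (lam z) = psi a)
        ≤ ∑ psi : Fin M → Fin (2 * k), ∑ z ∈ S, ind (lam z ≠ a ∧ psi (lam z) = psi a) :=
          sum_le_sum fun psi _ => ind_exists_le S _
      _ = ∑ z ∈ S, ∑ psi : Fin M → Fin (2 * k), ind (lam z ≠ a ∧ psi (lam z) = psi a) :=
          sum_comm
      _ ≤ ∑ _z ∈ S, (Fintype.card (Fin M → Fin (2 * k)) : ℝ) / ((2 * k : ℕ) : ℝ) := by
          refine sum_le_sum fun z _ => ?_
          have := GHash_pair2 (B := Fin (2 * k)) (lam z) a (by simpa using hk)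
          rwa [Fintype.card_fin (2 * k)] at this
      _ = (S.card : ℝ) * ((Fintype.card (Fin M → Fin (2 * k)) : ℝ) / ((2 * k : ℕ) : ℝ)) := by
          rw [sum_const, nsmul_eq_mul]
      _ ≤ (k : ℝ) * ((Fintype.card (Fin M → Fin (2 * k)) : ℝ) / ((2 * k : ℕ) : ℝ)) := by gcongr
      _ = _ := by push_cast; field_simp
  calc ∑ phi : Fin u → Fin M → Fin (2 * k),
        ind (∃ a : Fin M, ∀ i, ∃ z ∈ S, lam z ≠ a ∧ phi i (lam z) = phi i a)
      ≤ ∑ phi : Fin u → Fin M → Fin (2 * k), ∑ a : Fin M,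
          ind (∀ i, ∃ z ∈ S, lam z ≠ a ∧ phi i (lam z) = phi i a) := by
        refine sum_le_sum fun phi _ => le_trans (ind_mono ?_) (ind_exists_le univ _)
        rintro ⟨a, ha⟩
        exact ⟨a, mem_univ a, ha⟩
    _ = ∑ a : Fin M, (∑ psi : Fin M → Fin (2 * k), ind (∃ z ∈ S, lam z ≠ a ∧
          psi (lam z) = psi a)) ^ u := by
        rw [sum_comm]
        exact sum_congr rfl fun a _ => GHash_all u
          (fun psi : Fin M → Fin (2 * k) => ∃ z ∈ S, lam z ≠ a ∧ psi (lam z) = psi a)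
    _ ≤ ∑ _a : Fin M, ((Fintype.card (Fin M → Fin (2 * k)) : ℝ) / 2) ^ u :=
        sum_le_sum fun a _ => pow_le_pow_left₀ (sum_nonneg fun _ _ => ind_nonneg _) (h1 a) u
    _ = _ := by
        rw [sum_const, card_univ, Fintype.card_fin, nsmul_eq_mul,
          Fintype.card_fun (α := Fin u), Fintype.card_fin u, div_pow]
        push_cast; ring

lemma GHash_set {n M u k : ℕ} (hM : 0 < M) (hk : 0 < k) (S : Finset (Fin n)) :
    ∑ q : (Fin n → Fin M) × (Fin u → Fin M → Fin (2 * k)), ind (S.card ≤ k ∧ HBad q.1 q.2 S) ≤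
      ((k : ℝ) ^ 2 / M + M / 2 ^ u) *
        Fintype.card ((Fin n → Fin M) × (Fin u → Fin M → Fin (2 * k))) := by
  by_cases hS : S.card ≤ k
  · rw [Fintype.sum_prod_type]
    calc ∑ lam : Fin n → Fin M, ∑ phi : Fin u → Fin M → Fin (2 * k),
          ind (S.card ≤ k ∧ HBad lam phi S)
        ≤ ∑ lam : Fin n → Fin M, ∑ phi : Fin u → Fin M → Fin (2 * k),
          (ind (∃ z ∈ S, ∃ z' ∈ S, z ≠ z' ∧ lam z = lam z') +
            ind (∃ a : Fin M, ∀ i, ∃ z ∈ S, lam z ≠ a ∧ phi i (lam z) = phi i a)) :=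
          sum_le_sum fun lam _ => sum_le_sum fun phi _ =>
            (ind_mono fun h => h.2).trans (ind_or_le _ _)
      _ = (∑ lam : Fin n → Fin M, ind (∃ z ∈ S, ∃ z' ∈ S, z ≠ z' ∧ lam z = lam z')) *
            Fintype.card (Fin u → Fin M → Fin (2 * k)) +
          ∑ lam : Fin n → Fin M, ∑ phi : Fin u → Fin M → Fin (2 * k),
            ind (∃ a : Fin M, ∀ i, ∃ z ∈ S, lam z ≠ a ∧ phi i (lam z) = phi i a) := by
          rw [sum_mul, ← sum_add_distrib]
          refine sum_congr rfl fun lam _ => ?_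
          rw [sum_add_distrib, sum_const, card_univ, nsmul_eq_mul, mul_comm]
      _ ≤ ((k : ℝ) ^ 2 / M * Fintype.card (Fin n → Fin M)) *
            Fintype.card (Fin u → Fin M → Fin (2 * k)) +
          ∑ _lam : Fin n → Fin M,
            (M : ℝ) / 2 ^ u * Fintype.card (Fin u → Fin M → Fin (2 * k)) :=
          add_le_add (mul_le_mul_of_nonneg_right (GHash_first hM S hS) (Nat.cast_nonneg _))
            (sum_le_sum fun lam _ => GHash_second hk S hS lam)
      _ = _ := by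
          rw [sum_const, card_univ, nsmul_eq_mul, Fintype.card_prod]
          push_cast; ring
  · rw [sum_eq_zero fun q _ => ind_neg (fun h => hS h.1)]
    positivity

theorem hash_avg {n M u k : ℕ} (hM : 0 < M) (hk : 0 < k) {p : ℝ} (h0 : 0 ≤ p) (h1 : p ≤ 1) :
    ∃ (lam : Fin n → Fin M) (phi : Fin u → Fin M → Fin (2 * k)),
      ∑ y : Fin n, Pr n p (fun G => (dn G y).card ≤ k ∧ HBad lam phi (dn G y)) ≤
        n * ((k : ℝ) ^ 2 / M + M / 2 ^ u) := by
  have hne : (univ : Finset ((Fin n → Fin M) × (Fin u → Fin M → Fin (2 * k)))).Nonempty :=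
    ⟨(fun _ => ⟨0, hM⟩, fun _ _ => ⟨0, by omega⟩), mem_univ _⟩
  have key : ∑ q : (Fin n → Fin M) × (Fin u → Fin M → Fin (2 * k)),
      ∑ y : Fin n, Pr n p (fun G => (dn G y).card ≤ k ∧ HBad q.1 q.2 (dn G y)) ≤
      ∑ _q : (Fin n → Fin M) × (Fin u → Fin M → Fin (2 * k)),
        (n : ℝ) * ((k : ℝ) ^ 2 / M + M / 2 ^ u) := by
    rw [sum_comm]
    calc ∑ y : Fin n, ∑ q : (Fin n → Fin M) × (Fin u → Fin M → Fin (2 * k)),
          Pr n p (fun G => (dn G y).card ≤ k ∧ HBad q.1 q.2 (dn G y))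
        ≤ ∑ _y : Fin n, ((k : ℝ) ^ 2 / M + M / 2 ^ u) *
          Fintype.card ((Fin n → Fin M) × (Fin u → Fin M → Fin (2 * k))) := by
          refine sum_le_sum fun y _ => ?_
          unfold Pr
          rw [← Ex_sum, ← Ex_const (EE n) p (((k : ℝ) ^ 2 / M + M / 2 ^ u) *
            Fintype.card ((Fin n → Fin M) × (Fin u → Fin M → Fin (2 * k))))]
          exact Ex_mono h0 h1 fun ω _ => GHash_set hM hk (dn (gr ω) y)
      _ = _ := by
          rw [sum_const, sum_const, card_univ, card_univ, Fintype.card_fin, nsmul_eq_mul,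
            nsmul_eq_mul]
          ring
  obtain ⟨q, -, hq⟩ := exists_le_of_sum_le hne key
  exact ⟨q.1, q.2, hq⟩

end Pool.Agent.Lib.MP_b735d7_co
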