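import Pool.Agent.Lib.MP_b735d7_co.GDef

/-!
Layers and parents in a component of the bad part.
-/

namespace Pool.Agent.Lib.MP_b735d7_co

open Finset Pool.Agent.Lib.MP_58a483_pr.H80

section
variable {n : ℕ} {G : SimpleGraph (Fin n)} {Bad : Finset (Fin n) → Prop} {r : Fin n}

/-- bad vertices at distance at most `d` from `r` in the intersection graph of down-sets -/
def GLayR (G : SimpleGraph (Fin n)) (Bad : Finset (Fin n) → Prop) (r : Fin n) : ℕ → Fin n → Prop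
  | 0, y => y = r
  | d + 1, y => Bad (dn G y) ∧ ∃ y', GLayR G Bad r d y' ∧ ¬ Disjoint (dn G y) (dn G y')

/-- even layers -/
def GLayA (G : SimpleGraph (Fin n)) (Bad : Finset (Fin n) → Prop) (r : Fin n) (k : ℕ) (z : Fin n) :
    Prop := ∃ y, GLayR G Bad r k y ∧ Le G z y

/-- odd layers -/
def GLayB (G : SimpleGraph (Fin n)) (Bad : Finset (Fin n) → Prop) (r : Fin n) (k : ℕ) (z : Fin n) :
    Prop := InD G Bad z ∧ ∃ z', GLayA G Bad r k z' ∧ Le G z' z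

/-- all layers -/
def GLayP (G : SimpleGraph (Fin n)) (Bad : Finset (Fin n) → Prop) (r : Fin n) (j : ℕ) (z : Fin n) :
    Prop := (j % 2 = 0 ∧ GLayA G Bad r (j / 2) z) ∨ (j % 2 = 1 ∧ GLayB G Bad r (j / 2) z)

lemma GLay_nd {z y y' : Fin n} (h : Le G z y) (h' : Le G z y') : ¬ Disjoint (dn G y) (dn G y') :=
  not_disjoint_iff.2 ⟨z, mem_dn.2 h, mem_dn.2 h'⟩

lemma GLay_bad (hr : Bad (dn G r)) {d : ℕ} {y : Fin n} (h : GLayR G Bad r d y) : Bad (dn G y) := by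
  cases d with
  | zero => exact (show y = r from h) ▸ hr
  | succ d => exact h.1

lemma GLay_mono (hr : Bad (dn G r)) {d e : ℕ} (hde : d ≤ e) {y : Fin n} (h : GLayR G Bad r d y) :
    GLayR G Bad r e y := by
  induction hde with
  | refl => exact h
  | step _ ih => exact ⟨GLay_bad hr h, y, ih, GLay_nd Le.rfl Le.rfl⟩

lemma GLay_seq (d : ℕ) : ∀ y, GLayR G Bad r d y → (∀ e < d, ¬ GLayR G Bad r e y) →
    ∃ s : ℕ → Fin n, s d = y ∧
      (∀ i ≤ d, GLayR G Bad r i (s i) ∧ ∀ e < i, ¬ GLayR G Bad r e (s i)) ∧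
      ∀ i < d, ¬ Disjoint (dn G (s i)) (dn G (s (i + 1))) := by
  induction d with
  | zero =>
    refine fun y h h' => ⟨fun _ => y, rfl, fun i hi => ?_, fun i hi => absurd hi (by omega)⟩
    obtain rfl : i = 0 := by omega
    exact ⟨h, h'⟩
  | succ d ih =>
    intro y h h'
    obtain ⟨y', k1, k2⟩ := h.2
    obtain ⟨s, s1, s2, s3⟩ := ih y' k1 fun e he k => h' (e + 1) (by omega) ⟨h.1, y', k, k2⟩
    refine ⟨fun i => if i ≤ d then s i else y, if_neg (by omega), fun i hi => ?_, fun i hi => ?_⟩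
    · by_cases hd : i ≤ d
      · simp only [if_pos hd]
        exact s2 i hd
      · obtain rfl : i = d + 1 := by omega
        simp only [if_neg hd]
        exact ⟨h, h'⟩
    · by_cases hd : i + 1 ≤ d
      · simp only [if_pos hd, if_pos (show i ≤ d by omega)]
        exact s3 i hd
      · obtain rfl : i = d := by omega
        simp only [if_neg hd, if_pos (le_refl i), s1]
        exact fun k => k2 k.symm

lemma GLay_stab (hr : Bad (dn G r)) {L : ℕ} (h : ¬ Ind G Bad L) {y : Fin n}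
    (hy : GLayR G Bad r L y) : ∃ e < L, GLayR G Bad r e y := by
  by_contra hc
  obtain ⟨s, -, s2, s3⟩ := GLay_seq L y hy fun e he k => hc ⟨e, he, k⟩
  refine h ⟨s, fun i hi => GLay_bad hr (s2 i hi).1, s3, fun i l h1 h2 => ?_⟩
  by_contra k
  exact (s2 l h2).2 (i + 1) (by omega)
    ⟨GLay_bad hr (s2 l h2).1, s i, (s2 i (by omega)).1, fun k' => k k'.symm⟩

lemma GLay_AB {k : ℕ} {z : Fin n} (h : GLayB G Bad r k z) : GLayA G Bad r (k + 1) z := by
  obtain ⟨⟨y, h1, h2⟩, z', ⟨y', h3, h4⟩, h5⟩ := h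
  exact ⟨y, ⟨h1, y', h3, GLay_nd (h5.trans h2) h4⟩, h2⟩

lemma GLay_RB {k : ℕ} {y : Fin n} (h : GLayR G Bad r (k + 1) y) : GLayB G Bad r k y := by
  obtain ⟨h1, y', h2, h3⟩ := h
  obtain ⟨z, h4, h5⟩ := not_disjoint_iff.1 h3
  exact ⟨⟨y, h1, Le.rfl⟩, z, ⟨y', h2, mem_dn.1 h5⟩, mem_dn.1 h4⟩

lemma GLay_PA (hr : Bad (dn G r)) {j K : ℕ} (hj : j ≤ 2 * K) {z : Fin n} (h : GLayP G Bad r j z) :
    GLayA G Bad r K z := by
  rcases h with ⟨-, y, h1, h2⟩ | ⟨h0, h⟩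
  · exact ⟨y, GLay_mono hr (by omega) h1, h2⟩
  · obtain ⟨y, h1, h2⟩ := GLay_AB h
    exact ⟨y, GLay_mono hr (by omega) h1, h2⟩

lemma GLay_par {j : ℕ} {z : Fin n} (h : GLayP G Bad r j z) (hm : ∀ i < j, ¬ GLayP G Bad r i z)
    (hz : z ≠ r) :
    ∃ w, GLayP G Bad r j w ∧ G.Adj z w ∧ (j % 2 = 0 → z < w) ∧ (j % 2 = 1 → w < z) := by
  rcases h with ⟨h0, y, h1, rfl | h2⟩ | ⟨h0, ⟨y, h1, h2⟩, z', h3, rfl | h4⟩
  · exfalso
    rcases Nat.eq_zero_or_eq_succ_pred (j / 2) with e | e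
    · rw [e] at h1
      exact hz h1
    · rw [e] at h1
      refine hm (j - 1) (by omega) (Or.inr ⟨by omega, ?_⟩)
      rw [show (j - 1) / 2 = (j / 2).pred by rw [Nat.pred_eq_sub_one]; omega]
      exact GLay_RB h1
  · obtain ⟨u, u1, u2, u3⟩ := below_first h2
    exact ⟨u, Or.inl ⟨h0, y, h1, u3⟩, u2, fun _ => u1, fun k => absurd k (by omega)⟩
  · refine absurd (Or.inl ⟨by omega, ?_⟩) (hm (j - 1) (by omega))
    rwa [show (j - 1) / 2 = j / 2 by omega]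
  · obtain ⟨u, u1, u2, u3⟩ := below_last h4
    exact ⟨u, Or.inr ⟨h0, ⟨y, h1, (le_of_adj u2 u3).trans h2⟩, z', h3, u1⟩, u3.symm,
      fun k => absurd k (by omega), fun _ => u2⟩

end

theorem tree_of_noind {n L : ℕ} {G : SimpleGraph (Fin n)} {Bad : Finset (Fin n) → Prop}
    (h : ¬ Ind G Bad L) {x : Fin n} (hx : InD G Bad x) :
    ∃ (C : Fin n → Prop) (r : Fin n) (par : Fin n → Fin n) (lay : Fin n → ℕ),
      TreeD G C r par lay (2 * L) ∧ C x ∧ ∀ a b, C a → (restr G Bad).Adj a b → C b := by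
  obtain ⟨r, hr, hxr⟩ := hx
  obtain ⟨K, rfl⟩ : ∃ K, L = K + 1 := by
    obtain ⟨e, he, -⟩ := GLay_stab hr h (GLay_mono hr (Nat.zero_le L) (show r = r from rfl))
    exact ⟨L - 1, by omega⟩
  have hP : ∀ z, GLayA G Bad r K z → 2 * K ∈ {j | GLayP G Bad r j z} := fun z hz =>
    Or.inl ⟨by omega, by rwa [show 2 * K / 2 = K by omega]⟩
  have hex : ∀ z, ∃ w, GLayA G Bad r K z → z ≠ r →
      GLayP G Bad r (sInf {j | GLayP G Bad r j z}) w ∧ G.Adj z w ∧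
        (sInf {j | GLayP G Bad r j z} % 2 = 0 → z < w) ∧
        (sInf {j | GLayP G Bad r j z} % 2 = 1 → w < z) := fun z => by
    by_cases hz : GLayA G Bad r K z ∧ z ≠ r
    · obtain ⟨w, hw⟩ := GLay_par (Nat.sInf_mem ⟨_, hP z hz.1⟩)
        (fun i hi => Nat.notMem_of_lt_sInf hi) hz.2
      exact ⟨w, fun _ _ => hw⟩
    · exact ⟨z, fun h1 h2 => absurd ⟨h1, h2⟩ hz⟩
  choose par hpar using hex
  refine ⟨GLayA G Bad r K, r, par, fun z => sInf {j | GLayP G Bad r j z}, ⟨fun z h1 h2 => ?_,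
    fun z h1 => (Nat.sInf_le (hP z h1)).trans (by omega)⟩,
    ⟨r, GLay_mono hr (Nat.zero_le K) (show r = r from rfl), hxr⟩, ?_⟩
  · obtain ⟨k1, k2, k3⟩ := hpar z h1 h2
    exact ⟨GLay_PA hr (Nat.sInf_le (hP z h1)) k1, k2, Nat.sInf_le k1, k3⟩
  · rintro a b ⟨y, h1, h2⟩ ⟨h3, -, y', h4, h5⟩
    rcases lt_or_gt_of_ne h3.ne with k | k
    · obtain ⟨e, he, k'⟩ := GLay_stab hr h (y := y')
        ⟨h4, y, h1, GLay_nd ((le_of_adj k h3).trans h5) h2⟩
      exact ⟨y', GLay_mono hr (by omega) k', h5⟩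
    · exact ⟨y, h1, (le_of_adj k h3.symm).trans h2⟩

end Pool.Agent.Lib.MP_b735d7_co
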