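import Pool.Agent.Lib.MP_b735d7_co.GDef

/-!
Moments of the size of a down-set.
-/

namespace Pool.Agent.Lib.MP_b735d7_co

open Finset Pool.Agent.Lib.MP_58a483_pr.H80

open Classical in
/-- the part of the down-set of `y` at height at least `t` -/
noncomputable def GMomA {n : ℕ} (y : Fin n) (t : ℕ) (ω : Finset (Sym2 (Fin n))) :
    Finset (Fin n) :=
  univ.filter fun z => t ≤ z.val ∧ Le (gr ω) z y

lemma GMom_mem {n t : ℕ} {y z : Fin n} {ω : Finset (Sym2 (Fin n))} :
    z ∈ GMomA y t ω ↔ t ≤ z.val ∧ Le (gr ω) z y := by simp [GMomA]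

lemma GMom_inv {n : ℕ} (x y u : Fin n) (ω : Finset (Sym2 (Fin n))) :
    GMomA y (x.val + 1) (ω \ {s(x, u)}) = GMomA y (x.val + 1) ω := by
  ext z
  simp only [GMom_mem]
  refine and_congr_right fun hz => ⟨Le.mono (gr_mono sdiff_subset), fun h => ?_⟩
  refine (le_ins (P := fun v => x < v) h fun v hv _ => lt_of_lt_of_le hz hv.le).mono
    (gr_mono fun e he => mem_sdiff.2 ⟨ins_sub _ _ he, fun k => ?_⟩)
  rw [mem_singleton.1 k] at he
  exact lt_irrefl _ (mem_ins.1 he).2.2.1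

lemma GMom_mono (m N : ℕ) : N.ascFactorial m ≤ (N + 1).ascFactorial m := by
  induction m with
  | zero => simp
  | succ m ih =>
    rw [Nat.ascFactorial_succ, Nat.ascFactorial_succ]
    exact Nat.mul_le_mul (by omega) ih

/-- the increment of the rising factorial -/
noncomputable def GMomD (m N : ℕ) : ℝ :=
  (((N + 1).ascFactorial m : ℕ) : ℝ) - ((N.ascFactorial m : ℕ) : ℝ)

lemma GMomD_nonneg (m N : ℕ) : 0 ≤ GMomD m N :=
  sub_nonneg.2 (by exact_mod_cast GMom_mono m N)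

lemma GMomD_mul (m N : ℕ) :
    (N : ℝ) * GMomD m N ≤ m * (((max 1 N).ascFactorial m : ℕ) : ℝ) := by
  rcases Nat.eq_zero_or_pos N with rfl | h
  · rw [Nat.cast_zero, zero_mul]
    positivity
  · have h1 : (N : ℝ) * (((N + 1).ascFactorial m : ℕ) : ℝ) =
        (N + m) * ((N.ascFactorial m : ℕ) : ℝ) := by
      exact_mod_cast Nat.succ_ascFactorial N m
    rw [max_eq_right h, GMomD, mul_sub, h1]
    exact le_of_eq (by ring)

lemma GMom_pt {n : ℕ} (m : ℕ) (x y : Fin n) (ω : Finset (Sym2 (Fin n))) :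
    (((max 1 (GMomA y x.val ω).card).ascFactorial m : ℕ) : ℝ) ≤
      (((max 1 (GMomA y (x.val + 1) ω).card).ascFactorial m : ℕ) : ℝ) +
        ∑ u ∈ univ.erase x, ind ({s(x, u)} ⊆ ω ∩ {s(x, u)}) *
          (ind (u ∈ GMomA y (x.val + 1) (ω \ {s(x, u)})) *
            GMomD m (GMomA y (x.val + 1) (ω \ {s(x, u)})).card) := by
  have hn : ∀ u ∈ univ.erase x, 0 ≤ ind ({s(x, u)} ⊆ ω ∩ {s(x, u)}) *
      (ind (u ∈ GMomA y (x.val + 1) (ω \ {s(x, u)})) *
        GMomD m (GMomA y (x.val + 1) (ω \ {s(x, u)})).card) := fun u _ =>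
    mul_nonneg (ind_nonneg _) (mul_nonneg (ind_nonneg _) (GMomD_nonneg _ _))
  by_cases hx : Le (gr ω) x y
  · have e : GMomA y x.val ω = insert x (GMomA y (x.val + 1) ω) := by
      ext z
      simp only [mem_insert, GMom_mem]
      constructor
      · rintro ⟨h1, h2⟩
        rcases h1.eq_or_lt with h | h
        · exact Or.inl (Fin.ext h.symm)
        · exact Or.inr ⟨h, h2⟩
      · rintro (rfl | ⟨h1, h2⟩)
        · exact ⟨le_rfl, hx⟩
        · exact ⟨by omega, h2⟩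
    rw [e, card_insert_of_notMem (by simp [GMom_mem])]
    rcases hx with rfl | hx
    · have e2 : GMomA x (x.val + 1) ω = ∅ := by
        refine eq_empty_of_forall_notMem fun z hz => ?_
        have h1 := (GMom_mem.1 hz).1
        have h2 : z.val ≤ x.val := (GMom_mem.1 hz).2.le
        omega
      rw [e2]
      exact le_add_of_nonneg_right (sum_nonneg hn)
    · obtain ⟨u, h1, h2, h3⟩ := below_first hx
      have hu : u ∈ GMomA y (x.val + 1) ω := GMom_mem.2 ⟨h1, h3⟩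
      have hc := card_pos.2 ⟨u, hu⟩
      have h4 := single_le_sum hn (mem_erase.2 ⟨h1.ne', mem_univ u⟩)
      rw [GMom_inv, ind_pos hu, ind_pos (subset_inter (singleton_subset_iff.2 (gr_adj.1 h2).1)
        Subset.rfl), one_mul, one_mul, GMomD] at h4
      rw [max_eq_right (Nat.le_add_left 1 _), max_eq_right (Nat.succ_le_of_lt hc)]
      linarith
  · have e : GMomA y x.val ω = GMomA y (x.val + 1) ω := by
      ext z
      simp only [GMom_mem]
      refine and_congr_left fun h => ⟨fun h1 => ?_, fun h1 => by omega⟩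
      rcases h1.eq_or_lt with h2 | h2
      · exact absurd (Fin.ext h2 ▸ h) hx
      · exact h2
    rw [e]
    exact le_add_of_nonneg_right (sum_nonneg hn)

lemma GMom_step {n : ℕ} (m : ℕ) {p : ℝ} (h0 : 0 ≤ p) (h1 : p ≤ 1) (x y : Fin n) :
    Ex (EE n) p (fun ω => (((max 1 (GMomA y x.val ω).card).ascFactorial m : ℕ) : ℝ)) ≤
      (1 + m * p) * Ex (EE n) p
        (fun ω => (((max 1 (GMomA y (x.val + 1) ω).card).ascFactorial m : ℕ) : ℝ)) := by
  refine (Ex_mono h0 h1 fun ω _ => GMom_pt m x y ω).trans ?_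
  rw [Ex_add, Ex_sum]
  have e : ∀ u ∈ univ.erase x, Ex (EE n) p (fun ω => ind ({s(x, u)} ⊆ ω ∩ {s(x, u)}) *
      (ind (u ∈ GMomA y (x.val + 1) (ω \ {s(x, u)})) *
        GMomD m (GMomA y (x.val + 1) (ω \ {s(x, u)})).card)) =
      p * Ex (EE n) p (fun ω => ind (u ∈ GMomA y (x.val + 1) ω) *
        GMomD m (GMomA y (x.val + 1) ω).card) := by
    intro u hu
    rw [Ex_indep (EE n) {s(x, u)} p (fun σ => ind ({s(x, u)} ⊆ σ))
      (fun σ => ind (u ∈ GMomA y (x.val + 1) σ) * GMomD m (GMomA y (x.val + 1) σ).card),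
      Ex_congr (g := fun ω => ind ({s(x, u)} ⊆ ω)) fun ω _ => ind_congr (by simp),
      Ex_sup (singleton_subset_iff.2 (mem_EE.2 (mem_erase.1 hu).1.symm)), card_singleton, pow_one]
    simp only [GMom_inv]
  rw [sum_congr rfl e, ← mul_sum, ← Ex_sum]
  have e2 : Ex (EE n) p (fun ω => ∑ u ∈ univ.erase x, ind (u ∈ GMomA y (x.val + 1) ω) *
      GMomD m (GMomA y (x.val + 1) ω).card) ≤ m * Ex (EE n) p
        (fun ω => (((max 1 (GMomA y (x.val + 1) ω).card).ascFactorial m : ℕ) : ℝ)) := by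
    rw [← Ex_mul_left]
    refine Ex_mono h0 h1 fun ω _ => le_trans ?_ (GMomD_mul m _)
    rw [← sum_mul, sum_ind_eq_card]
    refine mul_le_mul_of_nonneg_right ?_ (GMomD_nonneg _ _)
    exact_mod_cast card_le_card fun u hu => (mem_filter.1 hu).2
  have e3 := mul_le_mul_of_nonneg_left e2 h0
  linarith

lemma GMom_ind {n : ℕ} (m : ℕ) {p : ℝ} (h0 : 0 ≤ p) (h1 : p ≤ 1) (y : Fin n) (k : ℕ) :
    ∀ j : ℕ, n = j + k →
      Ex (EE n) p (fun ω => (((max 1 (GMomA y j ω).card).ascFactorial m : ℕ) : ℝ)) ≤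
        (m.factorial : ℝ) * (1 + m * p) ^ k := by
  induction k with
  | zero =>
    intro j hj
    rw [pow_zero, mul_one, ← Ex_const (EE n) p (m.factorial : ℝ)]
    refine Ex_mono h0 h1 fun ω _ => ?_
    have e : GMomA y j ω = ∅ := by
      refine eq_empty_of_forall_notMem fun z hz => ?_
      have h2 := (GMom_mem.1 hz).1
      have h3 := z.isLt
      omega
    rw [e]
    simp [Nat.one_ascFactorial]
  | succ k ih =>
    intro j hj
    refine (GMom_step m h0 h1 ⟨j, by omega⟩ y).trans ?_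
    refine (mul_le_mul_of_nonneg_left (ih (j + 1) (by omega)) (by positivity)).trans ?_
    exact le_of_eq (by ring)

theorem ex_asc {n m : ℕ} {p : ℝ} (h0 : 0 ≤ p) (h1 : p ≤ 1) (y : Fin n) :
    Ex (EE n) p (fun ω => (((dn (gr ω) y).card.ascFactorial m : ℕ) : ℝ)) ≤
      (m.factorial : ℝ) * (1 + m * p) ^ n := by
  refine le_trans (le_of_eq (Ex_congr fun ω _ => ?_)) (GMom_ind m h0 h1 y n 0 (by omega))
  have e : GMomA y 0 ω = dn (gr ω) y := by
    ext z
    simp [GMom_mem, mem_dn]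
  rw [e, max_eq_right (card_pos.2 ⟨y, mem_dn.2 Le.rfl⟩)]

theorem ex_tail {n m k : ℕ} (hk : 0 < k) {p : ℝ} (h0 : 0 ≤ p) (h1 : p ≤ 1) (y : Fin n) :
    Ex (EE n) p (fun ω => ((dn (gr ω) y).card : ℝ) ^ 2 * ind (k < (dn (gr ω) y).card)) ≤
      ((m + 2).factorial : ℝ) * (1 + ((m : ℝ) + 2) * p) ^ n / (k : ℝ) ^ m := by
  have hk' : (0 : ℝ) < (k : ℝ) ^ m := by positivity
  have h := ex_asc (m := m + 2) h0 h1 y
  rw [Nat.cast_add, Nat.cast_ofNat] at h
  rw [le_div_iff₀ hk', ← Ex_mul_right]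
  refine le_trans (Ex_mono h0 h1 fun ω _ => ?_) h
  generalize (dn (gr ω) y).card = N
  by_cases hN : k < N
  · rw [ind_pos hN, mul_one]
    have h2 : N ^ 2 * k ^ m ≤ N.ascFactorial (m + 2) := by
      refine le_trans ?_ (Nat.pow_succ_le_ascFactorial N (m + 2))
      rw [pow_add, mul_comm]
      exact Nat.mul_le_mul_right _ (Nat.pow_le_pow_left hN.le m)
    exact_mod_cast h2
  · rw [ind_neg hN, mul_zero, zero_mul]
    positivity

end Pool.Agent.Lib.MP_b735d7_co
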