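import Pool.Agent.Lib.MP_b735d7_co.GDef

/-!
Linear extensions from hash functions and from the bad part.
-/

namespace Pool.Agent.Lib.MP_b735d7_co

open Finset Pool.Agent.Lib.MP_58a483_pr.H80

lemma GReal_pseq {V : Type} [Fintype V] {G : SimpleGraph V} {y : ℕ → V} {T : ℕ}
    (h : PSeq G y T) : T < Fintype.card V := by
  have hi : Function.Injective fun i : Fin (T + 1) => y i := fun i j e =>
    Fin.ext (h.2 i (Nat.lt_succ_iff.1 i.isLt) j (Nat.lt_succ_iff.1 j.isLt) e)
  have := Fintype.card_le_of_injective _ hi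
  rw [Fintype.card_fin] at this
  omega

theorem realized_nobic {V : Type} [LinearOrder V] [Fintype V] {G : SimpleGraph V}
    (h : ∀ e, ¬ Bicyc G e) : Realized G 4 := by
  refine realized4_of (τ := Fintype.card V + 3) (h := 0) (by omega) (Nat.zero_le _)
    (fun e _ => h e) (fun y hy => ?_) (fun y hy => ?_)
  · have := GReal_pseq hy
    omega
  · have := GReal_pseq hy
    omega

lemma GReal_of_fun {V : Type} [LinearOrder V] [Fintype V] {G : SimpleGraph V} {ι : Type}
    [Fintype ι] {d : ℕ} (hd : 0 < d) (hc : Fintype.card ι = d) (f : ι → V → ℕ)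
    (hm : ∀ k x y, x < y → G.Adj x y → f k x ≤ f k y)
    (hs : ∀ a b, a ≠ b → ¬ Below G a b → ∃ k, f k b < f k a) : Realized G d := by
  let e := (Fintype.equivFinOfCardEq hc).symm
  choose ρ h1 h2 h3 using fun k : ι => rank_of_fun (f k)
  refine realized_of_rank hd (fun k => ρ (e k)) (fun k => h1 _)
    (fun k x y hxy ha => h3 _ _ _ (hm _ _ _ hxy ha) hxy) fun a b hab hn => ?_
  obtain ⟨k, hk⟩ := hs a b hab hn
  refine ⟨e.symm k, ?_⟩
  simp only [Equiv.apply_symm_apply]
  exact h2 _ _ _ hk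

lemma GReal_four {n : ℕ} (G : SimpleGraph (Fin n)) (Bad : Finset (Fin n) → Prop)
    (h : Realized (restr G Bad) 4) : ∃ f : Fin 4 → Fin n → ℕ,
      (∀ k x y, x < y → G.Adj x y → f k x ≤ f k y) ∧
      ∀ a b, a ≠ b → ¬ Below G a b → Bad (dn G b) → ∃ k, f k b < f k a := by
  classical
  obtain ⟨L, hL⟩ := h
  have key : ∀ k : Fin 4, ∃ ρ : Fin n → ℕ, ∀ a b, (L k).lt a b → ρ a < ρ b := fun k =>
    @rank_card (Fin n) (Fin n) _ (L k) id
  choose ρ hρ using key
  have tri : ∀ (k : Fin 4) (a b : Fin n), (L k).lt a b ∨ a = b ∨ (L k).lt b a := fun k a b =>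
    @lt_trichotomy (Fin n) (L k) a b
  have big : ∀ k v, ρ k v < univ.sup (ρ k) + 1 := fun k v =>
    Nat.lt_succ_of_le (le_sup (f := ρ k) (mem_univ v))
  refine ⟨fun k v => if InD G Bad v then ρ k v else univ.sup (ρ k) + 1, fun k x y hxy ha => ?_,
    fun a b hab hn hb => ?_⟩
  · by_cases hy : InD G Bad y
    · have hx : InD G Bad x := by
        obtain ⟨w, w1, w2⟩ := hy
        exact ⟨w, w1, (le_of_adj hxy ha).trans w2⟩
      have hb : Below (restr G Bad) x y := below_of_adj hxy ⟨ha, hx, hy⟩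
      simp only [if_pos hx, if_pos hy]
      exact (hρ k _ _ ((hL x y).1 hb k)).le
    · simp only [if_neg hy]
      split_ifs
      · exact (big k x).le
      · exact le_rfl
  · have hb' : InD G Bad b := ⟨b, hb, Le.rfl⟩
    by_cases ha : InD G Bad a
    · have h1 : ¬ Below (restr G Bad) a b := fun k =>
        hn (below_mono (G := restr G Bad) (fun _ _ e => e.1) k)
      rw [hL] at h1
      push Not at h1
      obtain ⟨k, hk⟩ := h1
      refine ⟨k, ?_⟩
      simp only [if_pos ha, if_pos hb']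
      rcases tri k a b with u | u | u
      · exact absurd u hk
      · exact absurd u hab
      · exact hρ _ _ _ u
    · refine ⟨0, ?_⟩
      simp only [if_neg ha, if_pos hb']
      exact big 0 b

lemma GReal_hash {n M u k : ℕ} (lam : Fin n → Fin M) (phi : Fin u → Fin M → Fin k)
    (G : SimpleGraph (Fin n)) : ∃ f : Fin u × Fin k × Bool → Fin n → ℕ,
      (∀ q x y, x < y → G.Adj x y → f q x ≤ f q y) ∧
      ∀ a b, a ≠ b → ¬ Below G a b → ¬ HBad lam phi (dn G b) → ∃ q, f q b < f q a := by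
  refine ⟨fun q y => ((dn G y).filter fun z => phi q.1 (lam z) = q.2.1).sup
    fun z => if q.2.2 then z.val + 1 else n - z.val, fun q x y hxy ha => ?_,
    fun a b hab hn hb => ?_⟩
  · refine sup_mono (filter_subset_filter _ fun z hz => ?_)
    exact mem_dn.2 ((mem_dn.1 hz).trans (le_of_adj hxy ha))
  · unfold HBad at hb
    push Not at hb
    obtain ⟨h1, h2⟩ := hb
    obtain ⟨i, hi⟩ := h2 (lam a)
    have hl : ∀ z ∈ (dn G b).filter fun z => phi i (lam z) = phi i (lam a),
        z ∈ dn G b ∧ lam z = lam a ∧ z ≠ a := fun z hz => by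
      obtain ⟨z1, z2⟩ := mem_filter.1 hz
      refine ⟨z1, by_contra fun e => hi z z1 e z2, ?_⟩
      rintro rfl
      exact (mem_dn.1 z1).elim hab hn
    have ha : a ∈ (dn G a).filter fun z => phi i (lam z) = phi i (lam a) :=
      mem_filter.2 ⟨mem_dn.2 Le.rfl, rfl⟩
    have han := a.isLt
    by_cases hz : ∃ z0 ∈ (dn G b).filter fun z => phi i (lam z) = phi i (lam a), a < z0
    · obtain ⟨z0, z1, z2⟩ := hz
      refine ⟨(i, phi i (lam a), false), lt_of_lt_of_le ?_ (le_sup ha)⟩
      refine (Finset.sup_lt_iff (by simp)).2 fun z hz => ?_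
      have e : z = z0 := by_contra fun e => h1 z (hl z hz).1 z0 (hl z0 z1).1 e
        ((hl z hz).2.1.trans (hl z0 z1).2.1.symm)
      have z3 : a.val < z0.val := z2
      have z4 := z0.isLt
      subst e
      simp only [Bool.false_eq_true, if_false]
      omega
    · push Not at hz
      refine ⟨(i, phi i (lam a), true), lt_of_lt_of_le ?_ (le_sup ha)⟩
      refine (Finset.sup_lt_iff (by simp)).2 fun z hz' => ?_
      have z2 : z < a := lt_of_le_of_ne (hz z hz') (hl z hz').2.2
      have z3 : z.val < a.val := z2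
      simp only [if_true]
      omega

theorem dim_hash {n M u k : ℕ} (lam : Fin n → Fin M) (phi : Fin u → Fin M → Fin k)
    (G : SimpleGraph (Fin n)) (Bad : Finset (Fin n) → Prop) (hB : ∀ S, HBad lam phi S → Bad S)
    (h : ∀ e, ¬ Bicyc (restr G Bad) e) : orderDim G ≤ 2 * (u * k) + 4 := by
  obtain ⟨f, f1, f2⟩ := GReal_hash lam phi G
  obtain ⟨g, g1, g2⟩ := GReal_four G Bad (realized_nobic h)
  refine dim_le (GReal_of_fun (ι := (Fin u × Fin k × Bool) ⊕ Fin 4) (by omega) ?_ (Sum.elim f g)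
    ?_ fun a b hab hn => ?_)
  · simp only [Fintype.card_sum, Fintype.card_prod, Fintype.card_fin, Fintype.card_bool]
    ring
  · rintro (q | q) x y hxy ha
    · exact f1 q x y hxy ha
    · exact g1 q x y hxy ha
  · by_cases hb : Bad (dn G b)
    · obtain ⟨q, hq⟩ := g2 a b hab hn hb
      exact ⟨Sum.inr q, hq⟩
    · obtain ⟨q, hq⟩ := f2 a b hab hn fun e => hb (hB _ e)
      exact ⟨Sum.inl q, hq⟩

end Pool.Agent.Lib.MP_b735d7_co
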