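import Pool.Agent.Lib.MP_b735d7_co.GDense

/-!
A bicyclic path with few valleys.
-/

namespace Pool.Agent.Lib.MP_b735d7_co

open Finset Pool.Agent.Lib.MP_58a483_pr.H80

/-- the rank that drops along parents -/
def GTreeRk {n : ℕ} (lay : Fin n → ℕ) (z : Fin n) : ℕ :=
  lay z * n + (if lay z % 2 = 0 then n - 1 - z.val else z.val)

/-- `y` is an ancestor of `x` -/
def GTreeAnc {n : ℕ} (C : Fin n → Prop) (r : Fin n) (par : Fin n → Fin n) (x y : Fin n) : Prop :=
  Relation.ReflTransGen (fun a b => C a ∧ a ≠ r ∧ b = par a) x y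

/-- tree edges -/
def GTreeE {n : ℕ} (C : Fin n → Prop) (r : Fin n) (par : Fin n → Fin n) (f : Sym2 (Fin n)) : Prop :=
  ∃ v, C v ∧ v ≠ r ∧ f = s(v, par v)

section
variable {n Lm : ℕ} {G : SimpleGraph (Fin n)} {C : Fin n → Prop} {r : Fin n}
  {par : Fin n → Fin n} {lay : Fin n → ℕ}

lemma GTree_rk (hT : TreeD G C r par lay Lm) {z : Fin n} (hz : C z) (hr : z ≠ r) :
    GTreeRk lay (par z) < GTreeRk lay z := by
  obtain ⟨-, -, h1, h2, h3⟩ := hT.step z hz hr
  have b1 := z.isLt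
  have b2 := (par z).isLt
  unfold GTreeRk
  rcases h1.lt_or_eq with h | h
  · have : (lay (par z) + 1) * n ≤ lay z * n := Nat.mul_le_mul_right _ h
    rw [add_mul, one_mul] at this
    split_ifs <;> omega
  · rw [h]
    split_ifs with k
    · have : z.val < (par z).val := h2 k
      omega
    · have : (par z).val < z.val := h3 (by omega)
      omega

lemma GTree_anc (hT : TreeD G C r par lay Lm) {x y : Fin n} (h : GTreeAnc C r par x y)
    (hx : C x) : C y ∧ GTreeRk lay y ≤ GTreeRk lay x ∧ lay y ≤ lay x := by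
  unfold GTreeAnc at h
  induction h with
  | refl => exact ⟨hx, le_rfl, le_rfl⟩
  | tail _ k ih =>
    obtain ⟨k1, k2, rfl⟩ := k
    have := hT.step _ k1 k2
    exact ⟨this.1, (GTree_rk hT k1 k2).le.trans ih.2.1, this.2.2.1.trans ih.2.2⟩

lemma GTree_total {x y y' : Fin n} (h : GTreeAnc C r par x y) (h' : GTreeAnc C r par x y') :
    GTreeAnc C r par y y' ∨ GTreeAnc C r par y' y :=
  Relation.ReflTransGen.total_of_right_unique
    (fun _ _ _ k k' => k.2.2.trans k'.2.2.symm) h h'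

lemma GTree_head {x y : Fin n} (h : GTreeAnc C r par x y) (hne : x ≠ y) :
    GTreeAnc C r par (par x) y := by
  rcases Relation.ReflTransGen.cases_head h with k | ⟨c, ⟨-, -, rfl⟩, k⟩
  · exact absurd k hne
  · exact k

lemma GTree_step {x y : Fin n} (h : GTreeAnc C r par x y) (hy : C y) (hr : y ≠ r) :
    GTreeAnc C r par x (par y) :=
  Relation.ReflTransGen.tail h ⟨hy, hr, rfl⟩

lemma GTree_root (hT : TreeD G C r par lay Lm) (x : Fin n) (hx : C x) : GTreeAnc C r par x r := by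
  induction hk : GTreeRk lay x using Nat.strong_induction_on generalizing x with
  | _ k ih =>
    by_cases hr : x = r
    · subst hr
      exact Relation.ReflTransGen.refl
    · exact Relation.ReflTransGen.head ⟨hx, hr, rfl⟩
        (ih _ (hk ▸ GTree_rk hT hx hr) _ (hT.step x hx hr).1 rfl)

lemma GTree_inj (hT : TreeD G C r par lay Lm) {v w : Fin n} (hv : C v) (hv' : v ≠ r) (hw : C w)
    (hw' : w ≠ r) (h : s(v, par v) = s(w, par w)) : v = w := by
  rcases Sym2.eq_iff.1 h with ⟨a, -⟩ | ⟨a, b⟩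
  · exact a
  · have h1 := GTree_rk hT hv hv'
    have h2 := GTree_rk hT hw hw'
    rw [b] at h1
    rw [← a] at h2
    omega

/-- two edges of a bicyclic path are not tree edges -/
lemma GTree_two {H : SimpleGraph (Fin n)} (hT : TreeD G C r par lay Lm)
    (hC : ∀ a b, C a → H.Adj a b → C b) {e i j : ℕ} {z : ℕ → Fin n} (hz : PSeq H z e)
    (h0 : C (z 0)) (hi : 2 ≤ i) (hie : i ≤ e) (hj : j + 2 ≤ e) (a1 : H.Adj (z 0) (z i))
    (a2 : H.Adj (z e) (z j)) (hn : ¬ (i = e ∧ j = 0)) :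
    ∃ a b c d, H.Adj a b ∧ H.Adj c d ∧ C a ∧ C b ∧ C c ∧ C d ∧ s(a, b) ≠ s(c, d) ∧
      ¬ GTreeE C r par s(a, b) ∧ ¬ GTreeE C r par s(c, d) := by
  classical
  have hall : ∀ l ≤ e, C (z l) := by
    intro l
    induction l with
    | zero => exact fun _ => h0
    | succ l ih => exact fun hl => hC _ _ (ih (by omega)) (hz.1 l (by omega))
  have hB : ∀ f ∈ BicE z e i j, ∃ k ≤ e, ∃ l ≤ e, f = s(z k, z l) ∧ H.Adj (z k) (z l) := by
    intro f hf
    rcases mem_insert.1 hf with rfl | hf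
    · exact ⟨0, by omega, i, hie, rfl, a1⟩
    rcases mem_insert.1 hf with rfl | hf
    · exact ⟨e, le_rfl, j, by omega, rfl, a2⟩
    obtain ⟨k, hk, rfl⟩ := mem_image.1 hf
    have hk1 : k < e := by simpa using hk
    exact ⟨k, by omega, k + 1, by omega, rfl, hz.1 k hk1⟩
  have hcard : (BicE z e i j).card = e + 2 := Bic_card ⟨hz.2, hi, hie, hj, hn⟩
  obtain ⟨v0, hv0, hmin⟩ := exists_min_image ((range (e + 1)).image z) (GTreeRk lay)
    ⟨z 0, mem_image.2 ⟨0, by simp, rfl⟩⟩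
  have hsub : (BicE z e i j).filter (GTreeE C r par) ⊆
      (((range (e + 1)).image z).erase v0).image fun v => s(v, par v) := by
    intro f hf
    obtain ⟨hf1, v, hv, hv', rfl⟩ := mem_filter.1 hf
    obtain ⟨k, hk, l, hl, he, -⟩ := hB _ hf1
    have mk : z k ∈ (range (e + 1)).image z := mem_image.2 ⟨k, mem_range.2 (by omega), rfl⟩
    have ml : z l ∈ (range (e + 1)).image z := mem_image.2 ⟨l, mem_range.2 (by omega), rfl⟩
    have m : v ∈ (range (e + 1)).image z ∧ par v ∈ (range (e + 1)).image z := by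
      rcases Sym2.eq_iff.1 he with ⟨x, y⟩ | ⟨x, y⟩
      · exact ⟨x ▸ mk, y ▸ ml⟩
      · exact ⟨x ▸ ml, y ▸ mk⟩
    refine mem_image.2 ⟨v, mem_erase.2 ⟨fun k => ?_, m.1⟩, rfl⟩
    have h1 := hmin _ m.2
    have h2 := GTree_rk hT hv hv'
    rw [← k] at h1
    omega
  have c1 : ((BicE z e i j).filter (GTreeE C r par)).card ≤ e := by
    refine (card_le_card hsub).trans (card_image_le.trans ?_)
    rw [card_erase_of_mem hv0]
    have : ((range (e + 1)).image z).card ≤ e + 1 := card_image_le.trans (by simp)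
    omega
  have c2 := card_filter_add_card_filter_not (s := BicE z e i j) (GTreeE C r par)
  obtain ⟨f, hf, g, hg, hfg⟩ := one_lt_card.1
    (show 1 < ((BicE z e i j).filter fun f => ¬ GTreeE C r par f).card by omega)
  obtain ⟨f1, f2⟩ := mem_filter.1 hf
  obtain ⟨g1, g2⟩ := mem_filter.1 hg
  obtain ⟨k, hk, l, hl, rfl, ha⟩ := hB _ f1
  obtain ⟨k', hk', l', hl', rfl, ha'⟩ := hB _ g1
  exact ⟨_, _, _, _, ha, ha', hall k hk, hall l hl, hall k' hk', hall l' hl', hfg, f2, g2⟩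

/-- the first of four chains of ancestors through `v` -/
noncomputable def GTreeM (C : Fin n → Prop) (r : Fin n) (par : Fin n → Fin n) (t : ℕ → Fin n)
    (v : Fin n) : ℕ := sInf {m | m < 4 ∧ GTreeAnc C r par (t m) v}

lemma GTree_m {t : ℕ → Fin n} {v : Fin n} (h : ∃ m < 4, GTreeAnc C r par (t m) v) :
    GTreeM C r par t v < 4 ∧ GTreeAnc C r par (t (GTreeM C r par t v)) v :=
  Nat.sInf_mem (s := {m | m < 4 ∧ GTreeAnc C r par (t m) v}) h

lemma GTree_mle {t : ℕ → Fin n} {x v : Fin n} (h : ∃ m < 4, GTreeAnc C r par (t m) x)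
    (k : GTreeAnc C r par x v) : GTreeM C r par t v ≤ GTreeM C r par t x :=
  Nat.sInf_le ⟨(GTree_m h).1, Relation.ReflTransGen.trans (GTree_m h).2 k⟩

/-- paths that use tree edges of four chains, except at the four ends, have few valleys -/
lemma GTree_val (hT : TreeD G C r par lay Lm) {t : ℕ → Fin n} (ht : ∀ m < 4, C (t m))
    {y : ℕ → Fin n} {e : ℕ} (hy : ∀ i ≤ e, ∀ j ≤ e, y i = y j → i = j)
    (hE : ∀ i ≤ e, ∀ j ≤ e, (i + 1 = j ∨ j + 1 = i) → (∃ m < 4, y i = t m) ∨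
      ∃ v, (∃ m < 4, GTreeAnc C r par (t m) v) ∧ v ≠ r ∧ s(y i, y j) = s(v, par v)) :
    valCount y e ≤ 4 * Lm + 8 := by
  classical
  have hC : ∀ {v}, (∃ m < 4, GTreeAnc C r par (t m) v) → C v := fun ⟨m, hm, h⟩ =>
    (GTree_anc hT h (ht m hm)).1
  have one : ∀ {x}, C x → x ≠ r → GTreeAnc C r par x (par x) := fun hx hr =>
    Relation.ReflTransGen.single ⟨hx, hr, rfl⟩
  let col : Fin n → ℕ × ℕ := fun v => (GTreeM C r par t v, lay v)
  let P : Fin n → ℕ × ℕ → Prop := fun v c => (c.2 = Lm + 1 ∧ v = t c.1) ∨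
    ∃ x, (∃ m < 4, GTreeAnc C r par (t m) x) ∧ x ≠ r ∧ par x = v ∧ col x = c ∧ col x ≠ col v
  have sq : ∀ {x x'}, (∃ m < 4, GTreeAnc C r par (t m) x) → x ≠ r → GTreeAnc C r par x x' →
      x ≠ x' → col x = col x' → col x = col (par x) := by
    intro x x' hx hr ha hne hc
    have a1 := GTree_head ha hne
    have w1 : ∃ m < 4, GTreeAnc C r par (t m) (par x) := by
      obtain ⟨m, hm, h⟩ := hx
      exact ⟨m, hm, GTree_step h (hC ⟨m, hm, h⟩) hr⟩
    have m1 := GTree_mle w1 a1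
    have m2 := GTree_mle hx (one (hC hx) hr)
    have l1 := (GTree_anc hT a1 (hC w1)).2.2
    have l2 := (hT.step x (hC hx) hr).2.2.1
    have e1 : GTreeM C r par t x = GTreeM C r par t x' := congrArg Prod.fst hc
    have e2 : lay x = lay x' := congrArg Prod.snd hc
    exact Prod.ext (show GTreeM C r par t x = GTreeM C r par t (par x) by omega)
      (show lay x = lay (par x) by omega)
  have cmp : ∀ {x x'}, (∃ m < 4, GTreeAnc C r par (t m) x) → (∃ m < 4, GTreeAnc C r par (t m) x') →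
      GTreeM C r par t x = GTreeM C r par t x' →
      GTreeAnc C r par x x' ∨ GTreeAnc C r par x' x := fun hx hx' h =>
    GTree_total (GTree_m hx).2 (h ▸ (GTree_m hx').2)
  have uniq : ∀ v v' c, P v c → P v' c → v = v' := by
    rintro v v' c (⟨h1, h2⟩ | ⟨x, hx, hr, rfl, hc, hd⟩) (⟨k1, k2⟩ | ⟨x', hx', hr', rfl, hc', hd'⟩)
    · exact h2.trans k2.symm
    · have b := hT.bound x' (hC hx')
      have : lay x' = c.2 := congrArg Prod.snd hc'
      omega
    · have b := hT.bound x (hC hx)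
      have : lay x = c.2 := congrArg Prod.snd hc
      omega
    · by_cases hne : x = x'
      · rw [hne]
      have e := hc.trans hc'.symm
      rcases cmp hx hx' (congrArg Prod.fst e) with a | a
      · exact absurd (sq hx hr a hne e) hd
      · exact absurd (sq hx' hr' a (Ne.symm hne) e.symm) hd'
  have mem : ∀ {x}, (∃ m < 4, GTreeAnc C r par (t m) x) → col x ∈ range 4 ×ˢ range (Lm + 2) := by
    intro x hx
    have b := hT.bound x (hC hx)
    exact mem_product.2 ⟨mem_range.2 (GTree_m hx).1, mem_range.2 (show lay x < Lm + 2 by omega)⟩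
  have mixed : ∀ {v x}, C v → v ≠ r → v < par v → C x → x ≠ r → par x = v → v < x →
      col x ≠ col v := by
    intro v x hv hvr h1 hx hxr hp h2 hc
    have e2 : lay x = lay v := congrArg Prod.snd hc
    obtain ⟨-, -, -, -, s1⟩ := hT.step v hv hvr
    obtain ⟨-, -, -, s2, -⟩ := hT.step x hx hxr
    rcases Nat.mod_two_eq_zero_or_one (lay v) with k | k
    · have := s2 (e2 ▸ k)
      rw [hp] at this
      exact lt_asymm this h2
    · exact lt_asymm (s1 k) h1
  have ex : ∀ i ∈ (Ioo 0 e).filter (fun i => ValAt y i),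
      ∃ c, c ∈ range 4 ×ˢ range (Lm + 2) ∧ P (y i) c := by
    intro i hi
    obtain ⟨hi1, v1, v2⟩ := mem_filter.1 hi
    obtain ⟨i0, ie⟩ := mem_Ioo.1 hi1
    have ends : (∃ m < 4, y i = t m) → ∃ c, c ∈ range 4 ×ˢ range (Lm + 2) ∧ P (y i) c := by
      rintro ⟨m, hm, h⟩
      exact ⟨(m, Lm + 1), mem_product.2 ⟨mem_range.2 hm, mem_range.2 (by simp)⟩, Or.inl ⟨rfl, h⟩⟩
    have hne : y (i - 1) ≠ y (i + 1) := fun k => by
      have := hy _ (by omega) _ (by omega) k
      omega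
    rcases hE i (by omega) (i - 1) (by omega) (by omega) with h | ⟨u, hu, hur, eu⟩
    · exact ends h
    rcases hE i (by omega) (i + 1) (by omega) (by omega) with h | ⟨w, hw, hwr, ew⟩
    · exact ends h
    rcases Sym2.eq_iff.1 eu with ⟨p1, p2⟩ | ⟨p1, p2⟩ <;>
      rcases Sym2.eq_iff.1 ew with ⟨q1, q2⟩ | ⟨q1, q2⟩
    · exact absurd (by rw [p2, q2, ← p1, ← q1]) hne
    · refine ⟨col w, mem hw, Or.inr ⟨w, hw, hwr, q1.symm, rfl, ?_⟩⟩
      rw [p1]
      exact mixed (hC hu) hur (by rw [← p2, ← p1]; exact v1) (hC hw) hwr (q1.symm.trans p1)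
        (by rw [← q2, ← p1]; exact v2)
    · refine ⟨col u, mem hu, Or.inr ⟨u, hu, hur, p1.symm, rfl, ?_⟩⟩
      rw [q1]
      exact mixed (hC hw) hwr (by rw [← q2, ← q1]; exact v2) (hC hu) hur (p1.symm.trans q1)
        (by rw [← p2, ← q1]; exact v1)
    · have huw : u ≠ w := fun k => hne (by rw [p2, q2, k])
      have hm : GTreeM C r par t u ≠ GTreeM C r par t w := by
        intro k
        have r1 := GTree_rk hT (hC hu) hur
        have r2 := GTree_rk hT (hC hw) hwr
        rcases cmp hu hw k with a | a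
        · have := (GTree_anc hT (GTree_head a huw) (hT.step u (hC hu) hur).1).2.1
          rw [← p1] at this
          rw [← q1] at r2
          omega
        · have := (GTree_anc hT (GTree_head a huw.symm) (hT.step w (hC hw) hwr).1).2.1
          rw [← q1] at this
          rw [← p1] at r1
          omega
      by_cases k : col u = col (y i)
      · refine ⟨col w, mem hw, Or.inr ⟨w, hw, hwr, q1.symm, rfl, fun k' => hm ?_⟩⟩
        exact congrArg Prod.fst (k.trans k'.symm)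
      · exact ⟨col u, mem hu, Or.inr ⟨u, hu, hur, p1.symm, rfl, k⟩⟩
  have fin : ((Ioo 0 e).filter (fun i => ValAt y i)).card ≤ (range 4 ×ˢ range (Lm + 2)).card := by
    refine card_le_card_of_forall_subsingleton (fun i c => P (y i) c) ex fun c _ => ?_
    rintro i ⟨hi, pi⟩ j ⟨hj, pj⟩
    have i1 := (mem_Ioo.1 (mem_filter.1 (mem_coe.1 hi)).1).2
    have j1 := (mem_Ioo.1 (mem_filter.1 (mem_coe.1 hj)).1).2
    exact hy i i1.le j j1.le (uniq _ _ _ pi pj)
  rw [card_product, card_range, card_range] at fin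
  unfold valCount
  refine le_trans (le_of_eq ?_) (fin.trans (by omega))
  congr

end

theorem bicV_of_tree {n Lm : ℕ} {G H : SimpleGraph (Fin n)} (hH : H ≤ G) {C : Fin n → Prop}
    {r : Fin n} {par : Fin n → Fin n} {lay : Fin n → ℕ} (hT : TreeD G C r par lay Lm)
    (hC : ∀ a b, C a → H.Adj a b → C b) {e i j : ℕ} {z : ℕ → Fin n} (hz : PSeq H z e)
    (h0 : C (z 0)) (hi : 2 ≤ i) (hie : i ≤ e) (hj : j + 2 ≤ e) (a1 : H.Adj (z 0) (z i))
    (a2 : H.Adj (z e) (z j)) (hn : ¬ (i = e ∧ j = 0)) : BicycV G (4 * Lm + 8) := by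
  classical
  obtain ⟨a, b, c, d, hab, hcd, ca, cb, cc, cd, hne, n1, n2⟩ :=
    GTree_two hT hC hz h0 hi hie hj a1 a2 hn
  let t : ℕ → Fin n := fun m => if m = 0 then a else if m = 1 then b else if m = 2 then c else d
  have ht : ∀ m < 4, C (t m) := fun m _ => by
    simp only [t]
    split_ifs <;> assumption
  let W : Finset (Fin n) := univ.filter fun v => ∃ m < 4, GTreeAnc C r par (t m) v
  have mW : ∀ {v}, v ∈ W ↔ ∃ m < 4, GTreeAnc C r par (t m) v := by simp [W]
  have cW : ∀ {v}, v ∈ W → C v := fun hv => by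
    obtain ⟨m, hm, h⟩ := mW.1 hv
    exact (GTree_anc hT h (ht m hm)).1
  have tW : ∀ m < 4, t m ∈ W := fun m hm => mW.2 ⟨m, hm, Relation.ReflTransGen.refl⟩
  have rW : r ∈ W := mW.2 ⟨0, by omega, GTree_root hT _ (ht 0 (by omega))⟩
  let F0 : Finset (Sym2 (Fin n)) := (W.erase r).image fun v => s(v, par v)
  have tF : ∀ f ∈ F0, GTreeE C r par f := fun f hf => by
    obtain ⟨v, hv, rfl⟩ := mem_image.1 hf
    exact ⟨v, cW (mem_erase.1 hv).2, (mem_erase.1 hv).1, rfl⟩
  have c0 : F0.card = W.card - 1 := by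
    rw [card_image_of_injOn, card_erase_of_mem rW]
    intro v hv w hw h
    have hv' := mem_erase.1 (mem_coe.1 hv)
    have hw' := mem_erase.1 (mem_coe.1 hw)
    exact GTree_inj hT (cW hv'.2) hv'.1 (cW hw'.2) hw'.1 h
  let F : Finset (Sym2 (Fin n)) := insert s(a, b) (insert s(c, d) F0)
  have cF : W.card < F.card := by
    have := card_pos.2 ⟨r, rW⟩
    rw [card_insert_of_notMem, card_insert_of_notMem (fun k => n2 (tF _ k)), c0]
    · omega
    · intro k
      rcases mem_insert.1 k with k | k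
      · exact hne k
      · exact n1 (tF _ k)
  have hF : ∀ f ∈ F, f ∈ G.edgeSet ∧ ∀ x ∈ f, x ∈ W := by
    intro f hf
    rcases mem_insert.1 hf with rfl | hf
    · refine ⟨hH hab, fun x hx => ?_⟩
      rcases Sym2.mem_iff.1 hx with rfl | rfl
      · exact tW 0 (by omega)
      · exact tW 1 (by omega)
    rcases mem_insert.1 hf with rfl | hf
    · refine ⟨hH hcd, fun x hx => ?_⟩
      rcases Sym2.mem_iff.1 hx with rfl | rfl
      · exact tW 2 (by omega)
      · exact tW 3 (by omega)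
    obtain ⟨v, hv, rfl⟩ := mem_image.1 hf
    obtain ⟨v1, v2⟩ := mem_erase.1 hv
    refine ⟨(hT.step v (cW v2) v1).2.1, fun x hx => ?_⟩
    rcases Sym2.mem_iff.1 hx with rfl | rfl
    · exact v2
    · obtain ⟨m, hm, h⟩ := mW.1 v2
      exact mW.2 ⟨m, hm, GTree_step h (cW v2) v1⟩
  have le : gr F ≤ G := fun x y h => (hF _ (gr_adj.1 h).1).1
  obtain ⟨e', y, i', j', hy, b1, b2, b3, b4, b5, b6⟩ := bic_of_dense (gr F) W F
    (fun f hf => ⟨by
      induction f using Sym2.ind with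
      | _ x y => exact gr_adj.2 ⟨hf, G.ne_of_adj (hF _ hf).1⟩, (hF f hf).2⟩) cF
  refine ⟨e', y, i', j', ⟨fun k hk => le (hy.1 k hk), hy.2⟩, b1, b2, b3, le b4, le b5, b6,
    GTree_val hT ht hy.2 fun k hk l hl hkl => ?_⟩
  have m : s(y k, y l) ∈ F := by
    rcases hkl with rfl | rfl
    · exact (gr_adj.1 (hy.1 k (by omega))).1
    · exact (gr_adj.1 (hy.1 l (by omega)).symm).1
  rcases mem_insert.1 m with h | m
  · left
    rcases Sym2.eq_iff.1 h with ⟨x, -⟩ | ⟨x, -⟩
    · exact ⟨0, by omega, x⟩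
    · exact ⟨1, by omega, x⟩
  rcases mem_insert.1 m with h | m
  · left
    rcases Sym2.eq_iff.1 h with ⟨x, -⟩ | ⟨x, -⟩
    · exact ⟨2, by omega, x⟩
    · exact ⟨3, by omega, x⟩
  obtain ⟨v, hv, h⟩ := mem_image.1 m
  exact Or.inr ⟨v, mW.1 (mem_erase.1 hv).2, (mem_erase.1 hv).1, h.symm⟩

end Pool.Agent.Lib.MP_b735d7_co
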