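import Pool.Agent.Lib.MP_b735d7_co.GDef

/-!
First moment of bicyclic paths with few valleys.
-/

namespace Pool.Agent.Lib.MP_b735d7_co

open Finset Pool.Agent.Lib.MP_58a483_pr.H80

open Classical in
/-- the weight of a sequence: a factor `μ` for each valley, zero for a repeated point -/
noncomputable def gvalW {n : ℕ} (μ : ℝ) (y : ℕ → Fin n) : ℕ → ℝ
  | 0 => 1
  | e + 1 => gvalW μ y e *
      (if y e = y (e + 1) then 0 else if (0 < e ∧ y e < y (e - 1)) ∧ y e < y (e + 1) then μ else 1)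

open Classical in
/-- the supersolution -/
noncomputable def gvalF {n : ℕ} (r : ℝ) (s : Prop) (x : Fin n) : ℝ :=
  if s then 2 * r ^ x.val else 2 * r ^ (2 * n - 1 - x.val)

lemma gval_nonneg {n : ℕ} {μ : ℝ} (h : 0 ≤ μ) (y : ℕ → Fin n) (e : ℕ) : 0 ≤ gvalW μ y e := by
  induction e with
  | zero => exact zero_le_one
  | succ e ih =>
    refine mul_nonneg ih ?_
    split_ifs
    · exact le_rfl
    · exact h
    · exact zero_le_one

lemma gval_congr {n : ℕ} (μ : ℝ) {y y' : ℕ → Fin n} {e : ℕ} (h : ∀ i ≤ e, y i = y' i) :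
    gvalW μ y e = gvalW μ y' e := by
  induction e with
  | zero => rfl
  | succ e ih =>
    simp only [gvalW]
    rw [ih fun i hi => h i (by omega), h e (by omega), h (e + 1) le_rfl, h (e - 1) (by omega)]

lemma gval_eq {n : ℕ} (μ : ℝ) {y : ℕ → Fin n} {e : ℕ} (h : ∀ i < e, y i ≠ y (i + 1)) :
    gvalW μ y e = μ ^ valCount y e := by
  classical
  induction e with
  | zero => simp [gvalW, valCount]
  | succ e ih =>
    simp only [gvalW]
    rw [ih fun i hi => h i (by omega), if_neg (h e (by omega))]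
    unfold valCount
    rcases Nat.eq_zero_or_pos e with rfl | he
    · have h1 : Ioo 0 (0 + 1) = (∅ : Finset ℕ) := by decide
      rw [h1]
      simp
    · have h1 : Ioo 0 (e + 1) = insert e (Ioo 0 e) := by
        ext i
        simp only [mem_Ioo, mem_insert]
        omega
      rw [h1, filter_insert]
      by_cases hv : ValAt y e
      · rw [if_pos hv, if_pos ⟨⟨he, hv.1⟩, hv.2⟩, card_insert_of_notMem (by simp), pow_succ]
      · rw [if_neg hv, if_neg fun k => hv ⟨k.1.2, k.2⟩, mul_one]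

lemma gval_geo1 (q : ℝ) {x m : ℕ} (h : x ≤ m) :
    q * ∑ y ∈ range m, (if y < x then (1 + q) ^ y else 0) = (1 + q) ^ x - 1 := by
  rw [← sum_filter]
  have : (range m).filter (· < x) = range x := by
    ext i
    simp only [mem_filter, mem_range]
    omega
  rw [this, ← geom_sum_mul (1 + q) x, add_sub_cancel_left, mul_comm]

lemma gval_geo2 (q : ℝ) {x m N : ℕ} (h : x + 1 ≤ m) (hN : m ≤ N + 1) :
    q * ∑ y ∈ range m, (if x < y then (1 + q) ^ (N - y) else 0) =
      (1 + q) ^ (N - x) - (1 + q) ^ (N + 1 - m) := by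
  induction m, h using Nat.le_induction with
  | base =>
    rw [sum_eq_zero fun y hy => if_neg (by have := mem_range.1 hy; omega),
      show N + 1 - (x + 1) = N - x by omega]
    ring
  | succ m hm ih =>
    rw [sum_range_succ, mul_add, ih (by omega), if_pos (by omega),
      show N + 1 - m = N - m + 1 by omega, show N + 1 - (m + 1) = N - m by omega]
    ring

open Classical in
lemma gval_super {n : ℕ} {q μ : ℝ} (hq : 0 ≤ q) (hμ : μ * (2 * (1 + q) ^ (2 * n)) = 1)
    (hμ0 : 0 ≤ μ) (s : Prop) (x : Fin n) :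
    1 + q * ∑ y : Fin n, (if x = y then 0 else if s ∧ x < y then μ else 1) *
      gvalF (1 + q) (y < x) y ≤ gvalF (1 + q) s x := by
  have hx := x.2
  have hr : 1 ≤ 1 + q := by linarith
  have e : ∀ y : Fin n, (if x = y then 0 else if s ∧ x < y then μ else 1) *
      gvalF (1 + q) (y < x) y =
      (if s then μ else 1) * 2 * (if x.val < y.val then (1 + q) ^ (2 * n - 1 - y.val) else 0) +
        2 * (if y.val < x.val then (1 + q) ^ y.val else 0) := by
    intro y
    unfold gvalF
    rcases lt_trichotomy x y with h | h | h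
    · have h' : x.val < y.val := h
      simp only [h, h.ne, h.not_gt, h', h'.not_gt, if_true, if_false, and_true]
      split_ifs <;> ring
    · simp [h]
    · have h' : y.val < x.val := h
      simp only [h, h.ne', h.not_gt, h', h'.not_gt, if_true, if_false, and_false]
      ring
  have g1 := gval_geo1 q hx.le
  have g2 := gval_geo2 q (x := x.val) (m := n) (N := 2 * n - 1) hx (by omega)
  rw [show 2 * n - 1 + 1 - n = n by omega] at g2
  simp only [e, sum_add_distrib, ← mul_sum]
  rw [Fin.sum_univ_eq_sum_range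
      (fun y => if x.val < y then (1 + q) ^ (2 * n - 1 - y) else 0) n,
    Fin.sum_univ_eq_sum_range (fun y => if y < x.val then (1 + q) ^ y else 0) n]
  set A := ∑ y ∈ range n, (if x.val < y then (1 + q) ^ (2 * n - 1 - y) else 0)
  set B := ∑ y ∈ range n, (if y < x.val then (1 + q) ^ y else 0)
  have p1 : (1 + q) ^ x.val ≤ (1 + q) ^ n := pow_le_pow_right₀ hr hx.le
  have p2 : (1 + q) ^ (2 * n - 1 - x.val) ≤ (1 + q) ^ (2 * n) := pow_le_pow_right₀ hr (by omega)
  have p3 : 0 ≤ (1 + q) ^ n := by positivity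
  unfold gvalF
  split_ifs
  · have : μ * (q * A) ≤ μ * (1 + q) ^ (2 * n) :=
      mul_le_mul_of_nonneg_left (by linarith) hμ0
    nlinarith
  · nlinarith

lemma gval_snoc {V : Type} {e : ℕ} (f : Fin (e + 1) → V) (a : V) :
    (∀ i ≤ e, ext (Fin.snoc f a : Fin (e + 1 + 1) → V) i = ext f i) ∧
      ext (Fin.snoc f a : Fin (e + 1 + 1) → V) (e + 1) = a := by
  constructor
  · intro i hi
    have h1 : i < e + 1 := by omega
    have h2 : i < e + 1 + 1 := by omega
    simp only [ext, dif_pos h1, dif_pos h2]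
    exact Fin.snoc_castSucc (α := fun _ => V) a f ⟨i, h1⟩
  · simp only [ext, dif_pos (Nat.lt_succ_self (e + 1))]
    exact Fin.snoc_last (α := fun _ => V) a f

lemma gval_sum {n : ℕ} {q μ : ℝ} (hq : 0 ≤ q) (hμ : μ * (2 * (1 + q) ^ (2 * n)) = 1)
    (hμ0 : 0 ≤ μ) (E : ℕ) :
    ∑ e ∈ range E, ∑ f : Fin (e + 1) → Fin n, q ^ e * gvalW μ (ext f) e ≤
      n * (2 * (1 + q) ^ (2 * n)) := by
  classical
  have hr : 1 ≤ 1 + q := by linarith
  have key : ∑ e ∈ range E, ∑ f : Fin (e + 1) → Fin n, q ^ e * gvalW μ (ext f) e +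
      ∑ f : Fin (E + 1) → Fin n, q ^ E * gvalW μ (ext f) E *
        gvalF (1 + q) (0 < E ∧ ext f E < ext f (E - 1)) (ext f E) ≤
      n * (2 * (1 + q) ^ (2 * n)) := by
    induction E with
    | zero =>
      rw [sum_range_zero, zero_add]
      refine (sum_le_card_nsmul _ _ (2 * (1 + q) ^ (2 * n)) fun f _ => ?_).trans (by simp)
      simp only [gvalW, gvalF, lt_irrefl, false_and, if_false, pow_zero, one_mul]
      exact mul_le_mul_of_nonneg_left (pow_le_pow_right₀ hr (by omega)) zero_le_two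
    | succ E ih =>
      refine le_trans ?_ ih
      rw [sum_range_succ, add_assoc]
      refine add_le_add le_rfl ?_
      rw [← (Fin.snocEquiv fun _ : Fin (E + 1 + 1) => Fin n).sum_comp, Fintype.sum_prod_type,
        sum_comm, ← sum_add_distrib]
      refine sum_le_sum fun f _ => ?_
      have h := mul_le_mul_of_nonneg_left
        (gval_super hq hμ hμ0 (0 < E ∧ ext f E < ext f (E - 1)) (ext f E))
        (mul_nonneg (pow_nonneg hq E) (gval_nonneg hμ0 (ext f) E))
      refine le_trans (le_of_eq ?_) h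
      rw [mul_add, mul_one, mul_sum, mul_sum]
      congr 1
      refine sum_congr rfl fun a _ => ?_
      obtain ⟨h1, h2⟩ := gval_snoc f a
      show q ^ (E + 1) * gvalW μ (ext (Fin.snoc f a : Fin (E + 1 + 1) → Fin n)) (E + 1) *
        gvalF (1 + q) (0 < E + 1 ∧ ext (Fin.snoc f a : Fin (E + 1 + 1) → Fin n) (E + 1) <
          ext (Fin.snoc f a : Fin (E + 1 + 1) → Fin n) (E + 1 - 1))
          (ext (Fin.snoc f a : Fin (E + 1 + 1) → Fin n) (E + 1)) = _
      simp only [gvalW, Nat.add_sub_cancel, Nat.zero_lt_succ, true_and]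
      rw [gval_congr μ h1, h2, h1 E le_rfl, h1 (E - 1) (by omega)]
      ring_nf
  refine le_trans (le_add_of_nonneg_right (sum_nonneg fun f _ => ?_)) key
  refine mul_nonneg (mul_nonneg (pow_nonneg hq E) (gval_nonneg hμ0 _ _)) ?_
  unfold gvalF
  split_ifs <;> positivity

lemma gval_sq (e : ℕ) : (e + 1) ^ 2 ≤ 4 * 2 ^ e := by
  induction e with
  | zero => norm_num
  | succ e ih =>
    have : e < 2 ^ e := Nat.lt_two_pow_self
    rw [pow_succ 2 e]
    nlinarith

theorem pr_bicV {n v : ℕ} {p : ℝ} (h0 : 0 ≤ p) (h1 : p ≤ 1) :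
    Pr n p (fun G => BicycV G v) ≤ 4 * p ^ 2 * n * (2 * (1 + 2 * p) ^ (2 * n)) ^ (v + 1) := by
  set B : ℝ := 2 * (1 + 2 * p) ^ (2 * n) with hB
  have hB1 : 1 ≤ B := by
    have : (1 : ℝ) ≤ (1 + 2 * p) ^ (2 * n) := one_le_pow₀ (by linarith)
    linarith
  have hB0 : 0 < B := by linarith
  have hμ0 : 0 ≤ B⁻¹ := by positivity
  have step : ∀ ω : Finset (Sym2 (Fin n)), ind (BicycV (gr ω) v) ≤
      ∑ e ∈ range n, ∑ i ∈ range (e + 1), ∑ j ∈ range (e + 1), ∑ f : Fin (e + 1) → Fin n,
        ind ((BicOk (ext f) e i j ∧ 1 ≤ B ^ v * gvalW B⁻¹ (ext f) e) ∧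
          BicE (ext f) e i j ⊆ ω) := by
    intro ω
    refine le_trans (ind_mono (Q := ∃ e ∈ range n, ∃ i ∈ range (e + 1), ∃ j ∈ range (e + 1),
      ∃ f ∈ (univ : Finset (Fin (e + 1) → Fin n)),
        (BicOk (ext f) e i j ∧ 1 ≤ B ^ v * gvalW B⁻¹ (ext f) e) ∧ BicE (ext f) e i j ⊆ ω) ?_) ?_
    · rintro ⟨e, z, i, j, hz, h2, h3, h4, h5, h6, h7, h8⟩
      have he : e < n := by
        simpa using Bic_lt (W := univ) (u := z 0)
          ⟨hz, fun _ _ => mem_univ _, 0, Nat.zero_le _, rfl⟩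
      have r : ∀ a ≤ e, ext (fun j : Fin (e + 1) => z j) a = z a := fun a ha => ext_res z ha
      refine ⟨e, mem_range.2 he, i, mem_range.2 (by omega), j, mem_range.2 (by omega),
        fun j => z j, mem_univ _, ⟨⟨fun a ha b hb hab => ?_, h2, h3, h4, h7⟩, ?_⟩, ?_⟩
      · rw [r a ha, r b hb] at hab
        exact hz.2 a ha b hb hab
      · rw [gval_congr _ r, gval_eq _ fun a ha => (hz.1 a ha).ne, inv_pow,
          ← div_eq_mul_inv, one_le_div (by positivity)]
        exact pow_le_pow_right₀ hB1 h8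
      · rw [BicE, r 0 (by omega), r i h3, r e le_rfl, r j (by omega), pe_congr r]
        exact insert_subset (gr_adj.1 h5).1 (insert_subset (gr_adj.1 h6).1 (pe_sub hz))
    · refine (ind_exists_le _ _).trans (sum_le_sum fun e _ => ?_)
      refine (ind_exists_le _ _).trans (sum_le_sum fun i _ => ?_)
      refine (ind_exists_le _ _).trans (sum_le_sum fun j _ => ?_)
      exact ind_exists_le _ _
  have one : ∀ (e i j : ℕ) (f : Fin (e + 1) → Fin n),
      Ex (EE n) p (fun ω => ind ((BicOk (ext f) e i j ∧ 1 ≤ B ^ v * gvalW B⁻¹ (ext f) e) ∧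
        BicE (ext f) e i j ⊆ ω)) ≤ p ^ (e + 2) * (B ^ v * gvalW B⁻¹ (ext f) e) := by
    intro e i j f
    by_cases hk : BicOk (ext f) e i j ∧ 1 ≤ B ^ v * gvalW B⁻¹ (ext f) e
    · refine le_trans ?_ (le_mul_of_one_le_right (by positivity) hk.2)
      rw [← Bic_card hk.1, ← Ex_sup (Bic_sub hk.1)]
      exact Ex_mono h0 h1 fun _ _ => ind_mono fun k => k.2
    · refine le_trans (Ex_mono h0 h1 (g := fun _ => 0) fun _ _ => ?_) ?_
      · exact (ind_neg fun k => hk k.1).le
      · rw [Ex_const]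
        have := gval_nonneg hμ0 (ext f) e
        positivity
  have tot := gval_sum (n := n) (q := 2 * p) (μ := B⁻¹) (by linarith) (inv_mul_cancel₀ hB0.ne')
    hμ0 n
  unfold Pr
  refine (Ex_mono h0 h1 fun ω _ => step ω).trans ?_
  simp only [Ex_sum]
  calc _ ≤ ∑ e ∈ range n, 4 * p ^ 2 * B ^ v *
        ∑ f : Fin (e + 1) → Fin n, (2 * p) ^ e * gvalW B⁻¹ (ext f) e := by
        refine sum_le_sum fun e _ => ?_
        refine (sum_le_sum fun i _ => sum_le_sum fun j _ => sum_le_sum fun f _ =>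
          one e i j f).trans ?_
        simp only [sum_const, card_range, nsmul_eq_mul, mul_sum]
        refine sum_le_sum fun f _ => ?_
        have a1 : ((e + 1 : ℕ) : ℝ) ^ 2 ≤ 4 * 2 ^ e := by exact_mod_cast gval_sq e
        have a2 : 0 ≤ p ^ (e + 2) * (B ^ v * gvalW B⁻¹ (ext f) e) := by
          have := gval_nonneg hμ0 (ext f) e
          positivity
        calc _ = ((e + 1 : ℕ) : ℝ) ^ 2 * (p ^ (e + 2) * (B ^ v * gvalW B⁻¹ (ext f) e)) := by ring
          _ ≤ 4 * 2 ^ e * (p ^ (e + 2) * (B ^ v * gvalW B⁻¹ (ext f) e)) :=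
            mul_le_mul_of_nonneg_right a1 a2
          _ = _ := by rw [mul_pow]; ring
    _ ≤ 4 * p ^ 2 * B ^ v * (n * B) := by
        rw [← mul_sum]
        exact mul_le_mul_of_nonneg_left tot (by positivity)
    _ = _ := by ring

end Pool.Agent.Lib.MP_b735d7_co
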