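import Pool.Agent.Lib.MP_b735d7_co.GHash
import Pool.Agent.Lib.MP_b735d7_co.GMom
import Pool.Agent.Lib.MP_b735d7_co.GReal
import Pool.Agent.Lib.MP_b735d7_co.GChain
import Pool.Agent.Lib.MP_b735d7_co.GChP
import Pool.Agent.Lib.MP_b735d7_co.GLay
import Pool.Agent.Lib.MP_b735d7_co.GTree
import Pool.Agent.Lib.MP_b735d7_co.GVal

/-!
The exponential upper bound.
-/

namespace Pool.Agent.Lib.MP_b735d7_co

open Finset Filter Topology Pool.Agent.Lib.MP_58a483_pr.H80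

lemma GUp_nobic {n L : ℕ} {G : SimpleGraph (Fin n)} {Bad : Finset (Fin n) → Prop}
    (h1 : ¬ Ind G Bad L) (h2 : ¬ BicycV G (8 * L + 8)) (e : ℕ) : ¬ Bicyc (restr G Bad) e := by
  rintro ⟨z, i, j, hz, hi, hie, hj, a1, a2, hn⟩
  obtain ⟨C, r, par, lay, hT, hx, hC⟩ := tree_of_noind h1 a1.2.1
  refine h2 ?_
  have := bicV_of_tree (G := G) (H := restr G Bad) (fun _ _ k => k.1) hT hC hz hx hi hie hj a1 a2 hn
  rwa [show 4 * (2 * L) + 8 = 8 * L + 8 by ring] at this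

lemma GUp_core {n M u k m j : ℕ} (hM : 0 < M) (hk : 0 < k) {p : ℝ} (h0 : 0 ≤ p) (h1 : p ≤ 1 / 2) :
    Pr n p (fun G => ¬ orderDim G ≤ 2 * (u * (2 * k)) + 4) ≤
      n * (n * (((m + 2).factorial : ℝ) * (1 + ((m : ℝ) + 2) * p) ^ n / (k : ℝ) ^ m +
        (k : ℝ) ^ 2 * ((k : ℝ) ^ 2 / M + M / 2 ^ u)) *
          (2 * (p * (1 + p) ^ n) + n * (p * (1 + p) ^ n) ^ 2)) ^ j +
      4 * p ^ 2 * n * (2 * (1 + 2 * p) ^ (2 * n)) ^ (16 * j + 9) := by
  have h1' : p ≤ 1 := by linarith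
  obtain ⟨lam, phi, hh⟩ := hash_avg (n := n) (u := u) hM hk h0 h1'
  set Bad : Finset (Fin n) → Prop := fun S => k < S.card ∨ HBad lam phi S with hBad
  have hm : ∀ S T, S ⊆ T → Bad S → Bad T := by
    rintro S T hST (h | ⟨z, hz, z', hz', h⟩ | ⟨a, h⟩)
    · exact Or.inl (h.trans_le (card_le_card hST))
    · exact Or.inr (Or.inl ⟨z, hST hz, z', hST hz', h⟩)
    · refine Or.inr (Or.inr ⟨a, fun i => ?_⟩)
      obtain ⟨z, hz, h'⟩ := h i
      exact ⟨z, hST hz, h'⟩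
  have hβ : ∑ y : Fin n, Ex (EE n) p
      (fun ω => ((dn (gr ω) y).card : ℝ) ^ 2 * ind (Bad (dn (gr ω) y))) ≤
      n * (((m + 2).factorial : ℝ) * (1 + ((m : ℝ) + 2) * p) ^ n / (k : ℝ) ^ m +
        (k : ℝ) ^ 2 * ((k : ℝ) ^ 2 / M + M / 2 ^ u)) := by
    have e1 : ∀ y : Fin n, Ex (EE n) p
        (fun ω => ((dn (gr ω) y).card : ℝ) ^ 2 * ind (Bad (dn (gr ω) y))) ≤
        ((m + 2).factorial : ℝ) * (1 + ((m : ℝ) + 2) * p) ^ n / (k : ℝ) ^ m +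
        (k : ℝ) ^ 2 * Pr n p (fun G => (dn G y).card ≤ k ∧ HBad lam phi (dn G y)) := by
      intro y
      refine le_trans ?_ (add_le_add (ex_tail (m := m) hk h0 h1' y) le_rfl)
      unfold Pr
      rw [← Ex_mul_left, ← Ex_add]
      refine Ex_mono h0 h1' fun ω _ => ?_
      by_cases c1 : k < (dn (gr ω) y).card
      · rw [ind_pos c1, ind_pos (show Bad _ from Or.inl c1)]
        have := ind_nonneg ((dn (gr ω) y).card ≤ k ∧ HBad lam phi (dn (gr ω) y))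
        have h2 : (0 : ℝ) ≤ (k : ℝ) ^ 2 := by positivity
        linarith [mul_nonneg h2 this]
      · rw [ind_neg c1]
        by_cases c2 : HBad lam phi (dn (gr ω) y)
        · rw [ind_pos (show Bad _ from Or.inr c2), ind_pos ⟨not_lt.1 c1, c2⟩]
          have : ((dn (gr ω) y).card : ℝ) ≤ k := by exact_mod_cast not_lt.1 c1
          have h3 : ((dn (gr ω) y).card : ℝ) ^ 2 ≤ (k : ℝ) ^ 2 := by gcongr
          linarith
        · rw [ind_neg (show ¬ Bad _ from fun h => h.elim c1 c2), ind_neg fun h => c2 h.2]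
          simp
    refine (sum_le_sum fun y _ => e1 y).trans ?_
    rw [sum_add_distrib, ← mul_sum, sum_const, card_univ, Fintype.card_fin, nsmul_eq_mul]
    have h2 : (0 : ℝ) ≤ (k : ℝ) ^ 2 := by positivity
    have := mul_le_mul_of_nonneg_left hh h2
    linarith
  have b1 := pr_chain h0 h1 hm hβ j
  have b2 := pr_bicV (n := n) (v := 8 * (2 * j) + 8) h0 h1'
  rw [show 8 * (2 * j) + 8 + 1 = 16 * j + 9 by ring] at b2
  have b3 : Pr n p (fun G => Ind G Bad (2 * j)) ≤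
      ∑ z : Fin n, Ex (EE n) p (fun ω => ind (Chain Bad j z ω)) := by
    unfold Pr
    rw [← Ex_sum]
    refine Ex_mono h0 h1' fun ω _ => le_trans (ind_mono fun h => ?_) (ind_exists_le univ _)
    obtain ⟨z, hz⟩ := chain_of_ind h
    exact ⟨z, mem_univ _, hz⟩
  refine le_trans (Pr_mono h0 h1'
    (B := fun G => Ind G Bad (2 * j) ∨ BicycV G (8 * (2 * j) + 8)) fun G hG => ?_) ?_
  · by_contra hn
    rw [not_or] at hn
    exact hG (dim_hash lam phi G Bad (fun S h => Or.inr h) (GUp_nobic hn.1 hn.2))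
  · have := Pr_or h0 h1' (fun G : SimpleGraph (Fin n) => Ind G Bad (2 * j))
      (fun G => BicycV G (8 * (2 * j) + 8))
    linarith

lemma GUp_pow {n : ℕ} (hn : 0 < n) {c a : ℝ} (hc : 0 ≤ c) (ha : 0 ≤ a) :
    (1 + a * (c / n)) ^ n ≤ Real.exp (a * c) := by
  have hn' : (0 : ℝ) < n := by exact_mod_cast hn
  calc (1 + a * (c / n)) ^ n ≤ (Real.exp (a * (c / n))) ^ n := by
        gcongr
        linarith [Real.add_one_le_exp (a * (c / n))]
    _ = Real.exp (a * c) := by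
        rw [← Real.exp_nat_mul]
        congr 1
        field_simp

lemma GUp_tail {m k : ℕ} {E X : ℝ} (hE : 0 < E) (hk : 2 * ((m : ℝ) + 2) * E ≤ k) (hX0 : 0 ≤ X)
    (hX : X ≤ E ^ (m + 2)) :
    ((m + 2).factorial : ℝ) * X / (k : ℝ) ^ m ≤ (((m : ℝ) + 2) * E) ^ 2 / 2 ^ m := by
  have a0 : (0 : ℝ) < ((m : ℝ) + 2) * E := by positivity
  have a1 : ((m + 2).factorial : ℝ) ≤ ((m : ℝ) + 2) ^ (m + 2) := by
    exact_mod_cast Nat.factorial_le_pow (m + 2)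
  have a2 : (2 * (((m : ℝ) + 2) * E)) ^ m ≤ (k : ℝ) ^ m := by
    gcongr
    linarith
  calc ((m + 2).factorial : ℝ) * X / (k : ℝ) ^ m
      ≤ ((m : ℝ) + 2) ^ (m + 2) * E ^ (m + 2) / (2 * (((m : ℝ) + 2) * E)) ^ m := by gcongr
    _ = (((m : ℝ) + 2) * E) ^ 2 / 2 ^ m := by
        rw [← mul_pow, mul_pow 2, pow_add]
        field_simp

lemma GUp_beta {t k a : ℝ} (ht : 2 ≤ t) (ha0 : 0 ≤ a) (ha : a ≤ t ^ 12) (hk0 : 0 ≤ k)
    (hk : k ≤ t ^ 14) :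
    a ^ 2 / t ^ 330 + k ^ 2 * (k ^ 2 / t ^ 360 + t ^ 360 / t ^ 700) ≤ 1 / t ^ 302 := by
  have t0 : 0 < t := by linarith
  have t1 : 1 ≤ t := by linarith
  have b1 : a ^ 2 / t ^ 330 ≤ 1 / t ^ 304 := by
    calc a ^ 2 / t ^ 330 ≤ (t ^ 12) ^ 2 / t ^ 330 := by gcongr
      _ = 1 / t ^ 306 := by field_simp
      _ ≤ 1 / t ^ 304 := by
        gcongr
        norm_num
  have b2 : k ^ 2 * (k ^ 2 / t ^ 360) ≤ 1 / t ^ 304 := by
    calc k ^ 2 * (k ^ 2 / t ^ 360) ≤ (t ^ 14) ^ 2 * ((t ^ 14) ^ 2 / t ^ 360) := by gcongr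
      _ = 1 / t ^ 304 := by field_simp
  have b3 : k ^ 2 * (t ^ 360 / t ^ 700) ≤ 1 / t ^ 304 := by
    calc k ^ 2 * (t ^ 360 / t ^ 700) ≤ (t ^ 14) ^ 2 * (t ^ 360 / t ^ 700) := by gcongr
      _ = 1 / t ^ 312 := by field_simp
      _ ≤ 1 / t ^ 304 := by
        gcongr
        norm_num
  have b4 : 3 * (1 / t ^ 304) ≤ 1 / t ^ 302 := by
    rw [show 1 / t ^ 302 = t ^ 2 * (1 / t ^ 304) by field_simp]
    gcongr
    nlinarith
  rw [mul_add]
  linarith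

lemma GUp_log {B : ℕ} (hB : 1 < B) : Tendsto (fun n : ℕ => Nat.log B n) atTop atTop := by
  refine tendsto_atTop.2 fun b => ?_
  filter_upwards [eventually_ge_atTop (B ^ b)] with n hn
  exact Nat.le_log_of_pow_le hB hn

theorem upper_exp {c : ℝ} (hc : 1 ≤ c) : Tendsto (fun n : ℕ => Pr n (c / n)
    fun G => ¬ (orderDim G : ℝ) ≤ 10 ^ 7 * c ^ 2 * Real.exp c) atTop (𝓝 0) := by
  obtain ⟨s, hs1, hs2⟩ : ∃ s : ℕ, c ≤ s ∧ (s : ℝ) ≤ 2 * c :=
    ⟨⌈c⌉₊, Nat.le_ceil c, by linarith [Nat.ceil_lt_add_one (show 0 ≤ c by linarith)]⟩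
  have s1 : (1 : ℝ) ≤ s := hc.trans hs1
  have s1' : 1 ≤ s := by exact_mod_cast s1
  set E := Real.exp c with hE
  have E1 : 1 ≤ E := Real.one_le_exp (by linarith)
  obtain ⟨T, hT⟩ : ∃ T : ℕ, T = 2 ^ s := ⟨_, rfl⟩
  have T2 : 2 ≤ T := by
    rw [hT]
    exact le_self_pow₀ (by norm_num) (by omega)
  have t2 : (2 : ℝ) ≤ T := by exact_mod_cast T2
  have t0 : (0 : ℝ) < T := by linarith
  have t1 : (1 : ℝ) ≤ T := by linarith
  have st : (s : ℝ) ≤ T := by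
    rw [hT]
    exact_mod_cast (Nat.lt_two_pow_self).le
  have ct : c ≤ T := hs1.trans st
  have Et : E ≤ (T : ℝ) ^ 2 := by
    calc E ≤ Real.exp s := Real.exp_le_exp.2 hs1
      _ = Real.exp 1 ^ s := by rw [← Real.exp_nat_mul, mul_one]
      _ ≤ 4 ^ s := by
        gcongr
        linarith [Real.exp_one_lt_d9]
      _ = (T : ℝ) ^ 2 := by
        rw [hT]
        push_cast
        rw [← pow_mul, mul_comm, pow_mul]
        norm_num
  have tp : ∀ a : ℕ, (2 : ℝ) ^ (a * s) = (T : ℝ) ^ a := fun a => by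
    rw [hT]
    push_cast
    rw [← pow_mul, mul_comm]
  obtain ⟨m, hm⟩ : ∃ m : ℕ, m = 330 * s := ⟨_, rfl⟩
  have m1 : (m : ℝ) + 2 ≤ 332 * s := by
    rw [hm]
    push_cast
    linarith
  have t9 : (512 : ℝ) ≤ (T : ℝ) ^ 9 := by
    calc (512 : ℝ) = 2 ^ 9 := by norm_num
      _ ≤ (T : ℝ) ^ 9 := by gcongr
  have m2 : ((m : ℝ) + 2) * E ≤ (T : ℝ) ^ 12 := by
    calc ((m : ℝ) + 2) * E ≤ (332 * s) * E := by gcongr
      _ ≤ ((T : ℝ) ^ 9 * T) * (T : ℝ) ^ 2 := by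
        gcongr
        linarith
      _ = (T : ℝ) ^ 12 := by ring
  obtain ⟨k, k1, k2⟩ : ∃ k : ℕ, 2 * ((m : ℝ) + 2) * E ≤ k ∧ (k : ℝ) ≤ 2 * ((m : ℝ) + 2) * E + 1 :=
    ⟨⌈2 * ((m : ℝ) + 2) * E⌉₊, Nat.le_ceil _, (Nat.ceil_lt_add_one (by positivity)).le⟩
  have k0 : 0 < k := by
    have : (0 : ℝ) < k := lt_of_lt_of_le (by positivity) k1
    exact_mod_cast this
  have k3 : (k : ℝ) ≤ (T : ℝ) ^ 14 := by
    have a : (1 : ℝ) ≤ (T : ℝ) ^ 12 := one_le_pow₀ t1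
    have b : (4 : ℝ) ≤ (T : ℝ) ^ 2 := by nlinarith
    calc (k : ℝ) ≤ 4 * (T : ℝ) ^ 12 := by linarith
      _ ≤ (T : ℝ) ^ 2 * (T : ℝ) ^ 12 := by gcongr
      _ = _ := by ring
  have hd : ((2 * (700 * s * (2 * k)) + 4 : ℕ) : ℝ) ≤ 10 ^ 7 * c ^ 2 * E := by
    push_cast
    have a1 : (k : ℝ) ≤ 665 * s * E := by nlinarith [mul_le_mul s1 E1 zero_le_one (by linarith)]
    have a2 : (k : ℝ) ≤ 1330 * c * E := by nlinarith
    have a3 : (s : ℝ) * k ≤ (2 * c) * (1330 * c * E) := by gcongr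
    have a4 : 1 ≤ c ^ 2 * E := by nlinarith
    nlinarith
  have hB : 1 < T ^ 288 := one_lt_pow₀ (by omega) (by norm_num)
  have hp : Tendsto (fun n : ℕ => c / n) atTop (𝓝 0) := tendsto_const_div_atTop_nhds_zero_nat c
  have hlim : Tendsto (fun j : ℕ => ((T : ℝ) ^ 288 + 4 * c ^ 2 * (T : ℝ) ^ 81) * (1 / 2 : ℝ) ^ j)
      atTop (𝓝 0) := by
    simpa using (tendsto_pow_atTop_nhds_zero_of_lt_one (r := (1 / 2 : ℝ)) (by norm_num)
      (by norm_num)).const_mul ((T : ℝ) ^ 288 + 4 * c ^ 2 * (T : ℝ) ^ 81)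
  refine squeeze_zero' ?_ ?_ (hlim.comp (GUp_log hB))
  · filter_upwards [hp.eventually (gt_mem_nhds (by norm_num : (0 : ℝ) < 1 / 2))] with n hn
    exact Pr_nonneg (by positivity) (by linarith) _
  · filter_upwards [hp.eventually (gt_mem_nhds (by norm_num : (0 : ℝ) < 1 / 2)),
      eventually_ge_atTop 1] with n p1 n1
    simp only [Function.comp]
    have hlt : n < (T ^ 288) ^ (Nat.log (T ^ 288) n + 1) := Nat.lt_pow_succ_log_self hB n
    have hle : (T ^ 288) ^ (Nat.log (T ^ 288) n) ≤ n := Nat.pow_log_le_self _ (by omega)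
    generalize Nat.log (T ^ 288) n = j at *
    have hlt' : (n : ℝ) ≤ ((T : ℝ) ^ 288) ^ (j + 1) := by exact_mod_cast hlt.le
    have hle' : ((T : ℝ) ^ 288) ^ j ≤ n := by exact_mod_cast hle
    have n0 : (0 : ℝ) < n := by exact_mod_cast n1
    have c0 : 0 ≤ c := by linarith
    have p0 : 0 ≤ c / n := by positivity
    refine le_trans (Pr_mono p0 (by linarith)
      (B := fun G => ¬ orderDim G ≤ 2 * (700 * s * (2 * k)) + 4) fun G hG h => hG ?_) ?_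
    · exact le_trans (by exact_mod_cast h) hd
    refine (GUp_core (M := T ^ 360) (m := m) (j := j) (by positivity) k0 p0 p1.le).trans ?_
    have e1 : (1 + c / n) ^ n ≤ (T : ℝ) ^ 2 := by
      have := GUp_pow n1 c0 zero_le_one
      rw [one_mul, one_mul] at this
      exact this.trans Et
    have e2 : (1 + ((m : ℝ) + 2) * (c / n)) ^ n ≤ E ^ (m + 2) := by
      refine (GUp_pow n1 c0 (by positivity)).trans (le_of_eq ?_)
      rw [hE, ← Real.exp_nat_mul]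
      push_cast
      rfl
    have e3 : 2 * (1 + 2 * (c / n)) ^ (2 * n) ≤ (T : ℝ) ^ 9 := by
      have a : (1 + 2 * (c / n)) ^ n ≤ E ^ 2 := by
        refine (GUp_pow n1 c0 (by positivity)).trans (le_of_eq ?_)
        rw [hE, ← Real.exp_nat_mul]
        push_cast
        rfl
      calc 2 * (1 + 2 * (c / n)) ^ (2 * n) = 2 * ((1 + 2 * (c / n)) ^ n) ^ 2 := by
            rw [← pow_mul, mul_comm n 2]
        _ ≤ T * (((T : ℝ) ^ 2) ^ 2) ^ 2 := by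
            gcongr
            exact a.trans (by gcongr)
        _ = _ := by ring
    have e4 := GUp_tail (by linarith) k1 (by positivity) e2
    rw [show (2 : ℝ) ^ m = (T : ℝ) ^ 330 by rw [hm, tp]] at e4
    have e5 := GUp_beta t2 (by positivity) m2 (by positivity) k3
    have e6 : ((m + 2).factorial : ℝ) * (1 + ((m : ℝ) + 2) * (c / n)) ^ n / (k : ℝ) ^ m +
        (k : ℝ) ^ 2 * ((k : ℝ) ^ 2 / ((T ^ 360 : ℕ) : ℝ) + ((T ^ 360 : ℕ) : ℝ) / 2 ^ (700 * s)) ≤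
        1 / (T : ℝ) ^ 302 := by
      rw [tp, Nat.cast_pow]
      linarith
    have e7 : 2 * (c / n * (1 + c / n) ^ n) + n * (c / n * (1 + c / n) ^ n) ^ 2 ≤
        (T : ℝ) ^ 8 / n := by
      have a : c / n * (1 + c / n) ^ n ≤ (T : ℝ) ^ 3 / n := by
        calc c / n * (1 + c / n) ^ n ≤ T / n * (T : ℝ) ^ 2 := by gcongr
          _ = _ := by ring
      have b : 2 * (T : ℝ) ^ 3 + (T : ℝ) ^ 6 ≤ (T : ℝ) ^ 8 := by
        have u1 : (T : ℝ) ^ 3 ≤ (T : ℝ) ^ 6 := pow_le_pow_right₀ t1 (by norm_num)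
        have u2 : (4 : ℝ) ≤ (T : ℝ) ^ 2 := by nlinarith
        have u3 : 4 * (T : ℝ) ^ 6 ≤ (T : ℝ) ^ 2 * (T : ℝ) ^ 6 := by gcongr
        have u4 : (0 : ℝ) ≤ (T : ℝ) ^ 6 := by positivity
        nlinarith
      calc 2 * (c / n * (1 + c / n) ^ n) + n * (c / n * (1 + c / n) ^ n) ^ 2
          ≤ 2 * ((T : ℝ) ^ 3 / n) + n * ((T : ℝ) ^ 3 / n) ^ 2 := by gcongr
        _ = (2 * (T : ℝ) ^ 3 + (T : ℝ) ^ 6) / n := by field_simp
        _ ≤ _ := by gcongr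
    have e8 : (T : ℝ) ^ 288 * (n * (1 / (T : ℝ) ^ 302) * ((T : ℝ) ^ 8 / n)) ≤ 1 / 2 := by
      have : (T : ℝ) ^ 288 * (n * (1 / (T : ℝ) ^ 302) * ((T : ℝ) ^ 8 / n)) = 1 / (T : ℝ) ^ 6 := by
        field_simp
      rw [this]
      gcongr
      exact t2.trans (le_self_pow₀ t1 (by norm_num))
    have e9 : ((T : ℝ) ^ 9) ^ 16 / (T : ℝ) ^ 288 ≤ 1 / 2 := by
      have : ((T : ℝ) ^ 9) ^ 16 / (T : ℝ) ^ 288 = 1 / (T : ℝ) ^ 144 := by field_simp
      rw [this]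
      gcongr
      exact t2.trans (le_self_pow₀ t1 (by norm_num))
    rw [add_mul ((T : ℝ) ^ 288)]
    refine add_le_add ?_ ?_
    · calc _ ≤ ((T : ℝ) ^ 288) ^ (j + 1) *
            (n * (1 / (T : ℝ) ^ 302) * ((T : ℝ) ^ 8 / n)) ^ j := by gcongr
        _ = (T : ℝ) ^ 288 *
            ((T : ℝ) ^ 288 * (n * (1 / (T : ℝ) ^ 302) * ((T : ℝ) ^ 8 / n))) ^ j := by
            rw [mul_pow ((T : ℝ) ^ 288), pow_succ]
            ring
        _ ≤ _ := by gcongr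
    · calc _ ≤ 4 * (c / n) ^ 2 * n * ((T : ℝ) ^ 9) ^ (16 * j + 9) := by gcongr
        _ = 4 * c ^ 2 * (T : ℝ) ^ 81 * ((((T : ℝ) ^ 9) ^ 16) ^ j / n) := by
            rw [pow_add, pow_mul]
            field_simp
        _ ≤ 4 * c ^ 2 * (T : ℝ) ^ 81 * ((((T : ℝ) ^ 9) ^ 16) ^ j / ((T : ℝ) ^ 288) ^ j) := by
            gcongr
        _ ≤ _ := by
            rw [← div_pow]
            gcongr

end Pool.Agent.Lib.MP_b735d7_co
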