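import Pool.Agent.Lib.MP_b735d7_co.Base

/-!
Few branch vertices on a path.
-/

namespace Pool.Agent.Lib.MP_b735d7_co

open Finset

section aux
variable {V : Type} {G : SimpleGraph V}

/-- a short walk leaves the path at position `j` and returns to the path or to itself -/
def klBad (G : SimpleGraph V) (y : ℕ → V) (T h j : ℕ) : Prop :=
  ∃ z r, NB G z r ∧ z 0 = y j ∧ z 1 ≠ y (j - 1) ∧ z 1 ≠ y (j + 1) ∧ 1 ≤ r ∧ r ≤ 2 * h ∧
    ((∃ m ≤ T, z r = y m) ∨ ∃ i, 1 ≤ i ∧ i < r ∧ z r = z i)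

/-- the vertex set that a bad position contributes -/
def klGad (G : SimpleGraph V) (y : ℕ → V) (T h j : ℕ) : Prop :=
  ∃ (X : Finset V) (α β : ℕ), X.card ≤ 2 * h ∧ α ≤ j ∧ j ≤ β ∧ β ≤ T ∧
    ∀ W : Finset V, X ⊆ W → (∀ m, α ≤ m → m ≤ β → y m ∈ W) →
      (∀ x ∈ X, ∃ a ∈ W, ∃ b ∈ W, a ≠ b ∧ G.Adj x a ∧ G.Adj x b) ∧
      (∃ c ∈ W, G.Adj (y j) c ∧ c ≠ y (j - 1) ∧ c ≠ y (j + 1)) ∧
      (∃ c ∈ W, G.Adj (y α) c ∧ c ≠ y (α + 1)) ∧ (∃ c ∈ W, G.Adj (y β) c ∧ c ≠ y (β - 1))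

lemma kl_gad {y : ℕ → V} {T h j : ℕ} (hy : PSeq G y T) (hj : j ≤ T) (hb : klBad G y T h j) :
    klGad G y T h j := by
  classical
  obtain ⟨z, r0, hz, z0, z1, z2, hr1, hr2, hr3⟩ := hb
  have hex : ∃ r, 1 ≤ r ∧ ((∃ m ≤ T, z r = y m) ∨ ∃ i, 1 ≤ i ∧ i < r ∧ z r = z i) :=
    ⟨r0, hr1, hr3⟩
  obtain ⟨r, ⟨r1, hr⟩, hmin, hle⟩ : ∃ r, (1 ≤ r ∧ ((∃ m ≤ T, z r = y m) ∨
      ∃ i, 1 ≤ i ∧ i < r ∧ z r = z i)) ∧ (∀ i, 1 ≤ i → i < r → ∀ m ≤ T, z i ≠ y m) ∧ r ≤ r0 :=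
    ⟨Nat.find hex, Nat.find_spec hex,
      fun i h1 h2 m hm e => Nat.find_min hex h2 ⟨h1, Or.inl ⟨m, hm, e⟩⟩,
      Nat.find_min' hex ⟨hr1, hr3⟩⟩
  obtain ⟨m, hm, hcase⟩ : ∃ m ≤ T, z r = y m ∨ (m = j ∧ ∃ i, 1 ≤ i ∧ i < r ∧ z r = z i) := by
    rcases hr with ⟨m, hm, e⟩ | e
    · exact ⟨m, hm, Or.inl e⟩
    · exact ⟨j, hj, Or.inr ⟨rfl, e⟩⟩
  refine ⟨(Ico 1 r).image z, min j m, max j m, card_image_le.trans (by simp; omega),
    min_le_left _ _, le_max_left _ _, max_le hj hm, fun W hX hW => ?_⟩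
  have hin : ∀ i ≤ r, z i ∈ W := by
    have h0 : ∀ i, 1 ≤ i → i < r → z i ∈ W := fun i a b =>
      hX (mem_image.2 ⟨i, mem_Ico.2 ⟨a, b⟩, rfl⟩)
    intro i hi
    rcases Nat.eq_zero_or_pos i with rfl | hi0
    · rw [z0]
      exact hW j (min_le_left _ _) (le_max_left _ _)
    · rcases hi.lt_or_eq with hi | rfl
      · exact h0 i hi0 hi
      · rcases hcase with e | ⟨-, i', a, b, e⟩
        · rw [e]
          exact hW m (min_le_right _ _) (le_max_right _ _)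
        · rw [e]
          exact h0 i' a b
  have hc : G.Adj (y j) (z 1) := z0 ▸ hz.1 0 (by omega)
  have hlast : m ≠ j → G.Adj (y m) (z (r - 1)) := fun hne => by
    rcases hcase with e | ⟨e, -⟩
    · have := hz.1 (r - 1) (by omega)
      rw [show r - 1 + 1 = r by omega, e] at this
      exact this.symm
    · exact absurd e hne
  have hne : ∀ m' ≤ T, m ≠ j → (m' = m + 1 ∨ m' + 1 = m) → z (r - 1) ≠ y m' := by
    intro m' hm' hmj hmm e
    rcases Nat.lt_or_ge 1 r with h1 | h1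
    · exact hmin (r - 1) (by omega) (by omega) m' hm' e
    · obtain rfl : r = 1 := by omega
      rcases hcase with e' | ⟨e', -⟩
      · have : j = m' := hy.2 j hj m' hm' (z0.symm.trans e)
        rcases hmm with k | k
        · exact z1 (e'.trans (by congr 1; omega))
        · exact z2 (e'.trans (by congr 1; omega))
      · exact hmj e'
  refine ⟨fun x hx => ?_, ⟨z 1, hin 1 r1, hc, z1, z2⟩, ?_, ?_⟩
  · obtain ⟨i, hi, rfl⟩ := mem_image.1 hx
    obtain ⟨a, b⟩ := mem_Ico.1 hi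
    obtain ⟨i, rfl⟩ : ∃ i', i = i' + 1 := ⟨i - 1, by omega⟩
    exact ⟨z (i + 2), hin _ (by omega), z i, hin _ (by omega), hz.2 i (by omega),
      hz.1 (i + 1) (by omega), (hz.1 i (by omega)).symm⟩
  · rcases le_or_gt j m with k | k
    · rw [min_eq_left k]
      exact ⟨z 1, hin 1 r1, hc, z2⟩
    · rw [min_eq_right k.le]
      exact ⟨z (r - 1), hin _ (by omega), hlast k.ne, hne _ (by omega) k.ne (Or.inl rfl)⟩
  · rcases le_or_gt m j with k | k
    · rw [max_eq_left k]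
      exact ⟨z 1, hin 1 r1, hc, z1⟩
    · rw [max_eq_right k.le]
      exact ⟨z (r - 1), hin _ (by omega), hlast k.ne',
        hne _ (by omega) k.ne' (Or.inr (by omega))⟩

lemma kl_no3 {y : ℕ → V} {R T h j1 j2 j3 : ℕ} (hy : PSeq G y T) (h1 : H1 G R)
    (hR : T + 1 + 6 * h ≤ R) (a12 : j1 < j2) (a23 : j2 < j3) (g1 : klGad G y T h j1)
    (g2 : klGad G y T h j2) (g3 : klGad G y T h j3) : False := by
  classical
  obtain ⟨X1, α1, β1, c1, p1, q1, t1, G1⟩ := g1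
  obtain ⟨X2, α2, β2, c2, p2, q2, t2, G2⟩ := g2
  obtain ⟨X3, α3, β3, c3, p3, q3, t3, G3⟩ := g3
  obtain ⟨a, ha1, ha2, ha3, ha⟩ : ∃ a, a ≤ α1 ∧ a ≤ α2 ∧ a ≤ α3 ∧ (a = α1 ∨ a = α2 ∨ a = α3) :=
    ⟨min α1 (min α2 α3), by omega, by omega, by omega, by omega⟩
  obtain ⟨b, hb1, hb2, hb3, hb⟩ : ∃ b, β1 ≤ b ∧ β2 ≤ b ∧ β3 ≤ b ∧ (b = β1 ∨ b = β2 ∨ b = β3) :=
    ⟨max β1 (max β2 β3), by omega, by omega, by omega, by omega⟩
  have hbT : b ≤ T := by omega
  set W : Finset V := X1 ∪ X2 ∪ X3 ∪ (Icc a b).image y with hW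
  have hyW : ∀ m, a ≤ m → m ≤ b → y m ∈ W := fun m k1 k2 =>
    mem_union_right _ (mem_image.2 ⟨m, mem_Icc.2 ⟨k1, k2⟩, rfl⟩)
  obtain ⟨u1, -, v1, w1⟩ := G1 W (fun x hx => by simp [hW, hx])
    fun m k1 k2 => hyW m (by omega) (by omega)
  obtain ⟨u2, ⟨c, hcW, hc, hc1, hc2⟩, v2, w2⟩ := G2 W (fun x hx => by simp [hW, hx])
    fun m k1 k2 => hyW m (by omega) (by omega)
  obtain ⟨u3, -, v3, w3⟩ := G3 W (fun x hx => by simp [hW, hx])
    fun m k1 k2 => hyW m (by omega) (by omega)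
  have hcard : W.card ≤ R := by
    have e1 := card_union_le (X1 ∪ X2 ∪ X3) ((Icc a b).image y)
    have e2 := card_union_le (X1 ∪ X2) X3
    have e3 := card_union_le X1 X2
    have e4 : ((Icc a b).image y).card ≤ (Icc a b).card := card_image_le
    rw [Nat.card_Icc] at e4
    rw [hW]
    omega
  have hprev : ∀ m, 1 ≤ m → m ≤ T → G.Adj (y m) (y (m - 1)) := fun m k1 k2 => by
    have := hy.1 (m - 1) (by omega)
    rw [show m - 1 + 1 = m by omega] at this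
    exact this.symm
  have hdist : ∀ m, 1 ≤ m → m < T → y (m - 1) ≠ y (m + 1) := fun m k1 k2 e => by
    have := hy.2 (m - 1) (by omega) (m + 1) (by omega) e
    omega
  have hMD : MD G W := by
    intro x hx
    simp only [hW, mem_union] at hx
    rcases hx with ((hx | hx) | hx) | hx
    · exact u1 x hx
    · exact u2 x hx
    · exact u3 x hx
    · obtain ⟨m, hm, rfl⟩ := mem_image.1 hx
      obtain ⟨k1, k2⟩ := mem_Icc.1 hm
      rcases k1.lt_or_eq with k1 | rfl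
      · rcases k2.lt_or_eq with k2 | rfl
        · exact ⟨y (m - 1), hyW _ (by omega) (by omega), y (m + 1), hyW _ (by omega) (by omega),
            hdist m (by omega) (by omega), hprev m (by omega) (by omega), hy.1 m (by omega)⟩
        · obtain ⟨d, d1, d2, d3⟩ : ∃ d ∈ W, G.Adj (y m) d ∧ d ≠ y (m - 1) := by
            rcases hb with rfl | rfl | rfl
            exacts [w1, w2, w3]
          exact ⟨d, d1, y (m - 1), hyW _ (by omega) (by omega), d3, d2,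
            hprev m (by omega) (by omega)⟩
      · obtain ⟨d, d1, d2, d3⟩ : ∃ d ∈ W, G.Adj (y a) d ∧ d ≠ y (a + 1) := by
          rcases ha with rfl | rfl | rfl
          exacts [v1, v2, v3]
        exact ⟨d, d1, y (a + 1), hyW _ (by omega) (by omega), d3, d2, hy.1 a (by omega)⟩
  rcases h1 W hcard hMD (y j2) (hyW _ (by omega) (by omega)) (y (j2 - 1))
    (hyW _ (by omega) (by omega)) (y (j2 + 1)) (hyW _ (by omega) (by omega)) c hcW
    (hprev j2 (by omega) (by omega)) (hy.1 j2 (by omega)) hc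
    (hdist j2 (by omega) (by omega)) with e | e
  · exact hc1 e
  · exact hc2 e

lemma kl_walk (hL : Leafless G) {x c : V} (hxc : G.Adj x c) :
    ∃ z : ℕ → V, z 0 = x ∧ z 1 = c ∧ ∀ r, NB G z r := by
  choose nx h1 h2 using hL
  let f : {p : V × V // G.Adj p.1 p.2} → {p : V × V // G.Adj p.1 p.2} := fun p =>
    ⟨(p.1.2, nx p.1.2 p.1.1 p.2.symm), h2 _ _ _⟩
  let s : ℕ → {p : V × V // G.Adj p.1 p.2} := fun i => f^[i] ⟨(x, c), hxc⟩
  have hs : ∀ i, s (i + 1) = f (s i) := fun i => Function.iterate_succ_apply' _ _ _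
  have e1 : ∀ i, (s (i + 1)).1.1 = (s i).1.2 := fun i => by rw [hs]
  refine ⟨fun i => (s i).1.1, rfl, rfl, fun r => ⟨fun i _ => ?_, fun i _ => ?_⟩⟩
  · show G.Adj (s i).1.1 (s (i + 1)).1.1
    rw [e1]
    exact (s i).2
  · show (s (i + 1 + 1)).1.1 ≠ (s i).1.1
    rw [e1, hs]
    exact h1 _ _ _

lemma kl_third {x a b : V} (h : Br G x) : ∃ c, G.Adj x c ∧ c ≠ a ∧ c ≠ b := by
  obtain ⟨u, v, w, hu, hv, hw, n1, n2, n3⟩ := h
  by_contra hcon
  push Not at hcon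
  have k1 := hcon u hu
  have k2 := hcon v hv
  have k3 := hcon w hw
  by_cases e1 : u = a
  · exact n3 ((k2 fun e => n1 (e1.trans e.symm)).trans (k3 fun e => n2 (e1.trans e.symm)).symm)
  · by_cases e2 : v = a
    · exact n2 ((k1 e1).trans (k3 fun e => n3 (e2.trans e.symm)).symm)
    · exact n1 ((k1 e1).trans (k2 e2).symm)

lemma kl_disj {y z z' : ℕ → V} {T h j j' : ℕ} (hy : PSeq G y T) (hj : j ≤ T) (hj' : j' ≤ T)
    (hne : j ≠ j') (hz : ∀ r, NB G z r) (hz' : ∀ r, NB G z' r) (z0 : z 0 = y j)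
    (z0' : z' 0 = y j') (z1 : z 1 ≠ y (j - 1)) (z2 : z 1 ≠ y (j + 1))
    (off : ∀ i, 1 ≤ i → i ≤ h → ∀ m ≤ T, z i ≠ y m)
    (off' : ∀ i, 1 ≤ i → i ≤ h → ∀ m ≤ T, z' i ≠ y m) (hb : ¬ klBad G y T h j) :
    ∀ i ≤ h, ∀ i' ≤ h, z i ≠ z' i' := by
  classical
  intro i0 hi0 i0' hi0' e0
  have hex : ∃ i, ∃ i' ≤ h, z i = z' i' := ⟨i0, i0', hi0', e0⟩
  obtain ⟨i, ⟨i', hi', e⟩, hmin, hle⟩ : ∃ i, (∃ i' ≤ h, z i = z' i') ∧
      (∀ t < i, ∀ t' ≤ h, z t ≠ z' t') ∧ i ≤ i0 :=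
    ⟨Nat.find hex, Nat.find_spec hex, fun t ht t' ht' e => Nat.find_min hex ht ⟨t', ht', e⟩,
      Nat.find_min' hex ⟨i0', hi0', e0⟩⟩
  have hi1 : 1 ≤ i := by
    rcases Nat.eq_zero_or_pos i with rfl | k
    · rcases Nat.eq_zero_or_pos i' with rfl | k'
      · exact absurd (hy.2 j hj j' hj' (z0.symm.trans (e.trans z0'))) hne
      · exact absurd (e.symm.trans z0) (off' i' k' hi' j hj)
    · exact k
  have hi1' : 1 ≤ i' := by
    rcases Nat.eq_zero_or_pos i' with rfl | k'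
    · exact absurd (e.trans z0') (off i hi1 (by omega) j' hj')
    · exact k'
  let w : ℕ → V := fun t => if t ≤ i then z t else z' (i + i' - t)
  have w1 : ∀ t ≤ i, w t = z t := fun t ht => if_pos ht
  have w2 : ∀ t, i ≤ t → w t = z' (i + i' - t) := fun t ht => by
    rcases ht.lt_or_eq with k | rfl
    · exact if_neg (by omega)
    · rw [w1 _ le_rfl, e]
      congr 1
      omega
  refine hb ⟨w, i + i', ⟨fun t ht => ?_, fun t ht => ?_⟩, (w1 0 (by omega)).trans z0,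
    by rw [w1 1 hi1]; exact z1, by rw [w1 1 hi1]; exact z2, by omega, by omega,
    Or.inl ⟨j', hj', ?_⟩⟩
  · rcases Nat.lt_or_ge t i with k | k
    · rw [w1 t k.le, w1 (t + 1) k]
      exact (hz (t + 1)).1 t (by omega)
    · rw [w2 t k, w2 (t + 1) (by omega),
        show i + i' - t = i + i' - (t + 1) + 1 by omega]
      exact ((hz' (i + i')).1 _ (by omega)).symm
  · rcases Nat.lt_or_ge t i with k | k
    · rcases Nat.lt_or_ge (t + 1) i with k' | k'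
      · rw [w1 t k.le, w1 (t + 2) k']
        exact (hz (t + 2)).2 t le_rfl
      · rw [w1 t k.le, w2 (t + 2) (by omega)]
        exact (hmin t k _ (by omega)).symm
    · rw [w2 t k, w2 (t + 2) (by omega),
        show i + i' - t = i + i' - (t + 2) + 2 by omega]
      exact ((hz' (i + i')).2 _ (by omega)).symm
  · rw [w2 _ (by omega), Nat.sub_self, z0']

end aux

theorem h3_of_h4 {V : Type} {G : SimpleGraph V} {R T k h : ℕ} (hL : Leafless G) (h1 : H1 G R)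
    (hR : T + 1 + 6 * h ≤ R) (h4 : H4 G T k h) : H3 G T (k + 3) := by
  classical
  intro y hy
  set B : Finset ℕ := (range (T + 1)).filter fun j => klBad G y T h j with hB
  set J : Finset ℕ := (range (T + 1)).filter fun j => Br G (y j) ∧ ¬ klBad G y T h j with hJ
  have hBc : B.card ≤ 2 := by
    by_contra hcon
    obtain ⟨a, ha, b, hb, c, hc, n1, n2, n3⟩ := two_lt_card.1 (not_le.1 hcon)
    have g : ∀ j ∈ B, klGad G y T h j := fun j hj =>
      kl_gad hy (by have := mem_range.1 (mem_filter.1 hj).1; omega) (mem_filter.1 hj).2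
    have no := fun j1 j2 j3 (a12 : j1 < j2) (a23 : j2 < j3) m1 m2 m3 =>
      kl_no3 hy h1 hR a12 a23 (g j1 m1) (g j2 m2) (g j3 m3)
    rcases Nat.lt_or_gt_of_ne n1 with k1 | k1 <;> rcases Nat.lt_or_gt_of_ne n2 with k2 | k2 <;>
      rcases Nat.lt_or_gt_of_ne n3 with k3 | k3
    · exact no a b c k1 k3 ha hb hc
    · exact no a c b k2 k3 ha hc hb
    · omega
    · exact no c a b k2 k1 hc ha hb
    · exact no b a c k1 k2 hb ha hc
    · omega
    · exact no b c a k3 k2 hb hc ha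
    · exact no c b a k3 k1 hc hb ha
  have hz : ∀ j ∈ J, ∃ z : ℕ → V, z 0 = y j ∧ z 1 ≠ y (j - 1) ∧ z 1 ≠ y (j + 1) ∧
      ∀ r, NB G z r := by
    intro j hj
    obtain ⟨c, hc, c1, c2⟩ := kl_third (a := y (j - 1)) (b := y (j + 1)) (mem_filter.1 hj).2.1
    obtain ⟨z, z0, z1, hz⟩ := kl_walk hL hc
    exact ⟨z, z0, z1 ▸ c1, z1 ▸ c2, hz⟩
  have : Nonempty V := ⟨y 0⟩
  choose! z z0 z1 z2 hz using hz
  have hT : ∀ j ∈ J, j ≤ T := fun j hj => by
    have := mem_range.1 (mem_filter.1 hj).1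
    omega
  have off : ∀ j ∈ J, ∀ i, 1 ≤ i → i ≤ h → ∀ m ≤ T, z j i ≠ y m := fun j hj i a b m hm e =>
    (mem_filter.1 hj).2.2 ⟨z j, i, hz j hj i, z0 j hj, z1 j hj, z2 j hj, a, by omega,
      Or.inl ⟨m, hm, e⟩⟩
  have inj : ∀ j ∈ J, ∀ i i', i < i' → i' ≤ h → z j i ≠ z j i' := by
    intro j hj i i' a b e
    rcases Nat.eq_zero_or_pos i with rfl | k
    · exact off j hj i' a b j (hT j hj) (e.symm.trans (z0 j hj))
    · exact (mem_filter.1 hj).2.2 ⟨z j, i', hz j hj i', z0 j hj, z1 j hj, z2 j hj, by omega,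
        by omega, Or.inr ⟨i, k, a, e.symm⟩⟩
  have hJc : J.card < k := by
    refine h4 y hy J (filter_subset _ _) z (fun j hj => ⟨⟨(hz j hj h).1, fun i a i' b e => ?_⟩,
      z0 j hj, off j hj⟩) fun j hj j' hj' hne => ?_
    · rcases lt_trichotomy i i' with k | k | k
      · exact absurd e (inj j hj i i' k b)
      · exact k
      · exact absurd e.symm (inj j hj i' i k a)
    · exact kl_disj hy (hT j hj) (hT j' hj') hne (hz j hj) (hz j' hj') (z0 j hj) (z0 j' hj')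
        (z1 j hj) (z2 j hj) (off j hj) (off j' hj') (mem_filter.1 hj).2.2
  have hsub : ((range (T + 1)).filter fun i => Br G (y i)) ⊆ B ∪ J := by
    intro j hj
    obtain ⟨a, b⟩ := mem_filter.1 hj
    by_cases e : klBad G y T h j
    · exact mem_union_left _ (mem_filter.2 ⟨a, e⟩)
    · exact mem_union_right _ (mem_filter.2 ⟨a, b, e⟩)
  have e1 := (card_le_card hsub).trans (card_union_le B J)
  have e2 : cnt (Br G) y T = ((range (T + 1)).filter fun i => Br G (y i)).card := by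
    unfold cnt
    congr
  omega

end Pool.Agent.Lib.MP_b735d7_co
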