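import Pool.Agent.Lib.MP_b735d7_co.LRev

/-!
The middle cut.
-/

namespace Pool.Agent.Lib.MP_b735d7_co

open Finset Pool.Agent.Lib.MP_58a483_pr.H80

/-- the edges from `U` to the mirror image of `D` -/
def LCutE {n : ℕ} (U D : Finset (Fin n)) : Finset (Sym2 (Fin n)) :=
  (U ×ˢ D).image fun q => s(q.1, q.2.rev)

/-- the points below the height `h` -/
def LCutL (n h : ℕ) : Finset (Fin n) := univ.filter fun v => v.val < h

lemma LCut_mem {n : ℕ} {U D : Finset (Fin n)} {e : Sym2 (Fin n)} :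
    e ∈ LCutE U D ↔ ∃ u ∈ U, ∃ d ∈ D, s(u, d.rev) = e := by
  simp only [LCutE, mem_image, mem_product, Prod.exists]
  constructor
  · rintro ⟨u, d, ⟨a, b⟩, c⟩
    exact ⟨u, a, d, b, c⟩
  · rintro ⟨u, a, d, b, c⟩
    exact ⟨u, d, ⟨a, b⟩, c⟩

lemma LCut_rev {n h : ℕ} (hh : 2 * h ≤ n) {d : Fin n} (hd : d.val < h) : h ≤ d.rev.val := by
  rw [Fin.val_rev]
  omega

lemma LCut_le {n : ℕ} {G : SimpleGraph (Fin n)} {a b : Fin n} :
    Le (rev G) a b ↔ Le G b.rev a.rev := by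
  unfold Le
  rw [below_rev, Fin.rev_inj, eq_comm]

lemma LCut_card {n h : ℕ} (hh : 2 * h ≤ n) {U D : Finset (Fin n)} (hU : ∀ u ∈ U, u.val < h)
    (hD : ∀ d ∈ D, d.val < h) : (LCutE U D).card = U.card * D.card := by
  unfold LCutE
  rw [card_image_of_injOn, card_product]
  rintro ⟨u, d⟩ h1 ⟨u', d'⟩ h2 e
  have h1' := mem_product.1 (mem_coe.1 h1)
  have h2' := mem_product.1 (mem_coe.1 h2)
  rcases Sym2.eq_iff.1 e with ⟨a, b⟩ | ⟨a, -⟩
  · exact Prod.ext a (Fin.rev_inj.1 b)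
  · have c1 := hU u h1'.1
    have c2 := LCut_rev hh (hD d' h2'.2)
    have c3 : u.val = d'.rev.val := congrArg Fin.val a
    omega

lemma LCut_ins {n h : ℕ} (ω : Finset (Sym2 (Fin n))) {P : Fin n → Prop}
    (hP : ∀ u d : Fin n, u.val < h → d.val < h → P u → ¬ P d.rev) :
    ins ω P ⊆ ω \ LCutE (LCutL n h) (LCutL n h) := by
  intro e he
  refine mem_sdiff.2 ⟨ins_sub _ _ he, fun k => ?_⟩
  obtain ⟨u, hu, d, hd, rfl⟩ := LCut_mem.1 k
  have := mem_ins.1 he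
  exact hP u d (mem_filter.1 hu).2 (mem_filter.1 hd).2 this.2.2.1 this.2.2.2

lemma LCut_up {n h : ℕ} (hh : 2 * h ≤ n) (ω : Finset (Sym2 (Fin n))) (S : Finset (Fin n)) :
    ups (gr ω) S h ⊆ ups (gr (ω \ LCutE (LCutL n h) (LCutL n h))) S h := by
  intro v hv
  obtain ⟨h1, a, ha, h2⟩ := mem_ups.1 hv
  refine mem_ups.2 ⟨h1, a, ha, (le_ins (P := fun u => u.val < h) h2 fun u _ k =>
    lt_of_le_of_lt (Fin.le_def.1 k.le) h1).mono (gr_mono (LCut_ins ω fun u d _ b _ c => ?_))⟩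
  have := LCut_rev hh b
  omega

lemma LCut_down {n h : ℕ} (hh : 2 * h ≤ n) (ω : Finset (Sym2 (Fin n))) (T : Finset (Fin n)) :
    ups (rev (gr ω)) T h ⊆ ups (rev (gr (ω \ LCutE (LCutL n h) (LCutL n h)))) T h := by
  intro v hv
  obtain ⟨h1, a, ha, h2⟩ := mem_ups.1 hv
  refine mem_ups.2 ⟨h1, a, ha, LCut_le.2 ((le_ins (P := fun u => h ≤ u.val) (LCut_le.1 h2)
    fun u k _ => (LCut_rev hh h1).trans (Fin.le_def.1 k.le)).mono
      (gr_mono (LCut_ins ω fun u d b _ c _ => ?_)))⟩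
  omega

lemma LCut_one {n h M : ℕ} {p : ℝ} (h0 : 0 ≤ p) (h1 : p ≤ 1) (hh : 2 * h ≤ n)
    (S T : Finset (Fin n)) :
    Ex (EE n) p (fun ω => ind (M ≤ (ups (gr ω) S h).card ∧ M ≤ (ups (rev (gr ω)) T h).card ∧
      ∀ a ∈ S, ∀ b ∈ T, ¬ Below (gr ω) a b.rev)) ≤ (1 - p) ^ (M * M) := by
  set R := LCutE (LCutL n h) (LCutL n h) with hR
  have hp : 0 ≤ 1 - p := sub_nonneg.2 h1
  have s1 : Ex (EE n) p (fun ω => ind (M ≤ (ups (gr ω) S h).card ∧
      M ≤ (ups (rev (gr ω)) T h).card ∧ ∀ a ∈ S, ∀ b ∈ T, ¬ Below (gr ω) a b.rev)) ≤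
      Ex (EE n) p (fun ω => ind (M ≤ (ups (gr (ω \ R)) S h).card ∧
        M ≤ (ups (rev (gr (ω \ R))) T h).card ∧
        Disjoint (LCutE (ups (gr (ω \ R)) S h) (ups (rev (gr (ω \ R))) T h)) (ω ∩ R))) := by
    refine Ex_mono h0 h1 fun ω _ => ind_mono ?_
    rintro ⟨a1, a2, a3⟩
    refine ⟨a1.trans (card_le_card (LCut_up hh ω S)), a2.trans (card_le_card (LCut_down hh ω T)),
      disjoint_left.2 fun e he k => ?_⟩
    obtain ⟨u, hu, d, hd, rfl⟩ := LCut_mem.1 he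
    obtain ⟨u1, a, ha, u2⟩ := mem_ups.1 hu
    obtain ⟨d1, b, hb, d2⟩ := mem_ups.1 hd
    have lt : u < d.rev := Fin.lt_def.2 (lt_of_lt_of_le u1 (LCut_rev hh d1))
    exact a3 a ha b hb (((LCut_le.1 d2).mono (gr_mono sdiff_subset)).below_left
      ((u2.mono (gr_mono sdiff_subset)).below_right
        (below_of_adj lt (gr_adj.2 ⟨(mem_inter.1 k).1, lt.ne⟩))))
  refine s1.trans ?_
  rw [eta_iter _ R p fun a b => ind (M ≤ (ups (gr b) S h).card ∧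
    M ≤ (ups (rev (gr b)) T h).card ∧ Disjoint (LCutE (ups (gr b) S h) (ups (rev (gr b)) T h)) a),
    ← Ex_const (EE n) p ((1 - p) ^ (M * M))]
  refine Ex_mono h0 h1 fun w' _ => ?_
  have hU : ∀ u ∈ ups (gr (w' \ R)) S h, u.val < h := fun u hu => (mem_ups.1 hu).1
  have hD : ∀ u ∈ ups (rev (gr (w' \ R))) T h, u.val < h := fun u hu => (mem_ups.1 hu).1
  generalize ups (gr (w' \ R)) S h = U at hU
  generalize ups (rev (gr (w' \ R))) T h = D at hD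
  by_cases hM : M ≤ U.card ∧ M ≤ D.card
  · have e1 : LCutE U D ⊆ EE n := fun e he => by
      obtain ⟨u, hu, d, hd, rfl⟩ := LCut_mem.1 he
      exact mem_EE.2 (Fin.lt_def.2 (lt_of_lt_of_le (hU u hu) (LCut_rev hh (hD d hd)))).ne
    have e2 : LCutE U D ⊆ R := fun e he => by
      obtain ⟨u, hu, d, hd, rfl⟩ := LCut_mem.1 he
      exact LCut_mem.2 ⟨u, mem_filter.2 ⟨mem_univ _, hU u hu⟩, d,
        mem_filter.2 ⟨mem_univ _, hD d hd⟩, rfl⟩
    refine (Ex_mono h0 h1 (g := fun w => ind (Disjoint (LCutE U D) w)) fun w _ =>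
      ind_mono fun k => disjoint_left.2 fun e he hw =>
        disjoint_left.1 k.2.2 he (mem_inter.2 ⟨hw, e2 he⟩)).trans ?_
    rw [Ex_disj e1, LCut_card hh hU hD]
    exact pow_le_pow_of_le_one hp (by linarith) (Nat.mul_le_mul hM.1 hM.2)
  · rw [← Ex_const (EE n) p ((1 - p) ^ (M * M))]
    refine Ex_mono h0 h1 fun w _ => ?_
    rw [ind_neg fun k => hM ⟨k.1, k.2.1⟩]
    exact pow_nonneg hp _

theorem pr_cut {n h s M : ℕ} {p : ℝ} (h0 : 0 ≤ p) (h1 : p ≤ 1) (hh : 2 * h ≤ n) :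
    Pr n p (fun G => ∃ S T : Finset (Fin n), S.card = s ∧ T.card = s ∧ M ≤ (ups G S h).card ∧
      M ≤ (ups (rev G) T h).card ∧ ∀ a ∈ S, ∀ b ∈ T, ¬ Below G a b.rev) ≤
      (n.choose s : ℝ) ^ 2 * (1 - p) ^ (M * M) := by
  unfold Pr
  refine (Ex_mono h0 h1 (g := fun ω => ∑ q ∈ powersetCard s (univ : Finset (Fin n)) ×ˢ
    powersetCard s (univ : Finset (Fin n)), ind (M ≤ (ups (gr ω) q.1 h).card ∧
      M ≤ (ups (rev (gr ω)) q.2 h).card ∧ ∀ a ∈ q.1, ∀ b ∈ q.2, ¬ Below (gr ω) a b.rev))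
    fun ω _ => le_trans (ind_mono ?_) (ind_exists_le _ _)).trans ?_
  · rintro ⟨S, T, a1, a2, a3⟩
    exact ⟨(S, T), mem_product.2 ⟨mem_powersetCard_univ.2 a1, mem_powersetCard_univ.2 a2⟩, a3⟩
  · rw [Ex_sum]
    refine (sum_le_card_nsmul _ _ _ fun q _ => LCut_one h0 h1 hh q.1 q.2).trans ?_
    rw [card_product, card_powersetCard, card_univ, Fintype.card_fin, nsmul_eq_mul, Nat.cast_mul,
      pow_two]

end Pool.Agent.Lib.MP_b735d7_co
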