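import Pool.Agent.Lib.MP_b735d7_co.GDef

/-!
The mirror image.
-/

namespace Pool.Agent.Lib.MP_b735d7_co

open Finset Pool.Agent.Lib.MP_58a483_pr.H80

lemma lrev_aux {n : ℕ} {G : SimpleGraph (Fin n)} {a b : Fin n} (h : Below (rev G) a b) :
    Below G b.rev a.rev := by
  unfold Below at h ⊢
  induction h with
  | single k =>
    exact Relation.TransGen.single ⟨Fin.rev_lt_rev.2 k.1, SimpleGraph.Adj.symm k.2⟩
  | tail _ k ih =>
    exact Relation.TransGen.head ⟨Fin.rev_lt_rev.2 k.1, SimpleGraph.Adj.symm k.2⟩ ih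

lemma lrev_rev {n : ℕ} (G : SimpleGraph (Fin n)) : rev (rev G) = G := by
  ext a b
  simp [rev]

theorem below_rev {n : ℕ} {G : SimpleGraph (Fin n)} {a b : Fin n} :
    Below (rev G) a b ↔ Below G b.rev a.rev := by
  refine ⟨lrev_aux, fun h => ?_⟩
  rw [← lrev_rev G] at h
  simpa using lrev_aux h

lemma lrev_inv {n : ℕ} : Function.Involutive (Sym2.map (Fin.rev : Fin n → Fin n)) := by
  intro e
  induction e using Sym2.ind with
  | h a b => simp

lemma lrev_gr {n : ℕ} (ω : Finset (Sym2 (Fin n))) :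
    gr (ω.map (lrev_inv (n := n)).toPerm.toEmbedding) = rev (gr ω) := by
  ext a b
  have h1 : (rev (gr ω)).Adj a b ↔ (gr ω).Adj a.rev b.rev := Iff.rfl
  rw [h1, gr_adj, gr_adj, Finset.mem_map_equiv]
  simp

theorem pr_rev {n : ℕ} (p : ℝ) (A : SimpleGraph (Fin n) → Prop) :
    Pr n p (fun G => A (rev G)) = Pr n p A := by
  unfold Pr
  rw [← Ex_map (EE n) p (lrev_inv (n := n)).toPerm ?_ fun ω => ind (A (gr ω))]
  · simp only [lrev_gr]
  · intro e
    induction e using Sym2.ind with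
    | h a b => simp [mem_EE]

end Pool.Agent.Lib.MP_b735d7_co
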