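import Pool.Agent.Lib.MP_b735d7_co.PBase
import Pool.Agent.Lib.MP_b735d7_co.Rank

/-!
Adding leaves.
-/

namespace Pool.Agent.Lib.MP_b735d7_co

open Finset

variable {V : Type} [LinearOrder V] [Fintype V]

omit [LinearOrder V] in
lemma leaf_bound (idx : V → ℤ) : ∃ M : ℤ, ∀ u, idx u < M := by
  obtain ⟨M, hM⟩ := (Set.finite_range idx).bddAbove
  exact ⟨M + 1, fun u => Int.lt_add_one_of_le (hM ⟨u, rfl⟩)⟩

omit [LinearOrder V] [Fintype V] in
lemma leaf_blk {v : V} {l l' : V → ℤ} (hl : ∀ u, u ≠ v → l' u = l u) {u : V} (hu : u ≠ v) :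
    blk l' u = blk l u := by
  unfold blk
  rw [hl u hu]

theorem bd_leaf {G G' : SimpleGraph V} {v x : V} (hvx : G.Adj v x)
    (hv : ∀ y, G.Adj v y → y = x) (hG : ∀ a b, G'.Adj a b ↔ G.Adj a b ∧ a ≠ v ∧ b ≠ v)
    {l l' : V → ℤ} (hl : ∀ u, u ≠ v → l' u = l u)
    (hup : x < v → l' v = l x + 1 - l x % 2) (hdn : v < x → l' v = l x + l x % 2)
    (h : BD G' l) : BD G l' := by
  obtain ⟨root, par, rk, idx, h1, h2, h3⟩ := h
  have hxv : x ≠ v := hvx.ne.symm
  have hle : G' ≤ G := fun a b k => ((hG a b).1 k).1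
  have hnr : ∀ u, ¬ root u → u ≠ v ∧ par u ≠ v := fun u hu => ((hG _ _).1 (h1 u hu).1).2
  by_cases hb : blk l' v = blk l' x
  · have hRR : ∀ a b, RR G l' (fun u => root u ∧ u ≠ v) a b → RR G' l root a b := by
      rintro a b ⟨k1, k2, ⟨k3, k4⟩, ⟨k5, k6⟩, k7⟩
      refine ⟨k1, (hG a b).2 ⟨k2, k4, k6⟩, k3, k5, ?_⟩
      rw [← leaf_blk hl k4, ← leaf_blk hl k6]; exact k7
    refine ⟨fun u => root u ∧ u ≠ v, Function.update par v x, Function.update rk v (rk x + 1),
      idx, ?_, ?_, ?_⟩
    · intro u hu
      by_cases huv : u = v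
      · subst huv
        rw [Function.update_self, Function.update_self, Function.update_of_ne hxv]
        refine ⟨hvx, hb.symm, by omega, ?_, ?_⟩
        · intro ho
          have hx := hl x hxv
          unfold blk at hb
          rcases lt_or_gt_of_ne hxv with k | k
          · have := hup k
            exact ⟨k, by omega⟩
          · have := hdn k
            omega
        · intro he
          rcases lt_or_gt_of_ne hxv with k | k
          · have := hup k
            omega
          · exact k
      · have hr : ¬ root u := fun k => hu ⟨k, huv⟩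
        obtain ⟨-, hp⟩ := hnr u hr
        obtain ⟨a1, a2, a3, a4, a5⟩ := h1 u hr
        rw [Function.update_of_ne huv, Function.update_of_ne huv, Function.update_of_ne hp,
          leaf_blk hl huv, leaf_blk hl hp, hl u huv, hl _ hp]
        exact ⟨hle a1, a2, a3, a4, a5⟩
    · intro a b hab hbl
      by_cases ha : a = v
      · subst ha
        refine Or.inr (Or.inl ⟨fun k => k.2 rfl, ?_⟩)
        rw [Function.update_self]
        exact (hv b hab).symm
      by_cases hb' : b = v
      · subst hb'
        refine Or.inr (Or.inr ⟨fun k => k.2 rfl, ?_⟩)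
        rw [Function.update_self]
        exact (hv a hab.symm).symm
      rw [leaf_blk hl ha, leaf_blk hl hb'] at hbl
      rw [Function.update_of_ne ha, Function.update_of_ne hb']
      rcases h2 a b ((hG a b).2 ⟨hab, ha, hb'⟩) hbl with k | k | k
      · exact Or.inl ⟨⟨k.1, ha⟩, k.2, hb'⟩
      · exact Or.inr (Or.inl ⟨fun j => k.1 j.1, k.2⟩)
      · exact Or.inr (Or.inr ⟨fun j => k.1 j.1, k.2⟩)
    · rintro m z1 z2 z ⟨hm, hmv⟩ ⟨hz, hzv⟩ ho hbl r1 r2 i1 i2
      rw [leaf_blk hl hmv, leaf_blk hl hzv] at hbl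
      rw [hl z hzv] at ho
      rcases h3 m z1 z2 z hm hz ho hbl (Relation.ReflTransGen.mono hRR _ _ r1)
          (Relation.ReflTransGen.mono hRR _ _ r2) i1 i2 with k | k
      · exact Or.inl k
      · exact Or.inr (below_mono hle k)
  · obtain ⟨M, hM⟩ := leaf_bound idx
    have hne : ∀ a b, G.Adj a b → blk l' a = blk l' b → a ≠ v ∧ b ≠ v := by
      intro a b hab hbl
      constructor
      · rintro rfl
        rw [hv b hab] at hbl
        exact hb hbl
      · rintro rfl
        rw [hv a hab.symm] at hbl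
        exact hb hbl.symm
    have hRR : ∀ a b, RR G l' root a b → RR G' l root a b := by
      rintro a b ⟨k1, k2, k3, k5, k7⟩
      obtain ⟨k4, k6⟩ := hne a b k2 k7
      refine ⟨k1, (hG a b).2 ⟨k2, k4, k6⟩, k3, k5, ?_⟩
      rw [← leaf_blk hl k4, ← leaf_blk hl k6]; exact k7
    have hfrom : ∀ b, Relation.ReflTransGen (RR G l' root) v b → b = v := by
      intro b r
      rcases r.cases_head with k | ⟨c, k, -⟩
      · exact k.symm
      · exact absurd rfl (hne _ _ k.2.1 k.2.2.2.2).1
    have hto : ∀ a b, a ≠ v → Relation.ReflTransGen (RR G l' root) a b → b ≠ v := by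
      intro a b ha r
      rcases r.cases_tail with k | ⟨c, -, k⟩
      · rw [k]; exact ha
      · exact (hne _ _ k.2.1 k.2.2.2.2).2
    refine ⟨root, par, rk, Function.update idx v M, ?_, ?_, ?_⟩
    · intro u hr
      obtain ⟨huv, hp⟩ := hnr u hr
      obtain ⟨a1, a2, a3, a4, a5⟩ := h1 u hr
      rw [leaf_blk hl huv, leaf_blk hl hp, hl u huv, hl _ hp]
      exact ⟨hle a1, a2, a3, a4, a5⟩
    · intro a b hab hbl
      obtain ⟨ha, hb'⟩ := hne a b hab hbl
      rw [leaf_blk hl ha, leaf_blk hl hb'] at hbl
      exact h2 a b ((hG a b).2 ⟨hab, ha, hb'⟩) hbl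
    · intro m z1 z2 z hm hz ho hbl r1 r2 i1 i2
      by_cases hmv : m = v
      · left
        subst hmv
        rw [hfrom z1 r1, Function.update_self] at i1
        by_contra hzv
        rw [Function.update_of_ne (Ne.symm hzv)] at i1
        exact absurd (hM z) (not_lt.2 i1)
      · have e1 := hto m z1 hmv r1
        have e2 := hto m z2 hmv r2
        rw [Function.update_of_ne e1] at i1
        rw [Function.update_of_ne e2] at i2
        by_cases hzv : z = v
        · subst hzv
          rw [Function.update_self] at i2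
          exact absurd (hM z2) (not_lt.2 i2)
        rw [Function.update_of_ne hzv] at i1 i2
        rw [leaf_blk hl hmv, leaf_blk hl hzv] at hbl
        rw [hl z hzv] at ho
        rcases h3 m z1 z2 z hm hz ho hbl (Relation.ReflTransGen.mono hRR _ _ r1)
          (Relation.ReflTransGen.mono hRR _ _ r2) i1 i2 with k | k
        · exact Or.inl k
        · exact Or.inr (below_mono hle k)

/-- the graph without the edges at `v` -/
def leafDel {V : Type} (G : SimpleGraph V) (v : V) : SimpleGraph V where
  Adj a b := G.Adj a b ∧ a ≠ v ∧ b ≠ v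
  symm := ⟨fun _ _ h => ⟨h.1.symm, h.2.2, h.2.1⟩⟩
  loopless := ⟨fun _ h => G.irrefl h.1⟩

theorem data4_of_core (P : SimpleGraph V → Prop) (hP : ∀ G G', G' ≤ G → P G → P G')
    (hc : ∀ G, P G → Leafless G → Data4 G) (G : SimpleGraph V) (h : P G) : Data4 G := by
  induction G using WellFoundedLT.induction with
  | ind G ih =>
  by_cases hL : Leafless G
  · exact hc G h hL
  obtain ⟨v, x, hvx, hv⟩ : ∃ v x, G.Adj v x ∧ ∀ y, G.Adj v y → y = x := by
    by_contra hn
    refine hL fun a b hab => ?_
    by_contra hz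
    exact hn ⟨a, b, hab, fun y hy => by
      by_contra k
      exact hz ⟨y, k, hy⟩⟩
  have hxv : x ≠ v := hvx.ne.symm
  have hle : leafDel G v ≤ G := fun a b k => k.1
  have hlt : leafDel G v < G := lt_of_le_not_ge hle fun k => (k hvx).2.1 rfl
  obtain ⟨l, hR, hB, hD⟩ := ih _ hlt (hP G _ hle h)
  obtain ⟨l', hl, hup, hdn⟩ : ∃ l' : V → ℤ, (∀ u, u ≠ v → l' u = l u) ∧
      (x < v → l' v = l x + 1 - l x % 2) ∧ (v < x → l' v = l x + l x % 2) := by
    refine ⟨Function.update l v (if x < v then l x + 1 - l x % 2 else l x + l x % 2),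
      fun u hu => Function.update_of_ne hu _ _, fun k => ?_, fun k => ?_⟩
    · rw [Function.update_self, if_pos k]
    · rw [Function.update_self, if_neg (not_lt.2 k.le)]
  refine ⟨l', ?_, bd_leaf hvx hv (fun _ _ => Iff.rfl) hl hup hdn hB, ?_⟩
  · intro a b hab hadj
    by_cases ha : a = v
    · subst ha
      have := hv b hadj
      subst this
      have e1 := hdn hab
      have e2 := hl b hxv
      omega
    by_cases hb : b = v
    · subst hb
      have := hv a hadj.symm
      subst this
      have e1 := hup hab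
      have e2 := hl a hxv
      omega
    rw [hl a ha, hl b hb]
    exact hR a b hab ⟨hadj, ha, hb⟩
  · refine bd_leaf (G := dualG G) (G' := dualG (leafDel G v)) (v := OrderDual.toDual v)
      (x := OrderDual.toDual x) hvx (fun y hy => hv _ hy) (fun _ _ => Iff.rfl)
      (l := fun x => l (OrderDual.ofDual x) + 1) (fun u hu => ?_) (fun k => ?_) (fun k => ?_) hD
    · have := hl (OrderDual.ofDual u) hu
      simp only [this]
    · have := hdn k
      simp only [OrderDual.ofDual_toDual]
      omega
    · have := hup k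
      simp only [OrderDual.ofDual_toDual]
      omega

end Pool.Agent.Lib.MP_b735d7_co
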