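import Pool.Agent.Lib.MP_b735d7_co.LMain

/-!
Levels of stars.
-/

namespace Pool.Agent.Lib.MP_b735d7_co

open Finset

variable {n : ℕ}

/-- stars of depth `d` in the level `j`; a level has four blocks of length `b` -/
def St (G : SimpleGraph (Fin n)) (b : ℕ) : ℕ → ℕ → Fin n → Prop
  | 0, j, v => 4 * j * b ≤ v.val ∧ v.val < 4 * (j + 1) * b
  | d + 1, j, v => (4 * j * b ≤ v.val ∧ v.val < 4 * (j + 1) * b) ∧ ∀ i < 4, ∃ w : Fin n,
      4 * (j + 1) * b + i * b ≤ w.val ∧ w.val < 4 * (j + 1) * b + (i + 1) * b ∧ G.Adj v w ∧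
        St G b d (j + 1) w

open Classical in
/-- the stars in the block `i` of the level `j` -/
noncomputable def stb (G : SimpleGraph (Fin n)) (b d j i : ℕ) : Finset (Fin n) :=
  univ.filter fun v => 4 * j * b + i * b ≤ v.val ∧ v.val < 4 * j * b + (i + 1) * b ∧ St G b d j v

lemma mem_stb {G : SimpleGraph (Fin n)} {b d j i : ℕ} {v : Fin n} : v ∈ stb G b d j i ↔
    4 * j * b + i * b ≤ v.val ∧ v.val < 4 * j * b + (i + 1) * b ∧ St G b d j v := by simp [stb]

/-- `t` points below `lo` whose neighbours in four blocks above `lo` can be found in `2 t` points -/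
def Shr (G : SimpleGraph (Fin n)) (b lo t : ℕ) : Prop :=
  ∃ S Y : Finset (Fin n), S.card = t ∧ Y.card ≤ 2 * t ∧ ∀ v ∈ S, v.val < lo ∧ ∀ i < 4,
    ∃ w ∈ Y, lo + i * b ≤ w.val ∧ w.val < lo + (i + 1) * b ∧ G.Adj v w

end Pool.Agent.Lib.MP_b735d7_co
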