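import Pool.Agent.Lib.MP_b735d7_co.MDef

/-!
Sets of stars double from level to level.
-/

namespace Pool.Agent.Lib.MP_b735d7_co

open Finset Filter Topology Pool.Agent.Lib.MP_58a483_pr.H80

theorem pr_shr {n b lo t : ℕ} {p : ℝ} (h0 : 0 ≤ p) (h1 : p ≤ 1) (hN : 2 * t ≤ n) :
    Pr n p (fun G => Shr G b lo t) ≤
      (n.choose t : ℝ) * (n.choose (2 * t)) * (2 * t * p) ^ (4 * t) := by
  have step : ∀ ω : Finset (Sym2 (Fin n)), ind (Shr (gr ω) b lo t) ≤
      ∑ S ∈ powersetCard t (univ : Finset (Fin n)),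
        ∑ Y ∈ powersetCard (2 * t) (univ : Finset (Fin n)),
          ∑ g ∈ Fintype.piFinset (fun _ : S × Fin 4 => Y),
            ind (LExp_ok lo b 4 S g ∧ LExp_ed 4 S g ⊆ ω) := by
    intro ω
    refine le_trans (ind_mono (Q := ∃ S ∈ powersetCard t (univ : Finset (Fin n)),
      ∃ Y ∈ powersetCard (2 * t) (univ : Finset (Fin n)),
        ∃ g ∈ Fintype.piFinset (fun _ : S × Fin 4 => Y),
          LExp_ok lo b 4 S g ∧ LExp_ed 4 S g ⊆ ω) ?_) ?_
    · rintro ⟨S, Y0, hc, hu, hS⟩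
      obtain ⟨Y, hY, hYc⟩ := exists_superset_card_eq hu (by simpa using hN)
      have hst : ∀ q : S × Fin 4, ∃ w ∈ Y0, lo + q.2.val * b ≤ w.val ∧
          w.val < lo + (q.2.val + 1) * b ∧ (gr ω).Adj q.1.1 w :=
        fun q => (hS q.1.1 q.1.2).2 q.2.val q.2.2
      have hlt : ∀ q : S × Fin 4, q.1.1.val < lo := fun q => (hS q.1.1 q.1.2).1
      choose g g0 g1 g2 g3 using hst
      refine ⟨S, mem_powersetCard.2 ⟨subset_univ _, hc⟩, Y, mem_powersetCard.2 ⟨subset_univ _, hYc⟩,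
        g, Fintype.mem_piFinset.2 fun q => hY (g0 q),
        fun q => ⟨hlt q, g1 q, g2 q⟩, fun e he => ?_⟩
      obtain ⟨q, -, rfl⟩ := mem_image.1 he
      exact (gr_adj.1 (g3 q)).1
    · refine (ind_exists_le _ _).trans (sum_le_sum fun S _ => ?_)
      refine (ind_exists_le _ _).trans (sum_le_sum fun Y _ => ?_)
      exact ind_exists_le _ _
  have one : ∀ (S : Finset (Fin n)) (g : S × Fin 4 → Fin n),
      Ex (EE n) p (fun ω => ind (LExp_ok lo b 4 S g ∧ LExp_ed 4 S g ⊆ ω)) ≤ p ^ (4 * S.card) := by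
    intro S g
    by_cases hk : LExp_ok lo b 4 S g
    · rw [← LExp_card hk, ← Ex_sup (LExp_sub hk)]
      exact Ex_mono h0 h1 fun _ _ => ind_mono fun k => k.2
    · refine le_trans (Ex_mono h0 h1 (g := fun _ => 0) fun _ _ => ?_) ?_
      · exact (ind_neg fun k => hk k.1).le
      · rw [Ex_const]; positivity
  unfold Pr
  refine (Ex_mono h0 h1 fun ω _ => step ω).trans ?_
  simp only [Ex_sum]
  calc _ ≤ ∑ S ∈ powersetCard t (univ : Finset (Fin n)),
        ∑ Y ∈ powersetCard (2 * t) (univ : Finset (Fin n)), (2 * (t : ℝ) * p) ^ (4 * t) := by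
        refine sum_le_sum fun S hS => sum_le_sum fun Y hY => ?_
        refine (sum_le_sum fun g _ => one S g).trans ?_
        rw [sum_const, Fintype.card_piFinset, prod_const, card_univ, (mem_powersetCard.1 hY).2,
          Fintype.card_prod,
          Fintype.card_coe, Fintype.card_fin, (mem_powersetCard.1 hS).2, nsmul_eq_mul,
          mul_pow _ p, mul_comm t 4]
        push_cast
        exact le_rfl
    _ = _ := by
        simp only [sum_const, card_powersetCard, card_univ, Fintype.card_fin, nsmul_eq_mul]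
        ring

lemma MExp_rng {n b d j : ℕ} {G : SimpleGraph (Fin n)} {v : Fin n} (h : St G b d j v) :
    4 * j * b ≤ v.val ∧ v.val < 4 * (j + 1) * b := by
  cases d with
  | zero => exact h
  | succ d => exact h.1

theorem grow_st {n b D s : ℕ} {G : SimpleGraph (Fin n)}
    (h : ∀ j < D, ¬ Shr G b (4 * (j + 1) * b) (2 ^ j * s)) {S : Finset (Fin n)}
    (hS : ∀ v ∈ S, St G b D 0 v) (hs : S.card = s) :
    2 ^ D * s ≤ (ups G S (4 * (D + 1) * b)).card := by
  classical
  have key : ∀ j d : ℕ, j + d = D → ∃ Y : Finset (Fin n), Y.card = 2 ^ j * s ∧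
      ∀ w ∈ Y, St G b d j w ∧ ∃ a ∈ S, Le G a w := by
    intro j
    induction j with
    | zero =>
      intro d hd
      obtain rfl : d = D := by omega
      exact ⟨S, by simpa using hs, fun w hw => ⟨hS w hw, w, hw, Le.rfl⟩⟩
    | succ j ih =>
      intro d hd
      obtain ⟨Y, hY, hw⟩ := ih (d + 1) (by omega)
      have big : 2 ^ (j + 1) * s ≤
          (univ.filter fun w => St G b d (j + 1) w ∧ ∃ v ∈ Y, G.Adj v w).card := by
        by_contra hc
        refine h j (by omega) ⟨Y, univ.filter fun w => St G b d (j + 1) w ∧ ∃ v ∈ Y, G.Adj v w,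
          hY, ?_, fun v hv => ⟨(MExp_rng (hw v hv).1).2, fun i hi => ?_⟩⟩
        · rw [← mul_assoc, ← pow_succ']
          omega
        · obtain ⟨w, w1, w2, w3, w4⟩ := (hw v hv).1.2 i hi
          exact ⟨w, mem_filter.2 ⟨mem_univ _, w4, v, hv, w3⟩, w1, w2, w3⟩
      obtain ⟨Z, hZ, hc⟩ := exists_subset_card_eq big
      refine ⟨Z, hc, fun w hz => ?_⟩
      obtain ⟨w1, v, hv, w2⟩ := (mem_filter.1 (hZ hz)).2
      obtain ⟨v1, a, ha, v2⟩ := hw v hv
      have k1 := (MExp_rng v1).2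
      have k2 := (MExp_rng w1).1
      exact ⟨w1, a, ha, v2.trans (le_of_adj (Fin.lt_def.2 (by omega)) w2)⟩
  obtain ⟨Y, hY, hw⟩ := key D 0 rfl
  rw [← hY]
  exact card_le_card fun w k => mem_ups.2 ⟨(MExp_rng (hw w k).1).2, (hw w k).2⟩

end Pool.Agent.Lib.MP_b735d7_co
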