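import Pool.Agent.Lib.MP_b735d7_co.MStar
import Pool.Agent.Lib.MP_b735d7_co.MExp

/-!
The lower bound up to a polynomial factor.
-/

namespace Pool.Agent.Lib.MP_b735d7_co

open Finset Filter Topology Pool.Agent.Lib.MP_58a483_pr.H80

lemma MMain_ex {n D : ℕ} {p B : ℝ} (h0 : 0 ≤ p) (h1 : p ≤ 1) (A : ℕ → SimpleGraph (Fin n) → Prop)
    (h : ∀ j < D, Pr n p (A j) ≤ B) : Pr n p (fun G => ∃ j < D, A j G) ≤ D * B := by
  calc _ ≤ Ex (EE n) p fun ω => ∑ j ∈ range D, ind (A j (gr ω)) := by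
        refine Ex_mono h0 h1 fun ω _ => le_trans (ind_mono ?_) (ind_exists_le _ _)
        rintro ⟨j, a, b⟩
        exact ⟨j, mem_range.2 a, b⟩
    _ ≤ ∑ _j ∈ range D, B := by
        rw [Ex_sum]
        exact sum_le_sum fun j hj => h j (mem_range.1 hj)
    _ = _ := by rw [sum_const, card_range, nsmul_eq_mul]

lemma MMain_choose {n t : ℕ} (ht : 0 < t) :
    (n.choose t : ℝ) ≤ (Real.exp 1 * (n / t)) ^ t := by
  have t0 : (0 : ℝ) < t := by exact_mod_cast ht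
  have h2 := Real.pow_div_factorial_le_exp (t : ℝ) t0.le t
  calc (n.choose t : ℝ) ≤ (n : ℝ) ^ t / t.factorial := Nat.choose_le_pow_div t n
    _ = (t : ℝ) ^ t / t.factorial * (n / t) ^ t := by
        rw [div_pow]; field_simp
    _ ≤ Real.exp t * (n / t) ^ t := by gcongr
    _ = _ := by rw [mul_pow, ← Real.exp_nat_mul, mul_one]

/-- one of the three events that spoil the growth of the up-sets -/
def MBad {n : ℕ} (D r s M h : ℕ) (G : SimpleGraph (Fin n)) : Prop :=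
  (∃ i < 4, (stb G (8 * r) D 0 i).card < 4 * r) ∨
  (∃ j < D, Shr G (8 * r) (4 * (j + 1) * (8 * r)) (2 ^ j * s)) ∨
  ∃ S : Finset (Fin n), S.card = s ∧ (∀ v ∈ S, v.val < 4 * (D + 1) * (8 * r)) ∧
    2 ^ D * s ≤ (ups G S (4 * (D + 1) * (8 * r))).card ∧ (ups G S h).card < M

lemma MMain_grow {n D r s M h : ℕ} {G : SimpleGraph (Fin n)} (hG : ¬ MBad D r s M h G)
    {S : Finset (Fin n)} (hS : S ⊆ stb G (8 * r) D 0 0) (hs : S.card = s) :
    M ≤ (ups G S h).card := by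
  by_contra hn
  refine hG (Or.inr ?_)
  by_cases h1 : ∃ j < D, Shr G (8 * r) (4 * (j + 1) * (8 * r)) (2 ^ j * s)
  · exact Or.inl h1
  · refine Or.inr ⟨S, hs, fun v hv => ?_, grow_st (fun j hj a => h1 ⟨j, hj, a⟩)
      (fun v hv => (mem_stb.1 (hS hv)).2.2) hs, by omega⟩
    have a1 := (mem_stb.1 (hS hv)).2.1
    have a2 : 1 * (8 * r) ≤ 4 * (D + 1) * (8 * r) := Nat.mul_le_mul_right _ (by omega)
    omega

lemma MMain_det {n D r s M h : ℕ} (hs : 0 < s) {G : SimpleGraph (Fin n)}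
    (h1 : ¬ MBad D r s M h G) (h2 : ¬ MBad D r s M h (rev G))
    (h3 : ¬ ∃ S T : Finset (Fin n), S.card = s ∧ T.card = s ∧ M ≤ (ups G S h).card ∧
      M ≤ (ups (rev G) T h).card ∧ ∀ a ∈ S, ∀ b ∈ T, ¬ Below G a b.rev) :
    (4 * r) * (4 * r) ≤ cmp G + orderDim G * (2 * s * n) := by
  have k1 : 4 * r ≤ (stb G (8 * r) D 0 0).card := by
    by_contra hn
    exact h1 (Or.inl ⟨0, by omega, by omega⟩)
  have k2 : 4 * r ≤ ((stb (rev G) (8 * r) D 0 0).image Fin.rev).card := by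
    rw [card_image_of_injective _ Fin.rev_injective]
    by_contra hn
    exact h2 (Or.inl ⟨0, by omega, by omega⟩)
  refine le_trans (Nat.mul_le_mul k1 k2) (stair hs G _ _ fun S hS T hT e1 e2 => ?_)
  by_contra hn
  have e3 : (T.image Fin.rev).card = s := by
    rw [card_image_of_injective _ Fin.rev_injective, e2]
  refine h3 ⟨S, T.image Fin.rev, e1, e3, MMain_grow h1 hS e1, MMain_grow h2 ?_ e3, ?_⟩
  · intro v hv
    obtain ⟨w, hw, rfl⟩ := mem_image.1 hv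
    obtain ⟨w', hw', rfl⟩ := mem_image.1 (hT hw)
    rwa [Fin.rev_rev]
  · intro x hx y hy hb
    obtain ⟨w, hw, rfl⟩ := mem_image.1 hy
    rw [Fin.rev_rev] at hb
    exact hn ⟨x, hx, w, hw, hb⟩

/-- the conditions on the constants -/
structure MPar (D : ℕ) (c L σ μ : ℝ) : Prop where
  c8 : 8 ≤ c
  d1 : c ≤ 2 ^ D
  d2 : (2 : ℝ) ^ D ≤ 4 * c
  hL : L = 128 * (D + 1) + 10
  hσ : σ = Real.exp (-c + 2 * L)
  hμ : μ = c * σ * Real.exp (c / 2 - L + 4) / 2
  cA : 3000 * c ^ 531 * Real.exp (-(c / 2)) ≤ 1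

/-- the conditions on the sizes -/
structure MSz (n r s M : ℕ) (c σ μ : ℝ) : Prop where
  r1 : 2 / c * n ≤ r
  r2 : (r : ℝ) ≤ 2 * (2 / c * n)
  s1 : σ * n ≤ s
  s2 : (s : ℝ) ≤ 2 * (σ * n)
  s3 : 2 ≤ s
  m1 : μ * n ≤ M
  m2 : (M : ℝ) ≤ 2 * (μ * n)
  n1 : c ≤ n

variable {D n r s M : ℕ} {c L σ μ : ℝ}

lemma MMain_e {c : ℝ} (h : 8 ≤ c) (k : ℕ) : Real.exp k ≤ c ^ k := by
  have h5 : Real.exp 1 ≤ 3 := (Real.exp_one_lt_d9.trans (by norm_num)).le
  calc Real.exp k = Real.exp 1 ^ k := by rw [← Real.exp_nat_mul, mul_one]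
    _ ≤ _ := pow_le_pow_left₀ (Real.exp_pos 1).le (by linarith) k

lemma MPar.eL (P : MPar D c L σ μ) : Real.exp L ≤ c ^ 522 := by
  have c8 := P.c8
  have h5 : Real.exp 1 ≤ 2 ^ 2 := (Real.exp_one_lt_d9.trans (by norm_num)).le
  have a1 : Real.exp (D + 1) ≤ c ^ 4 := by
    calc Real.exp (D + 1) = Real.exp 1 ^ (D + 1) := by
          rw [← Real.exp_nat_mul, mul_one]; push_cast; rfl
      _ ≤ (2 ^ 2) ^ (D + 1) := pow_le_pow_left₀ (Real.exp_pos 1).le h5 _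
      _ = (2 * 2 ^ D) ^ 2 := by rw [← pow_mul, mul_comm 2 (D + 1), pow_mul, pow_succ' (2 : ℝ) D]
      _ ≤ (c * c) ^ 2 := pow_le_pow_left₀ (by positivity) (by nlinarith [P.d2]) 2
      _ = _ := by ring
  have a2 := MMain_e c8 10
  calc Real.exp L = Real.exp (D + 1) ^ 128 * Real.exp (10 : ℕ) := by
        rw [← Real.exp_nat_mul, ← Real.exp_add, P.hL]; push_cast; rfl
    _ ≤ (c ^ 4) ^ 128 * c ^ 10 :=
        mul_le_mul (pow_le_pow_left₀ (Real.exp_pos _).le a1 128) a2 (Real.exp_pos _).le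
          (by positivity)
    _ = _ := by rw [← pow_mul, ← pow_add]

lemma MPar.A (P : MPar D c L σ μ) : 3000 * c ^ 5 * Real.exp (-(c / 2) + L + 4) ≤ 1 := by
  have c8 := P.c8
  have c0 : 0 < c := by linarith
  have a2 := MMain_e c8 4
  refine le_trans ?_ P.cA
  rw [Real.exp_add, Real.exp_add]
  calc _ ≤ 3000 * c ^ 5 * (Real.exp (-(c / 2)) * c ^ 522 * c ^ 4) := by
        have := P.eL
        push_cast at a2
        gcongr
    _ = 3000 * (c ^ 5 * c ^ 522 * c ^ 4) * Real.exp (-(c / 2)) := by ring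
    _ = _ := by rw [← pow_add, ← pow_add]

lemma MPar.small (P : MPar D c L σ μ) :
    L + 4 ≤ c / 2 ∧ 3000 * c ^ 5 * σ ≤ 1 ∧ 4 * c ^ 2 * μ ≤ 1 := by
  have c8 := P.c8
  have c0 : 0 < c := by linarith
  have hA := P.A
  have e0 := Real.exp_pos (-(c / 2) + L + 4)
  have c5 : 1 ≤ c ^ 5 := one_le_pow₀ (by linarith)
  have a1 : L + 4 ≤ c / 2 := by
    have : Real.exp (-(c / 2) + L + 4) ≤ 1 := by nlinarith
    linarith [Real.exp_le_one_iff.1 this]
  refine ⟨a1, le_trans ?_ hA, le_trans ?_ hA⟩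
  · refine mul_le_mul_of_nonneg_left ?_ (by positivity)
    rw [P.hσ]
    exact Real.exp_le_exp.2 (by linarith)
  · have a2 : σ * Real.exp (c / 2 - L + 4) = Real.exp (-(c / 2) + L + 4) := by
      rw [P.hσ, ← Real.exp_add]; congr 1; ring
    have a3 : c ^ 3 ≤ c ^ 5 := pow_le_pow_right₀ (by linarith) (by norm_num)
    calc 4 * c ^ 2 * μ = 2 * c ^ 3 * (σ * Real.exp (c / 2 - L + 4)) := by rw [P.hμ]; ring
      _ ≤ _ := by
        rw [a2]
        exact mul_le_mul_of_nonneg_right (by linarith) e0.le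

lemma MPar.σ0 (P : MPar D c L σ μ) : 0 < σ := by rw [P.hσ]; exact Real.exp_pos _

lemma MPar.μ0 (P : MPar D c L σ μ) : 0 < μ := by
  have := P.σ0
  have := P.c8
  rw [P.hμ]; positivity

lemma MPar.cσ (P : MPar D c L σ μ) : 16 * c ^ 2 * σ ≤ 1 := by
  have c8 := P.c8
  have a3 : c ^ 2 ≤ c ^ 5 := pow_le_pow_right₀ (by linarith) (by norm_num)
  have a4 : 0 ≤ c ^ 2 := by positivity
  exact le_trans (mul_le_mul_of_nonneg_right (by linarith) P.σ0.le) P.small.2.1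

lemma MSz.choose (P : MPar D c L σ μ) (Z : MSz n r s M c σ μ) :
    (n.choose s : ℝ) ≤ Real.exp (s * (1 + c)) := by
  refine LMain_choose (le_trans ?_ (mul_le_mul_of_nonneg_left Z.s1 (Real.exp_pos c).le))
  rw [P.hσ, ← mul_assoc, ← Real.exp_add]
  refine le_mul_of_one_le_left (Nat.cast_nonneg n) (Real.one_le_exp ?_)
  rw [P.hL]
  have : (0 : ℝ) ≤ D := Nat.cast_nonneg D
  linarith

lemma MSz.t0 (P : MPar D c L σ μ) (Z : MSz n r s M c σ μ) :
    ((4 * (D + 1) * (8 * r) : ℕ) : ℝ) + (c / 2 - L + 19 / 2) * (n / c) ≤ (n / 2 : ℕ) := by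
  have c8 := P.c8
  have c0 : 0 < c := by linarith
  have h1 : (n : ℝ) ≤ 2 * (n / 2 : ℕ) + 1 := by
    have : n ≤ 2 * (n / 2) + 1 := by omega
    exact_mod_cast this
  have h2 : 1 ≤ (n : ℝ) / c := (one_le_div c0).2 Z.n1
  have h3 : (r : ℝ) ≤ 4 * (n / c) := Z.r2.trans (le_of_eq (by ring))
  have h4 := mul_le_mul_of_nonneg_left h3 (show (0 : ℝ) ≤ 32 * (D + 1) by positivity)
  have h5 : c / 2 * (n / c) = n / 2 := by field_simp
  rw [P.hL]
  push_cast at h1 ⊢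
  nlinarith

lemma MSz.tle (P : MPar D c L σ μ) (Z : MSz n r s M c σ μ) {j : ℕ} (hj : j ≤ D) :
    ((2 ^ j * s : ℕ) : ℝ) ≤ 8 * c * σ * n := by
  have c8 := P.c8
  have a1 : (2 : ℝ) ^ j ≤ 4 * c := (pow_le_pow_right₀ one_le_two hj).trans P.d2
  push_cast
  calc (2 : ℝ) ^ j * s ≤ 4 * c * (2 * (σ * n)) :=
        mul_le_mul a1 Z.s2 (Nat.cast_nonneg s) (by positivity)
    _ = _ := by ring

lemma MMain_e1 (P : MPar D c L σ μ) (Z : MSz n r s M c σ μ) :
    (16 : ℝ) * 2 ^ (8 * r) * (1 - c / n) ^ (r * (4 * r)) ≤ 16 * Real.exp (-(σ * n)) := by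
  have c8 := P.c8
  have c0 : 0 < c := by linarith
  have n0 : (0 : ℝ) < n := by linarith [Z.n1]
  have r0 : (0 : ℝ) ≤ r := Nat.cast_nonneg r
  have p1 : c / n ≤ 1 := (div_le_one n0).2 Z.n1
  have h1 := LMain_pow p1 (r * (4 * r))
  have h2 : (2 : ℝ) ^ (8 * r) ≤ Real.exp (6 * r) := by
    have a1 : (2 : ℝ) ≤ Real.exp (3 / 4) := by
      rw [← Real.log_le_iff_le_exp two_pos]
      linarith [Real.log_two_lt_d9]
    calc (2 : ℝ) ^ (8 * r) ≤ Real.exp (3 / 4) ^ (8 * r) := pow_le_pow_left₀ (by norm_num) a1 _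
      _ = _ := by rw [← Real.exp_nat_mul]; congr 1; push_cast; ring
  have h3 : 2 ≤ c / n * r := by
    calc (2 : ℝ) = c / n * (2 / c * n) := by field_simp
      _ ≤ _ := mul_le_mul_of_nonneg_left Z.r1 (by positivity)
  have h4 : σ * n ≤ r := by
    refine le_trans (mul_le_mul_of_nonneg_right ?_ n0.le) Z.r1
    rw [le_div_iff₀ c0]
    nlinarith [P.cσ, mul_pos c0 P.σ0]
  have h5 : Real.exp (6 * r) * Real.exp (-(c / n * ((r * (4 * r) : ℕ) : ℝ))) ≤
      Real.exp (-(σ * n)) := by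
    rw [← Real.exp_add]
    refine Real.exp_le_exp.2 ?_
    push_cast
    nlinarith [mul_le_mul_of_nonneg_right h3 r0]
  rw [mul_assoc]
  refine mul_le_mul_of_nonneg_left (le_trans ?_ h5) (by norm_num)
  exact mul_le_mul h2 h1 (pow_nonneg (by linarith) _) (Real.exp_pos _).le

lemma MMain_e2 (P : MPar D c L σ μ) (Z : MSz n r s M c σ μ) {t : ℕ} (h1 : s ≤ t)
    (h2 : (t : ℝ) ≤ 8 * c * σ * n) :
    (n.choose t : ℝ) * (n.choose (2 * t)) * (2 * t * (c / n)) ^ (4 * t) ≤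
      Real.exp (-(σ * n)) := by
  have c8 := P.c8
  have c0 : 0 < c := by linarith
  have n0 : (0 : ℝ) < n := by linarith [Z.n1]
  have ht : 0 < t := by have := Z.s3; omega
  have t0 : (0 : ℝ) < t := by exact_mod_cast ht
  have σ0 := P.σ0
  have a1 := MMain_choose (n := n) ht
  have a2 := MMain_choose (n := n) (show 0 < 2 * t by omega)
  rw [pow_mul] at a2
  push_cast at a2
  have h5 : Real.exp 1 ≤ 3 := (Real.exp_one_lt_d9.trans (by norm_num)).le
  have h6 : Real.exp 1 * (n / t) * (Real.exp 1 * (n / (2 * t))) ^ 2 * (2 * t * (c / n)) ^ 4 ≤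
      Real.exp (-1) := by
    rw [Real.exp_neg, ← one_div, le_div_iff₀ (Real.exp_pos 1)]
    calc _ = Real.exp 1 ^ 4 * (4 * c ^ 4 * t / n) := by field_simp; ring
      _ ≤ 3 ^ 4 * (4 * c ^ 4 * (8 * c * σ * n) / n) := by gcongr
      _ = 2592 * (c ^ 5 * σ) := by field_simp; ring
      _ ≤ 1 := by nlinarith [P.small.2.1, mul_pos (pow_pos c0 5) σ0]
  calc _ ≤ (Real.exp 1 * (n / t)) ^ t * ((Real.exp 1 * (n / (2 * t))) ^ 2) ^ t *
        ((2 * t * (c / n)) ^ 4) ^ t := by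
        rw [pow_mul]
        gcongr
    _ = (Real.exp 1 * (n / t) * (Real.exp 1 * (n / (2 * t))) ^ 2 * (2 * t * (c / n)) ^ 4) ^ t := by
        rw [← mul_pow, ← mul_pow]
    _ ≤ Real.exp (-1) ^ t := pow_le_pow_left₀ (by positivity) h6 _
    _ ≤ _ := by
        rw [← Real.exp_nat_mul]
        have : (s : ℝ) ≤ t := by exact_mod_cast h1
        exact Real.exp_le_exp.2 (by linarith [Z.s1])

lemma MSz.θ1 (P : MPar D c L σ μ) (Z : MSz n r s M c σ μ) :
    c / n * (2 ^ D * s : ℕ) * (1 - 1 / c) ≤ 1 := by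
  have c8 := P.c8
  have c0 : 0 < c := by linarith
  have n0 : (0 : ℝ) < n := by linarith [Z.n1]
  have a1 : c / n * (2 ^ D * s : ℕ) ≤ 1 := by
    calc c / n * (2 ^ D * s : ℕ) ≤ c / n * (8 * c * σ * n) :=
          mul_le_mul_of_nonneg_left (Z.tle P le_rfl) (by positivity)
      _ = 8 * (c ^ 2 * σ) := by field_simp
      _ ≤ 1 := by nlinarith [P.cσ, mul_pos (pow_pos c0 2) P.σ0]
  have a2 : 0 ≤ c / n * (2 ^ D * s : ℕ) := by positivity
  have a3 : 0 < 1 / c := by positivity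
  nlinarith

lemma MSz.cN (P : MPar D c L σ μ) (_Z : MSz n r s M c σ μ) : c * s ≤ (2 ^ D * s : ℕ) := by
  push_cast
  exact mul_le_mul_of_nonneg_right P.d1 (Nat.cast_nonneg s)

lemma MMain_e3 (P : MPar D c L σ μ) (Z : MSz n r s M c σ μ) {j : ℕ}
    (hj : (c / 2 - L + 19 / 2) * (n / c) ≤ j) :
    (n.choose s : ℝ) * ((M : ℝ) ^ (2 ^ D * s) / ((2 ^ D * s).factorial : ℝ) *
      (1 - c / n * (2 ^ D * s : ℕ) * (1 - 1 / c)) ^ j) ≤ Real.exp (-(σ * n)) := by
  have c8 := P.c8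
  have c0 : 0 < c := by linarith
  have n0 : (0 : ℝ) < n := by linarith [Z.n1]
  have s0 : (0 : ℝ) ≤ s := Nat.cast_nonneg s
  have σ0 := P.σ0
  have θ1 := Z.θ1 P
  have hN := Z.cN P
  set N : ℕ := 2 ^ D * s with hNd
  have N0 : (0 : ℝ) ≤ N := Nat.cast_nonneg N
  have h1 := LMain_pow θ1 j
  have h2 : (M : ℝ) ≤ Real.exp (c / 2 - L + 4) * N := by
    calc (M : ℝ) ≤ 2 * (μ * n) := Z.m2
      _ = Real.exp (c / 2 - L + 4) * (c * (σ * n)) := by rw [P.hμ]; ring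
      _ ≤ _ := mul_le_mul_of_nonneg_left
          ((mul_le_mul_of_nonneg_left Z.s1 c0.le).trans hN) (Real.exp_pos _).le
  have h3 := LMain_fact (Nat.cast_nonneg M) h2
  have e1 : 1 / c ≤ 1 := (div_le_one c0).2 (by linarith)
  have h4 : N * (c / 2 - L + 9) ≤ c / n * N * (1 - 1 / c) * j := by
    have a0 : (10 : ℝ) ≤ L := by
      rw [P.hL]
      have : (0 : ℝ) ≤ D := Nat.cast_nonneg D
      linarith
    have a2 : 1 / c * (c / 2 - L + 19 / 2) ≤ 1 / 2 := by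
      rw [one_div_mul_eq_div, div_le_iff₀ c0]
      linarith
    have a1 : c / 2 - L + 9 ≤ (1 - 1 / c) * (c / 2 - L + 19 / 2) := by linarith
    calc N * (c / 2 - L + 9) ≤ N * ((1 - 1 / c) * (c / 2 - L + 19 / 2)) :=
          mul_le_mul_of_nonneg_left a1 N0
      _ = c / n * N * (1 - 1 / c) * ((c / 2 - L + 19 / 2) * (n / c)) := by field_simp
      _ ≤ _ := mul_le_mul_of_nonneg_left hj (mul_nonneg (by positivity) (by linarith))
  calc _ ≤ Real.exp (s * (1 + c)) * (Real.exp (N * (1 + (c / 2 - L + 4))) *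
        Real.exp (-(c / n * N * (1 - 1 / c) * j))) := by
        refine mul_le_mul (Z.choose P) (mul_le_mul h3 h1 (pow_nonneg (by linarith) _)
          (Real.exp_pos _).le) (mul_nonneg (by positivity) (pow_nonneg (by linarith) _))
          (Real.exp_pos _).le
    _ ≤ _ := by
        rw [← Real.exp_add, ← Real.exp_add]
        refine Real.exp_le_exp.2 ?_
        have a2 := mul_le_mul_of_nonneg_right c8 s0
        nlinarith [Z.s1]

lemma MMain_e4 (P : MPar D c L σ μ) (Z : MSz n r s M c σ μ) :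
    (n.choose s : ℝ) ^ 2 * (1 - c / n) ^ (M * M) ≤ Real.exp (-(σ * n)) := by
  have c8 := P.c8
  have c0 : 0 < c := by linarith
  have n0 : (0 : ℝ) < n := by linarith [Z.n1]
  have s0 : (0 : ℝ) ≤ s := Nat.cast_nonneg s
  have σ0 := P.σ0
  have μ0 := P.μ0
  have p1 : c / n ≤ 1 := (div_le_one n0).2 Z.n1
  have h1 := LMain_pow p1 (M * M)
  have h2 : σ * Real.exp (c / 2 - L + 4) ^ 2 = Real.exp 8 := by
    rw [P.hσ, ← Real.exp_nat_mul, ← Real.exp_add]; congr 1; push_cast; ring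
  have h3 : 10 ≤ c ^ 2 * Real.exp 8 / 4 := by
    have a1 : 1 ≤ Real.exp 8 := Real.one_le_exp (by norm_num)
    have a2 : 8 ^ 2 ≤ c ^ 2 := pow_le_pow_left₀ (by norm_num) c8 2
    nlinarith
  have h4 : 5 * c * s ≤ c / n * ((M * M : ℕ) : ℝ) := by
    have a1 : (μ * n) ^ 2 ≤ (M : ℝ) ^ 2 := pow_le_pow_left₀ (by positivity) Z.m1 2
    push_cast
    calc 5 * c * s ≤ 5 * c * (2 * (σ * n)) := mul_le_mul_of_nonneg_left Z.s2 (by positivity)
      _ = 10 * (c * σ * n) := by ring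
      _ ≤ c ^ 2 * Real.exp 8 / 4 * (c * σ * n) := mul_le_mul_of_nonneg_right h3 (by positivity)
      _ = c / n * (μ * n) ^ 2 := by rw [← h2, P.hμ]; field_simp; ring
      _ ≤ c / n * (M : ℝ) ^ 2 := mul_le_mul_of_nonneg_left a1 (by positivity)
      _ = _ := by ring
  calc _ ≤ Real.exp (s * (1 + c)) ^ 2 * Real.exp (-(c / n * ((M * M : ℕ) : ℝ))) :=
        mul_le_mul (pow_le_pow_left₀ (Nat.cast_nonneg _) (Z.choose P) 2) h1
          (pow_nonneg (by linarith) _) (by positivity)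
    _ ≤ _ := by
        rw [← Real.exp_nat_mul, ← Real.exp_add]
        refine Real.exp_le_exp.2 ?_
        have a2 := mul_le_mul_of_nonneg_right c8 s0
        push_cast at h4 ⊢
        nlinarith [Z.s1]

lemma MMain_bad (P : MPar D c L σ μ) (Z : MSz n r s M c σ μ) :
    Pr n (c / n) (MBad D r s M (n / 2)) ≤ (17 * D + 1) * Real.exp (-(σ * n)) := by
  have c8 := P.c8
  have c0 : 0 < c := by linarith
  have n0 : (0 : ℝ) < n := by linarith [Z.n1]
  have p0 : 0 ≤ c / n := by positivity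
  have p1 : c / n ≤ 1 := (div_le_one n0).2 Z.n1
  have e1 : 1 / c ≤ 1 := (div_le_one c0).2 (by linarith)
  have e0 : 0 < 1 / c := by positivity
  have ht := Z.t0 P
  have ht1 : 4 * (D + 1) * (8 * r) ≤ n / 2 := by
    have : 0 ≤ (c / 2 - L + 19 / 2) * (n / c) :=
      mul_nonneg (by linarith [P.small.1]) (by positivity)
    exact_mod_cast (show ((4 * (D + 1) * (8 * r) : ℕ) : ℝ) ≤ (n / 2 : ℕ) by linarith)
  have hθ : ∀ x : ℕ, 2 ^ D * s ≤ x → x < M →
      c / n * (2 ^ D * s : ℕ) * (1 - 1 / c) * (x + 1) ≤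
        (2 ^ D * s : ℕ) * (1 - (1 - c / n) ^ x) := by
    intro x x1 x2
    refine LMain_theta p0 p1 e0.le e1 ?_ ?_
    · rw [one_div_mul_eq_div, le_div_iff₀ c0]
      have a1 : ((2 ^ D * s : ℕ) : ℝ) ≤ x := by exact_mod_cast x1
      have a2 : (2 : ℝ) ≤ s := by exact_mod_cast Z.s3
      nlinarith [Z.cN P]
    · have a1 : (x : ℝ) ≤ 2 * (μ * n) := le_trans (by exact_mod_cast x2.le) Z.m2
      have a2 : c / n * x ≤ 2 * c * μ := by
        calc c / n * x ≤ c / n * (2 * (μ * n)) := mul_le_mul_of_nonneg_left a1 p0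
          _ = _ := by field_simp
      refine a2.trans ?_
      rw [le_div_iff₀ two_pos, le_div_iff₀ c0]
      linarith [P.small.2.2]
  have b1 := (pr_st (n := n) (r := r) p0 p1 D 0 (by
    rw [zero_add]; exact ht1.trans (Nat.div_le_self n 2))).trans
    (mul_le_mul_of_nonneg_left (MMain_e1 P Z) (Nat.cast_nonneg D))
  have b2 := MMain_ex (D := D) (B := Real.exp (-(σ * n))) p0 p1
    (fun j G => Shr G (8 * r) (4 * (j + 1) * (8 * r)) (2 ^ j * s)) fun j hj => by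
      have a1 := Z.tle P hj.le
      refine (pr_shr p0 p1 ?_).trans
        (MMain_e2 P Z (Nat.le_mul_of_pos_left s (Nat.two_pow_pos j)) a1)
      have a2 : 16 * c * σ ≤ 1 := by nlinarith [P.cσ, mul_pos c0 P.σ0]
      have a3 := mul_le_mul_of_nonneg_right a2 n0.le
      exact_mod_cast (show 2 * ((2 ^ j * s : ℕ) : ℝ) ≤ n by linarith)
  have b3 := (LMain_yule (s := s) p0 p1 (Z.θ1 P) hθ ht1 (Nat.div_le_self n 2)).trans
    (MMain_e3 P Z (by rw [Nat.cast_sub ht1]; linarith))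
  refine le_trans (Pr_or p0 p1 _ _) ?_
  refine le_trans (add_le_add b1 ((Pr_or p0 p1 _ _).trans (add_le_add b2 b3))) (le_of_eq ?_)
  ring

lemma MMain_n (P : MPar D c L σ μ) (Z : MSz n r s M c σ μ) :
    Pr n (c / n) (fun G => (orderDim G : ℝ) < Real.exp c / c ^ 1046) ≤
      (34 * D + 3) * Real.exp (-(σ * n)) + c ^ 3 * Real.exp c / 32 / n := by
  have c8 := P.c8
  have c0 : 0 < c := by linarith
  have n0 : (0 : ℝ) < n := by linarith [Z.n1]
  have p0 : 0 ≤ c / n := by positivity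
  have p1 : c / n ≤ 1 := (div_le_one n0).2 Z.n1
  have σ0 := P.σ0
  have s0 : 0 < s := by have := Z.s3; omega
  have b1 := MMain_bad P Z
  have b2 := (pr_rev (c / n) _).trans_le b1
  have b3 := (pr_cut (s := s) (M := M) p0 p1 (Nat.mul_div_le n 2)).trans (MMain_e4 P Z)
  have b4 := pr_cmp (n := n) p0 p1 (show 0 < 8 * (2 / c * n) ^ 2 by positivity)
  have b5 : (n : ℝ) ^ 2 * (c / n * (1 + c / n) ^ n) / (8 * (2 / c * n) ^ 2) ≤
      c ^ 3 * Real.exp c / 32 / n := by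
    have a1 : (1 + c / n) ^ n ≤ Real.exp c := by
      have := Real.add_one_le_exp (c / n)
      calc (1 + c / n) ^ n ≤ Real.exp (c / n) ^ n :=
            pow_le_pow_left₀ (by linarith) (by linarith) n
        _ = _ := by rw [← Real.exp_nat_mul, mul_div_cancel₀ _ n0.ne']
    calc _ ≤ (n : ℝ) ^ 2 * (c / n * Real.exp c) / (8 * (2 / c * n) ^ 2) := by gcongr
      _ = _ := by field_simp; ring
  have b7 := (Pr_or p0 p1 _ _).trans (add_le_add b1 ((Pr_or p0 p1 _ _).trans (add_le_add b2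
    ((Pr_or p0 p1 _ _).trans (add_le_add b3 (b4.trans b5))))))
  refine le_trans (Pr_mono p0 p1 fun G hG => ?_) (b7.trans (by linarith))
  by_contra hn
  simp only [not_or] at hn
  obtain ⟨h1, h2, h3, h4⟩ := hn
  have d1 := MMain_det s0 h1 h2 h3
  have d2 : ((4 * r * (4 * r) : ℕ) : ℝ) ≤ ((cmp G + orderDim G * (2 * s * n) : ℕ) : ℝ) := by
    exact_mod_cast d1
  push_cast at d2
  have d4 : (2 / c * n) ^ 2 ≤ (r : ℝ) ^ 2 := pow_le_pow_left₀ (by positivity) Z.r1 2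
  have d5 : (orderDim G : ℝ) * (2 * s * n) ≤
      Real.exp c / c ^ 1046 * (2 * (2 * (σ * n)) * n) := by
    have := Z.s2
    have := hG.le
    gcongr
  have d6 : Real.exp c / c ^ 1046 * σ ≤ 1 / c ^ 2 := by
    have a1 : Real.exp c * σ = Real.exp L ^ 2 := by
      rw [P.hσ, ← Real.exp_add, ← Real.exp_nat_mul]; congr 1; push_cast; ring
    have a2 : Real.exp L ^ 2 ≤ (c ^ 522) ^ 2 := pow_le_pow_left₀ (Real.exp_pos _).le P.eL 2
    rw [div_mul_eq_mul_div, a1, div_le_div_iff₀ (by positivity) (by positivity), one_mul]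
    calc _ ≤ (c ^ 522) ^ 2 * c ^ 2 := mul_le_mul_of_nonneg_right a2 (by positivity)
      _ = _ := by rw [← pow_mul, ← pow_add]
  have d7 : Real.exp c / c ^ 1046 * (2 * (2 * (σ * n)) * n) ≤ (2 / c * n) ^ 2 := by
    calc _ = Real.exp c / c ^ 1046 * σ * (4 * n ^ 2) := by ring
      _ ≤ 1 / c ^ 2 * (4 * n ^ 2) := mul_le_mul_of_nonneg_right d6 (by positivity)
      _ = _ := by field_simp; ring
  have d8 : 0 ≤ (2 / c * n) ^ 2 := sq_nonneg _
  rw [not_le] at h4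
  nlinarith

lemma MMain_lim (P : MPar D c L σ μ) :
    Tendsto (fun n : ℕ => Pr n (c / n) fun G => (orderDim G : ℝ) < Real.exp c / c ^ 1046)
      atTop (𝓝 0) := by
  have c8 := P.c8
  have c0 : 0 < c := by linarith
  have η0 : 0 < 2 / c := by positivity
  have σ0 := P.σ0
  have μ0 := P.μ0
  have t0 : Tendsto (fun n : ℕ => (n : ℝ)) atTop atTop := tendsto_natCast_atTop_atTop
  have hZ : ∀ᶠ n : ℕ in atTop, MSz n ⌈2 / c * n⌉₊ ⌈σ * n⌉₊ ⌈μ * n⌉₊ c σ μ := by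
    filter_upwards [(t0.const_mul_atTop η0).eventually_ge_atTop 1,
      (t0.const_mul_atTop σ0).eventually_ge_atTop 2,
      (t0.const_mul_atTop μ0).eventually_ge_atTop 1, t0.eventually_ge_atTop c] with n a1 a2 a3 a4
    refine ⟨Nat.le_ceil _, LMain_ceil a1, Nat.le_ceil _, LMain_ceil (by linarith), ?_,
      Nat.le_ceil _, LMain_ceil a3, a4⟩
    exact_mod_cast a2.trans (Nat.le_ceil _)
  have l2 := (Real.tendsto_exp_neg_atTop_nhds_zero.comp (t0.const_mul_atTop σ0)).const_mul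
    (34 * (D : ℝ) + 3)
  have l3 := tendsto_const_div_atTop_nhds_zero_nat (c ^ 3 * Real.exp c / 32)
  have l4 := l2.add l3
  simp only [mul_zero, add_zero] at l4
  refine squeeze_zero' ?_ ?_ l4
  · filter_upwards [hZ] with n Z
    have n0 : (0 : ℝ) < n := by linarith [Z.n1]
    exact Pr_nonneg (by positivity) ((div_le_one n0).2 Z.n1) _
  · filter_upwards [hZ] with n Z
    exact MMain_n P Z

lemma MMain_par : ∀ᶠ c : ℝ in atTop, ∃ (D : ℕ) (L σ μ : ℝ), MPar D c L σ μ := by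
  have l1 := ((Real.tendsto_pow_mul_exp_neg_atTop_nhds_zero 531).comp
    (tendsto_id.atTop_div_const (show (0 : ℝ) < 2 by norm_num))).const_mul (3000 * 2 ^ 531)
  rw [mul_zero] at l1
  filter_upwards [eventually_ge_atTop (8 : ℝ), l1.eventually_le_const one_pos] with c a1 a2
  have b0 : ⌈c⌉₊ ≠ 0 := (Nat.ceil_pos.2 (by linarith)).ne'
  refine ⟨Nat.log 2 ⌈c⌉₊ + 1, _, _, _, a1, ?_, ?_, rfl, rfl, rfl, le_trans (le_of_eq ?_) a2⟩
  · exact (Nat.le_ceil c).trans (by exact_mod_cast (Nat.lt_pow_succ_log_self one_lt_two _).le)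
  · have b1 : (2 : ℝ) ^ Nat.log 2 ⌈c⌉₊ ≤ ⌈c⌉₊ := by exact_mod_cast Nat.pow_log_le_self 2 b0
    have b2 := LMain_ceil (show 1 ≤ c by linarith)
    rw [pow_succ]
    linarith
  · simp only [Function.comp, id]
    rw [← mul_assoc, mul_assoc 3000 (2 ^ 531), ← mul_pow, mul_div_cancel₀ _ two_ne_zero]

theorem lower_poly : ∃ (K : ℕ) (c₀ : ℝ), ∀ c, c₀ ≤ c →
    Tendsto (fun n : ℕ => Pr n (c / n) fun G => (orderDim G : ℝ) < Real.exp c / c ^ K)
      atTop (𝓝 0) := by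
  obtain ⟨c₀, h⟩ := eventually_atTop.1 MMain_par
  refine ⟨1046, c₀, fun c hc => ?_⟩
  obtain ⟨D, L, σ, μ, P⟩ := h c hc
  exact MMain_lim P

end Pool.Agent.Lib.MP_b735d7_co
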