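import Pool.Agent.Lib.MP_b735d7_co.GFin
import Pool.Agent.Lib.MP_b735d7_co.MMain

/-!
Both bounds up to a polynomial factor.
-/

namespace Pool.Agent.Lib.MP_b735d7_co

open Filter Topology

theorem lower_poly_all : ∃ (K : ℕ) (δ : ℝ), 0 < δ ∧ ∀ c : ℝ, 1 ≤ c →
    Tendsto (fun n : ℕ => Pr n (c / n)
      fun G => ¬ δ * Real.exp c / c ^ K ≤ (orderDim G : ℝ)) atTop (𝓝 0) := by
  obtain ⟨K, c0, h⟩ := lower_poly
  refine ⟨K, Real.exp (-|c0|), Real.exp_pos _, fun c hc => ?_⟩
  have hp : ∀ᶠ n : ℕ in atTop, c / n < 1 :=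
    (tendsto_const_div_atTop_nhds_zero_nat c).eventually (gt_mem_nhds one_pos)
  have c1 : 0 ≤ c := by linarith
  have c2 : 1 ≤ c ^ K := one_le_pow₀ hc
  by_cases hc0 : c0 ≤ c
  · refine squeeze_zero' ?_ ?_ (h c hc0)
    · filter_upwards [hp] with n hn
      exact Pr_nonneg (by positivity) hn.le _
    · filter_upwards [hp] with n hn
      refine Pr_mono (by positivity) hn.le fun G hG => (not_le.1 hG).trans_le ?_
      rw [mul_div_assoc]
      exact mul_le_of_le_one_left (by positivity)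
        (Real.exp_le_one_iff.2 (by linarith [abs_nonneg c0]))
  · refine squeeze_zero' ?_ ?_ (tendsto_const_nhds (x := (0 : ℝ)))
    · filter_upwards [hp] with n hn
      exact Pr_nonneg (by positivity) hn.le _
    · filter_upwards [hp, eventually_ge_atTop 1] with n hn n1
      have e : Pr n (c / n) (fun _ => False) = 0 := by
        unfold Pr
        simp only [Pool.Agent.Lib.MP_58a483_pr.H80.ind_neg not_false,
          Pool.Agent.Lib.MP_58a483_pr.H80.Ex_const]
      refine le_trans (Pr_mono (by positivity) hn.le (B := fun _ => False) fun G hG => hG ?_) e.le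
      have a : (1 : ℝ) ≤ orderDim G := by exact_mod_cast GFin_one_le n1 G
      refine le_trans ?_ a
      rw [← Real.exp_add, div_le_one (by linarith)]
      refine le_trans (Real.exp_le_one_iff.2 ?_) c2
      linarith [le_abs_self c0, not_le.1 hc0]

theorem expPoly : ∃ (K : ℕ) (δ : ℝ), 0 < δ ∧ ∀ c : ℝ, 1 ≤ c →
    Tendsto (fun n : ℕ => prob n c {G | δ * Real.exp c / c ^ K ≤ (orderDim G : ℝ) ∧
      (orderDim G : ℝ) ≤ 10 ^ 7 * c ^ 2 * Real.exp c}) atTop (𝓝 1) := by
  obtain ⟨K, δ, hδ, h⟩ := lower_poly_all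
  refine ⟨K, δ, hδ, fun c hc => ?_⟩
  refine tendsto_one_of (by linarith)
    (fun _ G => δ * Real.exp c / c ^ K ≤ (orderDim G : ℝ) ∧
      (orderDim G : ℝ) ≤ 10 ^ 7 * c ^ 2 * Real.exp c)
    (fun _ G => ¬ δ * Real.exp c / c ^ K ≤ (orderDim G : ℝ) ∨
      ¬ (orderDim G : ℝ) ≤ 10 ^ 7 * c ^ 2 * Real.exp c) (fun _ _ k => not_and_or.1 k) ?_
  have hp : ∀ᶠ n : ℕ in atTop, c / n < 1 :=
    (tendsto_const_div_atTop_nhds_zero_nat c).eventually (gt_mem_nhds one_pos)
  have c1 : 0 ≤ c := by linarith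
  have hs := (h c hc).add (upper_exp hc)
  rw [add_zero] at hs
  refine squeeze_zero' ?_ ?_ hs
  · filter_upwards [hp] with n hn
    exact Pr_nonneg (by positivity) hn.le _
  · filter_upwards [hp] with n hn
    exact Pr_or (by positivity) hn.le _ _

end Pool.Agent.Lib.MP_b735d7_co
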