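import Pool.Agent.Lib.MP_b735d7_co.MDef

/-!
Every block has many stars.
-/

namespace Pool.Agent.Lib.MP_b735d7_co

open Finset Filter Topology Pool.Agent.Lib.MP_58a483_pr.H80

lemma MStar_st {n a b : ℕ} {G G' : SimpleGraph (Fin n)}
    (h : ∀ v w : Fin n, a ≤ v.val → a ≤ w.val → G.Adj v w → G'.Adj v w) (d : ℕ) :
    ∀ (j : ℕ) (v : Fin n), a ≤ 4 * j * b → St G b d j v → St G' b d j v := by
  induction d with
  | zero => exact fun j v _ k => k
  | succ d ih =>
    refine fun j v hj k => ⟨k.1, fun i hi => ?_⟩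
    obtain ⟨w, w1, w2, w3, w4⟩ := k.2 i hi
    have e : a ≤ 4 * (j + 1) * b := hj.trans (Nat.mul_le_mul_right b (by omega))
    exact ⟨w, w1, w2, h v w (hj.trans k.1.1) (e.trans ((Nat.le_add_right _ _).trans w1)) w3,
      ih (j + 1) w e w4⟩

lemma MStar_stb {n b d j i : ℕ} (ω : Finset (Sym2 (Fin n))) :
    stb (gr ω) b d j i =
      stb (gr (ω \ LStarEd (LStarBlk n 0 (4 * j * b)) (LStarBlk n (4 * j * b) n))) b d j i := by
  ext v
  rw [mem_stb, mem_stb]
  refine and_congr_right fun _ => and_congr_right fun _ =>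
    ⟨MStar_st (a := 4 * j * b) (fun x y hx hy k => ?_) d j v le_rfl,
      MStar_st (a := 4 * j * b) (fun x y _ _ k => gr_mono sdiff_subset k) d j v le_rfl⟩
  refine gr_adj.2 ⟨mem_sdiff.2 ⟨(gr_adj.1 k).1, fun he => ?_⟩, (gr_adj.1 k).2⟩
  obtain ⟨q, hq, e⟩ := mem_image.1 he
  have k1 := (LStar_mem.1 (mem_product.1 hq).1).2
  rcases Sym2.eq_iff.1 e with ⟨e1, -⟩ | ⟨e1, -⟩
  · rw [e1] at k1
    omega
  · rw [e1] at k1
    omega

lemma MStar_one {n b d j i m : ℕ} {p : ℝ} (h0 : 0 ≤ p) (h1 : p ≤ 1) {W : Finset (Fin n)}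
    (hW : ∀ v ∈ W, v.val < 4 * j * b) :
    Ex (EE n) p (fun ω => ind (m ≤ (stb (gr ω) b d j i).card ∧
      Disjoint (LStarEd W (stb (gr ω) b d j i)) ω)) ≤ (1 - p) ^ (W.card * m) := by
  set R := LStarEd (LStarBlk n 0 (4 * j * b)) (LStarBlk n (4 * j * b) n) with hR
  have hp : 0 ≤ 1 - p := sub_nonneg.2 h1
  refine le_trans (Ex_mono h0 h1 (g := fun ω => ind (m ≤ (stb (gr (ω \ R)) b d j i).card ∧
    Disjoint (LStarEd W (stb (gr (ω \ R)) b d j i)) (ω ∩ R))) fun ω _ => ind_mono ?_) ?_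
  · rw [hR, ← MStar_stb ω]
    exact fun k => ⟨k.1, k.2.mono_right inter_subset_left⟩
  rw [eta_iter _ R p fun x y => ind (m ≤ (stb (gr y) b d j i).card ∧
    Disjoint (LStarEd W (stb (gr y) b d j i)) x), ← Ex_const (EE n) p ((1 - p) ^ (W.card * m))]
  refine Ex_mono h0 h1 fun w' _ => ?_
  have hZ : ∀ u ∈ stb (gr (w' \ R)) b d j i, 4 * j * b ≤ u.val := fun u hu =>
    (Nat.le_add_right _ _).trans (mem_stb.1 hu).1
  generalize stb (gr (w' \ R)) b d j i = Z at hZ
  by_cases hm : m ≤ Z.card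
  · have e2 : LStarEd W Z ⊆ R := image_subset_image (product_subset_product
      (fun v hv => LStar_mem.2 ⟨Nat.zero_le _, hW v hv⟩) fun u hu => LStar_mem.2 ⟨hZ u hu, u.2⟩)
    refine (Ex_mono h0 h1 (g := fun w => ind (Disjoint (LStarEd W Z) w)) fun w _ =>
      ind_mono fun k => disjoint_left.2 fun e he hw =>
        disjoint_left.1 k.2 he (mem_inter.2 ⟨hw, e2 he⟩)).trans ?_
    rw [Ex_disj (LStar_edsub hW hZ), LStar_edcard hW hZ]
    exact pow_le_pow_of_le_one hp (by linarith) (Nat.mul_le_mul_left _ hm)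
  · rw [← Ex_const (EE n) p ((1 - p) ^ (W.card * m))]
    refine Ex_mono h0 h1 fun w _ => ?_
    rw [ind_neg fun k => hm k.1]
    exact pow_nonneg hp _

lemma MStar_union {n : ℕ} {p c N : ℝ} (h0 : 0 ≤ p) (h1 : p ≤ 1) (hc : 0 ≤ c) {α : Type}
    {s : Finset α} {P : α → Finset (Sym2 (Fin n)) → Prop} (hs : (s.card : ℝ) ≤ N)
    (h : ∀ a ∈ s, Ex (EE n) p (fun ω => ind (P a ω)) ≤ c) :
    Ex (EE n) p (fun ω => ind (∃ a ∈ s, P a ω)) ≤ N * c := by
  refine (Ex_mono h0 h1 fun ω _ => ind_exists_le s fun a => P a ω).trans ?_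
  rw [Ex_sum]
  refine (sum_le_card_nsmul _ _ _ h).trans ?_
  rw [nsmul_eq_mul]
  exact mul_le_mul_of_nonneg_right hs hc

lemma MStar_card {n b j i : ℕ} (hn : 4 * (j + 1) * b ≤ n) (hi : i < 4) :
    (LStarBlk n (4 * j * b + i * b) (4 * j * b + (i + 1) * b)).card = b := by
  have e : (i + 1) * b ≤ 4 * b := Nat.mul_le_mul_right b hi
  have e1 : 4 * (j + 1) * b = 4 * j * b + 4 * b := by ring
  have e2 : (i + 1) * b = i * b + b := by ring
  rw [LStar_card (by omega)]
  omega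

lemma MStar_pigeon {n r b d j i : ℕ} (hb : b = 8 * r) (hn : 4 * (j + 1) * b ≤ n) (hi : i < 4)
    (ω : Finset (Sym2 (Fin n))) (h : (stb (gr ω) b (d + 1) j i).card < 4 * r) :
    ∃ i' ∈ range 4, ∃ W ∈ powersetCard r (LStarBlk n (4 * j * b + i * b) (4 * j * b + (i + 1) * b)),
      Disjoint (LStarEd W (stb (gr ω) b d (j + 1) i')) ω := by
  classical
  have hc := MStar_card hn hi
  have e : (i + 1) * b ≤ 4 * b := Nat.mul_le_mul_right b hi
  have e1 : 4 * (j + 1) * b = 4 * j * b + 4 * b := by ring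
  generalize hB : LStarBlk n (4 * j * b + i * b) (4 * j * b + (i + 1) * b) = B at hc
  have hm : ∀ v ∈ B, 4 * j * b + i * b ≤ v.val ∧ v.val < 4 * j * b + (i + 1) * b := fun v hv =>
    LStar_mem.1 (hB ▸ hv)
  let miss : ℕ → Finset (Fin n) := fun i' => B.filter fun v =>
    ∀ w ∈ stb (gr ω) b d (j + 1) i', ¬ (gr ω).Adj v w
  have h1 : B ⊆ stb (gr ω) b (d + 1) j i ∪ (range 4).biUnion miss := by
    intro v hv
    have k := hm v hv
    by_cases hs : ∀ i' < 4, ∃ w ∈ stb (gr ω) b d (j + 1) i', (gr ω).Adj v w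
    · refine mem_union_left _ (mem_stb.2 ⟨k.1, k.2, ⟨by omega, by omega⟩, fun i' hi' => ?_⟩)
      obtain ⟨w, w1, w2⟩ := hs i' hi'
      obtain ⟨w3, w4, w5⟩ := mem_stb.1 w1
      exact ⟨w, w3, w4, w2, w5⟩
    · push Not at hs
      obtain ⟨i', hi', k'⟩ := hs
      exact mem_union_right _ (mem_biUnion.2 ⟨i', mem_range.2 hi', mem_filter.2 ⟨hv, k'⟩⟩)
  have h2 : ∃ i' ∈ range 4, r ≤ (miss i').card := by
    by_contra hc'
    push Not at hc'
    have k1 := card_le_card h1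
    have k2 := card_union_le (stb (gr ω) b (d + 1) j i) ((range 4).biUnion miss)
    have k3 : ((range 4).biUnion miss).card ≤ (range 4).card * r :=
      card_biUnion_le_card_mul _ _ _ fun i' hi' => (hc' i' hi').le
    rw [card_range] at k3
    omega
  obtain ⟨i', hi', k⟩ := h2
  obtain ⟨W, hW, hr⟩ := exists_subset_card_eq k
  refine ⟨i', hi', W, mem_powersetCard.2 ⟨hW.trans (filter_subset _ _), hr⟩,
    disjoint_left.2 fun x he heω => ?_⟩
  obtain ⟨q, hq, rfl⟩ := mem_image.1 he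
  have k1 := mem_product.1 hq
  have k2 := mem_filter.1 (hW k1.1)
  refine k2.2 q.2 k1.2 (gr_adj.2 ⟨heω, fun e2 => ?_⟩)
  have k3 := (hm _ k2.1).2
  have k4 := (mem_stb.1 k1.2).1
  rw [e2] at k3
  omega

theorem pr_st {n r : ℕ} {p : ℝ} (h0 : 0 ≤ p) (h1 : p ≤ 1) (d : ℕ) :
    ∀ j : ℕ, 4 * (j + d + 1) * (8 * r) ≤ n →
      Pr n p (fun G => ∃ i < 4, (stb G (8 * r) d j i).card < 4 * r) ≤
        d * (16 * 2 ^ (8 * r) * (1 - p) ^ (r * (4 * r))) := by
  obtain ⟨b, hb⟩ : ∃ b, b = 8 * r := ⟨_, rfl⟩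
  rw [← hb]
  have hc : 0 ≤ (1 - p) ^ (r * (4 * r)) := pow_nonneg (sub_nonneg.2 h1) _
  induction d with
  | zero =>
    intro j hn
    rw [Nat.cast_zero, zero_mul, ← Ex_const (EE n) p 0]
    refine Ex_mono h0 h1 fun ω _ => (ind_neg ?_).le
    rintro ⟨i, hi, k⟩
    have e : (i + 1) * b ≤ 4 * b := Nat.mul_le_mul_right b hi
    have e1 : 4 * (j + 1) * b = 4 * j * b + 4 * b := by ring
    have k1 : LStarBlk n (4 * j * b + i * b) (4 * j * b + (i + 1) * b) ⊆ stb (gr ω) b 0 j i :=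
      fun v hv => by
        have k2 := LStar_mem.1 hv
        exact mem_stb.2 ⟨k2.1, k2.2, by omega, by omega⟩
    have k2 := card_le_card k1
    rw [MStar_card hn hi] at k2
    omega
  | succ d ih =>
    intro j hn
    have hn' : 4 * (j + 1) * b ≤ n := (Nat.mul_le_mul_right b (by omega)).trans hn
    have key : Ex (EE n) p (fun ω => ind (∃ i ∈ range 4, ∃ i' ∈ range 4,
        ∃ W ∈ powersetCard r (LStarBlk n (4 * j * b + i * b) (4 * j * b + (i + 1) * b)),
          4 * r ≤ (stb (gr ω) b d (j + 1) i').card ∧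
            Disjoint (LStarEd W (stb (gr ω) b d (j + 1) i')) ω)) ≤
        4 * (4 * (2 ^ b * (1 - p) ^ (r * (4 * r)))) := by
      refine MStar_union h0 h1 (by positivity) (by simp) fun i hi =>
        MStar_union h0 h1 (by positivity) (by simp) fun i' _ =>
          MStar_union h0 h1 hc ?_ fun W hW => ?_
      · have k := card_le_card (powersetCard_mono (n := r) (Subset.refl
          (LStarBlk n (4 * j * b + i * b) (4 * j * b + (i + 1) * b))) |>.trans
          fun W hW => mem_powerset.2 (mem_powersetCard.1 hW).1)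
        rw [card_powerset, MStar_card hn' (mem_range.1 hi)] at k
        exact_mod_cast k
      · have k := mem_powersetCard.1 hW
        have e : (i + 1) * b ≤ 4 * b := Nat.mul_le_mul_right b (mem_range.1 hi)
        have e1 : 4 * (j + 1) * b = 4 * j * b + 4 * b := by ring
        have := MStar_one (d := d) (j := j + 1) (b := b) (i := i') (m := 4 * r) h0 h1 (W := W)
          fun v hv => by
            have k2 := (LStar_mem.1 (k.1 hv)).2
            omega
        rwa [k.2] at this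
    have h2 := ih (j + 1) (by rwa [show j + 1 + d + 1 = j + (d + 1) + 1 by omega])
    unfold Pr at h2 ⊢
    refine le_trans (Ex_mono h0 h1 fun ω _ => (ind_mono ?_).trans (ind_or_le _ _))
      ((Ex_add _ _ _ _).le.trans ((add_le_add h2 key).trans (le_of_eq ?_)))
    · rintro ⟨i, hi, k⟩
      by_cases hs : ∃ i < 4, (stb (gr ω) b d (j + 1) i).card < 4 * r
      · exact Or.inl hs
      · obtain ⟨i', hi', W, hW, k'⟩ := MStar_pigeon hb hn' hi ω k
        exact Or.inr ⟨i, mem_range.2 hi, i', hi', W, hW,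
          not_lt.1 fun k2 => hs ⟨i', mem_range.1 hi', k2⟩, k'⟩
    · push_cast
      ring

end Pool.Agent.Lib.MP_b735d7_co
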