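import Pool.Agent.Lib.MP_b735d7_co.PBase

/-!
First moments for paths.
-/

namespace Pool.Agent.Lib.MP_b735d7_co

open Finset Pool.Agent.Lib.MP_58a483_pr.H80

/-- a finite sequence continued by a constant -/
def momEx {V : Type} {L : ℕ} (d : V) (f : Fin L → V) (i : ℕ) : V :=
  if h : i < L then f ⟨i, h⟩ else d

/-- a new first term -/
def momCs {V : Type} (a : V) (y : ℕ → V) : ℕ → V
  | 0 => a
  | i + 1 => y i

lemma mom_sum_cons {V : Type} [Fintype V] (d : V) (L : ℕ) (g : (ℕ → V) → ℝ) :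
    ∑ f : Fin (L + 1) → V, g (momEx d f) = ∑ a, ∑ f : Fin L → V, g (momCs a (momEx d f)) := by
  rw [← (Fin.consEquiv fun _ : Fin (L + 1) => V).sum_comp, Fintype.sum_prod_type]
  refine sum_congr rfl fun a _ => sum_congr rfl fun f _ => ?_
  congr 1
  funext i
  cases i with
  | zero => simp [momEx, momCs, Fin.consEquiv]
  | succ i =>
    by_cases h : i < L
    · simp only [momEx, momCs, h, Nat.succ_lt_succ h, dif_pos]
      rfl
    · simp [momEx, momCs, h]

lemma mom_sum_prod {V : Type} [Fintype V] (d : V) (w : V → V → V → ℝ) (hw : ∀ a b c, 0 ≤ w a b c)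
    {θ : ℝ} (hθ0 : 0 ≤ θ) (hθ : ∑ a, ∑ b, ∑ c, w a b c ≤ (Fintype.card V : ℝ) ^ 3 * θ) (N : ℕ) :
    ∀ L, 3 * N ≤ L → ∑ f : Fin L → V, ∏ m ∈ range N,
      w (momEx d f (3 * m)) (momEx d f (3 * m + 1)) (momEx d f (3 * m + 2)) ≤
        (Fintype.card V : ℝ) ^ L * θ ^ N := by
  induction N with
  | zero => intro L _; simp
  | succ N ih =>
    intro L hL
    obtain ⟨L, rfl⟩ : ∃ L', L = L' + 1 + 1 + 1 := ⟨L - 3, by omega⟩
    have h := ih L (by omega)
    set g : (ℕ → V) → ℝ := fun y => ∏ m ∈ range (N + 1), w (y (3 * m)) (y (3 * m + 1))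
      (y (3 * m + 2)) with hg
    have e : ∀ a b c (y : ℕ → V), g (momCs a (momCs b (momCs c y))) =
        w a b c * ∏ m ∈ range N, w (y (3 * m)) (y (3 * m + 1)) (y (3 * m + 2)) := by
      intro a b c y
      simp only [hg]
      rw [prod_range_succ', mul_comm]
      rfl
    have e1 := mom_sum_cons d (L + 1 + 1) g
    have e2 := fun a => mom_sum_cons d (L + 1) fun y => g (momCs a y)
    have e3 := fun a b => mom_sum_cons d L fun y => g (momCs a (momCs b y))
    simp only [e2, e3, e, ← mul_sum, ← sum_mul] at e1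
    refine e1.le.trans ((mul_le_mul hθ h ?_ (by positivity)).trans (le_of_eq (by ring)))
    exact sum_nonneg fun f _ => prod_nonneg fun m _ => hw _ _ _

lemma mom_sq (n : ℕ) : ∑ j ∈ range n, (j : ℝ) ^ 2 = (n - 1) * n * (2 * n - 1) / 6 := by
  induction n with
  | zero => simp
  | succ n ih =>
    rw [sum_range_succ, ih]
    push_cast
    ring

lemma mom_triple {n : ℕ} (hn : 2 ≤ n) :
    ∑ a : Fin n, ∑ b : Fin n, ∑ c : Fin n, (1 - ind (b < a ∧ b < c) / 2) ≤
      (Fintype.card (Fin n) : ℝ) ^ 3 * (31 / 32) := by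
  have h1 : ∀ b : Fin n, ∑ a : Fin n, ind (b < a) = ((n - 1 - b : ℕ) : ℝ) := fun b => by
    rw [sum_ind_eq_card, ← Fin.card_Ioi]
    congr 2
    ext a
    simp
  have h2 : ∑ a : Fin n, ∑ b : Fin n, ∑ c : Fin n, ind (b < a ∧ b < c) =
      ∑ j ∈ range n, (j : ℝ) ^ 2 := by
    rw [sum_comm]
    simp only [ind_and, ← mul_sum, ← sum_mul, h1]
    rw [Fin.sum_univ_eq_sum_range (fun j => ((n - 1 - j : ℕ) : ℝ) * ((n - 1 - j : ℕ) : ℝ)),
      sum_range_reflect (fun j => (j : ℝ) * (j : ℝ))]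
    simp only [pow_two]
  simp only [sum_sub_distrib, ← sum_div, h2, mom_sq, sum_const, card_univ, Fintype.card_fin,
    nsmul_eq_mul]
  have h3 : (2 : ℝ) ≤ n := by exact_mod_cast hn
  have h4 : (n : ℝ) / 2 * (3 * n / 2) ≤ (n - 1) * (2 * n - 1) :=
    mul_le_mul (by linarith) (by linarith) (by positivity) (by linarith)
  nlinarith [mul_le_mul_of_nonneg_left h4 (by linarith : (0 : ℝ) ≤ n), pow_pos (by linarith : (0 : ℝ) < n) 3]

lemma mom_half {N v : ℕ} (P : ℕ → Prop) [DecidablePred P] (h : ((range N).filter P).card < v) :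
    (1 : ℝ) ≤ 2 ^ v * ∏ m ∈ range N, (1 - ind (P m) / 2) := by
  have e : ∏ m ∈ range N, (1 - ind (P m) / 2) = (1 / 2 : ℝ) ^ ((range N).filter P).card := by
    rw [← prod_const, prod_filter]
    refine prod_congr rfl fun m _ => ?_
    split_ifs with hm
    · rw [ind_pos hm]
      norm_num
    · rw [ind_neg hm]
      norm_num
  rw [e, one_div, inv_pow, ← div_eq_mul_inv, one_le_div (by positivity)]
  exact pow_le_pow_right₀ one_le_two h.le

lemma mom_path {n T : ℕ} {p : ℝ} (h0 : 0 ≤ p) (f : Fin (T + 1) → Fin n) :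
    Ex (EE n) p (fun ω => ind ((∀ i ≤ T, ∀ j ≤ T, ext f i = ext f j → i = j) ∧
      pe (ext f) T ⊆ ω)) ≤ p ^ T := by
  by_cases h : ∀ i ≤ T, ∀ j ≤ T, ext f i = ext f j → i = j
  · simp only [ind_and, ind_pos h, one_mul]
    rw [Ex_sup (pe_sub_EE h), card_pe h]
  · simp only [ind_and, ind_neg h, zero_mul, Ex_const]
    positivity

lemma mom_res {n T : ℕ} {ω : Finset (Sym2 (Fin n))} {y : ℕ → Fin n} (h : PSeq (gr ω) y T) :
    (∀ i ≤ T, ∀ j ≤ T, ext (fun j : Fin (T + 1) => y j) i = ext (fun j : Fin (T + 1) => y j) j →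
      i = j) ∧ pe (ext fun j : Fin (T + 1) => y j) T = pe y T := by
  refine ⟨fun i hi j hj hij => h.2 i hi j hj ?_, pe_congr fun i hi => ext_res y hi⟩
  rwa [ext_res y hi, ext_res y hj] at hij

theorem pr_h2 {n T N v : ℕ} {p : ℝ} (hn : 2 ≤ n) (h0 : 0 ≤ p) (h1 : p ≤ 1) (hN : 3 * N ≤ T + 1) :
    Pr n p (fun G => ¬ H2 G T v) ≤ (n : ℝ) ^ (T + 1) * p ^ T * 2 ^ v * (31 / 32) ^ N := by
  classical
  let d : Fin n := ⟨0, by omega⟩
  let w : Fin n → Fin n → Fin n → ℝ := fun a b c => 1 - ind (b < a ∧ b < c) / 2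
  have hw : ∀ a b c, 0 ≤ w a b c := fun a b c => by
    have := ind_le_one (b < a ∧ b < c)
    simp only [w]
    linarith
  let W : (Fin (T + 1) → Fin n) → ℝ := fun f => 2 ^ v * ∏ m ∈ range N,
    w (momEx d f (3 * m)) (momEx d f (3 * m + 1)) (momEx d f (3 * m + 2))
  have hW : ∀ f, 0 ≤ W f := fun f =>
    mul_nonneg (by positivity) (prod_nonneg fun m _ => hw _ _ _)
  have key : ∀ ω, ind (¬ H2 (gr ω) T v) ≤ ∑ f : Fin (T + 1) → Fin n,
      ind ((∀ i ≤ T, ∀ j ≤ T, ext f i = ext f j → i = j) ∧ pe (ext f) T ⊆ ω) * W f := by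
    intro ω
    have hn : ∀ f : Fin (T + 1) → Fin n,
        0 ≤ ind ((∀ i ≤ T, ∀ j ≤ T, ext f i = ext f j → i = j) ∧ pe (ext f) T ⊆ ω) * W f :=
      fun f => mul_nonneg (ind_nonneg _) (hW f)
    refine ind_le_of (sum_nonneg fun f _ => hn f) fun h => ?_
    simp only [H2, not_forall, not_le] at h
    obtain ⟨y, hy, hv⟩ := h
    refine le_trans ?_ (single_le_sum (fun f _ => hn f) (mem_univ fun j : Fin (T + 1) => y j))
    obtain ⟨a1, a2⟩ := mom_res hy
    rw [ind_pos ⟨a1, a2 ▸ pe_sub hy⟩, one_mul]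
    have a3 : ((range N).filter fun m => ValAt y (3 * m + 1)).card < v := by
      refine lt_of_le_of_lt ?_ hv
      unfold valCount
      refine card_le_card_of_injOn (fun m => 3 * m + 1) (fun m hm => ?_) fun m _ m' _ h => ?_
      · simp only [coe_filter, mem_range, Set.mem_ofPred_eq, mem_Ioo] at hm ⊢
        exact ⟨⟨by omega, by omega⟩, hm.2⟩
      · simp only at h
        omega
    refine (mom_half _ a3).trans (le_of_eq ?_)
    simp only [W]
    congr 1
    refine prod_congr rfl fun m hm => ?_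
    have hm' := mem_range.1 hm
    have b : ∀ i, i < T + 1 → momEx d (fun j : Fin (T + 1) => y j) i = y i := fun i hi => by
      simp [momEx, hi]
    rw [b _ (by omega), b _ (by omega), b _ (by omega)]
    rfl
  refine (Ex_mono h0 h1 fun ω _ => key ω).trans ?_
  rw [Ex_sum]
  simp only [Ex_mul_right]
  refine (sum_le_sum fun f _ => mul_le_mul_of_nonneg_right (mom_path h0 f) (hW f)).trans ?_
  simp only [W, ← mul_sum]
  have := mom_sum_prod d w hw (by norm_num) (mom_triple hn) N (T + 1) hN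
  rw [Fintype.card_fin] at this
  calc _ ≤ p ^ T * (2 ^ v * ((n : ℝ) ^ (T + 1) * (31 / 32) ^ N)) := by gcongr
    _ = _ := by ring

section fam
variable {ι : Type} [DecidableEq ι]

/-- disjoint occurrence of a family -/
def MomFam (A : Finset ι → Prop) (B : ℕ → Finset ι → Prop) (J : Finset ℕ) (ω : Finset ι) : Prop :=
  ∃ (S₀ : Finset ι) (S : ℕ → Finset ι), S₀ ⊆ ω ∧ A S₀ ∧
    (∀ j ∈ J, S j ⊆ ω ∧ B j (S j) ∧ Disjoint S₀ (S j)) ∧
    ∀ j ∈ J, ∀ j' ∈ J, j ≠ j' → Disjoint (S j) (S j')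

lemma mom_BK (E : Finset ι) {p η : ℝ} (h0 : 0 ≤ p) (h1 : p ≤ 1 / 2) {A : Finset ι → Prop}
    (hA : Mono A) {B : ℕ → Finset ι → Prop} (hB : ∀ j, Mono (B j))
    (hη : ∀ j, Ex E p (fun ω => ind (B j ω)) ≤ η) (J : Finset ℕ) :
    Ex E p (fun ω => ind (MomFam A B J ω)) ≤ Ex E p (fun ω => ind (A ω)) * η ^ J.card := by
  have h1' : p ≤ 1 := by linarith
  induction J using Finset.induction_on with
  | empty =>
    rw [card_empty, pow_zero, mul_one]
    refine Ex_mono h0 h1' fun ω _ => ind_mono ?_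
    rintro ⟨S₀, S, a1, a2, -⟩
    exact hA _ _ a1 a2
  | insert j J hj ih =>
    have hm : Mono (MomFam A B J) := by
      rintro ω ω' h ⟨S₀, S, a1, a2, a3, a4⟩
      exact ⟨S₀, S, a1.trans h, a2, fun i hi => ⟨(a3 i hi).1.trans h, (a3 i hi).2⟩, a4⟩
    have hb : ∀ ω, MomFam A B (insert j J) ω → Box (MomFam A B J) (B j) ω := by
      rintro ω ⟨S₀, S, a1, a2, a3, a4⟩
      have b := a3 j (mem_insert_self _ _)
      refine ⟨S₀ ∪ J.biUnion S, S j, union_subset a1 (biUnion_subset.2 fun i hi =>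
        (a3 i (mem_insert_of_mem hi)).1), b.1, ?_, ⟨S₀, S, subset_union_left, a2, fun i hi =>
          ⟨(subset_biUnion_of_mem S hi).trans subset_union_right, (a3 i (mem_insert_of_mem hi)).2⟩,
          fun i hi i' hi' => a4 i (mem_insert_of_mem hi) i' (mem_insert_of_mem hi')⟩, b.2.1⟩
      rw [disjoint_union_left, disjoint_biUnion_left]
      exact ⟨b.2.2, fun i hi => a4 i (mem_insert_of_mem hi) j (mem_insert_self _ _)
        fun h => hj (h ▸ hi)⟩
    refine (Ex_mono h0 h1' fun ω _ => ind_mono (hb ω)).trans ((BK E h0 h1 _ _ hm (hB j)).trans ?_)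
    rw [card_insert_of_notMem hj, pow_succ, ← mul_assoc]
    have n1 := Ex_nonneg (E := E) h0 h1' fun ω _ => ind_nonneg (B j ω)
    have n2 := Ex_nonneg (E := E) h0 h1' fun ω _ => ind_nonneg (MomFam A B J ω)
    exact mul_le_mul ih (hη j) n1 (n2.trans ih)

end fam

theorem pr_h4 {n T k h : ℕ} {p η : ℝ} (h0 : 0 ≤ p) (h1 : p ≤ 1 / 2)
    (hη : ∀ x : Fin n, Pr n p (fun G => ∃ z, PSeq G z h ∧ z 0 = x) ≤ η) :
    Pr n p (fun G => ¬ H4 G T k h) ≤ (n : ℝ) ^ (T + 1) * p ^ T * ((T + 1).choose k) * η ^ k := by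
  classical
  have h1' : p ≤ 1 := by linarith
  let A : (Fin (T + 1) → Fin n) → Finset (Sym2 (Fin n)) → Prop := fun f ω =>
    (∀ i ≤ T, ∀ j ≤ T, ext f i = ext f j → i = j) ∧ pe (ext f) T ⊆ ω
  let B : (Fin (T + 1) → Fin n) → ℕ → Finset (Sym2 (Fin n)) → Prop := fun f j ω =>
    ∃ z, PSeq (gr ω) z h ∧ z 0 = ext f j
  have hA : ∀ f, Mono (A f) := fun f ω ω' hω a => ⟨a.1, a.2.trans hω⟩
  have hB : ∀ f j, Mono (B f j) := fun f j ω ω' hω ⟨z, a, b⟩ =>
    ⟨z, ⟨fun i hi => gr_mono hω (a.1 i hi), a.2⟩, b⟩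
  have key : ∀ ω, ind (¬ H4 (gr ω) T k h) ≤ ∑ f : Fin (T + 1) → Fin n,
      ∑ J ∈ powersetCard k (range (T + 1)), ind (MomFam (A f) (B f) J ω) := by
    intro ω
    refine le_trans (ind_mono fun hh => ?_) ((ind_exists_le univ fun f : Fin (T + 1) → Fin n =>
      ∃ J ∈ powersetCard k (range (T + 1)), MomFam (A f) (B f) J ω).trans
        (sum_le_sum fun f _ => ind_exists_le _ _))
    simp only [H4, not_forall, not_lt] at hh
    obtain ⟨y, hy, J, hJ, z, hz, hz', hk⟩ := hh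
    obtain ⟨J', hJ', hc⟩ := exists_subset_card_eq hk
    obtain ⟨a1, a2⟩ := mom_res hy
    refine ⟨fun j : Fin (T + 1) => y j, mem_univ _, J', mem_powersetCard.2 ⟨hJ'.trans hJ, hc⟩,
      pe y T, fun j => pe (z j) h, pe_sub hy, ⟨a1, a2.le⟩, fun j hj => ?_,
      fun j hj j' hj' hne => ?_⟩
    · obtain ⟨b1, b2, b3⟩ := hz j (hJ' hj)
      have hjT : j ≤ T := Nat.lt_succ_iff.1 (mem_range.1 (hJ (hJ' hj)))
      refine ⟨pe_sub b1, ⟨z j, pseq_of_pe b1.2 subset_rfl, by rw [b2, ext_res y hjT]⟩, ?_⟩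
      rw [disjoint_left]
      intro e he he'
      obtain ⟨m, hm, rfl⟩ := mem_image.1 he
      obtain ⟨i, hi, hi'⟩ := mem_image.1 he'
      have hm' := mem_range.1 hm
      have hi2 := mem_range.1 hi
      rcases Sym2.eq_iff.1 hi' with ⟨-, c⟩ | ⟨-, c⟩
      · exact b3 (i + 1) (by omega) (by omega) (m + 1) (by omega) c
      · exact b3 (i + 1) (by omega) (by omega) m (by omega) c
    · rw [disjoint_left]
      intro e he he'
      obtain ⟨m, hm, rfl⟩ := mem_image.1 he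
      obtain ⟨i, hi, hi'⟩ := mem_image.1 he'
      have hm' := mem_range.1 hm
      have hi2 := mem_range.1 hi
      rcases Sym2.eq_iff.1 hi' with ⟨c, -⟩ | ⟨-, c⟩
      · exact hz' j (hJ' hj) j' (hJ' hj') hne m (by omega) i (by omega) c.symm
      · exact hz' j (hJ' hj) j' (hJ' hj') hne m (by omega) (i + 1) (by omega) c.symm
  refine (Ex_mono h0 h1' fun ω _ => key ω).trans ?_
  rw [Ex_sum]
  have hb : ∀ f : Fin (T + 1) → Fin n, Ex (EE n) p (fun ω =>
      ∑ J ∈ powersetCard k (range (T + 1)), ind (MomFam (A f) (B f) J ω)) ≤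
        p ^ T * ((T + 1).choose k) * η ^ k := by
    intro f
    have hη0 : 0 ≤ η := (Pr_nonneg h0 h1' _).trans (hη (f 0))
    rw [Ex_sum]
    refine (sum_le_card_nsmul _ _ (p ^ T * η ^ k) fun J hJ => ?_).trans (le_of_eq ?_)
    · refine (mom_BK _ h0 h1 (hA f) (hB f) (fun j => hη (ext f j)) J).trans ?_
      rw [(mem_powersetCard.1 hJ).2]
      exact mul_le_mul_of_nonneg_right (mom_path h0 f) (pow_nonneg hη0 k)
    · rw [card_powersetCard, card_range, nsmul_eq_mul]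
      ring
  refine (sum_le_card_nsmul _ _ _ fun f _ => hb f).trans (le_of_eq ?_)
  simp only [card_univ, Fintype.card_fun, Fintype.card_fin, nsmul_eq_mul]
  push_cast
  ring

end Pool.Agent.Lib.MP_b735d7_co
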