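import Pool.Agent.Lib.MP_b735d7_co.Base
import Pool.Agent.Lib.MP_58a483_pr.H80Prob

/-!
The finite model of the binomial random graph.
-/

namespace Pool.Agent.Lib.MP_b735d7_co

open Finset Pool.Agent.Lib.MP_58a483_pr.H80

/-- all possible edges -/
def EE (n : ℕ) : Finset (Sym2 (Fin n)) := univ.filter fun e => ¬ e.IsDiag

/-- the graph of an edge set -/
def gr {n : ℕ} (ω : Finset (Sym2 (Fin n))) : SimpleGraph (Fin n) :=
  SimpleGraph.fromEdgeSet (ω : Set (Sym2 (Fin n)))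

/-- probability of a graph property -/
noncomputable def Pr (n : ℕ) (p : ℝ) (A : SimpleGraph (Fin n) → Prop) : ℝ :=
  Ex (EE n) p fun ω => ind (A (gr ω))

lemma mem_EE {n : ℕ} {a b : Fin n} : s(a, b) ∈ EE n ↔ a ≠ b := by simp [EE]

lemma gr_adj {n : ℕ} {ω : Finset (Sym2 (Fin n))} {a b : Fin n} :
    (gr ω).Adj a b ↔ s(a, b) ∈ ω ∧ a ≠ b := by simp [gr]

lemma gr_mono {n : ℕ} {ω ω' : Finset (Sym2 (Fin n))} (h : ω ⊆ ω') : gr ω ≤ gr ω' :=
  fun _ _ k => gr_adj.2 ⟨h (gr_adj.1 k).1, (gr_adj.1 k).2⟩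

lemma Pr_nonneg {n : ℕ} {p : ℝ} (h0 : 0 ≤ p) (h1 : p ≤ 1) (A : SimpleGraph (Fin n) → Prop) :
    0 ≤ Pr n p A := Ex_nonneg h0 h1 fun _ _ => ind_nonneg _

lemma Pr_mono {n : ℕ} {p : ℝ} (h0 : 0 ≤ p) (h1 : p ≤ 1) {A B : SimpleGraph (Fin n) → Prop}
    (h : ∀ G, A G → B G) : Pr n p A ≤ Pr n p B :=
  Ex_mono h0 h1 fun _ _ => ind_mono (h _)

lemma Pr_or {n : ℕ} {p : ℝ} (h0 : 0 ≤ p) (h1 : p ≤ 1) (A B : SimpleGraph (Fin n) → Prop) :
    Pr n p (fun G => A G ∨ B G) ≤ Pr n p A + Pr n p B := by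
  unfold Pr
  rw [← Ex_add]
  exact Ex_mono h0 h1 fun _ _ => ind_or_le _ _

lemma Pr_not {n : ℕ} (p : ℝ) (A : SimpleGraph (Fin n) → Prop) :
    Pr n p (fun G => ¬ A G) = 1 - Pr n p A := by
  unfold Pr
  simp only [ind_not]
  rw [Ex_sub, Ex_const]

/-- a finite sequence as a sequence -/
def ext {V : Type} {T : ℕ} (f : Fin (T + 1) → V) (i : ℕ) : V :=
  if h : i < T + 1 then f ⟨i, h⟩ else f 0

lemma ext_res {V : Type} {T : ℕ} (y : ℕ → V) {i : ℕ} (hi : i ≤ T) :
    ext (fun j : Fin (T + 1) => y j) i = y i := by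
  simp [ext, Nat.lt_succ_of_le hi]

/-- the edges of a path sequence -/
def pe {V : Type} [DecidableEq V] (y : ℕ → V) (T : ℕ) : Finset (Sym2 V) :=
  (range T).image fun i => s(y i, y (i + 1))

lemma pe_congr {V : Type} [DecidableEq V] {y y' : ℕ → V} {T : ℕ} (h : ∀ i ≤ T, y i = y' i) :
    pe y T = pe y' T := by
  unfold pe
  refine image_congr fun i hi => ?_
  have : i < T := by simpa using hi
  simp only [h i (by omega), h (i + 1) (by omega)]

lemma card_pe {V : Type} [DecidableEq V] {y : ℕ → V} {T : ℕ}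
    (h : ∀ i ≤ T, ∀ j ≤ T, y i = y j → i = j) : (pe y T).card = T := by
  unfold pe
  rw [card_image_of_injOn, card_range]
  intro i hi j hj hij
  have hi' : i < T := by simpa using hi
  have hj' : j < T := by simpa using hj
  rcases Sym2.eq_iff.1 hij with ⟨a, -⟩ | ⟨a, b⟩
  · exact h i (by omega) j (by omega) a
  · have := h i (by omega) (j + 1) (by omega) a
    have := h (i + 1) (by omega) j (by omega) b
    omega

lemma pe_sub_EE {n : ℕ} {y : ℕ → Fin n} {T : ℕ}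
    (h : ∀ i ≤ T, ∀ j ≤ T, y i = y j → i = j) : pe y T ⊆ EE n := by
  intro e he
  obtain ⟨i, hi, rfl⟩ := mem_image.1 he
  have hi' : i < T := by simpa using hi
  refine mem_EE.2 fun k => ?_
  have := h i (by omega) (i + 1) (by omega) k
  omega

lemma pe_sub {n : ℕ} {ω : Finset (Sym2 (Fin n))} {y : ℕ → Fin n} {T : ℕ}
    (h : PSeq (gr ω) y T) : pe y T ⊆ ω := by
  intro e he
  obtain ⟨i, hi, rfl⟩ := mem_image.1 he
  exact (gr_adj.1 (h.1 i (by simpa using hi))).1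

lemma pseq_of_pe {n : ℕ} {ω : Finset (Sym2 (Fin n))} {y : ℕ → Fin n} {T : ℕ}
    (h : ∀ i ≤ T, ∀ j ≤ T, y i = y j → i = j) (hs : pe y T ⊆ ω) : PSeq (gr ω) y T := by
  refine ⟨fun i hi => gr_adj.2 ⟨hs (mem_image.2 ⟨i, by simpa using hi, rfl⟩), fun k => ?_⟩, h⟩
  have := h i (by omega) (i + 1) (by omega) k
  omega

/-- a start point, `M` inner points and an end point as a sequence -/
def sq {V : Type} {M : ℕ} (x : V) (π : Fin M → V) (w : V) (i : ℕ) : V :=
  if i = 0 then x else if h : i - 1 < M then π ⟨i - 1, h⟩ else w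

/-- placements of the subdivided complete bipartite graph with three and three branch points -/
abbrev Cfg (n M : ℕ) : Type := (Fin 3 ⊕ Fin 3 → Fin n) × (Fin 3 × Fin 3 → Fin M → Fin n)

/-- the path from the `a`-th to the `b`-th branch point -/
def pth {n M : ℕ} (φ : Cfg n M) (a b : Fin 3) : ℕ → Fin n :=
  sq (φ.1 (Sum.inl a)) (φ.2 (a, b)) (φ.1 (Sum.inr b))

/-- all points of a placement -/
def val {n M : ℕ} (φ : Cfg n M) : (Fin 3 ⊕ Fin 3) ⊕ ((Fin 3 × Fin 3) × Fin M) → Fin n :=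
  Sum.elim φ.1 fun q => φ.2 q.1 q.2

/-- injective placements with the branch points below `t` and the other points above -/
def IsEmb {n M : ℕ} (t : ℕ) (φ : Cfg n M) : Prop :=
  Function.Injective (val φ) ∧ (∀ u, (φ.1 u).val < t) ∧ ∀ q i, t ≤ (φ.2 q i).val

/-- the edges of a placement -/
def edg {n M : ℕ} (φ : Cfg n M) : Finset (Sym2 (Fin n)) :=
  (univ : Finset ((Fin 3 × Fin 3) × Fin (M + 1))).image fun q =>
    s(pth φ q.1.1 q.1.2 q.2, pth φ q.1.1 q.1.2 (q.2 + 1))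

/-- two points of the placement are joined by an increasing path outside its edges -/
def Ear {n M : ℕ} (φ : Cfg n M) (ω : Finset (Sym2 (Fin n))) : Prop :=
  ∃ u u', Below (gr (ω \ edg φ)) (val φ u) (val φ u')

end Pool.Agent.Lib.MP_b735d7_co
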