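import Pool.Agent.Lib.MP_b735d7_co.GUp

/-!
The exponential upper bound, uniformly in the mean degree.
-/

namespace Pool.Agent.Lib.MP_b735d7_co

open Finset Filter Topology Pool.Agent.Lib.MP_58a483_pr.H80

lemma UUp_core {n M u k m : ℕ} (hM : 0 < M) (hk : 0 < k) {p : ℝ} (h0 : 0 ≤ p) (h1 : p ≤ 1) :
    Pr n p (fun G => ¬ orderDim G ≤ 2 * (u * (2 * k)) + 4) ≤
      n * (((m + 2).factorial : ℝ) * (1 + ((m : ℝ) + 2) * p) ^ n / (k : ℝ) ^ m +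
        (k : ℝ) ^ 2 * ((k : ℝ) ^ 2 / M + M / 2 ^ u)) := by
  obtain ⟨lam, phi, hh⟩ := hash_avg (n := n) (u := u) hM hk h0 h1
  set Bad : Finset (Fin n) → Prop := fun S => k < S.card ∨ HBad lam phi S with hBad
  have e1 : ∀ y : Fin n, Pr n p (fun G => Bad (dn G y)) ≤
      ((m + 2).factorial : ℝ) * (1 + ((m : ℝ) + 2) * p) ^ n / (k : ℝ) ^ m +
      Pr n p (fun G => (dn G y).card ≤ k ∧ HBad lam phi (dn G y)) := by
    intro y
    refine le_trans ?_ (add_le_add (ex_tail (m := m) hk h0 h1 y) le_rfl)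
    unfold Pr
    rw [← Ex_add]
    refine Ex_mono h0 h1 fun ω _ => ?_
    have a0 := ind_nonneg ((dn (gr ω) y).card ≤ k ∧ HBad lam phi (dn (gr ω) y))
    by_cases c1 : k < (dn (gr ω) y).card
    · rw [ind_pos c1, ind_pos (show Bad _ from Or.inl c1)]
      have : (1 : ℝ) ≤ (dn (gr ω) y).card := by exact_mod_cast (by omega : 1 ≤ (dn (gr ω) y).card)
      nlinarith
    · rw [ind_neg c1]
      by_cases c2 : HBad lam phi (dn (gr ω) y)
      · rw [ind_pos (show Bad _ from Or.inr c2), ind_pos ⟨not_lt.1 c1, c2⟩]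
        simp
      · rw [ind_neg (show ¬ Bad _ from fun h => h.elim c1 c2)]
        simpa using a0
  have e2 : Pr n p (fun G => ¬ orderDim G ≤ 2 * (u * (2 * k)) + 4) ≤
      ∑ y : Fin n, Pr n p (fun G => Bad (dn G y)) := by
    unfold Pr
    rw [← Ex_sum]
    refine Ex_mono h0 h1 fun ω _ => le_trans (ind_mono fun h => ?_) (ind_exists_le univ _)
    by_contra hn
    refine h (dim_hash lam phi _ Bad (fun S h => Or.inr h) ?_)
    rintro e ⟨z, i, j, -, -, -, -, a1, -⟩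
    obtain ⟨y, hy, -⟩ := a1.2.1
    exact hn ⟨y, mem_univ _, hy⟩
  refine e2.trans ((sum_le_sum fun y _ => e1 y).trans ?_)
  rw [sum_add_distrib, sum_const, card_univ, Fintype.card_fin, nsmul_eq_mul]
  have k1 : (1 : ℝ) ≤ (k : ℝ) ^ 2 := one_le_pow₀ (by exact_mod_cast hk)
  have k2 : (0 : ℝ) ≤ n * ((k : ℝ) ^ 2 / M + M / 2 ^ u) := by positivity
  have := mul_le_mul_of_nonneg_right k1 k2
  nlinarith

lemma UUp_par {c : ℝ} (hc : 1 ≤ c) {s T : ℕ} (hs1 : c ≤ s) (hT : T = 2 ^ s) :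
    2 ≤ T ∧ c ≤ T ∧ Real.exp c ≤ (T : ℝ) ^ 2 ∧ ∃ k : ℕ, 0 < k ∧
      ((2 * (700 * s * (2 * k)) + 4 : ℕ) : ℝ) ≤ 2 * 10 ^ 6 * (s : ℝ) ^ 2 * Real.exp c ∧
      ∀ n : ℕ, 0 < n → ((330 * s + 2).factorial : ℝ) *
        (1 + (((330 * s : ℕ) : ℝ) + 2) * (c / n)) ^ n / (k : ℝ) ^ (330 * s) +
        (k : ℝ) ^ 2 * ((k : ℝ) ^ 2 / ((T ^ 360 : ℕ) : ℝ) + ((T ^ 360 : ℕ) : ℝ) / 2 ^ (700 * s)) ≤
        1 / (T : ℝ) ^ 302 := by
  have s1 : (1 : ℝ) ≤ s := hc.trans hs1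
  have s1' : 1 ≤ s := by exact_mod_cast s1
  set E := Real.exp c with hE
  have E1 : 1 ≤ E := Real.one_le_exp (by linarith)
  have T2 : 2 ≤ T := by
    rw [hT]
    exact le_self_pow₀ (by norm_num) (by omega)
  have t2 : (2 : ℝ) ≤ T := by exact_mod_cast T2
  have t0 : (0 : ℝ) < T := by linarith
  have t1 : (1 : ℝ) ≤ T := by linarith
  have st : (s : ℝ) ≤ T := by
    rw [hT]
    exact_mod_cast (Nat.lt_two_pow_self).le
  have ct : c ≤ T := hs1.trans st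
  have Et : E ≤ (T : ℝ) ^ 2 := by
    calc E ≤ Real.exp s := Real.exp_le_exp.2 hs1
      _ = Real.exp 1 ^ s := by rw [← Real.exp_nat_mul, mul_one]
      _ ≤ 4 ^ s := by
        gcongr
        linarith [Real.exp_one_lt_d9]
      _ = (T : ℝ) ^ 2 := by
        rw [hT]
        push_cast
        rw [← pow_mul, mul_comm, pow_mul]
        norm_num
  have tp : ∀ a : ℕ, (2 : ℝ) ^ (a * s) = (T : ℝ) ^ a := fun a => by
    rw [hT]
    push_cast
    rw [← pow_mul, mul_comm]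
  obtain ⟨m, hm⟩ : ∃ m : ℕ, m = 330 * s := ⟨_, rfl⟩
  rw [← hm]
  have m1 : (m : ℝ) + 2 ≤ 332 * s := by
    rw [hm]
    push_cast
    linarith
  have t9 : (512 : ℝ) ≤ (T : ℝ) ^ 9 := by
    calc (512 : ℝ) = 2 ^ 9 := by norm_num
      _ ≤ (T : ℝ) ^ 9 := by gcongr
  have m2 : ((m : ℝ) + 2) * E ≤ (T : ℝ) ^ 12 := by
    calc ((m : ℝ) + 2) * E ≤ (332 * s) * E := by gcongr
      _ ≤ ((T : ℝ) ^ 9 * T) * (T : ℝ) ^ 2 := by
        gcongr
        linarith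
      _ = (T : ℝ) ^ 12 := by ring
  obtain ⟨k, k1, k2⟩ : ∃ k : ℕ, 2 * ((m : ℝ) + 2) * E ≤ k ∧ (k : ℝ) ≤ 2 * ((m : ℝ) + 2) * E + 1 :=
    ⟨⌈2 * ((m : ℝ) + 2) * E⌉₊, Nat.le_ceil _, (Nat.ceil_lt_add_one (by positivity)).le⟩
  have k0 : 0 < k := by
    have : (0 : ℝ) < k := lt_of_lt_of_le (by positivity) k1
    exact_mod_cast this
  have k3 : (k : ℝ) ≤ (T : ℝ) ^ 14 := by
    have a : (1 : ℝ) ≤ (T : ℝ) ^ 12 := one_le_pow₀ t1
    have b : (4 : ℝ) ≤ (T : ℝ) ^ 2 := by nlinarith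
    calc (k : ℝ) ≤ 4 * (T : ℝ) ^ 12 := by linarith
      _ ≤ (T : ℝ) ^ 2 * (T : ℝ) ^ 12 := by gcongr
      _ = _ := by ring
  refine ⟨T2, ct, Et, k, k0, ?_, fun n n1 => ?_⟩
  · push_cast
    have a1 : (k : ℝ) ≤ 665 * s * E := by nlinarith [mul_le_mul s1 E1 zero_le_one (by linarith)]
    have a3 : (s : ℝ) * k ≤ s * (665 * s * E) := by gcongr
    have a4 : 1 ≤ (s : ℝ) ^ 2 * E := by nlinarith
    nlinarith
  · have c0 : 0 ≤ c := by linarith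
    have e2 : (1 + ((m : ℝ) + 2) * (c / n)) ^ n ≤ E ^ (m + 2) := by
      refine (GUp_pow n1 c0 (by positivity)).trans (le_of_eq ?_)
      rw [hE, ← Real.exp_nat_mul]
      push_cast
      rfl
    have e4 := GUp_tail (by linarith) k1 (by positivity) e2
    rw [show (2 : ℝ) ^ m = (T : ℝ) ^ 330 by rw [hm, tp]] at e4
    have e5 := GUp_beta t2 (by positivity) m2 (by positivity) k3
    rw [tp, Nat.cast_pow]
    linarith

lemma UUp_small {c : ℝ} (hc : 1 ≤ c) {s T n : ℕ} (hs1 : c ≤ s) (hT : T = 2 ^ s)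
    (p1 : c / n ≤ 1 / 2) (hn : (T ^ 288) ^ 60 ≤ n) :
    Pr n (c / n) (fun G => ¬ (orderDim G : ℝ) ≤ 2 * 10 ^ 6 * (s : ℝ) ^ 2 * Real.exp c) ≤
      5 / (n : ℝ) ^ (1 / 576 : ℝ) := by
  obtain ⟨T2, ct, Et, k, k0, hd, e6⟩ := UUp_par hc hs1 hT
  have t2 : (2 : ℝ) ≤ T := by exact_mod_cast T2
  have t0 : (0 : ℝ) < T := by linarith
  have t1 : (1 : ℝ) ≤ T := by linarith
  have hB : 1 < T ^ 288 := one_lt_pow₀ (by omega) (by norm_num)
  have n1 : 0 < n := lt_of_lt_of_le (by positivity) hn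
  have hlt : n < (T ^ 288) ^ (Nat.log (T ^ 288) n + 1) := Nat.lt_pow_succ_log_self hB n
  have hle : (T ^ 288) ^ (Nat.log (T ^ 288) n) ≤ n := Nat.pow_log_le_self _ (by omega)
  have hj : 60 ≤ Nat.log (T ^ 288) n := Nat.le_log_of_pow_le hB hn
  generalize Nat.log (T ^ 288) n = j at *
  have hlt' : (n : ℝ) ≤ ((T : ℝ) ^ 288) ^ (j + 1) := by exact_mod_cast hlt.le
  have hle' : ((T : ℝ) ^ 288) ^ j ≤ n := by exact_mod_cast hle
  have n0 : (0 : ℝ) < n := by exact_mod_cast n1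
  have c0 : 0 ≤ c := by linarith
  have p0 : 0 ≤ c / n := by positivity
  have e6 := e6 n n1
  refine le_trans (Pr_mono p0 (by linarith)
    (B := fun G => ¬ orderDim G ≤ 2 * (700 * s * (2 * k)) + 4) fun G hG h => hG ?_) ?_
  · exact le_trans (by exact_mod_cast h) hd
  refine (GUp_core (M := T ^ 360) (m := 330 * s) (j := j) (by positivity) k0 p0 p1).trans ?_
  have e1 : (1 + c / n) ^ n ≤ (T : ℝ) ^ 2 := by
    have := GUp_pow n1 c0 zero_le_one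
    rw [one_mul, one_mul] at this
    exact this.trans Et
  have e3 : 2 * (1 + 2 * (c / n)) ^ (2 * n) ≤ (T : ℝ) ^ 9 := by
    have a : (1 + 2 * (c / n)) ^ n ≤ Real.exp c ^ 2 := by
      refine (GUp_pow n1 c0 (by positivity)).trans (le_of_eq ?_)
      rw [← Real.exp_nat_mul]
      push_cast
      rfl
    calc 2 * (1 + 2 * (c / n)) ^ (2 * n) = 2 * ((1 + 2 * (c / n)) ^ n) ^ 2 := by
          rw [← pow_mul, mul_comm n 2]
      _ ≤ T * (((T : ℝ) ^ 2) ^ 2) ^ 2 := by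
          gcongr
          exact a.trans (by gcongr)
      _ = _ := by ring
  have e7 : 2 * (c / n * (1 + c / n) ^ n) + n * (c / n * (1 + c / n) ^ n) ^ 2 ≤
      (T : ℝ) ^ 8 / n := by
    have a : c / n * (1 + c / n) ^ n ≤ (T : ℝ) ^ 3 / n := by
      calc c / n * (1 + c / n) ^ n ≤ T / n * (T : ℝ) ^ 2 := by gcongr
        _ = _ := by ring
    have b : 2 * (T : ℝ) ^ 3 + (T : ℝ) ^ 6 ≤ (T : ℝ) ^ 8 := by
      have u1 : (T : ℝ) ^ 3 ≤ (T : ℝ) ^ 6 := pow_le_pow_right₀ t1 (by norm_num)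
      have u2 : (4 : ℝ) ≤ (T : ℝ) ^ 2 := by nlinarith
      have u3 : 4 * (T : ℝ) ^ 6 ≤ (T : ℝ) ^ 2 * (T : ℝ) ^ 6 := by gcongr
      have u4 : (0 : ℝ) ≤ (T : ℝ) ^ 6 := by positivity
      nlinarith
    calc 2 * (c / n * (1 + c / n) ^ n) + n * (c / n * (1 + c / n) ^ n) ^ 2
        ≤ 2 * ((T : ℝ) ^ 3 / n) + n * ((T : ℝ) ^ 3 / n) ^ 2 := by gcongr
      _ = (2 * (T : ℝ) ^ 3 + (T : ℝ) ^ 6) / n := by field_simp
      _ ≤ _ := by gcongr
  have hw : (n : ℝ) ^ (1 / 576 : ℝ) ≤ (T : ℝ) ^ j := by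
    have a : (n : ℝ) ≤ ((T : ℝ) ^ j) ^ 576 := by
      refine hlt'.trans ?_
      rw [← pow_mul, ← pow_mul]
      exact pow_le_pow_right₀ t1 (by omega)
    calc (n : ℝ) ^ (1 / 576 : ℝ) ≤ (((T : ℝ) ^ j) ^ 576) ^ (1 / 576 : ℝ) :=
          Real.rpow_le_rpow n0.le a (by norm_num)
      _ = (T : ℝ) ^ j := by
          have := Real.pow_rpow_inv_natCast (x := (T : ℝ) ^ j) (by positivity)
            (by norm_num : (576 : ℕ) ≠ 0)
          rwa [show ((576 : ℕ) : ℝ)⁻¹ = 1 / 576 by norm_num] at this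
  have hw0 : 0 < (n : ℝ) ^ (1 / 576 : ℝ) := Real.rpow_pos_of_pos n0 _
  refine le_trans (b := 1 / (T : ℝ) ^ j + 4 / (T : ℝ) ^ j) (add_le_add ?_ ?_) ?_
  · calc _ ≤ ((T : ℝ) ^ 288) ^ (j + 1) *
          (n * (1 / (T : ℝ) ^ 302) * ((T : ℝ) ^ 8 / n)) ^ j := by gcongr
      _ = ((T : ℝ) ^ 288) ^ (j + 1) / ((T : ℝ) ^ 294) ^ j := by
          have : (n : ℝ) * (1 / (T : ℝ) ^ 302) * ((T : ℝ) ^ 8 / n) = 1 / (T : ℝ) ^ 294 := by
            field_simp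
          rw [this, one_div_pow, mul_one_div]
      _ ≤ _ := by
          rw [div_le_div_iff₀ (by positivity) (by positivity), one_mul, ← pow_mul, ← pow_mul,
            ← pow_add]
          exact pow_le_pow_right₀ t1 (by omega)
  · calc _ ≤ 4 * (T / n) ^ 2 * n * ((T : ℝ) ^ 9) ^ (16 * j + 9) := by gcongr
      _ = 4 * ((T : ℝ) ^ 2 * ((T : ℝ) ^ 9) ^ (16 * j + 9)) / n := by field_simp
      _ ≤ 4 * ((T : ℝ) ^ 2 * ((T : ℝ) ^ 9) ^ (16 * j + 9)) / ((T : ℝ) ^ 288) ^ j := by gcongr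
      _ ≤ _ := by
          rw [div_le_div_iff₀ (by positivity) (by positivity), mul_assoc, ← pow_mul, ← pow_mul,
            ← pow_add, ← pow_add]
          gcongr
          omega
  · rw [← add_div, show (1 : ℝ) + 4 = 5 by norm_num]
    gcongr

lemma UUp_large {c : ℝ} (hc : 1 ≤ c) {s T n : ℕ} (hs1 : c ≤ s) (hT : T = 2 ^ s)
    (p1 : c / n ≤ 1) (n1 : 0 < n) (hn : n ≤ T) :
    Pr n (c / n) (fun G => ¬ (orderDim G : ℝ) ≤ 2 * 10 ^ 6 * (s : ℝ) ^ 2 * Real.exp c) ≤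
      5 / (n : ℝ) ^ (1 / 576 : ℝ) := by
  obtain ⟨T2, ct, Et, k, k0, hd, e6⟩ := UUp_par hc hs1 hT
  have t2 : (2 : ℝ) ≤ T := by exact_mod_cast T2
  have n0 : (1 : ℝ) ≤ n := by exact_mod_cast n1
  have nT : (n : ℝ) ≤ T := by exact_mod_cast hn
  have p0 : 0 ≤ c / n := by positivity
  have e6 := e6 n n1
  refine le_trans (Pr_mono p0 p1
    (B := fun G => ¬ orderDim G ≤ 2 * (700 * s * (2 * k)) + 4) fun G hG h => hG ?_) ?_
  · exact le_trans (by exact_mod_cast h) hd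
  refine (UUp_core (M := T ^ 360) (m := 330 * s) (by positivity) k0 p0 p1).trans ?_
  have hw : (n : ℝ) ^ (1 / 576 : ℝ) ≤ n := by
    calc (n : ℝ) ^ (1 / 576 : ℝ) ≤ (n : ℝ) ^ (1 : ℝ) :=
          Real.rpow_le_rpow_of_exponent_le n0 (by norm_num)
      _ = n := Real.rpow_one _
  have hw0 : 0 < (n : ℝ) ^ (1 / 576 : ℝ) := Real.rpow_pos_of_pos (by linarith) _
  calc _ ≤ n * (1 / (T : ℝ) ^ 302) := by gcongr
    _ ≤ n * (1 / (n : ℝ) ^ 2) := by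
        gcongr
        calc (n : ℝ) ^ 2 ≤ (T : ℝ) ^ 2 := by gcongr
          _ ≤ _ := pow_le_pow_right₀ (by linarith) (by norm_num)
    _ = 1 / n := by field_simp
    _ ≤ _ := by
        gcongr
        norm_num

theorem upper_unif {c : ℝ} (hc : 1 ≤ c) {n : ℕ} (n1 : 0 < n) (p1 : c / n ≤ 1 / 2) :
    Pr n (c / n) (fun G => ¬ (orderDim G : ℝ) ≤ 10 ^ 16 * c ^ 2 * Real.exp c) ≤
      5 / (n : ℝ) ^ (1 / 576 : ℝ) := by
  obtain ⟨s, hs1, hs2⟩ : ∃ s : ℕ, c ≤ s ∧ (s : ℝ) ≤ 2 * c :=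
    ⟨⌈c⌉₊, Nat.le_ceil c, by linarith [Nat.ceil_lt_add_one (show 0 ≤ c by linarith)]⟩
  have p0 : 0 ≤ c / n := by positivity
  have s0 : (0 : ℝ) ≤ s := Nat.cast_nonneg s
  have e0 := (Real.exp_pos c).le
  have q : (s : ℝ) ^ 2 ≤ 4 * c ^ 2 := by nlinarith
  by_cases hn : ((2 ^ s) ^ 288) ^ 60 ≤ n
  · refine le_trans (Pr_mono p0 (by linarith) fun G hG => ?_) (UUp_small hc hs1 rfl p1 hn)
    refine fun h => hG (le_trans h ?_)
    gcongr ?_ * _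
    nlinarith [sq_nonneg c]
  · refine le_trans (Pr_mono p0 (by linarith) fun G hG => ?_)
      (UUp_large (s := s * (288 * 60)) hc ?_ rfl (by linarith) n1 ?_)
    · refine fun h => hG (le_trans h ?_)
      gcongr ?_ * _
      push_cast
      nlinarith [sq_nonneg c]
    · push_cast
      nlinarith
    · rw [← pow_mul, ← pow_mul] at hn
      exact (not_le.1 hn).le

end Pool.Agent.Lib.MP_b735d7_co
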