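import Pool.Agent.Lib.MP_b735d7_co.MFin
import Pool.Agent.Lib.MP_b735d7_co.UUp

/-!
Both bounds, uniformly in the mean degree.
-/

namespace Pool.Agent.Lib.MP_b735d7_co

open Filter Topology

lemma UFin_low {D n : ℕ} {c L σ μ : ℝ} (P : MPar D c L σ μ) (hl : 2 ≤ Real.log n)
    (hc : c ≤ Real.log n - 4 * Real.log (Real.log n)) :
    Pr n (c / n) (fun G => (orderDim G : ℝ) < Real.exp c / c ^ 1046) ≤ 140 / Real.log n := by
  set l := Real.log n with hl'
  have c8 := P.c8
  have c0 : 0 < c := by linarith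
  have l0 : 0 < l := by linarith
  have n0 : (0 : ℝ) < n := by
    rcases Nat.eq_zero_or_pos n with rfl | h
    · simp at hl'
      linarith
    · exact_mod_cast h
  have ll : 0 ≤ Real.log l := Real.log_nonneg (by linarith)
  have cl : c ≤ l := by linarith
  have ln : l ≤ n := by linarith [Real.log_le_sub_one_of_pos n0]
  have e1 : Real.exp c * l ^ 4 ≤ n := by
    calc Real.exp c * l ^ 4 = Real.exp (c + 4 * Real.log l) := by
          rw [Real.exp_add, show (4 : ℝ) * Real.log l = ((4 : ℕ) : ℝ) * Real.log l by norm_num,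
            Real.exp_nat_mul, Real.exp_log l0]
      _ ≤ Real.exp l := Real.exp_le_exp.2 (by linarith)
      _ = n := Real.exp_log n0
  have L0 : 0 ≤ L := by rw [P.hL]; positivity
  have l4 : 16 ≤ l ^ 4 := by
    calc (16 : ℝ) = 2 ^ 4 := by norm_num
      _ ≤ l ^ 4 := by gcongr
  have e2 : l ^ 4 ≤ Real.exp (-c) * n := by
    calc l ^ 4 = Real.exp (-c) * (Real.exp c * l ^ 4) := by
          rw [← mul_assoc, ← Real.exp_add]
          simp
      _ ≤ _ := by gcongr
  have e3 : l ^ 4 ≤ σ * n := by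
    refine e2.trans ?_
    rw [P.hσ]
    gcongr
    linarith
  have e4 : 1 ≤ μ * n := by
    have a : Real.exp (-c) ≤ μ := by
      rw [P.hμ, P.hσ, mul_assoc, ← Real.exp_add]
      have b : Real.exp (-c) ≤ Real.exp (-c + 2 * L + (c / 2 - L + 4)) :=
        Real.exp_le_exp.2 (by linarith)
      nlinarith [Real.exp_pos (-c)]
    have := mul_le_mul_of_nonneg_right a n0.le
    linarith
  have e5 : 1 ≤ 2 / c * n := by
    rw [div_mul_eq_mul_div, le_div_iff₀ c0]
    linarith
  have Z : MSz n ⌈2 / c * n⌉₊ ⌈σ * n⌉₊ ⌈μ * n⌉₊ c σ μ := by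
    refine ⟨Nat.le_ceil _, LMain_ceil e5, Nat.le_ceil _, LMain_ceil (by linarith), ?_,
      Nat.le_ceil _, LMain_ceil e4, cl.trans ln⟩
    have : (2 : ℝ) ≤ ⌈σ * n⌉₊ := le_trans (by linarith) (Nat.le_ceil _)
    exact_mod_cast this
  refine (MMain_n P Z).trans ?_
  have d1 : (D : ℝ) ≤ 4 * l := by
    have : (D : ℝ) ≤ 2 ^ D := by exact_mod_cast (Nat.lt_two_pow_self).le
    linarith [P.d2]
  have f1 : Real.exp (-(σ * n)) ≤ 1 / l ^ 4 := by
    rw [Real.exp_neg, ← one_div]
    gcongr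
    linarith [Real.add_one_le_exp (σ * n)]
  have f2 : (34 * (D : ℝ) + 3) * Real.exp (-(σ * n)) ≤ 139 / l := by
    calc (34 * (D : ℝ) + 3) * Real.exp (-(σ * n)) ≤ (139 * l) * (1 / l ^ 4) := by
          gcongr
          linarith
      _ = 139 / l ^ 3 := by field_simp
      _ ≤ 139 / l := by
          gcongr
          exact le_self_pow₀ (by linarith) (by norm_num)
  have f3 : c ^ 3 * Real.exp c / 32 / n ≤ 1 / l := by
    rw [div_div, div_le_div_iff₀ (by positivity) l0]
    calc c ^ 3 * Real.exp c * l ≤ l ^ 3 * Real.exp c * l := by gcongr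
      _ = Real.exp c * l ^ 4 := by ring
      _ ≤ _ := by linarith
  have : (140 : ℝ) / l = 139 / l + 1 / l := by ring
  linarith

theorem expUnif : ∃ (K : ℕ) (δ C : ℝ), 0 < δ ∧ ∀ c : ℕ → ℝ,
    (∀ᶠ n : ℕ in atTop, 1 ≤ c n ∧ c n ≤ Real.log n - 4 * Real.log (Real.log n)) →
    Tendsto (fun n : ℕ => prob n (c n) {G | δ * Real.exp (c n) / c n ^ K ≤ (orderDim G : ℝ) ∧
      (orderDim G : ℝ) ≤ C * c n ^ 2 * Real.exp (c n)}) atTop (𝓝 1) := by
  obtain ⟨c0, hP⟩ := eventually_atTop.1 MMain_par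
  refine ⟨1046, Real.exp (-|c0|), 10 ^ 16, Real.exp_pos _, fun c hc => ?_⟩
  have t0 : Tendsto (fun n : ℕ => (n : ℝ)) atTop atTop := tendsto_natCast_atTop_atTop
  have t1 : Tendsto (fun n : ℕ => Real.log n) atTop atTop := Real.tendsto_log_atTop.comp t0
  have t2 : Tendsto (fun n : ℕ => (n : ℝ) ^ (1 / 576 : ℝ)) atTop atTop :=
    (tendsto_rpow_atTop (by norm_num)).comp t0
  have t3 : Tendsto (fun n : ℕ => 140 / Real.log n + 5 / (n : ℝ) ^ (1 / 576 : ℝ)) atTop (𝓝 0) := by
    simpa using (t1.const_div_atTop 140).add (t2.const_div_atTop 5)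
  have hp : ∀ᶠ n : ℕ in atTop, 0 < n ∧ 2 ≤ Real.log n ∧ 0 ≤ c n / n ∧ c n / n ≤ 1 / 2 := by
    filter_upwards [hc, t1.eventually_ge_atTop 2, eventually_ge_atTop 1] with n h1 h2 h3
    have n0 : (0 : ℝ) < n := by exact_mod_cast h3
    refine ⟨h3, h2, div_nonneg (by linarith [h1.1]) n0.le, ?_⟩
    rw [div_le_iff₀ n0]
    have a := Real.log_nonneg (show 1 ≤ Real.log n by linarith)
    have b := Real.log_le_sub_one_of_pos (show (0 : ℝ) < n / 2 by positivity)
    rw [Real.log_div n0.ne' two_ne_zero] at b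
    linarith [h1.2, Real.log_two_lt_d9]
  have h0 : Tendsto (fun n : ℕ => Pr n (c n / n) fun G =>
      ¬ (Real.exp (-|c0|) * Real.exp (c n) / c n ^ 1046 ≤ (orderDim G : ℝ) ∧
        (orderDim G : ℝ) ≤ 10 ^ 16 * c n ^ 2 * Real.exp (c n))) atTop (𝓝 0) := by
    refine squeeze_zero' ?_ ?_ t3
    · filter_upwards [hp] with n hn
      exact Pr_nonneg hn.2.2.1 (by linarith [hn.2.2.2]) _
    · filter_upwards [hp, hc] with n ⟨n1, l2, p0, p1⟩ ⟨c1, c2⟩
      have p1' : c n / n ≤ 1 := by linarith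
      have c3 : 1 ≤ c n ^ 1046 := one_le_pow₀ c1
      refine le_trans (Pr_mono p0 p1' fun G hG => not_and_or.1 hG) ((Pr_or p0 p1' _ _).trans
        (add_le_add ?_ (upper_unif c1 n1 p1)))
      by_cases hc0 : c0 ≤ c n
      · obtain ⟨D, L, σ, μ, P⟩ := hP (c n) hc0
        refine le_trans (Pr_mono p0 p1' fun G hG => ?_) (UFin_low P l2 c2)
        refine (not_le.1 hG).trans_le ?_
        rw [mul_div_assoc]
        exact mul_le_of_le_one_left (by positivity)
          (Real.exp_le_one_iff.2 (by linarith [abs_nonneg c0]))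
      · have e : Pr n (c n / n) (fun _ => False) = 0 := by
          unfold Pr
          simp only [Pool.Agent.Lib.MP_58a483_pr.H80.ind_neg not_false,
            Pool.Agent.Lib.MP_58a483_pr.H80.Ex_const]
        refine le_trans (Pr_mono p0 p1' (B := fun _ => False) fun G hG => hG ?_)
          (e.le.trans (by positivity))
        have a : (1 : ℝ) ≤ orderDim G := by exact_mod_cast GFin_one_le n1 G
        refine le_trans ?_ a
        rw [← Real.exp_add, div_le_one (by linarith)]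
        refine le_trans (Real.exp_le_one_iff.2 ?_) c3
        linarith [le_abs_self c0, not_le.1 hc0]
  have h1 := h0.const_sub 1
  rw [sub_zero] at h1
  refine h1.congr' ?_
  filter_upwards [hp] with n hn
  rw [prob_eq_Pr n (c n) hn.2.2.1 (by linarith [hn.2.2.2]), Pr_not]
  ring

end Pool.Agent.Lib.MP_b735d7_co
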