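import Pool.Agent.Lib.MP_b735d7_co.PBase
import Pool.Agent.Lib.MP_b735d7_co.Blk
import Pool.Agent.Lib.MP_b735d7_co.Leaf
import Pool.Agent.Lib.MP_b735d7_co.Core
import Pool.Agent.Lib.MP_b735d7_co.Kl
import Pool.Agent.Lib.MP_b735d7_co.Bic
import Pool.Agent.Lib.MP_b735d7_co.Mom
import Pool.Agent.Lib.MP_b735d7_co.Eta

/-!
The upper bound.
-/

namespace Pool.Agent.Lib.MP_b735d7_co

open Finset Filter Topology

lemma upper_pseq {V : Type} {G G' : SimpleGraph V} (h : G' ≤ G) {y : ℕ → V} {s : ℕ}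
    (k : PSeq G' y s) : PSeq G y s := ⟨fun i hi => h (k.1 i hi), k.2⟩

theorem realized4_of {V : Type} [LinearOrder V] [Fintype V] {G : SimpleGraph V} {τ h : ℕ}
    (hτ : 3 ≤ τ) (hh : h ≤ τ) (hb : ∀ e < 10002 * (20000 * τ), ¬ Bicyc G e)
    (h2 : H2 G (20000 * τ) (200 * τ)) (h4 : H4 G (20000 * τ) τ h) : Realized G 4 := by
  refine realized4 (data4_of_core (fun G => (∀ e < 10002 * (20000 * τ), ¬ Bicyc G e) ∧
    H2 G (20000 * τ) (200 * τ) ∧ H4 G (20000 * τ) τ h) ?_ ?_ G ⟨hb, h2, h4⟩)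
  · rintro G G' hG ⟨a, b, c⟩
    refine ⟨fun e he k => a e he ?_, fun y hy => b y (upper_pseq hG hy),
      fun y hy J hJ z hz hd => c y (upper_pseq hG hy) J hJ z
        (fun j hj => ⟨upper_pseq hG (hz j hj).1, (hz j hj).2⟩) hd⟩
    obtain ⟨z, i, j, k1, k2, k3, k4, k5, k6, k7⟩ := k
    exact ⟨z, i, j, upper_pseq hG k1, k2, k3, k4, hG k5, hG k6, k7⟩
  · rintro G ⟨a, b, c⟩ hL
    have h1 := h1_of_nobic a
    exact core_data ⟨hτ, hL, h1, b, h3_of_h4 hL h1 (by omega) c⟩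

lemma upper_delta (K : ℕ) : ∃ δ : ℝ, 0 < δ ∧ (1 + δ) ^ K ≤ 3 / 2 := by
  have h : Tendsto (fun x : ℝ => (1 + x) ^ K) (𝓝 0) (𝓝 ((1 + 0) ^ K)) :=
    (Continuous.tendsto (by fun_prop) 0)
  have h2 : ∀ᶠ x : ℝ in 𝓝 0, (1 + x) ^ K < 3 / 2 :=
    h.eventually (gt_mem_nhds (by norm_num))
  obtain ⟨δ, h3, h4⟩ := ((h2.filter_mono (nhdsWithin_le_nhds (s := Set.Ioi 0))).and
    self_mem_nhdsWithin).exists
  exact ⟨δ, h4, h3.le⟩

lemma upper_b1 {n τ K R : ℕ} {c : ℝ} (hc : 1 ≤ c) (hK : c ^ K ≤ 3 / 2) (hR : R + 1 ≤ K * τ)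
    (hn : 2 ^ τ ≤ 2 * n) :
    (R : ℝ) ^ 3 * c ^ (R + 1) / n ≤ 2 * (K : ℝ) ^ 3 * ((τ : ℝ) ^ 3 * (3 / 4) ^ τ) := by
  have hn' : (2 : ℝ) ^ τ ≤ 2 * n := by exact_mod_cast hn
  have h2 : (0 : ℝ) < 2 ^ τ := by positivity
  have hn0 : (0 : ℝ) < n := by linarith
  have a1 : (R : ℝ) ≤ K * τ := by exact_mod_cast (by omega : R ≤ K * τ)
  have a2 : c ^ (R + 1) ≤ (3 / 2) ^ τ := by
    calc c ^ (R + 1) ≤ c ^ (K * τ) := pow_le_pow_right₀ hc hR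
      _ = (c ^ K) ^ τ := pow_mul _ _ _
      _ ≤ (3 / 2) ^ τ := by gcongr
  have a3 : (3 / 2 : ℝ) ^ τ = (3 / 4) ^ τ * 2 ^ τ := by
    rw [← mul_pow]
    norm_num
  rw [div_le_iff₀ hn0]
  calc (R : ℝ) ^ 3 * c ^ (R + 1) ≤ ((K : ℝ) * τ) ^ 3 * (3 / 2) ^ τ := by gcongr
    _ = (K : ℝ) ^ 3 * ((τ : ℝ) ^ 3 * (3 / 4) ^ τ) * 2 ^ τ := by rw [a3]; ring
    _ ≤ (K : ℝ) ^ 3 * ((τ : ℝ) ^ 3 * (3 / 4) ^ τ) * (2 * n) := by gcongr
    _ = _ := by ring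

lemma upper_np {n T : ℕ} (hn : 0 < n) (c : ℝ) :
    (n : ℝ) ^ (T + 1) * (c / n) ^ T = n * c ^ T := by
  have : (n : ℝ) ≠ 0 := by positivity
  rw [div_pow]
  field_simp
  ring

lemma upper_b2 {n τ A B D : ℕ} {c : ℝ} (hc : 1 ≤ c) (hK : c ^ A ≤ 2) (hn0 : 0 < n)
    (hn : n ≤ 2 ^ τ) (hD : B + 3 ≤ D) :
    (n : ℝ) ^ (A * τ + 1) * (c / n) ^ (A * τ) * 2 ^ (B * τ) * (31 / 32) ^ (22 * D * τ) ≤
      (1 / 2) ^ τ := by
  have hn' : (n : ℝ) ≤ 2 ^ τ := by exact_mod_cast hn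
  rw [upper_np hn0]
  have a1 : c ^ (A * τ) ≤ 2 ^ τ := by
    rw [pow_mul]
    gcongr
  have a2 : (31 / 32 : ℝ) ^ (22 * D * τ) ≤ (1 / 2) ^ ((B + 3) * τ) := by
    calc (31 / 32 : ℝ) ^ (22 * D * τ) = ((31 / 32) ^ 22) ^ (D * τ) := by
          rw [← pow_mul, mul_assoc]
      _ ≤ (1 / 2) ^ (D * τ) := by
          gcongr
          norm_num
      _ ≤ (1 / 2) ^ ((B + 3) * τ) :=
          pow_le_pow_of_le_one (by norm_num) (by norm_num) (Nat.mul_le_mul_right _ hD)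
  calc (n : ℝ) * c ^ (A * τ) * 2 ^ (B * τ) * (31 / 32) ^ (22 * D * τ)
      ≤ 2 ^ τ * 2 ^ τ * 2 ^ (B * τ) * (1 / 2) ^ ((B + 3) * τ) := by gcongr
    _ = (2 * (1 / 2)) ^ τ * (2 * (1 / 2)) ^ τ * (2 * (1 / 2)) ^ (B * τ) * (1 / 2) ^ τ := by
        simp only [mul_pow]
        ring
    _ = (1 / 2) ^ τ := by norm_num

lemma upper_b3 {n τ A : ℕ} {c : ℝ} (hc : 1 ≤ c) (hK : c ^ A ≤ 2) (hn0 : 0 < n)
    (hn : n ≤ 2 ^ τ) :
    (n : ℝ) ^ (A * τ + 1) * (c / n) ^ (A * τ) * ((A * τ + 1).choose τ) *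
      ((1 / 2) ^ (A + 3)) ^ τ ≤ 2 * (1 / 2) ^ τ := by
  have hn' : (n : ℝ) ≤ 2 ^ τ := by exact_mod_cast hn
  rw [upper_np hn0]
  have a1 : c ^ (A * τ) ≤ 2 ^ τ := by
    rw [pow_mul]
    gcongr
  have a2 : (((A * τ + 1).choose τ : ℕ) : ℝ) ≤ 2 ^ (A * τ + 1) := by
    exact_mod_cast Nat.choose_le_two_pow _ _
  calc (n : ℝ) * c ^ (A * τ) * ((A * τ + 1).choose τ) * ((1 / 2) ^ (A + 3)) ^ τ
      ≤ 2 ^ τ * 2 ^ τ * 2 ^ (A * τ + 1) * ((1 / 2) ^ (A + 3)) ^ τ := by gcongr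
    _ = 2 * ((2 * (1 / 2)) ^ τ * (2 * (1 / 2)) ^ τ * (2 * (1 / 2)) ^ (A * τ) * (1 / 2) ^ τ) := by
        rw [← pow_mul]
        simp only [mul_pow]
        ring
    _ = 2 * (1 / 2) ^ τ := by norm_num

lemma upper_tau : Tendsto (fun n : ℕ => Nat.log 2 n + 1) atTop atTop := by
  refine tendsto_atTop.2 fun b => ?_
  filter_upwards [eventually_ge_atTop (2 ^ b)] with n hn
  have := Nat.le_log_of_pow_le (by norm_num : 1 < 2) hn
  omega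

theorem upper_aux (A K : ℕ) (hA : A = 20000) (hK : K = 10002 * A + 1) :
    ∃ ε : ℝ, 0 < ε ∧ ∀ c : ℝ, 1 ≤ c → c < 1 + ε →
    Tendsto (fun n : ℕ => Pr n (c / n) fun G => ¬ Realized G 4) atTop (𝓝 0) := by
  obtain ⟨δ, hδ, hδK⟩ := upper_delta K
  obtain ⟨h, ε, hε, hη⟩ := eta_small (η := (1 / 2) ^ (A + 3)) (by positivity)
  refine ⟨min δ (ε / 2), lt_min hδ (by positivity), fun c hc1 hc2 => ?_⟩
  have hcδ : c ≤ 1 + δ := by linarith [min_le_left δ (ε / 2)]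
  have hcε : c ≤ 1 + ε / 2 := by linarith [min_le_right δ (ε / 2)]
  have hcK : c ^ K ≤ 3 / 2 := le_trans (by gcongr) hδK
  have hcA : c ^ A ≤ 2 := by
    have := pow_le_pow_right₀ hc1 (by omega : A ≤ K)
    linarith
  have hp : Tendsto (fun n : ℕ => c / n) atTop (𝓝 0) := tendsto_const_div_atTop_nhds_zero_nat c
  have hlim : Tendsto (fun τ : ℕ => 2 * (K : ℝ) ^ 3 * ((τ : ℝ) ^ 3 * (3 / 4) ^ τ) +
      ((1 / 2 : ℝ) ^ τ + 2 * (1 / 2) ^ τ)) atTop (𝓝 0) := by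
    have a := (tendsto_pow_const_mul_const_pow_of_abs_lt_one 3 (r := 3 / 4)
      (by rw [abs_of_pos] <;> norm_num)).const_mul (2 * (K : ℝ) ^ 3)
    have b := tendsto_pow_atTop_nhds_zero_of_lt_one (r := (1 / 2 : ℝ)) (by norm_num) (by norm_num)
    simpa using a.add (b.add (b.const_mul 2))
  refine squeeze_zero' ?_ ?_ (hlim.comp upper_tau)
  · filter_upwards [hp.eventually (gt_mem_nhds (by norm_num : (0 : ℝ) < 1 / 2))] with n hn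
    exact Pr_nonneg (by positivity) (by linarith) _
  · filter_upwards [hp.eventually (gt_mem_nhds (by norm_num : (0 : ℝ) < 1 / 2)),
      hp.eventually (gt_mem_nhds (by positivity : (0 : ℝ) < ε / 2 / (1 + ε))),
      upper_tau.eventually (eventually_ge_atTop 3), upper_tau.eventually (eventually_ge_atTop h),
      eventually_ge_atTop 2] with n p1 p2 t1 t2 n2
    simp only [Function.comp]
    have hlt : n < 2 ^ (Nat.log 2 n + 1) := Nat.lt_pow_succ_log_self (by norm_num) n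
    have hle : 2 ^ (Nat.log 2 n + 1) ≤ 2 * n := by
      have := Nat.pow_log_le_self 2 (by omega : n ≠ 0)
      rw [pow_succ]
      omega
    generalize Nat.log 2 n + 1 = τ at *
    have p0 : 0 ≤ c / n := by positivity
    have p1' : c / n ≤ 1 := by linarith
    have hn0 : (0 : ℝ) < n := by exact_mod_cast (by omega : 0 < n)
    have hnp : (n : ℝ) * (c / n) ≤ (1 + ε) * (1 - c / n) := by
      rw [mul_div_cancel₀ _ hn0.ne']
      rw [lt_div_iff₀ (by positivity)] at p2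
      nlinarith
    have b1 := (pr_bic (R := 10002 * (A * τ)) (by omega) hc1 p1').trans
      (upper_b1 (τ := τ) hc1 hcK (by rw [hK]; nlinarith) hle)
    have b2 := (pr_h2 (T := A * τ) (N := 22 * 303 * τ) (v := 200 * τ) n2 p0 p1'
      (by rw [hA]; omega)).trans (upper_b2 hc1 hcA (by omega) hlt.le (by norm_num))
    have b3 := (pr_h4 (T := A * τ) (k := τ) p0 p1.le (hη n (c / n) p0 p1.le hnp)).trans
      (upper_b3 hc1 hcA (by omega) hlt.le)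
    refine le_trans (Pr_mono p0 p1' (B := fun G => (∃ e < 10002 * (A * τ), Bicyc G e) ∨
      (¬ H2 G (A * τ) (200 * τ) ∨ ¬ H4 G (A * τ) τ h)) fun G hG => ?_) ?_
    · by_contra hn
      push Not at hn
      subst hA
      exact hG (realized4_of t1 t2 hn.1 hn.2.1 hn.2.2)
    · have c1 := Pr_or p0 p1' (fun G : SimpleGraph (Fin n) => ∃ e < 10002 * (A * τ), Bicyc G e)
        (fun G => ¬ H2 G (A * τ) (200 * τ) ∨ ¬ H4 G (A * τ) τ h)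
      have c2 := Pr_or p0 p1' (fun G : SimpleGraph (Fin n) => ¬ H2 G (A * τ) (200 * τ))
        (fun G => ¬ H4 G (A * τ) τ h)
      linarith

theorem upper : ∃ ε : ℝ, 0 < ε ∧ ∀ c : ℝ, 1 ≤ c → c < 1 + ε →
    Filter.Tendsto (fun n : ℕ => Pr n (c / n) fun G => ¬ Realized G 4) Filter.atTop (nhds 0) :=
  upper_aux _ _ rfl rfl

end Pool.Agent.Lib.MP_b735d7_co
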